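import Mathlib

/-!
Geometry of zonotopes: sub-zonotopes, facet functionals, supporting lemmas.
-/

set_option linter.unusedSectionVars false
set_option linter.unusedSimpArgs false
set_option linter.unusedVariables false

open scoped Pointwise Topology
open Module Set

namespace Pool.Agent.Lib_MP_5ddbb8_an

section Zono

variable {V : Type*} [NormedAddCommGroup V] [NormedSpace ℝ V] {ι : Type*} [Fintype ι]

/-- closed sub-zonotope spanned by the generators in `H` -/
def Zc (g : ι → V) (H : Set ι) : Set V :=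
  {x | ∃ t : ι → ℝ, (∀ i, |t i| ≤ 1 / 2) ∧ (∀ i, i ∉ H → t i = 0) ∧ ∑ i, t i • g i = x}

/-- relatively open sub-zonotope spanned by the generators in `H` -/
def Zo (g : ι → V) (H : Set ι) : Set V :=
  {x | ∃ t : ι → ℝ, (∀ i, |t i| < 1 / 2) ∧ (∀ i, i ∉ H → t i = 0) ∧ ∑ i, t i • g i = x}

/-- support function of the full zonotope -/
noncomputable def hs (g : ι → V) (u : Dual ℝ V) : ℝ := ∑ i, |u (g i)| / 2

/-- real valued sign -/
noncomputable def sg (x : ℝ) : ℝ := ((SignType.sign x : SignType) : ℝ)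

lemma sg_mul_self (x : ℝ) : sg x * x = |x| := by
  unfold sg; exact sign_mul_self x

lemma abs_sg_le (x : ℝ) : |sg x| ≤ 1 := by
  unfold sg
  rcases lt_trichotomy x 0 with h | h | h
  · simp [sign_neg h]
  · simp [h]
  · simp [sign_pos h]

lemma sg_zero : sg 0 = 0 := by simp [sg]

lemma sg_sq_of_ne {x : ℝ} (h : x ≠ 0) : sg x * sg x = 1 := by
  unfold sg
  rcases lt_or_gt_of_ne h with h | h
  · simp [sign_neg h]
  · simp [sign_pos h]

lemma sg_mul_abs (x : ℝ) : sg x * |x| = x := by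
  by_cases h : x = 0
  · simp [h]
  · rw [← sg_mul_self, ← mul_assoc, sg_sq_of_ne h, one_mul]

lemma zero_mem_Zc (g : ι → V) (H : Set ι) : (0 : V) ∈ Zc g H :=
  ⟨0, by simp, by simp, by simp⟩

lemma zero_mem_Zo (g : ι → V) (H : Set ι) : (0 : V) ∈ Zo g H :=
  ⟨0, by simp, by simp, by simp⟩

lemma Zo_subset_Zc (g : ι → V) (H : Set ι) : Zo g H ⊆ Zc g H := by
  rintro x ⟨t, h1, h2, h3⟩
  exact ⟨t, fun i => (h1 i).le, h2, h3⟩

lemma Zc_mono (g : ι → V) {H K : Set ι} (h : H ⊆ K) : Zc g H ⊆ Zc g K := by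
  rintro x ⟨t, h1, h2, h3⟩
  exact ⟨t, h1, fun i hi => h2 i (fun hh => hi (h hh)), h3⟩

lemma Zo_mono (g : ι → V) {H K : Set ι} (h : H ⊆ K) : Zo g H ⊆ Zo g K := by
  rintro x ⟨t, h1, h2, h3⟩
  exact ⟨t, h1, fun i hi => h2 i (fun hh => hi (h hh)), h3⟩

lemma neg_mem_Zc {g : ι → V} {H : Set ι} {x : V} (h : x ∈ Zc g H) : -x ∈ Zc g H := by
  obtain ⟨t, h1, h2, h3⟩ := h
  refine ⟨fun i => - t i, fun i => by simpa using h1 i, fun i hi => by simp [h2 i hi], ?_⟩
  simp [← h3]

lemma neg_mem_Zo {g : ι → V} {H : Set ι} {x : V} (h : x ∈ Zo g H) : -x ∈ Zo g H := by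
  obtain ⟨t, h1, h2, h3⟩ := h
  refine ⟨fun i => - t i, fun i => by simpa using h1 i, fun i hi => by simp [h2 i hi], ?_⟩
  simp [← h3]

lemma convex_Zc (g : ι → V) (H : Set ι) : Convex ℝ (Zc g H) := by
  rintro x ⟨t, h1, h2, h3⟩ y ⟨s, k1, k2, k3⟩ a b ha hb hab
  refine ⟨fun i => a * t i + b * s i, fun i => ?_, fun i hi => by simp [h2 i hi, k2 i hi], ?_⟩
  · have e1 := abs_le.1 (h1 i)
    have e2 := abs_le.1 (k1 i)
    rw [abs_le]
    constructor <;> nlinarith
  · simp only [← h3, ← k3, Finset.smul_sum, smul_smul, add_smul, Finset.sum_add_distrib]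

lemma smul_mem_Zc {g : ι → V} {H : Set ι} {x : V} (h : x ∈ Zc g H) {r : ℝ} (hr0 : 0 ≤ r)
    (hr : r ≤ 1) : r • x ∈ Zc g H :=
  (convex_Zc g H).smul_mem_of_zero_mem (zero_mem_Zc g H) h ⟨hr0, hr⟩

lemma smul_mem_Zo_of_Zc {g : ι → V} {H : Set ι} {x : V} (h : x ∈ Zc g H) {r : ℝ} (hr0 : 0 ≤ r)
    (hr : r < 1) : r • x ∈ Zo g H := by
  obtain ⟨t, h1, h2, h3⟩ := h
  refine ⟨fun i => r * t i, fun i => ?_, fun i hi => by simp [h2 i hi], ?_⟩
  · rw [abs_mul, abs_of_nonneg hr0]
    have := h1 i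
    have h0 := abs_nonneg (t i)
    nlinarith
  · simp only [← h3, Finset.smul_sum, smul_smul]

/-- adding a small multiple of a point of the closed zonotope -/
lemma add_smul_mem_Zo {g : ι → V} {H : Set ι} {x y : V} (hx : x ∈ Zo g H) (hy : y ∈ Zc g H) :
    ∃ κ₀ > 0, ∀ κ : ℝ, 0 ≤ κ → κ < κ₀ → x + κ • y ∈ Zo g H := by
  obtain ⟨t, h1, h2, h3⟩ := hx
  obtain ⟨s, k1, k2, k3⟩ := hy
  have : ∃ κ₀ > 0, ∀ i, |t i| + κ₀ / 2 < 1 / 2 := by
    have hfin : ∀ i, 0 < (1 / 2 - |t i|) := fun i => by linarith [h1 i]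
    rcases isEmpty_or_nonempty ι with he | he
    · exact ⟨1, one_pos, fun i => (he.false i).elim⟩
    · obtain ⟨i0, hi0⟩ := Finite.exists_min (fun i => (1 / 2 - |t i|))
      refine ⟨(1 / 2 - |t i0|), hfin i0, fun i => ?_⟩
      have h1 := hi0 i
      have h2 := hfin i0
      linarith
  obtain ⟨κ₀, hκ₀, hκ⟩ := this
  refine ⟨κ₀, hκ₀, fun κ hk0 hk => ⟨fun i => t i + κ * s i, fun i => ?_, fun i hi => by
    simp [h2 i hi, k2 i hi], ?_⟩⟩
  · have a1 := hκ i
    have a2 := k1 i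
    calc |t i + κ * s i| ≤ |t i| + |κ * s i| := abs_add_le _ _
      _ = |t i| + κ * |s i| := by rw [abs_mul, abs_of_nonneg hk0]
      _ < 1 / 2 := by nlinarith [abs_nonneg (s i)]
  · simp only [← h3, ← k3, Finset.smul_sum, smul_smul, add_smul, Finset.sum_add_distrib]

lemma Zc_split {g : ι → V} (H : Set ι) {x : V} (hx : x ∈ Zc g univ) :
    ∃ l ∈ Zc g H, ∃ n ∈ Zc g Hᶜ, x = l + n := by
  classical
  obtain ⟨t, h1, -, h3⟩ := hx
  refine ⟨∑ i, (if i ∈ H then t i else 0) • g i, ⟨_, fun i => ?_, fun i hi => by simp [hi], rfl⟩,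
    ∑ i, (if i ∈ H then 0 else t i) • g i, ⟨_, fun i => ?_, fun i hi => ?_, rfl⟩, ?_⟩
  · split_ifs
    · exact h1 i
    · simp
  · split_ifs
    · simp
    · exact h1 i
  · have : i ∈ H := by simpa using hi
    simp [this]
  · rw [← Finset.sum_add_distrib, ← h3]
    refine Finset.sum_congr rfl fun i _ => ?_
    split_ifs <;> simp

lemma Zc_add {g : ι → V} {H : Set ι} {x y : V} (hx : x ∈ Zc g H) (hy : y ∈ Zc g Hᶜ) :
    x + y ∈ Zc g univ := by
  classical
  obtain ⟨t, h1, h2, h3⟩ := hx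
  obtain ⟨s, k1, k2, k3⟩ := hy
  refine ⟨fun i => t i + s i, fun i => ?_, by simp, ?_⟩
  · show |t i + s i| ≤ 1 / 2
    by_cases hi : i ∈ H
    · rw [k2 i (by simpa using hi), add_zero]; exact h1 i
    · rw [h2 i hi, zero_add]; exact k1 i
  · simp only [← h3, ← k3, add_smul, Finset.sum_add_distrib]

lemma Zo_add {g : ι → V} {H : Set ι} {x y : V} (hx : x ∈ Zo g H) (hy : y ∈ Zo g Hᶜ) :
    x + y ∈ Zo g univ := by
  classical
  obtain ⟨t, h1, h2, h3⟩ := hx
  obtain ⟨s, k1, k2, k3⟩ := hy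
  refine ⟨fun i => t i + s i, fun i => ?_, by simp, ?_⟩
  · show |t i + s i| < 1 / 2
    by_cases hi : i ∈ H
    · rw [k2 i (by simpa using hi), add_zero]; exact h1 i
    · rw [h2 i hi, zero_add]; exact k1 i
  · simp only [← h3, ← k3, add_smul, Finset.sum_add_distrib]

lemma isCompact_Zc (g : ι → V) (H : Set ι) : IsCompact (Zc g H) := by
  have hc : IsCompact ({t : ι → ℝ | (∀ i, t i ∈ Icc (-(1/2 : ℝ)) (1/2)) ∧ ∀ i, i ∉ H → t i = 0}) := by
    have h1 : IsCompact (Set.pi univ (fun _ : ι => Icc (-(1/2 : ℝ)) (1/2))) :=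
      isCompact_univ_pi fun _ => isCompact_Icc
    have h2 : IsClosed {t : ι → ℝ | ∀ i, i ∉ H → t i = 0} := by
      simp only [Set.ofPred_forall]
      refine isClosed_iInter fun i => isClosed_iInter fun _ => ?_
      exact isClosed_eq (continuous_apply i) continuous_const
    have := h1.inter_right h2
    convert this using 1
    ext t
    simp only [Set.mem_inter_iff, Set.mem_pi, Set.mem_univ, true_implies, forall_true_left]
    rfl
  have hcont : Continuous (fun t : ι → ℝ => ∑ i, t i • g i) := by fun_prop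
  have := hc.image hcont
  convert this using 1
  ext x
  constructor
  · rintro ⟨t, h1, h2, h3⟩
    exact ⟨t, ⟨fun i => ⟨(abs_le.1 (h1 i)).1, (abs_le.1 (h1 i)).2⟩, h2⟩, h3⟩
  · rintro ⟨t, ⟨h1, h2⟩, h3⟩
    exact ⟨t, fun i => abs_le.2 (h1 i), h2, h3⟩

/-- value bounds -/
lemma apply_le_hs {g : ι → V} (u : Dual ℝ V) {x : V} (hx : x ∈ Zc g univ) : u x ≤ hs g u := by
  obtain ⟨t, h1, -, h3⟩ := hx
  rw [← h3, map_sum, hs]
  refine Finset.sum_le_sum fun i _ => ?_
  rw [map_smul, smul_eq_mul]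
  calc t i * u (g i) ≤ |t i * u (g i)| := le_abs_self _
    _ = |t i| * |u (g i)| := abs_mul _ _
    _ ≤ 1 / 2 * |u (g i)| := by gcongr; exact h1 i
    _ = |u (g i)| / 2 := by ring

/-- equality case: lemma E -/
lemma coeff_of_hs_le {g : ι → V} (u : Dual ℝ V) {t : ι → ℝ} (ht : ∀ i, |t i| ≤ 1 / 2)
    (h : hs g u ≤ u (∑ i, t i • g i)) (i : ι) : t i * u (g i) = |u (g i)| / 2 := by
  rw [map_sum, hs] at h
  have hle : ∀ i ∈ Finset.univ, t i * u (g i) ≤ |u (g i)| / 2 := fun i _ => by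
    calc t i * u (g i) ≤ |t i * u (g i)| := le_abs_self _
      _ = |t i| * |u (g i)| := abs_mul _ _
      _ ≤ 1 / 2 * |u (g i)| := by gcongr; exact ht i
      _ = |u (g i)| / 2 := by ring
  have h' : ∑ i, |u (g i)| / 2 ≤ ∑ i, t i * u (g i) := by
    simpa [map_smul, smul_eq_mul] using h
  have := (Finset.sum_eq_sum_iff_of_le hle).1 (le_antisymm (Finset.sum_le_sum hle) h')
  exact this i (Finset.mem_univ i)

/-- the extreme point (face centre) in direction `d`, restricted to `H` -/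
noncomputable def qc (g : ι → V) (H : Set ι) (d : Dual ℝ V) : V := by
  classical
  exact ∑ i, (if i ∈ H then sg (d (g i)) / 2 else 0) • g i

lemma qc_mem_Zc (g : ι → V) (H : Set ι) (d : Dual ℝ V) : qc g H d ∈ Zc g H := by
  classical
  refine ⟨_, fun i => ?_, fun i hi => by simp [hi], rfl⟩
  split_ifs
  · rw [abs_div, abs_two]
    have := abs_sg_le (d (g i))
    linarith
  · simp

lemma apply_qc (g : ι → V) (d : Dual ℝ V) : d (qc g univ d) = hs g d := by
  unfold qc hs
  simp only [mem_univ, if_true, map_sum, map_smul, smul_eq_mul]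
  refine Finset.sum_congr rfl fun i _ => ?_
  rw [div_mul_eq_mul_div, sg_mul_self]

lemma hs_nonneg (g : ι → V) (u : Dual ℝ V) : 0 ≤ hs g u :=
  Finset.sum_nonneg fun i _ => by positivity

lemma hs_neg (g : ι → V) (u : Dual ℝ V) : hs g (-u) = hs g u := by
  simp [hs]

lemma hs_smul (g : ι → V) (u : Dual ℝ V) (c : ℝ) : hs g (c • u) = |c| * hs g u := by
  simp only [hs, LinearMap.smul_apply, smul_eq_mul, abs_mul, Finset.mul_sum]
  refine Finset.sum_congr rfl fun i _ => ?_
  ring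

lemma exists_ne_zero_of_span {g : ι → V} (hg : Submodule.span ℝ (range g) = ⊤) {u : Dual ℝ V}
    (hu : u ≠ 0) : ∃ i, u (g i) ≠ 0 := by
  by_contra hcon
  push Not at hcon
  apply hu
  have : (⊤ : Submodule ℝ V) ≤ LinearMap.ker u := by
    rw [← hg, Submodule.span_le]
    rintro _ ⟨i, rfl⟩
    exact hcon i
  ext x
  exact this (Submodule.mem_top)

lemma hs_pos {g : ι → V} (hg : Submodule.span ℝ (range g) = ⊤) {u : Dual ℝ V} (hu : u ≠ 0) :
    0 < hs g u := by
  obtain ⟨i, hi⟩ := exists_ne_zero_of_span hg hu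
  unfold hs
  refine Finset.sum_pos' (fun i _ => by positivity) ⟨i, Finset.mem_univ i, ?_⟩
  have := abs_pos.2 hi
  linarith

/-- facet functionals: the functional is determined up to scaling by the generators it kills -/
def IsFacet (g : ι → V) (u : Dual ℝ V) : Prop :=
  u ≠ 0 ∧ ∀ v : Dual ℝ V, (∀ i, u (g i) = 0 → v (g i) = 0) → ∃ c : ℝ, v = c • u

/-- normalised facet functionals -/
def Fct (g : ι → V) : Set (Dual ℝ V) := {u | IsFacet g u ∧ hs g u = 1}

lemma IsFacet.neg {g : ι → V} {u : Dual ℝ V} (h : IsFacet g u) : IsFacet g (-u) := by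
  refine ⟨neg_ne_zero.2 h.1, fun v hv => ?_⟩
  obtain ⟨c, hc⟩ := h.2 v (fun i hi => hv i (by simp [hi]))
  exact ⟨-c, by simp [hc]⟩

lemma neg_mem_Fct {g : ι → V} {u : Dual ℝ V} (h : u ∈ Fct g) : -u ∈ Fct g :=
  ⟨h.1.neg, by rw [hs_neg]; exact h.2⟩

lemma Fct_finite {g : ι → V} (hg : Submodule.span ℝ (range g) = ⊤) : (Fct g).Finite := by
  have hinj : InjOn (fun (u : Dual ℝ V) (i : ι) => SignType.sign (u (g i))) (Fct g) := by
    intro u hu v hv huv
    have hz : ∀ i, SignType.sign (u (g i)) = SignType.sign (v (g i)) := fun i => congrFun huv i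
    obtain ⟨c, hc⟩ := hu.1.2 v (fun i hi => by
      have := hz i
      rw [hi, sign_zero] at this
      exact sign_eq_zero_iff.1 this.symm)
    have h1 : |c| = 1 := by
      have := hv.2
      rw [hc, hs_smul, hu.2, mul_one] at this
      exact this
    obtain ⟨i, hi⟩ := exists_ne_zero_of_span hg hu.1.1
    have h2 := hz i
    rw [hc, LinearMap.smul_apply, smul_eq_mul, sign_mul] at h2
    rcases eq_or_eq_neg_of_abs_eq h1 with h | h
    · rw [hc, h, one_smul]
    · exfalso
      rw [h] at h2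
      have h3 : SignType.sign (-1 : ℝ) = -1 := by simp
      rw [h3] at h2
      have h4 : SignType.sign (u (g i)) ≠ 0 := by
        rwa [Ne, sign_eq_zero_iff]
      revert h4 h2
      generalize SignType.sign (u (g i)) = σ
      revert σ
      decide
  exact Set.Finite.of_finite_image (Set.toFinite _) hinj

lemma exists_isFacet_of_supporting {g : ι → V} (hg : Submodule.span ℝ (range g) = ⊤)
    {x : V} (hx : x ∈ Zc g univ) {u₀ : Dual ℝ V} (hu0 : u₀ ≠ 0) (h0 : hs g u₀ ≤ u₀ x) :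
    ∃ v, IsFacet g v ∧ hs g v ≤ v x := by
  classical
  let P : Set (Dual ℝ V) := {u | u ≠ 0 ∧ hs g u ≤ u x}
  let Z : Dual ℝ V → Finset ι := fun u => Finset.univ.filter fun i => u (g i) = 0
  let N : Dual ℝ V → ℕ := fun u => Fintype.card ι - (Z u).card
  obtain ⟨u, huP, hmin⟩ := (measure N).wf.has_min P ⟨u₀, hu0, h0⟩
  refine ⟨u, ⟨huP.1, fun v hv => ?_⟩, huP.2⟩
  by_contra hcon
  push Not at hcon
  have hv0 : v ≠ 0 := fun h => hcon 0 (by simp [h])
  obtain ⟨i1, hi1⟩ := exists_ne_zero_of_span hg hv0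
  have hui1 : u (g i1) ≠ 0 := fun h => hi1 (hv _ h)
  have : Nonempty ι := ⟨i1⟩
  obtain ⟨i0, hi0⟩ := Finite.exists_max (fun i => |v (g i) / u (g i)|)
  have hi0' : 0 < |v (g i0) / u (g i0)| :=
    lt_of_lt_of_le (abs_pos.2 (div_ne_zero hi1 hui1)) (hi0 i1)
  set r := v (g i0) / u (g i0) with hr
  have hr0 : r ≠ 0 := abs_pos.1 hi0'
  have hui0 : u (g i0) ≠ 0 := by
    intro h
    apply hr0
    rw [hr, h, div_zero]
  let w : Dual ℝ V := u - r⁻¹ • v
  have hw_apply : ∀ y, w y = u y - r⁻¹ * v y := fun y => by simp [w]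
  have hw0 : w ≠ 0 := by
    intro h
    apply hcon r
    have h1 : u = r⁻¹ • v := sub_eq_zero.1 h
    rw [h1, smul_smul, mul_inv_cancel₀ hr0, one_smul]
  have hwz : ∀ i, u (g i) = 0 → w (g i) = 0 := fun i hi => by
    rw [hw_apply, hi, hv i hi]; simp
  have hwi : ∀ i, u (g i) ≠ 0 → ∃ ρ : ℝ, 0 ≤ ρ ∧ w (g i) = u (g i) * ρ := fun i hi => by
    refine ⟨1 - r⁻¹ * (v (g i) / u (g i)), ?_, ?_⟩
    · have h1 := hi0 i
      have h2 : |r⁻¹ * (v (g i) / u (g i))| ≤ 1 := by
        rw [abs_mul, abs_inv]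
        calc |r|⁻¹ * |v (g i) / u (g i)| ≤ |r|⁻¹ * |r| :=
              mul_le_mul_of_nonneg_left h1 (by positivity)
          _ = 1 := inv_mul_cancel₀ (abs_ne_zero.2 hr0)
      linarith [(abs_le.1 h2).2]
    · rw [hw_apply]
      field_simp
  have hwi0 : w (g i0) = 0 := by
    rw [hw_apply, hr]
    have : v (g i0) ≠ 0 := by
      intro h
      apply hr0
      rw [hr, h, zero_div]
    field_simp
    ring
  have hwP : w ∈ P := by
    refine ⟨hw0, ?_⟩
    obtain ⟨t, ht, -, htx⟩ := hx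
    have hc := coeff_of_hs_le u ht (by rw [htx]; exact huP.2)
    rw [← htx, map_sum, hs]
    refine Finset.sum_le_sum fun i _ => ?_
    rw [map_smul, smul_eq_mul]
    by_cases hi : u (g i) = 0
    · simp [hwz i hi]
    · obtain ⟨ρ, hρ, hρw⟩ := hwi i hi
      rw [hρw, abs_mul, abs_of_nonneg hρ, ← mul_assoc, hc i]
      exact le_of_eq (by ring)
  apply hmin w hwP
  show N w < N u
  have hlt : (Z u).card < (Z w).card := by
    apply Finset.card_lt_card
    rw [Finset.ssubset_iff_of_subset]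
    · exact ⟨i0, by simp [Z, hwi0], by simp [Z, hui0]⟩
    · intro i hi
      simp only [Z, Finset.mem_filter, Finset.mem_univ, true_and] at hi ⊢
      exact hwz i hi
  have hle : (Z w).card ≤ Fintype.card ι := Finset.card_le_univ _
  show Fintype.card ι - (Z w).card < Fintype.card ι - (Z u).card
  omega

lemma exists_mem_Fct_of_supporting {g : ι → V} (hg : Submodule.span ℝ (range g) = ⊤)
    {x : V} (hx : x ∈ Zc g univ) {u₀ : Dual ℝ V} (hu0 : u₀ ≠ 0) (h0 : hs g u₀ ≤ u₀ x) :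
    ∃ v ∈ Fct g, v x = 1 := by
  obtain ⟨v, hv, hvx⟩ := exists_isFacet_of_supporting hg hx hu0 h0
  have hpos := hs_pos hg hv.1
  refine ⟨(hs g v)⁻¹ • v, ⟨⟨smul_ne_zero (inv_ne_zero hpos.ne') hv.1, fun w hw => ?_⟩, ?_⟩, ?_⟩
  · obtain ⟨c, hc⟩ := hv.2 w (fun i hi => hw i (by simp [hi]))
    exact ⟨c * hs g v, by rw [hc, smul_smul, mul_assoc, mul_inv_cancel₀ hpos.ne', mul_one]⟩
  · rw [hs_smul, abs_of_pos (inv_pos.2 hpos), inv_mul_cancel₀ hpos.ne']
  · have := le_antisymm hvx (apply_le_hs v hx)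
    rw [LinearMap.smul_apply, smul_eq_mul, ← this, inv_mul_cancel₀ hpos.ne']

lemma Fct_apply_le {g : ι → V} {u : Dual ℝ V} (hu : u ∈ Fct g) {x : V} (hx : x ∈ Zc g univ) :
    u x ≤ 1 := by
  rw [← hu.2]; exact apply_le_hs u hx

section FD

variable [FiniteDimensional ℝ V]

lemma Zo_subset_interior {g : ι → V} (hg : Submodule.span ℝ (range g) = ⊤) :
    Zo g univ ⊆ interior (Zc g univ) := by
  rintro x ⟨t, h1, -, h3⟩
  let T : (ι → ℝ) →ₗ[ℝ] V :=
    { toFun := fun t => ∑ i, t i • g i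
      map_add' := fun a b => by simp [add_smul, Finset.sum_add_distrib]
      map_smul' := fun a b => by simp [Finset.smul_sum, smul_smul] }
  have hsurj : Function.Surjective T := by
    intro y
    have hy : y ∈ Submodule.span ℝ (range g) := by rw [hg]; trivial
    obtain ⟨c, hc⟩ := (Submodule.mem_span_range_iff_exists_fun ℝ).1 hy
    exact ⟨c, hc⟩
  have hopen : IsOpenMap T := by
    have := (LinearMap.toContinuousLinearMap T).isOpenMap hsurj
    exact this
  have hO : IsOpen {t : ι → ℝ | ∀ i, |t i| < 1 / 2} := by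
    simp only [Set.ofPred_forall]
    refine isOpen_iInter_of_finite fun i => ?_
    exact isOpen_lt (by fun_prop) continuous_const
  have himg := hopen _ hO
  refine (interior_maximal ?_ himg) ⟨t, h1, h3⟩
  rintro _ ⟨s, hs1, rfl⟩
  exact ⟨s, fun i => (hs1 i).le, by simp, rfl⟩

lemma zero_mem_interior {g : ι → V} (hg : Submodule.span ℝ (range g) = ⊤) :
    (0 : V) ∈ interior (Zc g univ) :=
  Zo_subset_interior hg (zero_mem_Zo g univ)

lemma smul_mem_interior {g : ι → V} (hg : Submodule.span ℝ (range g) = ⊤) {x : V}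
    (hx : x ∈ Zc g univ) {r : ℝ} (hr0 : 0 ≤ r) (hr : r < 1) : r • x ∈ interior (Zc g univ) :=
  Zo_subset_interior hg (smul_mem_Zo_of_Zc hx hr0 hr)

lemma apply_lt_of_mem_interior {g : ι → V} (hg : Submodule.span ℝ (range g) = ⊤)
    {u : Dual ℝ V} (hu : u ≠ 0) {x : V} (hx : x ∈ interior (Zc g univ)) : u x < hs g u := by
  have hpos := hs_pos hg hu
  set q := qc g univ u with hq
  have hcont : Continuous (fun ε : ℝ => x + ε • q) := by fun_prop
  have h0 : x + (0 : ℝ) • q ∈ interior (Zc g univ) := by simpa using hx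
  have hev : ∀ᶠ ε in 𝓝 (0 : ℝ), x + ε • q ∈ interior (Zc g univ) :=
    hcont.continuousAt.eventually_mem (isOpen_interior.mem_nhds h0)
  have hev' : ∀ᶠ ε in 𝓝[>] (0 : ℝ), x + ε • q ∈ interior (Zc g univ) ∧ 0 < ε :=
    (hev.filter_mono nhdsWithin_le_nhds).and self_mem_nhdsWithin
  obtain ⟨ε, hε1, hε⟩ := hev'.exists
  have := apply_le_hs u (interior_subset hε1)
  rw [map_add, map_smul, smul_eq_mul, hq, apply_qc] at this
  nlinarith [mul_pos hε hpos]

lemma exists_supporting {g : ι → V} (hg : Submodule.span ℝ (range g) = ⊤) {x : V}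
    (hx : x ∉ interior (Zc g univ)) : ∃ u : Dual ℝ V, u ≠ 0 ∧ hs g u ≤ u x := by
  obtain ⟨f, hf⟩ := geometric_hahn_banach_open_point (convex_Zc g univ).interior
    isOpen_interior hx
  refine ⟨f.toLinearMap, ?_, ?_⟩
  · intro h
    have h1 := hf 0 (zero_mem_interior hg)
    have h2 : f x = 0 := by
      have := congrArg (fun φ : V →ₗ[ℝ] ℝ => φ x) h
      simpa using this
    rw [h2] at h1
    simp at h1
  · set q := qc g univ f.toLinearMap with hq
    have hqm : q ∈ Zc g univ := qc_mem_Zc g univ _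
    have hfq : f q = hs g f.toLinearMap := apply_qc g f.toLinearMap
    have hnn := hs_nonneg g f.toLinearMap
    show hs g f.toLinearMap ≤ f x
    by_contra hcon
    push Not at hcon
    rcases hnn.eq_or_lt with h0 | hpos
    · have h1 := hf 0 (zero_mem_interior hg)
      rw [map_zero] at h1
      rw [← h0] at hcon
      linarith
    · have hfx : 0 < f x := by
        have h1 := hf 0 (zero_mem_interior hg)
        rwa [map_zero] at h1
      have h2 := hf ((f x / hs g f.toLinearMap) • q)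
        (smul_mem_interior hg hqm (by positivity) (by rwa [div_lt_one hpos]))
      rw [map_smul, hfq, smul_eq_mul, div_mul_cancel₀ _ hpos.ne'] at h2
      exact lt_irrefl _ h2

lemma exists_Fct_of_boundary {g : ι → V} (hg : Submodule.span ℝ (range g) = ⊤) {x : V}
    (hx : x ∈ Zc g univ) (hx' : x ∉ interior (Zc g univ)) : ∃ u ∈ Fct g, u x = 1 := by
  obtain ⟨u, hu, hux⟩ := exists_supporting hg hx'
  exact exists_mem_Fct_of_supporting hg hx hu hux

lemma exists_Fct_of_notMem {g : ι → V} (hg : Submodule.span ℝ (range g) = ⊤) {x : V}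
    (hx : x ∉ Zc g univ) : ∃ u ∈ Fct g, 1 < u x := by
  have hcont : Continuous (fun r : ℝ => r • x) := by fun_prop
  have hcomp : IsCompact (Icc (0 : ℝ) 1 ∩ {r | r • x ∈ Zc g univ}) :=
    isCompact_Icc.inter_right ((isCompact_Zc g univ).isClosed.preimage hcont)
  obtain ⟨r, ⟨⟨hr0, hr1⟩, hrA⟩, hmax⟩ := hcomp.exists_isGreatest
    ⟨0, ⟨⟨le_rfl, zero_le_one⟩, by simpa using zero_mem_Zc g univ⟩⟩
  have hr1' : r < 1 := by
    rcases hr1.eq_or_lt with h | h
    · exfalso; apply hx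
      have : r • x ∈ Zc g univ := hrA
      rwa [h, one_smul] at this
    · exact h
  have hnot : r • x ∉ interior (Zc g univ) := by
    intro hin
    have hev : ∀ᶠ s in 𝓝 r, s • x ∈ interior (Zc g univ) :=
      hcont.continuousAt.eventually_mem (isOpen_interior.mem_nhds hin)
    have hev' : ∀ᶠ s in 𝓝[>] r, (s • x ∈ interior (Zc g univ) ∧ s < 1) ∧ r < s :=
      ((hev.and (gt_mem_nhds hr1')).filter_mono nhdsWithin_le_nhds).and self_mem_nhdsWithin
    obtain ⟨s, ⟨hs1, hs2⟩, hs3⟩ := hev'.exists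
    have hs1' : s • x ∈ Zc g univ := interior_subset hs1
    have := hmax ⟨⟨hr0.trans hs3.le, hs2.le⟩, hs1'⟩
    linarith
  obtain ⟨u, hu, hux⟩ := exists_Fct_of_boundary hg hrA hnot
  refine ⟨u, hu, ?_⟩
  rw [map_smul, smul_eq_mul] at hux
  have hrpos : 0 < r := by
    rcases hr0.eq_or_lt with h | h
    · rw [← h, zero_mul] at hux; norm_num at hux
    · exact h
  have hux' : 0 < u x := by
    by_contra hcon
    push Not at hcon
    nlinarith
  nlinarith

lemma mem_Zc_iff {g : ι → V} (hg : Submodule.span ℝ (range g) = ⊤) {x : V} :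
    x ∈ Zc g univ ↔ ∀ u ∈ Fct g, u x ≤ 1 := by
  constructor
  · exact fun hx u hu => Fct_apply_le hu hx
  · intro h
    by_contra hx
    obtain ⟨u, hu, hux⟩ := exists_Fct_of_notMem hg hx
    exact absurd (h u hu) (not_le.2 hux)

lemma mem_interior_iff {g : ι → V} (hg : Submodule.span ℝ (range g) = ⊤) {x : V} :
    x ∈ interior (Zc g univ) ↔ ∀ u ∈ Fct g, u x < 1 := by
  constructor
  · intro hx u hu
    rw [← hu.2]
    exact apply_lt_of_mem_interior hg hu.1.1 hx
  · intro h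
    by_contra hx
    have hxA : x ∈ Zc g univ := (mem_Zc_iff hg).2 fun u hu => (h u hu).le
    obtain ⟨u, hu, hux⟩ := exists_Fct_of_boundary hg hxA hx
    exact absurd (h u hu) (by rw [hux]; exact lt_irrefl _)

/-- if `y` lies in the open sub-zonotope of `H` and `v` attains its maximum at `y + q` where
`q` has no component on `H`, then `v` kills the generators of `H` -/
lemma kills_of_max {g : ι → V} {H : Set ι} {y q : V} (hy : y ∈ Zo g H) (hq : q ∈ Zc g Hᶜ)
    {v : Dual ℝ V} (h : hs g v ≤ v (y + q)) : ∀ i ∈ H, v (g i) = 0 := by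
  classical
  obtain ⟨t, h1, h2, h3⟩ := hy
  obtain ⟨s, k1, k2, k3⟩ := hq
  intro i hi
  have hle : ∀ i, |(fun i => t i + s i) i| ≤ 1 / 2 := fun i => by
    show |t i + s i| ≤ 1 / 2
    by_cases hi : i ∈ H
    · rw [k2 i (by simpa using hi), add_zero]; exact (h1 i).le
    · rw [h2 i hi, zero_add]; exact k1 i
  have hsum : ∑ i, (fun i => t i + s i) i • g i = y + q := by
    simp only [← h3, ← k3, add_smul, Finset.sum_add_distrib]
  have := coeff_of_hs_le v hle (by rw [hsum]; exact h) i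
  simp only [k2 i (by simpa using hi), add_zero] at this
  by_contra hne
  have hpos := abs_pos.2 hne
  have h4 : t i * v (g i) ≤ |t i| * |v (g i)| := by
    rw [← abs_mul]; exact le_abs_self _
  have := h1 i
  nlinarith

/-- the subspace spanned by the generators outside `H` -/
def Nsp (g : ι → V) (H : Set ι) : Submodule ℝ V := Submodule.span ℝ (g '' Hᶜ)

/-- the subspace spanned by the generators in `H` -/
def Lsp (g : ι → V) (H : Set ι) : Submodule ℝ V := Submodule.span ℝ (g '' H)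

lemma abs_apply_le_of_Zc {g : ι → V} {H : Set ι} [DecidablePred (· ∈ H)] (u : Dual ℝ V) {x : V}
    (hx : x ∈ Zc g H) : |u x| ≤ ∑ i, if i ∈ H then |u (g i)| / 2 else 0 := by
  obtain ⟨t, h1, h2, h3⟩ := hx
  rw [← h3, map_sum]
  refine (Finset.abs_sum_le_sum_abs _ _).trans (Finset.sum_le_sum fun i _ => ?_)
  rw [map_smul, smul_eq_mul, abs_mul]
  split_ifs with hi
  · have := h1 i
    nlinarith [abs_nonneg (u (g i))]
  · rw [h2 i hi]; simp

lemma abs_apply_lt_of_Zo {g : ι → V} {H : Set ι} [DecidablePred (· ∈ H)] (u : Dual ℝ V) {x : V}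
    (hx : x ∈ Zo g H) (hne : ∃ i ∈ H, u (g i) ≠ 0) :
    |u x| < ∑ i, if i ∈ H then |u (g i)| / 2 else 0 := by
  obtain ⟨t, h1, h2, h3⟩ := hx
  rw [← h3, map_sum]
  refine (Finset.abs_sum_le_sum_abs _ _).trans_lt (Finset.sum_lt_sum (fun i _ => ?_) ?_)
  · rw [map_smul, smul_eq_mul, abs_mul]
    split_ifs with hi
    · have := h1 i
      nlinarith [abs_nonneg (u (g i))]
    · rw [h2 i hi]; simp
  · obtain ⟨i, hi, hui⟩ := hne
    refine ⟨i, Finset.mem_univ i, ?_⟩
    rw [map_smul, smul_eq_mul, abs_mul, if_pos hi]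
    have := h1 i
    nlinarith [abs_pos.2 hui]

/-- the T-lemma -/
lemma T_lemma {g : ι → V} (hg : Submodule.span ℝ (range g) = ⊤) (H : Set ι) {w : V}
    (hw : w ∈ Zo g Hᶜ) : ∃ η > 0, ∀ x, (∃ n ∈ Nsp g H, x - n ∈ Zc g univ) →
      (∃ z ∈ Zc g H, dist x z < η) → x - w ∈ Zc g univ := by
  classical
  have key : ∀ u ∈ Fct g, ∀ᶠ η in 𝓝[>] (0 : ℝ), ∀ x, (∃ n ∈ Nsp g H, x - n ∈ Zc g univ) →
      (∃ z ∈ Zc g H, dist x z < η) → u (x - w) ≤ 1 := by
    intro u hu
    by_cases hne : ∃ i ∈ Hᶜ, u (g i) ≠ 0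
    · have h1 := abs_apply_lt_of_Zo u hw hne
      set S2 := ∑ i, if i ∈ Hᶜ then |u (g i)| / 2 else 0 with hS2
      set S1 := ∑ i, if i ∈ H then |u (g i)| / 2 else 0 with hS1
      have hsum : S1 + S2 = 1 := by
        rw [← hu.2, hs, hS1, hS2, ← Finset.sum_add_distrib]
        refine Finset.sum_congr rfl fun i _ => ?_
        by_cases hi : i ∈ H <;> simp [hi]
      set K := ‖LinearMap.toContinuousLinearMap u‖ with hK
      have hgap : 0 < (S2 - |u w|) / (K + 1) := by
        have : 0 ≤ K := norm_nonneg _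
        apply div_pos <;> linarith
      filter_upwards [Ioo_mem_nhdsGT hgap] with η hη x _ hz
      obtain ⟨z, hz, hxz⟩ := hz
      have h2 := abs_apply_le_of_Zc u hz
      have h3 : |u (x - z)| ≤ K * dist x z := by
        rw [dist_eq_norm]
        exact (LinearMap.toContinuousLinearMap u).le_opNorm (x - z)
      have hK0 : 0 ≤ K := norm_nonneg _
      have h4 : K * dist x z ≤ K * η := by gcongr
      have h5 : (K + 1) * η < S2 - |u w| := by
        have := hη.2
        rwa [lt_div_iff₀ (by linarith), mul_comm] at this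
      have h6 := hη.1
      have e1 : u (x - w) = u z + u (x - z) - u w := by
        simp only [map_sub]; ring
      rw [e1]
      have a1 := (abs_le.1 h2).2
      have a2 := le_abs_self (u (x - z))
      have a3 := neg_abs_le (u w)
      nlinarith
    · push Not at hne
      refine Filter.Eventually.of_forall fun η x hx _ => ?_
      obtain ⟨n, hn, hxn⟩ := hx
      have h1 : u n = 0 := by
        have : Nsp g H ≤ LinearMap.ker u := by
          rw [Nsp, Submodule.span_le]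
          rintro _ ⟨i, hi, rfl⟩
          exact hne i hi
        exact this hn
      have h2 : u w = 0 := by
        obtain ⟨t, -, ht2, ht3⟩ := hw
        rw [← ht3, map_sum]
        refine Finset.sum_eq_zero fun i _ => ?_
        rw [map_smul, smul_eq_mul]
        by_cases hi : i ∈ Hᶜ
        · rw [hne i hi, mul_zero]
        · rw [ht2 i hi, zero_mul]
      have := Fct_apply_le hu hxn
      rw [map_sub, h1, sub_zero] at this
      rw [map_sub, h2, sub_zero]
      exact this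
  have hall := ((Filter.eventually_all_finite (Fct_finite hg)).2 key).and self_mem_nhdsWithin
  obtain ⟨η, hη, hpos⟩ := hall.exists
  exact ⟨η, hpos, fun x h1 h2 => (mem_Zc_iff hg).2 fun u hu => hη u hu x h1 h2⟩

end FD

end Zono

end Pool.Agent.Lib_MP_5ddbb8_an
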