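import Mathlib
import Pool.Agent.Lib_MP_5ddbb8_an.Zono

/-!
The chain argument: near a facet vector the support set is trivial, unless the zonotope splits.
-/

set_option linter.unusedSectionVars false
set_option linter.unusedSimpArgs false
set_option linter.unusedVariables false

open scoped Pointwise Topology
open Module Set

namespace Pool.Agent.Lib_MP_5ddbb8_an

section Chain

variable {V : Type*} [NormedAddCommGroup V] [NormedSpace ℝ V] [FiniteDimensional ℝ V]
variable {ι : Type*} [Fintype ι]

/-- the abstract transport property of the support set -/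
structure TP (A S : Set V) : Prop where
  closed : IsClosed S
  zero : (0 : V) ∈ S
  hard : ∀ s ∈ S, (1 / 2 : ℝ) • s ∈ interior A → s = 0
  tp : ∀ (z1 z2 : V) (O : Set V), IsOpen O → (∀ s ∈ S, s - z1 ∈ A → s ∈ O) →
    (∀ x, x - z1 ∈ A → x ∈ O → x - z2 ∈ A) → ∀ s ∈ S, s - z2 ∈ interior A → s ∈ closure O

/-- localisation on the sub-zonotope of `H` -/
def SH (g : ι → V) (S : Set V) (a : V) (H : Set ι) : Prop :=
  ∀ y ∈ Zo g H, ∀ s ∈ S, s - (a + y) ∈ Zc g univ → s - (a + y) ∈ Zc g H

lemma SH_of {g : ι → V} (hg : Submodule.span ℝ (range g) = ⊤) {S : Set V}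
    (hS : TP (Zc g univ) S) (a : V) (H : Set ι)
    (hyp : ∀ y ∈ Zo g H, ∀ η > 0, ∃ w ∈ Nsp g H, ∀ s ∈ S, s - (a + y + w) ∈ Zc g univ →
      ∃ z ∈ Zc g H, dist (s - (a + y)) z < η) : SH g S a H := by
  -- step one
  have key : ∀ y ∈ Zo g H, ∀ w2 ∈ Zo g Hᶜ, ∀ s ∈ S,
      s - (a + y + w2) ∈ interior (Zc g univ) → s - (a + y) ∈ Zc g H := by
    intro y hy w2 hw2 s hs hsi
    obtain ⟨η₀, hη₀, hT⟩ := T_lemma hg H hw2
    rw [← (isCompact_Zc g H).isClosed.closure_eq, Metric.mem_closure_iff]
    intro ε hε
    set η := min η₀ (ε / 2) with hη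
    have hηpos : 0 < η := lt_min hη₀ (by linarith)
    obtain ⟨w1, hw1, hw⟩ := hyp y hy η hηpos
    set O : Set V := (fun x => x - (a + y)) ⁻¹' (Metric.thickening η (Zc g H)) with hO
    have hOo : IsOpen O := Metric.isOpen_thickening.preimage (by fun_prop)
    have h1 : ∀ s ∈ S, s - (a + y + w1) ∈ Zc g univ → s ∈ O := fun s' hs' hsA =>
      Metric.mem_thickening_iff.2 (hw s' hs' hsA)
    have h2 : ∀ x, x - (a + y + w1) ∈ Zc g univ → x ∈ O → x - (a + y + w2) ∈ Zc g univ := by
      intro x hxA hxO
      obtain ⟨z, hz, hxz⟩ := Metric.mem_thickening_iff.1 hxO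
      have := hT (x - (a + y)) ⟨w1, hw1, by
        have : x - (a + y) - w1 = x - (a + y + w1) := by abel
        rwa [this]⟩ ⟨z, hz, hxz.trans_le (min_le_left _ _)⟩
      have e : x - (a + y) - w2 = x - (a + y + w2) := by abel
      rwa [e] at this
    have h3 := hS.tp (a + y + w1) (a + y + w2) O hOo h1 h2 s hs hsi
    obtain ⟨x', hx'O, hx'⟩ := Metric.mem_closure_iff.1 h3 (ε / 2) (by linarith)
    obtain ⟨z, hz, hxz⟩ := Metric.mem_thickening_iff.1 hx'O
    refine ⟨z, hz, ?_⟩
    have hd : dist (s - (a + y)) (x' - (a + y)) = dist s x' := dist_sub_right _ _ _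
    calc dist (s - (a + y)) z ≤ dist (s - (a + y)) (x' - (a + y)) + dist (x' - (a + y)) z :=
          dist_triangle _ _ _
      _ < ε / 2 + ε / 2 := by
          rw [hd]
          exact add_lt_add hx' (hxz.trans_le (min_le_right _ _))
      _ = ε := by ring
  -- step two
  intro y hy s hs hsA
  set x := s - (a + y) with hx
  obtain ⟨l, hl, n, hn, hxln⟩ := Zc_split H hsA
  obtain ⟨κ₀, hκ₀, hκ⟩ := add_smul_mem_Zo hy hl
  have hmem : ∀ κ : ℝ, 0 < κ → κ < min κ₀ 1 → x - κ • l ∈ Zc g H := by
    intro κ hk0 hk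
    have hk1 : κ < κ₀ := hk.trans_le (min_le_left _ _)
    have hk2 : κ < 1 := hk.trans_le (min_le_right _ _)
    have := key (y + κ • l) (hκ κ hk0.le hk1) (κ • n) (smul_mem_Zo_of_Zc hn hk0.le hk2) s hs (by
      have e : s - (a + (y + κ • l) + κ • n) = (1 - κ) • x := by
        have : κ • x = κ • l + κ • n := by rw [hxln, smul_add]
        rw [sub_smul, one_smul, this, hx]; abel
      rw [e]
      exact smul_mem_interior hg hsA (by linarith) (by linarith))
    have e : s - (a + (y + κ • l)) = x - κ • l := by rw [hx]; abel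
    rwa [e] at this
  have hlim : Filter.Tendsto (fun κ : ℝ => x - κ • l) (𝓝[>] 0) (𝓝 x) := by
    have : Filter.Tendsto (fun κ : ℝ => x - κ • l) (𝓝 0) (𝓝 (x - (0 : ℝ) • l)) := by
      have hc : Continuous (fun κ : ℝ => x - κ • l) := by fun_prop
      exact hc.tendsto 0
    rw [zero_smul, sub_zero] at this
    exact this.mono_left nhdsWithin_le_nhds
  refine (isCompact_Zc g H).isClosed.mem_of_tendsto hlim ?_
  have hpos : 0 < min κ₀ 1 := lt_min hκ₀ one_pos
  filter_upwards [Ioo_mem_nhdsGT hpos] with κ hk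
  exact hmem κ hk.1 hk.2

/-- closedness lemma: windows that avoid a closed set do so robustly -/
lemma eventually_avoid {C A : Set V} (hC : IsClosed C) (hA : IsCompact A) {z0 : V}
    (h : ∀ s ∈ C, s - z0 ∉ A) : ∀ᶠ z in 𝓝 z0, ∀ s ∈ C, s - z ∉ A := by
  have hcl : IsClosed (C + (-A)) := hC.add_right_of_isCompact hA.neg
  have hz0 : z0 ∉ C + (-A) := by
    rintro ⟨s, hs, b, hb, hsb⟩
    apply h s hs
    have : s - z0 = -b := by rw [← hsb]; simp
    rw [this]; exact hb
  filter_upwards [hcl.isOpen_compl.mem_nhds hz0] with z hz s hs hsz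
  apply hz
  exact ⟨s, hs, -(s - z), by simpa using hsz, by simp⟩

/-- the closed set of points of `S` far away from a translate of a sub-zonotope -/
lemma isClosed_far {S : Set V} (hS : IsClosed S) (K : Set V) (b : V) (η : ℝ) :
    IsClosed {s | s ∈ S ∧ ∀ z ∈ K, η ≤ dist (s - b) z} := by
  have : {s | s ∈ S ∧ ∀ z ∈ K, η ≤ dist (s - b) z} =
      S ∩ ⋂ z ∈ K, {s | η ≤ dist (s - b) z} := by
    ext s; simp
  rw [this]
  refine hS.inter (isClosed_biInter fun z _ => ?_)
  exact isClosed_le continuous_const (by fun_prop)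

lemma qc_add_smul {g : ι → V} {H : Set ι} {d : Dual ℝ V} {y : V}
    (hy : y ∈ Zo g {i ∈ H | d (g i) = 0}) {r : ℝ} (hr0 : 0 ≤ r) (hr : r < 1) :
    y + r • qc g H d ∈ Zo g H := by
  classical
  obtain ⟨t, h1, h2, h3⟩ := hy
  unfold qc
  refine ⟨fun i => t i + r * (if i ∈ H then sg (d (g i)) / 2 else 0), fun i => ?_, fun i hi => ?_,
    ?_⟩
  · by_cases hi : i ∈ H
    · by_cases hd : d (g i) = 0
      · simp only [hi, if_true, hd, sg_zero, zero_div, mul_zero, add_zero]
        exact h1 i
      · have h0 : t i = 0 := h2 i (fun hh => hd hh.2)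
        simp only [hi, if_true, h0, zero_add]
        rw [abs_mul, abs_of_nonneg hr0, abs_div, abs_two]
        have := abs_sg_le (d (g i))
        nlinarith [abs_nonneg (sg (d (g i)))]
    · have h0 : t i = 0 := h2 i (fun hh => hi hh.1)
      simp [hi, h0]
  · have h0 : t i = 0 := h2 i (fun hh => hi hh.1)
    simp [hi, h0]
  · rw [← h3]
    simp only [add_smul, mul_smul, Finset.sum_add_distrib, Finset.smul_sum]

lemma qc_mem_Nsp {g : ι → V} {H : Set ι} {d : Dual ℝ V} :
    qc g H d ∈ Nsp g {i ∈ H | d (g i) = 0} := by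
  classical
  unfold qc Nsp
  refine Submodule.sum_mem _ fun i _ => ?_
  split_ifs with hi
  · by_cases hd : d (g i) = 0
    · simp [hd, sg_zero]
    · exact Submodule.smul_mem _ _ (Submodule.subset_span ⟨i, by simp [hd], rfl⟩)
  · simp

/-- values on sub-zonotopes -/
lemma apply_le_of_Zc_sub {g : ι → V} {H : Set ι} (d : Dual ℝ V) {x : V} (hx : x ∈ Zc g H) :
    d x ≤ d (qc g H d) := by
  classical
  obtain ⟨t, h1, h2, h3⟩ := hx
  unfold qc
  rw [← h3, map_sum, map_sum]
  refine Finset.sum_le_sum fun i _ => ?_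
  rw [map_smul, map_smul, smul_eq_mul, smul_eq_mul]
  split_ifs with hi
  · rw [div_mul_eq_mul_div, sg_mul_self]
    calc t i * d (g i) ≤ |t i * d (g i)| := le_abs_self _
      _ = |t i| * |d (g i)| := abs_mul _ _
      _ ≤ 1 / 2 * |d (g i)| := by gcongr; exact h1 i
      _ = |d (g i)| / 2 := by ring
  · rw [h2 i hi]

lemma face_of_eq {g : ι → V} {H : Set ι} (d : Dual ℝ V) {x : V} (hx : x ∈ Zc g H)
    (h : d (qc g H d) ≤ d x) : x - qc g H d ∈ Zc g {i ∈ H | d (g i) = 0} := by
  classical
  obtain ⟨t, h1, h2, h3⟩ := hx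
  unfold qc at h ⊢
  rw [← h3, map_sum, map_sum] at h
  have hle : ∀ i ∈ Finset.univ, d (t i • g i) ≤ d ((if i ∈ H then sg (d (g i)) / 2 else 0) • g i) := by
    intro i _
    rw [map_smul, map_smul, smul_eq_mul, smul_eq_mul]
    split_ifs with hi
    · rw [div_mul_eq_mul_div, sg_mul_self]
      calc t i * d (g i) ≤ |t i * d (g i)| := le_abs_self _
        _ = |t i| * |d (g i)| := abs_mul _ _
        _ ≤ 1 / 2 * |d (g i)| := by gcongr; exact h1 i
        _ = |d (g i)| / 2 := by ring
    · rw [h2 i hi]
  have heq := (Finset.sum_eq_sum_iff_of_le hle).1 (le_antisymm (Finset.sum_le_sum hle) h)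
  refine ⟨fun i => if i ∈ H ∧ d (g i) = 0 then t i else 0, fun i => ?_, fun i hi => ?_, ?_⟩
  · show |(if i ∈ H ∧ d (g i) = 0 then t i else 0)| ≤ 1 / 2
    split_ifs
    · exact h1 i
    · simp
  · have : ¬ (i ∈ H ∧ d (g i) = 0) := hi
    simp [this]
  · rw [← h3, ← Finset.sum_sub_distrib]
    refine Finset.sum_congr rfl fun i _ => ?_
    rw [← sub_smul]
    congr 1
    by_cases hi : i ∈ H
    · by_cases hd : d (g i) = 0
      · simp [hi, hd, sg_zero]
      · have h4 := heq i (Finset.mem_univ i)
        rw [map_smul, map_smul, smul_eq_mul, smul_eq_mul] at h4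
        have h5 := mul_right_cancel₀ hd h4
        simp only [hi, if_true] at h5
        simp [hi, hd, h5]
    · simp [hi, h2 i hi]

/-- the chain step -/
lemma SH_step {g : ι → V} (hg : Submodule.span ℝ (range g) = ⊤) {S : Set V}
    (hS : TP (Zc g univ) S) (a : V) (H : Set ι) (hH : SH g S a H) (d : Dual ℝ V)
    (hq : qc g H d ∈ interior (Zc g univ)) : SH g S a {i ∈ H | d (g i) = 0} := by
  set q := qc g H d with hqdef
  set H' : Set ι := {i ∈ H | d (g i) = 0} with hH'
  have hqH : q ∈ Zc g H := qc_mem_Zc g H d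
  -- the claim on limiting windows
  have claim : ∀ y ∈ Zo g H', ∀ s ∈ S, s - (a + y + q) ∈ Zc g H → s - (a + y) ∈ Zc g H' := by
    intro y hy s hs hsq
    set τ := s - a with hτ
    have hx0 : y + q - τ ∈ Zc g H := by
      have := neg_mem_Zc hsq
      have e : -(s - (a + y + q)) = y + q - τ := by rw [hτ]; abel
      rwa [e] at this
    set x0 := y + q - τ with hx0def
    have hyq : y + q ∈ interior (Zc g univ) := by
      rw [mem_interior_iff hg]
      intro v hv
      by_contra hcon
      push Not at hcon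
      have hqc : q ∈ Zc g H'ᶜ := by
        obtain ⟨t, h1, h2, h3⟩ := hqH
        classical
        rw [hqdef]
        unfold qc
        refine ⟨_, fun i => ?_, fun i hi => ?_, rfl⟩
        · split_ifs
          · rw [abs_div, abs_two]
            have := abs_sg_le (d (g i))
            linarith
          · simp
        · have : i ∈ H' := by simpa using hi
          simp [this.1, this.2, sg_zero]
      have hk := kills_of_max hy hqc (v := v) (by rw [hv.2]; exact hcon)
      have hvy : v y = 0 := by
        obtain ⟨t, h1, h2, h3⟩ := hy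
        rw [← h3, map_sum]
        refine Finset.sum_eq_zero fun i _ => ?_
        rw [map_smul, smul_eq_mul]
        by_cases hi : i ∈ H'
        · rw [hk i hi, mul_zero]
        · rw [h2 i hi, zero_mul]
      have := (mem_interior_iff hg).1 hq v hv
      rw [map_add, hvy, zero_add] at hcon
      exact absurd hcon (not_le.2 this)
    have hdy : d y = 0 := by
      obtain ⟨t, h1, h2, h3⟩ := hy
      rw [← h3, map_sum]
      refine Finset.sum_eq_zero fun i _ => ?_
      rw [map_smul, smul_eq_mul]
      by_cases hi : i ∈ H'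
      · rw [hi.2, mul_zero]
      · rw [h2 i hi, zero_mul]
    -- near `y + q`
    have hstep : ∀ p ∈ Zo g H, d p ≤ d x0 := by
      intro p hp
      have hc : Continuous (fun ε : ℝ => (1 - ε) • x0 + ε • p + τ) := by fun_prop
      have hev : ∀ᶠ ε in 𝓝 (0 : ℝ), (1 - ε) • x0 + ε • p + τ ∈ interior (Zc g univ) := by
        refine hc.continuousAt.eventually_mem (isOpen_interior.mem_nhds ?_)
        have : (1 - (0 : ℝ)) • x0 + (0 : ℝ) • p + τ = y + q := by
          rw [hx0def]; simp
        rw [this]; exact hyq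
      have hev' := (hev.filter_mono (nhdsWithin_le_nhds (s := Ioi 0))).and
        (Ioo_mem_nhdsGT (one_pos (α := ℝ)))
      obtain ⟨ε, hε1, hε2⟩ := hev'.exists
      have hy' : (1 - ε) • x0 + ε • p ∈ Zo g H := by
        obtain ⟨t, h1, h2, h3⟩ := hx0
        obtain ⟨r, k1, k2, k3⟩ := hp
        refine ⟨fun i => (1 - ε) * t i + ε * r i, fun i => ?_, fun i hi => by
          simp [h2 i hi, k2 i hi], ?_⟩
        · have e1 := abs_le.1 (h1 i)
          have e2 := abs_lt.1 (k1 i)
          have e3 := hε2.1
          have e4 := hε2.2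
          rw [abs_lt]
          constructor <;> nlinarith
        · simp only [← h3, ← k3, Finset.smul_sum, smul_smul, add_smul, Finset.sum_add_distrib]
      have h1 := hH _ (neg_mem_Zo hy') s hs (by
        have e : s - (a + -((1 - ε) • x0 + ε • p)) = (1 - ε) • x0 + ε • p + τ := by
          rw [hτ]; abel
        rw [e]; exact interior_subset hε1)
      have h2 := apply_le_of_Zc_sub d h1
      have e : s - (a + -((1 - ε) • x0 + ε • p)) = (1 - ε) • x0 + ε • p + τ := by
        rw [hτ]; abel
      rw [e, ← hqdef] at h2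
      have e2 : d x0 = d q - d τ := by
        rw [hx0def, map_sub, map_add, hdy, zero_add]
      simp only [map_add, map_smul, smul_eq_mul] at h2
      have e3 := hε2.1
      nlinarith
    have hdq : d q ≤ d x0 := by
      have hc : Continuous (fun r : ℝ => d (r • q)) := by
        have : (fun r : ℝ => d (r • q)) = fun r : ℝ => r * d q := by
          ext r; simp
        rw [this]; fun_prop
      have hlim : Filter.Tendsto (fun r : ℝ => d (r • q)) (𝓝[<] 1) (𝓝 (d ((1 : ℝ) • q))) :=
        (hc.tendsto 1).mono_left nhdsWithin_le_nhds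
      rw [one_smul] at hlim
      refine le_of_tendsto hlim ?_
      filter_upwards [Ioo_mem_nhdsLT (zero_lt_one (α := ℝ))] with r hr
      exact hstep _ (smul_mem_Zo_of_Zc hqH hr.1.le hr.2)
    have hface := face_of_eq d hx0 (by rw [← hqdef]; exact hdq)
    rw [← hqdef] at hface
    have e : s - (a + y) = -(x0 - q) := by rw [hx0def, hτ]; abel
    rw [e]
    exact neg_mem_Zc hface
  refine SH_of hg hS a H' ?_
  intro y hy η hη
  -- closed far set
  have hC := isClosed_far hS.closed (Zc g H') (a + y) η
  have hav : ∀ s ∈ {s | s ∈ S ∧ ∀ z ∈ Zc g H', η ≤ dist (s - (a + y)) z},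
      s - (a + y + q) ∉ Zc g H := by
    rintro s ⟨hs, hfar⟩ hsq
    have h1 := claim y hy s hs hsq
    have h2 := hfar _ h1
    rw [dist_self] at h2
    linarith
  have hev := eventually_avoid hC (isCompact_Zc g H) hav
  have hc : Continuous (fun r : ℝ => a + y + r • q) := by fun_prop
  have hlim : Filter.Tendsto (fun r : ℝ => a + y + r • q) (𝓝[<] 1) (𝓝 (a + y + q)) := by
    have := (hc.tendsto 1).mono_left (nhdsWithin_le_nhds (s := Iio 1))
    rwa [one_smul] at this
  obtain ⟨r, hr1, hr2⟩ := ((hlim.eventually hev).and (Ioo_mem_nhdsLT (zero_lt_one (α := ℝ)))).exists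
  refine ⟨r • q, Submodule.smul_mem _ _ qc_mem_Nsp, fun s hs hsA => ?_⟩
  by_contra hcon
  push Not at hcon
  apply hr1 s ⟨hs, hcon⟩
  have := hH (y + r • q) (qc_add_smul hy hr2.1.le hr2.2) s hs (by
    have e : s - (a + (y + r • q)) = s - (a + y + r • q) := by abel
    rwa [e])
  have e : s - (a + (y + r • q)) = s - (a + y + r • q) := by abel
  rwa [e] at this

/-- the base of the chain: the facet itself -/
lemma SH_base {g : ι → V} (hg : Submodule.span ℝ (range g) = ⊤) {S : Set V}
    (hS : TP (Zc g univ) S) {u : Dual ℝ V} (hu : u ∈ Fct g) :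
    SH g S ((2 : ℝ) • qc g univ u) {i | u (g i) = 0} := by
  set c := qc g univ u with hc
  set H : Set ι := {i | u (g i) = 0} with hH
  have hcA : c ∈ Zc g univ := qc_mem_Zc g univ u
  have huc : u c = 1 := by rw [hc, apply_qc, hu.2]
  have hcN : c ∈ Nsp g H := by
    have : c ∈ Nsp g {i ∈ (univ : Set ι) | u (g i) = 0} := qc_mem_Nsp
    simpa [hH] using this
  have hcHc : c ∈ Zc g Hᶜ := by
    classical
    rw [hc]
    unfold qc
    refine ⟨_, fun i => ?_, fun i hi => ?_, rfl⟩
    · split_ifs
      · rw [abs_div, abs_two]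
        have := abs_sg_le (u (g i))
        linarith
      · simp
    · have : i ∈ H := by simpa using hi
      have : u (g i) = 0 := this
      simp [this, sg_zero]
  refine SH_of hg hS _ H ?_
  intro y hy η hη
  -- closed far set
  have huy : u y = 0 := by
    obtain ⟨t, h1, h2, h3⟩ := hy
    rw [← h3, map_sum]
    refine Finset.sum_eq_zero fun i _ => ?_
    rw [map_smul, smul_eq_mul]
    by_cases hi : i ∈ H
    · have : u (g i) = 0 := hi
      rw [this, mul_zero]
    · rw [h2 i hi, zero_mul]
  have hS1 : IsClosed {s | s ∈ S ∧ (1 / 2 : ℝ) • s ∉ interior (Zc g univ)} := by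
    have : {s | s ∈ S ∧ (1 / 2 : ℝ) • s ∉ interior (Zc g univ)} =
        S ∩ (fun s => (1 / 2 : ℝ) • s) ⁻¹' (interior (Zc g univ))ᶜ := rfl
    rw [this]
    exact hS.closed.inter (isOpen_interior.isClosed_compl.preimage (by fun_prop))
  have hC := isClosed_far hS1 (Zc g H) ((2 : ℝ) • c + y) η
  have hcy : c + y ∈ Zc g univ := by
    have := Zc_add (Zo_subset_Zc g H hy) hcHc
    rwa [add_comm] at this
  have hav : ∀ s ∈ {s | s ∈ {s | s ∈ S ∧ (1 / 2 : ℝ) • s ∉ interior (Zc g univ)} ∧
      ∀ z ∈ Zc g H, η ≤ dist (s - ((2 : ℝ) • c + y)) z}, s - (c + y) ∉ Zc g univ := by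
    rintro s ⟨⟨hs, hs2⟩, hfar⟩ hsA
    set x := s - (c + y) with hx
    have hhalf : (1 / 2 : ℝ) • s = (1 / 2 : ℝ) • (c + y) + (1 / 2 : ℝ) • x := by
      rw [← smul_add, hx]; congr 1; abel
    have hhA : (1 / 2 : ℝ) • s ∈ Zc g univ := by
      rw [hhalf]
      exact convex_Zc g univ hcy hsA (by norm_num) (by norm_num) (by norm_num)
    obtain ⟨v, hv, hvs⟩ := exists_Fct_of_boundary hg hhA hs2
    have h1 := Fct_apply_le hv hcy
    have h2 := Fct_apply_le hv hsA
    have h3 : v (c + y) = 1 ∧ v x = 1 := by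
      rw [hhalf, map_add, map_smul, map_smul, smul_eq_mul, smul_eq_mul] at hvs
      constructor <;> linarith
    have hk := kills_of_max hy hcHc (v := v) (by rw [hv.2, add_comm y c, h3.1])
    obtain ⟨e, he⟩ := hu.1.2 v (fun i hi => hk i hi)
    have hvy : v y = 0 := by rw [he, LinearMap.smul_apply, huy, smul_zero]
    have hvc : v c = 1 := by
      have := h3.1
      rwa [map_add, hvy, add_zero] at this
    have he1 : e = 1 := by
      rw [he, LinearMap.smul_apply, huc, smul_eq_mul, mul_one] at hvc
      exact hvc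
    have hux : u x = 1 := by
      have := h3.2
      rwa [he, he1, one_smul] at this
    have hface := face_of_eq u (H := univ) hsA (by rw [← hc, huc, hux])
    rw [← hc] at hface
    have hset : {i ∈ (univ : Set ι) | u (g i) = 0} = H := by
      ext i; simp [hH]
    rw [hset] at hface
    have hd := hfar _ hface
    have e1 : s - ((2 : ℝ) • c + y) = x - c := by
      rw [hx, two_smul]; abel
    rw [e1, dist_self] at hd
    linarith
  have hev := eventually_avoid hC (isCompact_Zc g univ) hav
  have hcont : Continuous (fun r : ℝ => (2 : ℝ) • c + y + (-r) • c) := by fun_prop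
  have hlim : Filter.Tendsto (fun r : ℝ => (2 : ℝ) • c + y + (-r) • c) (𝓝[<] 1) (𝓝 (c + y)) := by
    have := (hcont.tendsto 1).mono_left (nhdsWithin_le_nhds (s := Iio 1))
    have e : (2 : ℝ) • c + y + (-(1 : ℝ)) • c = c + y := by
      rw [two_smul]; simp; abel
    rwa [e] at this
  obtain ⟨r, hr1, hr2⟩ := ((hlim.eventually hev).and (Ioo_mem_nhdsLT (zero_lt_one (α := ℝ)))).exists
  refine ⟨(-r) • c, Submodule.smul_mem _ _ hcN, fun s hs hsA => ?_⟩
  by_contra hcon
  push Not at hcon
  have hs0 : s ≠ 0 := by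
    rintro rfl
    have h1 := Fct_apply_le (neg_mem_Fct hu) hsA
    simp only [LinearMap.neg_apply, zero_sub, map_neg, map_add, map_smul, smul_eq_mul, huc,
      huy] at h1
    linarith [hr2.2]
  exact hr1 s ⟨⟨hs, fun hin => hs0 (hS.hard s hs hin)⟩, hcon⟩ hsA

lemma qform_surj {g : ι → V} {H : Set ι} {x : V} (hx : x ∈ Lsp g H) :
    ∃ d : Dual ℝ V, ∃ c : ι → ℝ, (∀ i ∈ H, c i = d (g i)) ∧ (∀ i, i ∉ H → c i = 0) ∧
      ∑ i, c i • g i = x := by
  classical
  let Q : Dual ℝ V →ₗ[ℝ] V :=
    { toFun := fun d => ∑ i, (if i ∈ H then d (g i) else 0) • g i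
      map_add' := fun a b => by
        rw [← Finset.sum_add_distrib]
        refine Finset.sum_congr rfl fun i _ => ?_
        rw [← add_smul]
        split_ifs <;> simp
      map_smul' := fun a b => by
        rw [RingHom.id_apply, Finset.smul_sum]
        refine Finset.sum_congr rfl fun i _ => ?_
        rw [smul_smul]
        split_ifs <;> simp }
  by_cases hmem : x ∈ LinearMap.range Q
  · obtain ⟨d, hd⟩ := hmem
    exact ⟨d, fun i => if i ∈ H then d (g i) else 0, fun i hi => by simp [hi],
      fun i hi => by simp [hi], hd⟩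
  · exfalso
    obtain ⟨φ, hφx, hφ⟩ := Submodule.exists_le_ker_of_notMem hmem
    have h1 : φ (Q φ) = 0 := hφ ⟨φ, rfl⟩
    have h2 : ∀ i ∈ H, φ (g i) = 0 := by
      have : φ (Q φ) = ∑ i, (if i ∈ H then φ (g i) * φ (g i) else 0) := by
        show φ (∑ i, (if i ∈ H then φ (g i) else 0) • g i) = _
        rw [map_sum]
        refine Finset.sum_congr rfl fun i _ => ?_
        rw [map_smul, smul_eq_mul]
        split_ifs <;> simp
      rw [this] at h1
      have h3 := (Finset.sum_eq_zero_iff_of_nonneg (fun i _ => by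
        split_ifs
        · exact mul_self_nonneg _
        · exact le_rfl)).1 h1
      intro i hi
      have := h3 i (Finset.mem_univ i)
      rw [if_pos hi] at this
      exact mul_self_eq_zero.1 this
    apply hφx
    have : Lsp g H ≤ LinearMap.ker φ := by
      rw [Lsp, Submodule.span_le]
      rintro _ ⟨i, hi, rfl⟩
      exact h2 i hi
    exact this hx

/-- the dichotomy -/
lemma chain_dichotomy {g : ι → V} (hg : Submodule.span ℝ (range g) = ⊤) {S : Set V}
    (hS : TP (Zc g univ) S) {u : Dual ℝ V} (hu : u ∈ Fct g) :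
    (∀ s ∈ S, s - (2 : ℝ) • qc g univ u ∈ Zc g univ → s = (2 : ℝ) • qc g univ u) ∨
    ∃ H : Set ι, IsCompl (Lsp g H) (Nsp g H) ∧ Lsp g H ≠ ⊥ ∧ Nsp g H ≠ ⊥ := by
  classical
  set a := (2 : ℝ) • qc g univ u with ha
  set H0 : Set ι := {i | u (g i) = 0} with hH0
  let P : Set (Finset ι) := {F | (F : Set ι) ⊆ H0 ∧ SH g S a (F : Set ι)}
  have hPne : P.Nonempty := ⟨H0.toFinset, by simp [P], by
    simp only [P, Set.coe_toFinset]
    exact SH_base hg hS hu⟩
  obtain ⟨F, hFP, hmin⟩ := (measure (fun F : Finset ι => F.card)).wf.has_min P hPne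
  set H : Set ι := (F : Set ι) with hH
  have hstep : ∀ d : Dual ℝ V, (∃ i ∈ H, d (g i) ≠ 0) → qc g H d ∉ interior (Zc g univ) := by
    rintro d ⟨i, hi, hdi⟩ hin
    have h1 := SH_step hg hS a H hFP.2 d hin
    have h2 : ((F.filter fun i => d (g i) = 0 : Finset ι) : Set ι) = {i ∈ H | d (g i) = 0} := by
      ext j; simp [hH]
    refine hmin (F.filter fun i => d (g i) = 0) ⟨?_, ?_⟩ ?_
    · rw [h2]
      exact fun j hj => hFP.1 hj.1
    · rw [h2]; exact h1
    · show (F.filter fun i => d (g i) = 0).card < F.card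
      apply Finset.card_lt_card
      rw [Finset.ssubset_iff_of_subset (Finset.filter_subset _ _)]
      exact ⟨i, hi, by simp [hdi]⟩
  by_cases hzero : ∀ i ∈ H, g i = 0
  · left
    intro s hs hsA
    have h1 := hFP.2 0 (zero_mem_Zo g _) s hs (by simpa using hsA)
    obtain ⟨t, -, ht2, ht3⟩ := h1
    have h0 : ∑ i, t i • g i = 0 := by
      refine Finset.sum_eq_zero fun i _ => ?_
      by_cases hi : i ∈ H
      · rw [hzero i hi, smul_zero]
      · rw [ht2 i hi, zero_smul]
    rw [h0, add_zero] at ht3
    exact (sub_eq_zero.1 ht3.symm)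
  · right
    push Not at hzero
    obtain ⟨i0, hi0, hgi0⟩ := hzero
    refine ⟨H, ⟨?_, ?_⟩, ?_, ?_⟩
    · -- disjoint
      rw [Submodule.disjoint_def]
      intro x hxL hxN
      by_contra hx0
      obtain ⟨d, c, hc1, hc2, hc3⟩ := qform_surj hxL
      have hdne : ∃ i ∈ H, d (g i) ≠ 0 := by
        by_contra hcon
        push Not at hcon
        apply hx0
        rw [← hc3]
        refine Finset.sum_eq_zero fun i _ => ?_
        by_cases hi : i ∈ H
        · rw [hc1 i hi, hcon i hi, zero_smul]
        · rw [hc2 i hi, zero_smul]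
      have hnot := hstep d hdne
      have hqA : qc g H d ∈ Zc g univ := Zc_mono g (subset_univ H) (qc_mem_Zc g H d)
      obtain ⟨v, hv, hvq⟩ := exists_Fct_of_boundary hg hqA hnot
      -- coefficients
      have hcoef : ∀ i, (if i ∈ H then sg (d (g i)) / 2 else 0) * v (g i) = |v (g i)| / 2 := by
        have hb : ∀ i, |(fun i => if i ∈ H then sg (d (g i)) / 2 else 0) i| ≤ 1 / 2 := by
          intro i
          show |(if i ∈ H then sg (d (g i)) / 2 else 0)| ≤ 1 / 2
          split_ifs
          · rw [abs_div, abs_two]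
            have := abs_sg_le (d (g i))
            linarith
          · simp
        have := coeff_of_hs_le v hb (by
          rw [hv.2]
          have : ∑ i, (fun i => if i ∈ H then sg (d (g i)) / 2 else 0) i • g i = qc g H d := by
            unfold qc
            refine Finset.sum_congr rfl fun i _ => ?_
            by_cases hi : i ∈ H <;> simp [hi]
          rw [this, hvq])
        exact this
      have hvN : ∀ i, i ∉ H → v (g i) = 0 := by
        intro i hi
        have := hcoef i
        rw [if_neg hi, zero_mul] at this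
        have : |v (g i)| = 0 := by linarith
        exact abs_eq_zero.1 this
      have hvx : v x = 0 := by
        have : Nsp g H ≤ LinearMap.ker v := by
          rw [Nsp, Submodule.span_le]
          rintro _ ⟨i, hi, rfl⟩
          exact hvN i hi
        exact this hxN
      have hsum : v x = ∑ i, c i * v (g i) := by
        rw [← hc3, map_sum]
        exact Finset.sum_congr rfl fun i _ => by rw [map_smul, smul_eq_mul]
      have hterm : ∀ i ∈ Finset.univ, 0 ≤ c i * v (g i) := by
        intro i _
        by_cases hi : i ∈ H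
        · rw [hc1 i hi]
          have h1 := hcoef i
          rw [if_pos hi] at h1
          -- d (g i) = sg (d g_i) * |d g_i|
          have h2 := sg_mul_abs (d (g i))
          rw [← h2]
          have h3 : sg (d (g i)) * |d (g i)| * v (g i) = |d (g i)| * |v (g i)| := by
            have : sg (d (g i)) * v (g i) = |v (g i)| := by linarith
            rw [mul_comm (sg (d (g i))), mul_assoc, this]
          rw [h3]; positivity
        · rw [hc2 i hi, zero_mul]
      have hall := (Finset.sum_eq_zero_iff_of_nonneg hterm).1 (hsum ▸ hvx)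
      obtain ⟨j, hj⟩ := exists_ne_zero_of_span hg hv.1.1
      have hjH : j ∈ H := by
        by_contra h
        exact hj (hvN j h)
      have h1 := hall j (Finset.mem_univ j)
      rw [hc1 j hjH] at h1
      have hdj : d (g j) = 0 := by
        rcases mul_eq_zero.1 h1 with h | h
        · exact h
        · exact absurd h hj
      have h2 := hcoef j
      rw [if_pos hjH, hdj, sg_zero, zero_div, zero_mul] at h2
      apply hj
      have : |v (g j)| = 0 := by linarith
      exact abs_eq_zero.1 this
    · rw [codisjoint_iff, Lsp, Nsp, ← Submodule.span_union, ← image_union, union_compl_self,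
        image_univ, hg]
    · intro hbot
      have : g i0 ∈ Lsp g H := Submodule.subset_span ⟨i0, hi0, rfl⟩
      rw [hbot, Submodule.mem_bot] at this
      exact hgi0 this
    · intro hbot
      have htop : Lsp g H = ⊤ := by
        have : Lsp g H ⊔ Nsp g H = ⊤ := by
          rw [Lsp, Nsp, ← Submodule.span_union, ← image_union, union_compl_self, image_univ, hg]
        rwa [hbot, sup_bot_eq] at this
      have hle : Lsp g H ≤ LinearMap.ker u := by
        rw [Lsp, Submodule.span_le]
        rintro _ ⟨i, hi, rfl⟩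
        exact hFP.1 hi
      rw [htop] at hle
      apply hu.1.1
      ext x
      exact hle Submodule.mem_top

/-- from the closed window to the open doubled window -/
lemma isolated_of_window {g : ι → V} (hg : Submodule.span ℝ (range g) = ⊤) {S : Set V}
    (hS : TP (Zc g univ) S) {a : V} (h : ∀ s ∈ S, s - a ∈ Zc g univ → s = a) :
    ∀ s ∈ S, (1 / 2 : ℝ) • (s - a) ∈ interior (Zc g univ) → s = a := by
  intro s hs hsi
  set x := (1 / 2 : ℝ) • (s - a) with hx
  have hnx : -x ∈ interior (Zc g univ) := by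
    rw [mem_interior_iff hg] at hsi ⊢
    intro u hu
    have := hsi (-u) (neg_mem_Fct hu)
    simpa using this
  have hev : ∀ᶠ y in 𝓝 a, y - a - x ∈ Zc g univ := by
    have hc : Continuous (fun y => y - a - x) := by fun_prop
    have : (fun y => y - a - x) a ∈ interior (Zc g univ) := by simpa using hnx
    filter_upwards [hc.continuousAt.eventually_mem (isOpen_interior.mem_nhds this)] with y hy
    exact interior_subset hy
  obtain ⟨r0, hr0, hball⟩ := Metric.eventually_nhds_iff_ball.1 hev
  by_contra hne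
  have hd : 0 < dist s a := dist_pos.2 hne
  set r := min r0 (dist s a / 2) with hr
  have hrpos : 0 < r := lt_min hr0 (by linarith)
  have := hS.tp a (a + x) (Metric.ball a r) Metric.isOpen_ball
    (fun s' hs' hsA => by rw [h s' hs' hsA]; exact Metric.mem_ball_self hrpos)
    (fun y _ hy => by
      have := hball y (Metric.ball_subset_ball (min_le_left _ _) hy)
      rwa [sub_sub] at this) s hs (by
      have e : s - (a + x) = x := by
        have : s - a = (2 : ℝ) • x := by rw [hx, smul_smul]; norm_num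
        rw [← sub_sub, this, two_smul]; abel
      rw [e]; exact hsi)
  have h2 := Metric.closure_ball_subset_closedBall this
  rw [Metric.mem_closedBall] at h2
  have h3 : r ≤ dist s a / 2 := min_le_right _ _
  linarith

end Chain

end Pool.Agent.Lib_MP_5ddbb8_an
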