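import Mathlib
import Pool.Agent.Lib_MP_5ddbb8_an.Chain

/-!
A packing of the zonotope by a group containing all facet vectors is a tiling.
-/

set_option linter.unusedSectionVars false
set_option linter.unusedSimpArgs false
set_option linter.unusedVariables false

open scoped Pointwise Topology ENNReal
open Module Set MeasureTheory Filter

namespace Pool.Agent.Lib_MP_5ddbb8_an

section Lattice

variable {V : Type*} [NormedAddCommGroup V] [NormedSpace ℝ V] [FiniteDimensional ℝ V]
  [MeasurableSpace V] [BorelSpace V]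
variable {ι : Type*} [Fintype ι]
variable {μ : Measure V} [μ.IsAddHaarMeasure]

/-- the hypotheses on the group -/
structure Pack (g : ι → V) (T : AddSubgroup V) : Prop where
  span : Submodule.span ℝ (range g) = ⊤
  facet : ∀ u ∈ Fct g, (2 : ℝ) • qc g univ u ∈ T
  hard : ∀ t ∈ T, (1 / 2 : ℝ) • t ∈ interior (Zc g univ) → t = 0

variable {g : ι → V} {T : AddSubgroup V}

lemma Pack.ball (h : Pack g T) : ∃ r > 0, ∀ t ∈ T, ‖t‖ < r → t = 0 := by
  obtain ⟨r, hr, hrA⟩ := Metric.mem_nhds_iff.1 (isOpen_interior.mem_nhds (zero_mem_interior h.span))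
  refine ⟨r, hr, fun t ht htr => h.hard t ht (hrA ?_)⟩
  rw [mem_ball_zero_iff, norm_smul]
  have : ‖(1 / 2 : ℝ)‖ = 1 / 2 := by norm_num
  rw [this]
  have := norm_nonneg t
  linarith

lemma Pack.discrete (h : Pack g T) : DiscreteTopology T := by
  obtain ⟨r, hr, hr'⟩ := h.ball
  refine discreteTopology_of_isOpen_singleton_zero ?_
  have : ({0} : Set T) = (fun t : T => (t : V)) ⁻¹' Metric.ball 0 r := by
    ext t
    simp only [mem_singleton_iff, mem_preimage, mem_ball_zero_iff]
    constructor
    · rintro rfl; simpa using hr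
    · intro ht; exact Subtype.ext (hr' t t.2 ht)
  rw [this]
  exact Metric.isOpen_ball.preimage continuous_subtype_val

lemma Pack.countable (h : Pack g T) : Countable T := by
  have := h.discrete
  exact TopologicalSpace.separableSpace_iff_countable.1 inferInstance

lemma Pack.isClosed_cover (h : Pack g T) : IsClosed {x : V | ∃ t ∈ T, x - t ∈ Zc g univ} := by
  have := h.discrete
  have h1 : IsClosed (T : Set V) := AddSubgroup.isClosed_of_discrete
  have h2 := h1.add_right_of_isCompact (isCompact_Zc g univ)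
  convert h2 using 1
  ext x
  constructor
  · rintro ⟨t, ht, hx⟩
    exact ⟨t, ht, x - t, hx, by simp⟩
  · rintro ⟨t, ht, a, ha, rfl⟩
    exact ⟨t, ht, by simpa using ha⟩

/-- reflection in the facet -/
lemma reflect_mem {x : V} (hx : x ∈ Zc g univ) {u : Dual ℝ V} (hu : u ∈ Fct g) (hux : u x = 1) :
    (2 : ℝ) • qc g univ u - x ∈ Zc g univ := by
  classical
  set c := qc g univ u with hc
  have huc : u c = 1 := by rw [hc, apply_qc, hu.2]
  have hface := face_of_eq u (H := univ) hx (by rw [← hc, huc, hux])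
  rw [← hc] at hface
  set H : Set ι := {i ∈ (univ : Set ι) | u (g i) = 0} with hH
  have hcH : c ∈ Zc g Hᶜ := by
    rw [hc]
    unfold qc
    refine ⟨_, fun i => ?_, fun i hi => ?_, rfl⟩
    · split_ifs
      · rw [abs_div, abs_two]
        have := abs_sg_le (u (g i))
        linarith
      · simp
    · have : i ∈ H := by simpa using hi
      have : u (g i) = 0 := this.2
      simp [this, sg_zero]
  have := Zc_add (neg_mem_Zc hface) hcH
  have e : (2 : ℝ) • c - x = -(x - c) + c := by rw [two_smul]; abel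
  rw [e]; exact this

lemma half_ball (hg : Submodule.span ℝ (range g) = ⊤) {y : V} {u : Dual ℝ V} (hu : u ∈ Fct g)
    (h1 : ∀ v ∈ Fct g, v ≠ u → v y < 1)
    (h2 : ∀ v ∈ Fct g, v ≠ u → v ((2 : ℝ) • qc g univ u - y) < 1) :
    ∀ᶠ x in 𝓝 y, x ∈ Zc g univ ∨ x - (2 : ℝ) • qc g univ u ∈ Zc g univ := by
  set a := (2 : ℝ) • qc g univ u with ha
  have hua : u a = 2 := by rw [ha, map_smul, apply_qc, hu.2]; norm_num
  have e1 : ∀ᶠ x in 𝓝 y, ∀ v ∈ Fct g, v ≠ u → v x < 1 := by
    rw [Filter.eventually_all_finite (Fct_finite hg)]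
    intro v hv
    by_cases hvu : v = u
    · exact Eventually.of_forall fun x h => absurd hvu h
    · have hc : Continuous v := v.continuous_of_finiteDimensional
      filter_upwards [hc.continuousAt.eventually (gt_mem_nhds (h1 v hv hvu))] with x hx _
      exact hx
  have e2 : ∀ᶠ x in 𝓝 y, ∀ v ∈ Fct g, v ≠ u → v (a - x) < 1 := by
    rw [Filter.eventually_all_finite (Fct_finite hg)]
    intro v hv
    by_cases hvu : v = u
    · exact Eventually.of_forall fun x h => absurd hvu h
    · have hc : Continuous (fun x => v (a - x)) :=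
        v.continuous_of_finiteDimensional.comp (by fun_prop)
      filter_upwards [hc.continuousAt.eventually (gt_mem_nhds (h2 v hv hvu))] with x hx _
      exact hx
  filter_upwards [e1, e2] with x h3 h4
  rcases le_or_gt (u x) 1 with h5 | h5
  · left
    rw [mem_Zc_iff hg]
    intro v hv
    by_cases hvu : v = u
    · rw [hvu]; exact h5
    · exact (h3 v hv hvu).le
  · right
    rw [mem_Zc_iff hg]
    intro v hv
    by_cases hvu : -v = u
    · have : v (x - a) = u (a - x) := by
        rw [← hvu, LinearMap.neg_apply, ← map_neg]; simp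
      rw [this, map_sub, hua]
      linarith
    · have := h4 (-v) (neg_mem_Fct hv) hvu
      have e : v (x - a) = (-v) (a - x) := by
        rw [LinearMap.neg_apply, ← map_neg]; simp
      rw [e]; exact this.le

/-- generic points avoid countably many hyperplanes -/
lemma exists_generic {K : Type*} [Countable K] (φ : K → Dual ℝ V) {O : Set V} (hO : IsOpen O)
    (hne : O.Nonempty) : ∃ p ∈ O, ∀ k, φ k ≠ 0 → φ k p ≠ 0 := by
  let μ : Measure V := Measure.addHaar
  by_contra hcon
  push Not at hcon
  have hsub : O ⊆ ⋃ k : {k : K // φ k ≠ 0}, (LinearMap.ker (φ k) : Set V) := by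
    intro p hp
    obtain ⟨k, hk, hk0⟩ := hcon p hp
    exact mem_iUnion.2 ⟨⟨k, hk⟩, hk0⟩
  have h0 : μ (⋃ k : {k : K // φ k ≠ 0}, (LinearMap.ker (φ k) : Set V)) = 0 := by
    refine measure_iUnion_null fun k => Measure.addHaar_submodule μ _ ?_
    intro htop
    exact k.2 (LinearMap.ker_eq_top.1 htop)
  exact (hO.measure_pos μ hne).ne' (measure_mono_null hsub h0)

lemma indep_Fct {u v : Dual ℝ V} (hu : u ∈ Fct g) (hv : v ∈ Fct g) (h1 : v ≠ u) (h2 : v ≠ -u)
    {α β : ℝ} (h : α • u + β • v = 0) : α = 0 ∧ β = 0 := by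
  have hβ : β = 0 := by
    by_contra hβ
    have h3 : v = (-(α / β)) • u := by
      ext x
      have h4 := LinearMap.congr_fun h x
      simp only [LinearMap.add_apply, LinearMap.smul_apply, smul_eq_mul,
        LinearMap.zero_apply] at h4 ⊢
      field_simp
      linarith
    have h4 := hv.2
    rw [h3, hs_smul, hu.2, mul_one] at h4
    rcases eq_or_eq_neg_of_abs_eq h4 with h5 | h5
    · rw [h5, one_smul] at h3; exact h1 h3
    · apply h2
      ext x
      have h6 := LinearMap.congr_fun h3 x
      rw [h5] at h6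
      simp only [LinearMap.smul_apply, smul_eq_mul, LinearMap.neg_apply] at h6 ⊢
      linarith
  refine ⟨?_, hβ⟩
  rw [hβ, zero_smul, add_zero] at h
  rcases smul_eq_zero.1 h with h | h
  · exact h
  · exact absurd h hu.1.1

lemma Pack.cover (h : Pack g T) (x : V) : ∃ t ∈ T, x - t ∈ Zc g univ := by
  by_contra hcon
  have hT := h.countable
  have hF : Countable (Fct g) := (Fct_finite h.span).countable.to_subtype
  set U : Set V := {x : V | ∃ t ∈ T, x - t ∈ Zc g univ} with hU
  have hUc : IsClosed U := h.isClosed_cover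
  -- the family of functionals to avoid
  let φ : (Fct g) ⊕ ((T × (Fct g) × (Fct g)) ⊕ (T × (Fct g) × (Fct g))) → Dual ℝ V := fun k =>
    match k with
    | Sum.inl u => (u : Dual ℝ V)
    | Sum.inr (Sum.inl (t, u, v)) =>
        (1 + (v : Dual ℝ V) t) • (u : Dual ℝ V) - (1 + (u : Dual ℝ V) t) • (v : Dual ℝ V)
    | Sum.inr (Sum.inr (t, u, v)) =>
        ((v : Dual ℝ V) ((2 : ℝ) • qc g univ (u : Dual ℝ V) + t) - 1) • (u : Dual ℝ V)
          - (1 + (u : Dual ℝ V) t) • (v : Dual ℝ V)
  obtain ⟨p, hpO, hp⟩ := exists_generic φ hUc.isOpen_compl ⟨x, hcon⟩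
  let s : Set ℝ := {τ | τ • p ∈ U}
  have hsc : IsClosed s := hUc.preimage (by fun_prop)
  have h0s : (0 : ℝ) ∈ s := ⟨0, T.zero_mem, by simpa using zero_mem_Zc g univ⟩
  have hmain : Icc (0 : ℝ) 1 ⊆ s := by
    refine (hsc.inter isClosed_Icc).Icc_subset_of_forall_mem_nhdsWithin h0s ?_
    rintro τ ⟨⟨t, ht, htA⟩, hτ⟩
    have hcont : Continuous (fun τ : ℝ => τ • p - t) := by fun_prop
    refine nhdsWithin_le_nhds ?_
    by_cases hin : τ • p - t ∈ interior (Zc g univ)
    · have := hcont.continuousAt.eventually_mem (isOpen_interior.mem_nhds hin)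
      filter_upwards [this] with τ' hτ'
      exact ⟨t, ht, interior_subset hτ'⟩
    · obtain ⟨u, hu, hux⟩ := exists_Fct_of_boundary h.span htA hin
      have hτ0 : τ ≠ 0 := by
        rintro rfl
        rw [zero_smul, zero_sub] at htA hux
        have h1 : (1 / 2 : ℝ) • t ∈ interior (Zc g univ) := by
          have := neg_mem_Zc htA
          rw [neg_neg] at this
          exact smul_mem_interior h.span this (by norm_num) (by norm_num)
        have h2 := h.hard t ht h1
        rw [h2] at hux
        simp at hux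
      have hup : u p ≠ 0 := hp (Sum.inl ⟨u, hu⟩) hu.1.1
      have hux' : τ * u p = 1 + u t := by
        rw [map_sub, map_smul, smul_eq_mul] at hux; linarith
      have c1 : ∀ v ∈ Fct g, v ≠ u → v (τ • p - t) < 1 := by
        intro v hv hvu
        refine lt_of_le_of_ne (Fct_apply_le hv htA) fun hv1 => ?_
        have hvn : v ≠ -u := by
          rintro rfl
          rw [LinearMap.neg_apply, hux] at hv1
          norm_num at hv1
        have hv1' : τ * v p = 1 + v t := by
          rw [map_sub, map_smul, smul_eq_mul] at hv1; linarith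
        have hk := hp (Sum.inr (Sum.inl (⟨t, ht⟩, ⟨u, hu⟩, ⟨v, hv⟩)))
        simp only [φ] at hk
        have hne : (1 + v t) • u - (1 + u t) • v ≠ 0 := by
          intro h0
          have := indep_Fct hu hv hvu hvn (α := 1 + v t) (β := -(1 + u t)) (by
            ext x
            have h4 := LinearMap.congr_fun h0 x
            simp only [LinearMap.add_apply, LinearMap.sub_apply, LinearMap.smul_apply,
              smul_eq_mul, LinearMap.zero_apply] at h4 ⊢
            linarith)
          have h3 : τ * u p = 0 := by rw [hux']; linarith [this.2]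
          exact (mul_ne_zero hτ0 hup) h3
        apply hk hne
        simp only [LinearMap.sub_apply, LinearMap.smul_apply, smul_eq_mul]
        rw [← hv1', ← hux']; ring
      have c2 : ∀ v ∈ Fct g, v ≠ u → v ((2 : ℝ) • qc g univ u - (τ • p - t)) < 1 := by
        intro v hv hvu
        refine lt_of_le_of_ne (Fct_apply_le hv (reflect_mem htA hu hux)) fun hv1 => ?_
        have hvn : v ≠ -u := by
          rintro rfl
          rw [LinearMap.neg_apply, map_sub, hux, map_smul, apply_qc, hu.2] at hv1
          norm_num at hv1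
        have hv1' : τ * v p = v ((2 : ℝ) • qc g univ u + t) - 1 := by
          rw [map_sub, map_sub, map_smul (f := v) (c := τ), smul_eq_mul] at hv1
          rw [map_add]; linarith
        have hk := hp (Sum.inr (Sum.inr (⟨t, ht⟩, ⟨u, hu⟩, ⟨v, hv⟩)))
        simp only [φ] at hk
        have hne : (v ((2 : ℝ) • qc g univ u + t) - 1) • u - (1 + u t) • v ≠ 0 := by
          intro h0
          have := indep_Fct hu hv hvu hvn (α := v ((2 : ℝ) • qc g univ u + t) - 1)
            (β := -(1 + u t)) (by
            ext x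
            have h4 := LinearMap.congr_fun h0 x
            simp only [LinearMap.add_apply, LinearMap.sub_apply, LinearMap.smul_apply,
              smul_eq_mul, LinearMap.zero_apply] at h4 ⊢
            linarith)
          have h3 : τ * u p = 0 := by rw [hux']; linarith [this.2]
          exact (mul_ne_zero hτ0 hup) h3
        apply hk hne
        simp only [LinearMap.sub_apply, LinearMap.smul_apply, smul_eq_mul]
        rw [← hv1', ← hux']; ring
      have hb := half_ball h.span hu c1 c2
      have := hcont.continuousAt.eventually hb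
      filter_upwards [this] with τ' hτ'
      rcases hτ' with h3 | h3
      · exact ⟨t, ht, h3⟩
      · refine ⟨t + (2 : ℝ) • qc g univ u, T.add_mem ht (h.facet u hu), ?_⟩
        rwa [← sub_sub]
  have h1 : (1 : ℝ) ∈ s := hmain ⟨zero_le_one, le_rfl⟩
  apply hpO
  have : (1 : ℝ) • p ∈ U := h1
  rwa [one_smul] at this

lemma Pack.isFD (h : Pack g T) : IsAddFundamentalDomain T (Zc g univ) μ := by
  have hcl := (isCompact_Zc g (univ : Set ι)).isClosed
  refine ⟨hcl.measurableSet.nullMeasurableSet, Eventually.of_forall fun x => ?_, ?_⟩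
  · obtain ⟨t, ht, hx⟩ := h.cover x
    refine ⟨⟨-t, T.neg_mem ht⟩, ?_⟩
    rw [AddSubgroup.vadd_def, vadd_eq_add]
    show -t + x ∈ _
    rwa [neg_add_eq_sub]
  · intro t t' htt'
    show μ ((t +ᵥ Zc g univ) ∩ (t' +ᵥ Zc g univ)) = 0
    have hfr : ∀ t : T, μ (frontier (t +ᵥ Zc g univ)) = 0 := fun t => by
      have hconv : Convex ℝ (t +ᵥ Zc g univ) := by
        have : (t +ᵥ Zc g univ) = ((t : V) +ᵥ Zc g univ) := rfl
        rw [this]
        exact (convex_Zc g univ).vadd _
      exact hconv.addHaar_frontier μ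
    have hsub : (t +ᵥ Zc g univ) ∩ (t' +ᵥ Zc g univ) ⊆
        frontier (t +ᵥ Zc g univ) ∪ frontier (t' +ᵥ Zc g univ) := by
      rintro x ⟨hx1, hx2⟩
      have hclt : ∀ t : T, IsClosed (t +ᵥ Zc g univ) := fun t => by
        have : (t +ᵥ Zc g univ) = ((t : V) +ᵥ Zc g univ) := rfl
        rw [this]
        exact ((isCompact_Zc g univ).vadd (t : V)).isClosed
      by_contra hnot
      rw [mem_union, not_or] at hnot
      have hint : ∀ t : T, x ∈ (t +ᵥ Zc g univ) → x ∉ frontier (t +ᵥ Zc g univ) →
          x - (t : V) ∈ interior (Zc g univ) := by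
        intro t h1 h2
        have h3 : x ∈ interior (t +ᵥ Zc g univ) := by
          by_contra h4
          exact h2 ⟨subset_closure h1, h4⟩
        have h5 : (t +ᵥ Zc g univ) = ((t : V) +ᵥ Zc g univ) := rfl
        rw [h5, interior_vadd, mem_vadd_set_iff_neg_vadd_mem, vadd_eq_add, neg_add_eq_sub] at h3
        exact h3
      have h1 := hint t hx1 hnot.1
      have h2 := hint t' hx2 hnot.2
      have h3 : (1 / 2 : ℝ) • ((t' : V) - t) ∈ interior (Zc g univ) := by
        have hneg : -(x - (t' : V)) ∈ Zc g univ := neg_mem_Zc (interior_subset h2)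
        have := (convex_Zc g univ).combo_interior_self_mem_interior h1 hneg
          (a := 1 / 2) (b := 1 / 2) (by norm_num) (by norm_num) (by norm_num)
        rw [← smul_add] at this
        have e : x - (t : V) + -(x - (t' : V)) = t' - t := by abel
        rwa [e] at this
      have h4 := h.hard _ (T.sub_mem t'.2 t.2) h3
      exact htt' (Subtype.ext (sub_eq_zero.1 h4).symm)
    exact measure_mono_null hsub (measure_union_null (hfr t) (hfr t'))

/-- the exponential with frequency `s` -/
noncomputable def ex (s : Dual ℝ V) (x : V) : ℂ := Complex.exp (2 * Real.pi * Complex.I * (s x : ℝ))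

lemma ex_add_right (s : Dual ℝ V) (x y : V) : ex s (x + y) = ex s x * ex s y := by
  unfold ex
  rw [← Complex.exp_add, map_add]
  congr 1
  push_cast; ring

lemma ex_add_left (s r : Dual ℝ V) (x : V) : ex (s + r) x = ex s x * ex r x := by
  unfold ex
  rw [← Complex.exp_add, LinearMap.add_apply]
  congr 1
  push_cast; ring

lemma norm_ex (s : Dual ℝ V) (x : V) : ‖ex s x‖ = 1 := by
  unfold ex
  have : (2 * Real.pi * Complex.I * (s x : ℝ) : ℂ) = ((2 * Real.pi * s x : ℝ) : ℂ) * Complex.I := by
    push_cast; ring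
  rw [this, Complex.norm_exp_ofReal_mul_I]

lemma continuous_ex (s : Dual ℝ V) : Continuous (ex s) := by
  unfold ex
  have : Continuous s := s.continuous_of_finiteDimensional
  fun_prop

lemma ex_eq_one_iff (s : Dual ℝ V) (x : V) : ex s x = 1 ↔ ∃ n : ℤ, s x = n := by
  unfold ex
  rw [Complex.exp_eq_one_iff]
  constructor
  · rintro ⟨n, hn⟩
    refine ⟨n, ?_⟩
    have h2 : (2 * Real.pi * Complex.I : ℂ) ≠ 0 := by
      simp [Real.pi_ne_zero]
    have h3 : ((s x : ℝ) : ℂ) = (n : ℂ) := by
      apply mul_left_cancel₀ h2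
      rw [hn]; ring
    exact_mod_cast h3
  · rintro ⟨n, hn⟩
    refine ⟨n, ?_⟩
    rw [hn]; push_cast; ring

lemma Pack.integral_zero (h : Pack g T) {ξ : Dual ℝ V} (hξ : ξ ≠ 0)
    (hT : ∀ t ∈ T, ∃ n : ℤ, ξ t = n) : ∫ x in Zc g univ, ex ξ x ∂μ = 0 := by
  have := h.countable
  obtain ⟨w, hw⟩ : ∃ w, ξ w ≠ 0 := by
    by_contra hcon
    push Not at hcon
    exact hξ (LinearMap.ext hcon)
  set v := (1 / (2 * ξ w)) • w with hv
  have hξv : ξ v = 1 / 2 := by
    rw [hv, map_smul, smul_eq_mul]; field_simp
  have hexv : ex ξ v = -1 := by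
    unfold ex
    rw [hξv]
    have : (2 * Real.pi * Complex.I * ((1 / 2 : ℝ) : ℂ) : ℂ) = Real.pi * Complex.I := by
      push_cast; ring
    rw [this, Complex.exp_pi_mul_I]
  have hinv : ∀ (t : T) (x : V), ex ξ (t +ᵥ x) = ex ξ x := by
    intro t x
    rw [AddSubgroup.vadd_def, vadd_eq_add, ex_add_right]
    rw [(ex_eq_one_iff ξ t).2 (hT t t.2), one_mul]
  have hFD : IsAddFundamentalDomain T (Zc g univ) μ := h.isFD
  have hFD2 : IsAddFundamentalDomain T (v +ᵥ Zc g univ) μ := hFD.vadd_of_comm v
  have h1 := hFD.setIntegral_eq hFD2 hinv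
  have h2 : ∫ x in v +ᵥ Zc g univ, ex ξ x ∂μ = ∫ x in Zc g univ, ex ξ (v + x) ∂μ := by
    have hmp := measurePreserving_add_left μ v
    have := hmp.setIntegral_image_emb (measurableEmbedding_addLeft v) (ex ξ) (Zc g univ)
    exact this
  rw [h2] at h1
  simp only [ex_add_right, hexv] at h1
  rw [integral_const_mul] at h1
  have h3 : (2 : ℂ) * ∫ x in Zc g univ, ex ξ x ∂μ = 0 := by
    linear_combination h1
  rcases mul_eq_zero.1 h3 with h4 | h4
  · norm_num at h4
  · exact h4

end Lattice

end Pool.Agent.Lib_MP_5ddbb8_an
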