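import Mathlib

/-!
Quasi-periodic extension spaces: from an orthogonal basis of quasi-periodic functions on one
window to a space of global functions whose mass in every window is the same.
-/

set_option linter.unusedSectionVars false
set_option linter.unusedSimpArgs false
set_option linter.unusedVariables false

open scoped Pointwise Topology ENNReal ComplexConjugate
open Module Set MeasureTheory Filter

namespace Pool.Agent.Lib_MP_5ddbb8_an

/-- a family (indexed by `S`) is a countable complete orthogonal system of `L²(m)` -/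
def IsOB {X : Type*} [MeasurableSpace X] {J : Type*} (m : Measure X) (E : J → X → ℂ)
    (S : Set J) : Prop :=
  S.Countable ∧ (∀ i ∈ S, ∀ j ∈ S, i ≠ j → ∫ x, E i x * conj (E j x) ∂m = 0) ∧
    ∀ f : X → ℂ, MemLp f 2 m → (∀ i ∈ S, ∫ x, f x * conj (E i x) ∂m = 0) → f =ᵐ[m] 0

section QT

variable {V : Type*} [NormedAddCommGroup V] [NormedSpace ℝ V] [FiniteDimensional ℝ V]
  [MeasurableSpace V] [BorelSpace V]
variable {Y : Type*} [MeasurableSpace Y] {J : Type*}

/-- quasi-periodic unimodular families -/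
structure Fam (E : J → V × Y → ℂ) : Prop where
  meas : ∀ i, Measurable (E i)
  norm : ∀ i p, ‖E i p‖ = 1
  trans : ∀ i a, ∃ c : ℂ, ‖c‖ = 1 ∧ ∀ x y, E i (x + a, y) = c * E i (x, y)

/-- the window at `z` -/
def win (A : Set V) (z : V) : Set V := {x | x - z ∈ A}

/-- the measure on the window at `z` times `Y` -/
noncomputable def mz (μ : Measure V) (ν : Measure Y) (A : Set V) (z : V) : Measure (V × Y) :=
  (μ.restrict (win A z)).prod ν

/-- the data -/
structure Setup (μ : Measure V) (ν : Measure Y) (A : Set V) (E : J → V × Y → ℂ) (S : Set J) :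
    Prop where
  comp : IsCompact A
  conv : Convex ℝ A
  symm : ∀ x ∈ A, -x ∈ A
  nhds : (0 : V) ∈ interior A
  fam : Fam E
  nu : ν ≠ 0
  ob : IsOB (mz μ ν A 0) E S

variable {μ : Measure V} [μ.IsAddHaarMeasure] {ν : Measure Y} [IsFiniteMeasure ν]
variable {A : Set V} {E : J → V × Y → ℂ} {S : Set J}

/-- the span of the family -/
def PP (E : J → V × Y → ℂ) (S : Set J) : Submodule ℂ (V × Y → ℂ) := Submodule.span ℂ (E '' S)

/-- the extension space -/
def MM (μ : Measure V) (ν : Measure Y) (A : Set V) (E : J → V × Y → ℂ) (S : Set J) :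
    Set (V × Y → ℂ) :=
  {F | AEStronglyMeasurable F (μ.prod ν) ∧
    ∀ ε : ℝ≥0∞, 0 < ε → ∃ p ∈ PP E S, ∀ z, eLpNorm (F - p) 2 (mz μ ν A z) ≤ ε}

lemma win_eq_preimage (A : Set V) (z : V) : win A z = (fun x => x + (-z)) ⁻¹' A := by
  ext x; simp [win, sub_eq_add_neg]

lemma win_eq_vadd (A : Set V) (z : V) : win A z = z +ᵥ A := by
  ext x
  rw [mem_vadd_set_iff_neg_vadd_mem]
  simp [win, sub_eq_add_neg, add_comm]

lemma isCompact_win {A : Set V} (hA : IsCompact A) (z : V) : IsCompact (win A z) := by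
  rw [win_eq_vadd]; exact hA.vadd z

lemma measurableSet_win {A : Set V} (hA : IsCompact A) (z : V) : MeasurableSet (win A z) :=
  (isCompact_win hA z).isClosed.measurableSet

lemma mu_win (A : Set V) (z : V) : μ (win A z) = μ A := by
  rw [win_eq_preimage]; exact measure_preimage_add_right μ (-z) A

lemma isFiniteMeasure_mz {A : Set V} (hA : IsCompact A) (z : V) :
    IsFiniteMeasure (mz μ ν A z) := by
  have : IsFiniteMeasure (μ.restrict (win A z)) :=
    ⟨by rw [Measure.restrict_apply_univ]; exact (isCompact_win hA z).measure_lt_top⟩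
  unfold mz
  infer_instance

lemma mz_univ (A : Set V) (z z' : V) : mz μ ν A z univ = mz μ ν A z' univ := by
  unfold mz
  rw [← univ_prod_univ, Measure.prod_prod, Measure.prod_prod, Measure.restrict_apply_univ,
    Measure.restrict_apply_univ, mu_win, mu_win]

lemma mz_eq_restrict (z : V) : mz μ ν A z = (μ.prod ν).restrict (win A z ×ˢ univ) := by
  unfold mz
  have := Measure.prod_restrict (μ := μ) (ν := ν) (win A z) univ
  rwa [Measure.restrict_univ] at this

lemma mz_ac (z : V) : mz μ ν A z ≪ μ.prod ν := by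
  rw [mz_eq_restrict]; exact Measure.restrict_le_self.absolutelyContinuous

/-- translations preserve window measures -/
lemma measurePreserving_mz (hA : IsCompact A) (z a : V) :
    MeasurePreserving (fun p : V × Y => (p.1 + a, p.2)) (mz μ ν A z) (mz μ ν A (z + a)) := by
  have h1 : MeasurePreserving (fun x : V => x + a) (μ.restrict (win A z))
      (μ.restrict (win A (z + a))) := by
    have := (measurePreserving_add_right μ a).restrict_preimage (measurableSet_win hA (z + a))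
    have e : (fun x => x + a) ⁻¹' win A (z + a) = win A z := by
      ext x
      simp only [win, mem_preimage, mem_ofPred_eq, add_sub_add_right_eq_sub]
    rwa [e] at this
  have : IsFiniteMeasure (μ.restrict (win A z)) :=
    ⟨by rw [Measure.restrict_apply_univ]; exact (isCompact_win hA z).measure_lt_top⟩
  have h2 := h1.prod (MeasurePreserving.id ν)
  exact h2

lemma measurableEmbedding_trans (a : V) :
    MeasurableEmbedding (fun p : V × Y => (p.1 + a, p.2)) := by
  exact ((MeasurableEquiv.addRight a).prodCongr (MeasurableEquiv.refl Y)).measurableEmbedding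

lemma PP_bdd (hE : Fam E) {p : V × Y → ℂ} (hp : p ∈ PP E S) :
    Measurable p ∧ ∃ C : ℝ, ∀ x, ‖p x‖ ≤ C := by
  refine Submodule.span_induction (p := fun p _ => Measurable p ∧ ∃ C : ℝ, ∀ x, ‖p x‖ ≤ C)
    ?_ ?_ ?_ ?_ hp
  · rintro _ ⟨i, -, rfl⟩
    exact ⟨hE.meas i, 1, fun x => (hE.norm i x).le⟩
  · exact ⟨measurable_const, 0, fun x => by simp⟩
  · rintro p q - - ⟨hp1, C, hC⟩ ⟨hq1, D, hD⟩
    exact ⟨hp1.add hq1, C + D, fun x => (norm_add_le _ _).trans (add_le_add (hC x) (hD x))⟩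
  · rintro c p - ⟨hp1, C, hC⟩
    refine ⟨hp1.const_smul c, ‖c‖ * C, fun x => ?_⟩
    rw [Pi.smul_apply, norm_smul]
    exact mul_le_mul_of_nonneg_left (hC x) (norm_nonneg c)

lemma PP_memLp (hA : IsCompact A) (hE : Fam E) {p : V × Y → ℂ} (hp : p ∈ PP E S) (z : V) :
    MemLp p 2 (mz μ ν A z) := by
  obtain ⟨h1, C, hC⟩ := PP_bdd hE hp
  have := isFiniteMeasure_mz (μ := μ) (ν := ν) hA z
  exact MemLp.of_bound h1.aestronglyMeasurable C (Eventually.of_forall hC)

lemma PP_integrable (hA : IsCompact A) (hE : Fam E) {p q : V × Y → ℂ} (hp : p ∈ PP E S)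
    (hq : q ∈ PP E S) (z : V) : Integrable (fun x => p x * conj (q x)) (mz μ ν A z) := by
  obtain ⟨h1, C, hC⟩ := PP_bdd hE hp
  obtain ⟨h2, D, hD⟩ := PP_bdd hE hq
  have := isFiniteMeasure_mz (μ := μ) (ν := ν) hA z
  refine Integrable.of_bound (C := C * D) ?_ (Eventually.of_forall fun x => ?_)
  · exact (h1.mul (Complex.continuous_conj.measurable.comp h2)).aestronglyMeasurable
  · rw [norm_mul, RCLike.norm_conj]
    have h3 : 0 ≤ ‖p x‖ := norm_nonneg _
    have h4 : 0 ≤ ‖q x‖ := norm_nonneg _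
    exact mul_le_mul (hC x) (hD x) h4 (h3.trans (hC x))

lemma E_inner_inv (hs : Setup μ ν A E S) {i j : J} (hi : i ∈ S) (hj : j ∈ S) (z : V) :
    ∫ x, E i x * conj (E j x) ∂(mz μ ν A z) = ∫ x, E i x * conj (E j x) ∂(mz μ ν A 0) := by
  by_cases hij : i = j
  · subst hij
    have h1 : ∀ x, E i x * conj (E i x) = 1 := fun x => by
      rw [Complex.mul_conj, Complex.normSq_eq_norm_sq, hs.fam.norm]; simp
    simp only [h1, integral_const, Measure.real, mz_univ A z 0]
  · rw [hs.ob.2.1 i hi j hj hij]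
    obtain ⟨c, hc, hc'⟩ := hs.fam.trans i z
    obtain ⟨d, hd, hd'⟩ := hs.fam.trans j z
    have hmp := measurePreserving_mz (μ := μ) (ν := ν) hs.comp 0 z
    rw [zero_add] at hmp
    rw [← hmp.integral_comp (measurableEmbedding_trans z) (fun x => E i x * conj (E j x))]
    have h2 : ∀ x : V × Y, E i (x.1 + z, x.2) * conj (E j (x.1 + z, x.2)) =
        (c * conj d) * (E i x * conj (E j x)) := by
      rintro ⟨x, y⟩
      rw [hc', hd', map_mul]; ring
    simp only [h2]
    rw [integral_const_mul, hs.ob.2.1 i hi j hj hij, mul_zero]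

lemma PP_inner_inv (hs : Setup μ ν A E S) {p q : V × Y → ℂ} (hp : p ∈ PP E S)
    (hq : q ∈ PP E S) (z : V) :
    ∫ x, p x * conj (q x) ∂(mz μ ν A z) = ∫ x, p x * conj (q x) ∂(mz μ ν A 0) := by
  have hint : ∀ {p q : V × Y → ℂ}, p ∈ PP E S → q ∈ PP E S → ∀ z,
      Integrable (fun x => p x * conj (q x)) (mz μ ν A z) :=
    fun hp hq z => PP_integrable hs.comp hs.fam hp hq z
  refine Submodule.span_induction (p := fun p _ => ∫ x, p x * conj (q x) ∂(mz μ ν A z) =
    ∫ x, p x * conj (q x) ∂(mz μ ν A 0)) ?_ ?_ ?_ ?_ hp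
  · rintro _ ⟨i, hi, rfl⟩
    refine Submodule.span_induction (p := fun q _ => ∫ x, E i x * conj (q x) ∂(mz μ ν A z) =
      ∫ x, E i x * conj (q x) ∂(mz μ ν A 0)) ?_ ?_ ?_ ?_ hq
    · rintro _ ⟨j, hj, rfl⟩
      exact E_inner_inv hs hi hj z
    · simp
    · rintro q r hq hr h1 h2
      have hEi : E i ∈ PP E S := Submodule.subset_span ⟨i, hi, rfl⟩
      simp only [Pi.add_apply, map_add, mul_add]
      rw [integral_add (hint hEi hq z) (hint hEi hr z), integral_add (hint hEi hq 0)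
        (hint hEi hr 0), h1, h2]
    · rintro c q hq h1
      have h2 : ∀ x, E i x * conj ((c • q) x) = conj c * (E i x * conj (q x)) := fun x => by
        simp only [Pi.smul_apply, smul_eq_mul, map_mul]; ring
      simp only [h2]
      rw [integral_const_mul, integral_const_mul, h1]
  · simp
  · rintro p r hp hr h1 h2
    simp only [Pi.add_apply, add_mul]
    rw [integral_add (hint hp hq z) (hint hr hq z), integral_add (hint hp hq 0)
      (hint hr hq 0), h1, h2]
  · rintro c p hp h1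
    have h2 : ∀ x, (c • p) x * conj (q x) = c * (p x * conj (q x)) := fun x => by
      simp only [Pi.smul_apply, smul_eq_mul]; ring
    simp only [h2]
    rw [integral_const_mul, integral_const_mul, h1]

lemma PP_norm_inv (hs : Setup μ ν A E S) {p : V × Y → ℂ} (hp : p ∈ PP E S) (z z' : V) :
    eLpNorm p 2 (mz μ ν A z) = eLpNorm p 2 (mz μ ν A z') := by
  have key : ∀ z, eLpNorm p 2 (mz μ ν A z) = eLpNorm p 2 (mz μ ν A 0) := by
    intro z
    have h1 := (PP_memLp hs.comp hs.fam hp z (μ := μ) (ν := ν))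
    have h2 := (PP_memLp hs.comp hs.fam hp (0 : V) (μ := μ) (ν := ν))
    rw [MemLp.eLpNorm_eq_integral_rpow_norm (by norm_num) (by norm_num) h1,
      MemLp.eLpNorm_eq_integral_rpow_norm (by norm_num) (by norm_num) h2]
    congr 2
    have h3 : ∀ x, ((‖p x‖ ^ (2 : ℝ≥0∞).toReal : ℝ) : ℂ) = p x * conj (p x) := fun x => by
      rw [Complex.mul_conj, Complex.normSq_eq_norm_sq]
      simp
    have h4 := PP_inner_inv hs hp hp z
    simp only [← h3] at h4
    rw [integral_complex_ofReal, integral_complex_ofReal] at h4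
    exact_mod_cast h4
  rw [key z, key z']

lemma PP_subset_MM (hs : Setup μ ν A E S) {p : V × Y → ℂ} (hp : p ∈ PP E S) :
    p ∈ MM μ ν A E S :=
  ⟨(PP_bdd hs.fam hp).1.aestronglyMeasurable, fun ε hε => ⟨p, hp, fun z => by simp⟩⟩

lemma MM_meas {F : V × Y → ℂ} (hF : F ∈ MM μ ν A E S) (z : V) :
    AEStronglyMeasurable F (mz μ ν A z) := hF.1.mono_ac (mz_ac z)

lemma MM_norm_le (hs : Setup μ ν A E S) {F : V × Y → ℂ} (hF : F ∈ MM μ ν A E S) (z z' : V) :
    eLpNorm F 2 (mz μ ν A z) ≤ eLpNorm F 2 (mz μ ν A z') := by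
  refine ENNReal.le_of_forall_pos_le_add fun ε hε _ => ?_
  obtain ⟨p, hp, hpz⟩ := hF.2 (ε / 2 : NNReal) (by
    exact_mod_cast half_pos hε)
  have hpm : ∀ z, AEStronglyMeasurable p (mz μ ν A z) := fun z =>
    (PP_memLp hs.comp hs.fam hp z (μ := μ) (ν := ν)).1
  have h1 : eLpNorm F 2 (mz μ ν A z) ≤ eLpNorm (F - p) 2 (mz μ ν A z) +
      eLpNorm p 2 (mz μ ν A z) := by
    have := eLpNorm_add_le ((MM_meas hF z).sub (hpm z)) (hpm z) (p := 2) (by norm_num)
    simpa using this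
  have h2 : eLpNorm p 2 (mz μ ν A z') ≤ eLpNorm (F - p) 2 (mz μ ν A z') +
      eLpNorm F 2 (mz μ ν A z') := by
    have := eLpNorm_add_le ((hpm z').sub (MM_meas hF z')) (MM_meas hF z') (p := 2) (by norm_num)
    rw [eLpNorm_sub_comm] at this
    simpa using this
  calc eLpNorm F 2 (mz μ ν A z) ≤ eLpNorm (F - p) 2 (mz μ ν A z) +
      eLpNorm p 2 (mz μ ν A z) := h1
    _ = eLpNorm (F - p) 2 (mz μ ν A z) + eLpNorm p 2 (mz μ ν A z') := by
        rw [PP_norm_inv hs hp z z']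
    _ ≤ (ε / 2 : NNReal) + ((ε / 2 : NNReal) + eLpNorm F 2 (mz μ ν A z')) := by
        gcongr
        · exact hpz z
        · exact h2.trans (by gcongr; exact hpz z')
    _ = eLpNorm F 2 (mz μ ν A z') + ε := by
        rw [← add_assoc, ← ENNReal.coe_add, add_halves, add_comm]

lemma MM_norm_eq (hs : Setup μ ν A E S) {F : V × Y → ℂ} (hF : F ∈ MM μ ν A E S) (z z' : V) :
    eLpNorm F 2 (mz μ ν A z) = eLpNorm F 2 (mz μ ν A z') :=
  le_antisymm (MM_norm_le hs hF z z') (MM_norm_le hs hF z' z)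

lemma MM_norm_lt_top (hs : Setup μ ν A E S) {F : V × Y → ℂ} (hF : F ∈ MM μ ν A E S) (z : V) :
    eLpNorm F 2 (mz μ ν A z) < ⊤ := by
  obtain ⟨p, hp, hpz⟩ := hF.2 1 one_pos
  have hpm := PP_memLp hs.comp hs.fam hp z (μ := μ) (ν := ν)
  have h1 : eLpNorm F 2 (mz μ ν A z) ≤ eLpNorm (F - p) 2 (mz μ ν A z) +
      eLpNorm p 2 (mz μ ν A z) := by
    have := eLpNorm_add_le ((MM_meas hF z).sub hpm.1) hpm.1 (p := 2) (by norm_num)
    simpa using this
  exact h1.trans_lt (ENNReal.add_lt_top.2 ⟨(hpz z).trans_lt ENNReal.one_lt_top, hpm.2⟩)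

lemma MM_add (hs : Setup μ ν A E S) {F G : V × Y → ℂ} (hF : F ∈ MM μ ν A E S)
    (hG : G ∈ MM μ ν A E S) : F + G ∈ MM μ ν A E S := by
  refine ⟨hF.1.add hG.1, fun ε hε => ?_⟩
  have hε2 : 0 < ε / 2 := ENNReal.half_pos hε.ne'
  obtain ⟨p, hp, hpz⟩ := hF.2 (ε / 2) hε2
  obtain ⟨q, hq, hqz⟩ := hG.2 (ε / 2) hε2
  refine ⟨p + q, Submodule.add_mem _ hp hq, fun z => ?_⟩
  have hpm := (PP_memLp hs.comp hs.fam hp z (μ := μ) (ν := ν)).1
  have hqm := (PP_memLp hs.comp hs.fam hq z (μ := μ) (ν := ν)).1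
  have e : F + G - (p + q) = (F - p) + (G - q) := by abel
  rw [e]
  calc eLpNorm ((F - p) + (G - q)) 2 (mz μ ν A z) ≤ eLpNorm (F - p) 2 (mz μ ν A z) +
      eLpNorm (G - q) 2 (mz μ ν A z) :=
        eLpNorm_add_le ((MM_meas hF z).sub hpm) ((MM_meas hG z).sub hqm) (by norm_num)
    _ ≤ ε / 2 + ε / 2 := add_le_add (hpz z) (hqz z)
    _ = ε := ENNReal.add_halves ε

lemma MM_neg (hs : Setup μ ν A E S) {F : V × Y → ℂ} (hF : F ∈ MM μ ν A E S) :
    -F ∈ MM μ ν A E S := by
  refine ⟨hF.1.neg, fun ε hε => ?_⟩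
  obtain ⟨p, hp, hpz⟩ := hF.2 ε hε
  refine ⟨-p, Submodule.neg_mem _ hp, fun z => ?_⟩
  have e : -F - -p = -(F - p) := by abel
  rw [e, eLpNorm_neg]
  exact hpz z

lemma MM_sub (hs : Setup μ ν A E S) {F G : V × Y → ℂ} (hF : F ∈ MM μ ν A E S)
    (hG : G ∈ MM μ ν A E S) : F - G ∈ MM μ ν A E S := by
  rw [sub_eq_add_neg]; exact MM_add hs hF (MM_neg hs hG)

/-- density of the span in every window -/
lemma dense_window (hs : Setup μ ν A E S) (z : V) {f : V × Y → ℂ}
    (hf : MemLp f 2 (mz μ ν A z)) {ε : ℝ≥0∞} (hε : 0 < ε) :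
    ∃ p ∈ PP E S, eLpNorm (f - p) 2 (mz μ ν A z) < ε := by
  have hfin := isFiniteMeasure_mz (μ := μ) (ν := ν) hs.comp z
  have hEm : ∀ i, MemLp (E i) 2 (mz μ ν A z) := fun i =>
    MemLp.of_bound (hs.fam.meas i).aestronglyMeasurable 1
      (Eventually.of_forall fun x => (hs.fam.norm i x).le)
  let K : Submodule ℂ (Lp ℂ 2 (mz μ ν A z)) :=
    Submodule.span ℂ ((fun i => (hEm i).toLp (E i)) '' S)
  have hK : Kᗮ = ⊥ := by
    rw [Submodule.eq_bot_iff]
    intro h hh
    have h1 : ∀ i ∈ S, ∫ x, h x * conj (E i x) ∂(mz μ ν A z) = 0 := by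
      intro i hi
      have h2 := hh ((hEm i).toLp (E i)) (Submodule.subset_span ⟨i, hi, rfl⟩)
      rw [L2.inner_def] at h2
      rw [← h2]
      refine integral_congr_ae ?_
      filter_upwards [(hEm i).coeFn_toLp] with x hx
      rw [hx]
      simp [mul_comm]
    -- pull back to the window at 0
    have hmp := measurePreserving_mz (μ := μ) (ν := ν) hs.comp 0 z
    rw [zero_add] at hmp
    have hmem : MemLp (fun p : V × Y => h (p.1 + z, p.2)) 2 (mz μ ν A 0) :=
      (Lp.memLp h).comp_measurePreserving hmp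
    have h0 := hs.ob.2.2 _ hmem (fun i hi => by
      obtain ⟨c, hc, hc'⟩ := hs.fam.trans i z
      have h3 : ∀ p : V × Y, h (p.1 + z, p.2) * conj (E i p) =
          c * (h (p.1 + z, p.2) * conj (E i (p.1 + z, p.2))) := by
        rintro ⟨x, y⟩
        rw [hc', map_mul]
        have h4 : c * conj c = 1 := by
          rw [Complex.mul_conj, Complex.normSq_eq_norm_sq, hc]; simp
        calc h (x + z, y) * conj (E i (x, y)) =
              (c * conj c) * (h (x + z, y) * conj (E i (x, y))) := by rw [h4, one_mul]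
          _ = _ := by ring
      simp only [h3]
      rw [integral_const_mul]
      have h5 := hmp.integral_comp (measurableEmbedding_trans z) (fun x => h x * conj (E i x))
      rw [h5, h1 i hi, mul_zero])
    have key6 : ∀ φ : V × Y → ℂ, (fun p : V × Y => φ (p.1 + z, p.2)) =ᵐ[mz μ ν A 0] 0 →
        φ =ᵐ[mz μ ν A z] 0 := by
      intro φ hφ
      rw [← hmp.map_eq, Filter.EventuallyEq, (measurableEmbedding_trans z).ae_map_iff]
      exact hφ
    exact (Lp.eq_zero_iff_ae_eq_zero).2 (key6 _ h0)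
  have hKtop := Submodule.topologicalClosure_eq_top_iff.2 hK
  have hmem : hf.toLp f ∈ K.topologicalClosure := by rw [hKtop]; trivial
  have hmem' : hf.toLp f ∈ closure (K : Set (Lp ℂ 2 (mz μ ν A z))) := hmem
  obtain ⟨δ, hδ, hδε⟩ : ∃ δ : ℝ, 0 < δ ∧ ENNReal.ofReal δ ≤ ε := by
    rcases eq_or_ne ε ⊤ with h | h
    · exact ⟨1, one_pos, by rw [h]; exact le_top⟩
    · exact ⟨ε.toReal, ENNReal.toReal_pos hε.ne' h, by rw [ENNReal.ofReal_toReal h]⟩
  obtain ⟨k, hk, hkd⟩ := Metric.mem_closure_iff.1 hmem' δ hδ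
  have hrep : ∀ k ∈ K, ∃ p ∈ PP E S, k =ᵐ[mz μ ν A z] p := by
    intro k hk
    refine Submodule.span_induction
      (p := fun (k : Lp ℂ 2 (mz μ ν A z)) _ =>
        ∃ p ∈ PP E S, (k : V × Y → ℂ) =ᵐ[mz μ ν A z] p) ?_ ?_ ?_ ?_ hk
    · rintro _ ⟨i, hi, rfl⟩
      exact ⟨E i, Submodule.subset_span ⟨i, hi, rfl⟩, (hEm i).coeFn_toLp⟩
    · exact ⟨0, Submodule.zero_mem _, Lp.coeFn_zero _ _ _⟩
    · rintro a b - - ⟨p, hp, hap⟩ ⟨q, hq, hbq⟩
      exact ⟨p + q, Submodule.add_mem _ hp hq, (Lp.coeFn_add a b).trans (hap.add hbq)⟩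
    · rintro c a - ⟨p, hp, hap⟩
      exact ⟨c • p, Submodule.smul_mem _ c hp, (Lp.coeFn_smul c a).trans (hap.const_smul c)⟩
  obtain ⟨p, hp, hkp⟩ := hrep k hk
  refine ⟨p, hp, ?_⟩
  have h7 : eLpNorm (f - p) 2 (mz μ ν A z) = edist (hf.toLp f) k := by
    rw [Lp.edist_def]
    refine eLpNorm_congr_ae ?_
    filter_upwards [hf.coeFn_toLp, hkp] with x h8 h9
    rw [Pi.sub_apply, Pi.sub_apply, h8, h9]
  rw [h7, edist_dist]
  exact ((ENNReal.ofReal_lt_ofReal_iff hδ).2 hkd).trans_le hδε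

omit [FiniteDimensional ℝ V] [MeasurableSpace V] [BorelSpace V] [NormedSpace ℝ V] in
lemma exists_seq_win [TopologicalSpace.SeparableSpace V] (hA : (0 : V) ∈ interior A) :
    ∃ z : ℕ → V, ∀ x, ∃ k, x ∈ win A (z k) := by
  refine ⟨TopologicalSpace.denseSeq V, fun x => ?_⟩
  have hU : {y : V | x - y ∈ interior A} ∈ 𝓝 x := by
    have hc : Continuous (fun y : V => x - y) := by fun_prop
    exact hc.continuousAt.preimage_mem_nhds (isOpen_interior.mem_nhds (by simpa using hA))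
  obtain ⟨y, hy, k, rfl⟩ := mem_closure_iff_nhds.1
    ((TopologicalSpace.denseRange_denseSeq V) x) _ hU
  have hy' : x - TopologicalSpace.denseSeq V k ∈ interior A := hy
  have hy'' : x - TopologicalSpace.denseSeq V k ∈ A := interior_subset hy'
  exact ⟨k, hy''⟩

lemma ae_of_windows (hA : IsCompact A) (hA0 : (0 : V) ∈ interior A) {p : V × Y → Prop}
    (h : ∀ z, ∀ᵐ x ∂(mz μ ν A z), p x) : ∀ᵐ x ∂(μ.prod ν), p x := by
  obtain ⟨z, hz⟩ := exists_seq_win (V := V) hA0
  have h1 : (⋃ k, win A (z k) ×ˢ (univ : Set Y)) = univ := by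
    ext ⟨x, y⟩
    simp only [mem_iUnion, mem_prod, mem_univ, and_true, iff_true]
    exact hz x
  rw [← Measure.restrict_univ (μ := μ.prod ν), ← h1, ae_restrict_iUnion_iff]
  intro k
  have := h (z k)
  rwa [mz_eq_restrict] at this

lemma half_geom_tsum : ∑' i : ℕ, ((2 : ℝ≥0∞)⁻¹) ^ i ≠ ⊤ := by
  rw [ENNReal.tsum_geometric, ENNReal.one_sub_inv_two, inv_inv]
  norm_num

lemma half_pow_succ_add (N : ℕ) :
    ((2 : ℝ≥0∞)⁻¹) ^ (N + 1) + ((2 : ℝ≥0∞)⁻¹) ^ (N + 1) = ((2 : ℝ≥0∞)⁻¹) ^ N := by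
  rw [pow_succ, ← mul_add, ENNReal.inv_two_add_inv_two, mul_one]

lemma half_pow_tendsto : Tendsto (fun n : ℕ => ((2 : ℝ≥0∞)⁻¹) ^ n) atTop (𝓝 0) := by
  refine ENNReal.tendsto_pow_atTop_nhds_zero_of_lt_one ?_
  rw [ENNReal.inv_lt_one]; norm_num

lemma MM_ext (hs : Setup μ ν A E S) (z : V) {f : V × Y → ℂ} (hf : MemLp f 2 (mz μ ν A z)) :
    ∃ F ∈ MM μ ν A E S, F =ᵐ[mz μ ν A z] f := by
  have hpos : ∀ n : ℕ, 0 < ((2 : ℝ≥0∞)⁻¹) ^ (n + 1) := fun n => by
    apply ENNReal.pow_pos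
    rw [ENNReal.inv_pos]; norm_num
  choose p hp hpn using fun n : ℕ => dense_window hs z hf (hpos n)
  have hpm : ∀ n z, AEStronglyMeasurable (p n) (mz μ ν A z) := fun n z =>
    (PP_memLp hs.comp hs.fam (hp n) z (μ := μ) (ν := ν)).1
  have hmono : ∀ N n : ℕ, N ≤ n → ((2 : ℝ≥0∞)⁻¹) ^ (n + 1) ≤ ((2 : ℝ≥0∞)⁻¹) ^ (N + 1) := by
    intro N n h
    refine pow_le_pow_right_of_le_one' ?_ (by omega)
    rw [ENNReal.inv_le_one]; norm_num
  have hcau : ∀ (z' : V) (N n m : ℕ), N ≤ n → N ≤ m →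
      eLpNorm (p n - p m) 2 (mz μ ν A z') < ((2 : ℝ≥0∞)⁻¹) ^ N := by
    intro z' N n m hn hm
    rw [PP_norm_inv hs (Submodule.sub_mem _ (hp n) (hp m)) z' z]
    have e : p n - p m = (p n - f) + (f - p m) := by abel
    rw [e]
    calc eLpNorm ((p n - f) + (f - p m)) 2 (mz μ ν A z) ≤ eLpNorm (p n - f) 2 (mz μ ν A z) +
        eLpNorm (f - p m) 2 (mz μ ν A z) :=
          eLpNorm_add_le ((hpm n z).sub hf.1) (hf.1.sub (hpm m z)) (by norm_num)
      _ < ((2 : ℝ≥0∞)⁻¹) ^ (N + 1) + ((2 : ℝ≥0∞)⁻¹) ^ (N + 1) := by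
          refine ENNReal.add_lt_add ?_ ?_
          · rw [eLpNorm_sub_comm]; exact (hpn n).trans_le (hmono N n hn)
          · exact (hpn m).trans_le (hmono N m hm)
      _ = ((2 : ℝ≥0∞)⁻¹) ^ N := half_pow_succ_add N
  have hconv : ∀ᵐ x ∂(μ.prod ν), ∃ l, Tendsto (fun n => p n x) atTop (𝓝 l) := by
    refine ae_of_windows hs.comp hs.nhds fun z' => ?_
    exact Lp.ae_tendsto_of_cauchy_eLpNorm (fun n => hpm n z') (by norm_num) half_geom_tsum
      (hcau z')
  obtain ⟨F, hFm, hF⟩ := exists_stronglyMeasurable_limit_of_tendsto_ae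
    (fun n => (PP_bdd hs.fam (hp n)).1.aestronglyMeasurable) hconv
  have hFz : ∀ z', ∀ᵐ x ∂(mz μ ν A z'), Tendsto (fun n => p n x) atTop (𝓝 (F x)) := fun z' =>
    (mz_ac z').ae_le hF
  have hest : ∀ (z' : V) (n : ℕ), eLpNorm (F - p n) 2 (mz μ ν A z') ≤ ((2 : ℝ≥0∞)⁻¹) ^ n := by
    intro z' n
    have h1 := Lp.eLpNorm_lim_le_liminf_eLpNorm (p := 2) (μ := mz μ ν A z')
      (f := fun m => p m - p n) (fun m => (hpm m z').sub (hpm n z')) (F - p n) (by
        filter_upwards [hFz z'] with x hx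
        exact hx.sub_const _)
    refine h1.trans (Filter.liminf_le_of_frequently_le' ?_)
    refine (Filter.Eventually.frequently ?_)
    filter_upwards [eventually_ge_atTop n] with m hm
    exact (hcau z' n m n hm le_rfl).le
  refine ⟨F, ⟨hFm.aestronglyMeasurable, fun ε hε => ?_⟩, ?_⟩
  · obtain ⟨n, hn⟩ := ((half_pow_tendsto.eventually (gt_mem_nhds hε))).exists
    exact ⟨p n, hp n, fun z' => (hest z' n).trans hn.le⟩
  · have h0 : eLpNorm (F - f) 2 (mz μ ν A z) = 0 := by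
      refine le_antisymm ?_ bot_le
      have hlim : Tendsto (fun n : ℕ => ((2 : ℝ≥0∞)⁻¹) ^ n + ((2 : ℝ≥0∞)⁻¹) ^ (n + 1)) atTop
          (𝓝 (0 + 0)) :=
        half_pow_tendsto.add ((tendsto_add_atTop_iff_nat 1).2 half_pow_tendsto)
      rw [add_zero] at hlim
      refine ge_of_tendsto' hlim fun n => ?_
      have e : F - f = (F - p n) + (p n - f) := by abel
      rw [e]
      calc eLpNorm ((F - p n) + (p n - f)) 2 (mz μ ν A z) ≤ eLpNorm (F - p n) 2 (mz μ ν A z) +
          eLpNorm (p n - f) 2 (mz μ ν A z) :=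
            eLpNorm_add_le (hFm.aestronglyMeasurable.sub (hpm n z)) ((hpm n z).sub hf.1)
              (by norm_num)
        _ ≤ _ := by
            refine add_le_add (hest z n) ?_
            rw [eLpNorm_sub_comm]; exact (hpn n).le
    have h1 := (eLpNorm_eq_zero_iff (hFm.aestronglyMeasurable.sub hf.1) (by norm_num)).1 h0
    filter_upwards [h1] with x hx
    rw [Pi.sub_apply, Pi.zero_apply, sub_eq_zero] at hx
    exact hx

/-- translates -/
def tr (a : V) (F : V × Y → ℂ) : V × Y → ℂ := fun p => F (p.1 + a, p.2)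

lemma measurePreserving_tr (a : V) :
    MeasurePreserving (fun p : V × Y => (p.1 + a, p.2)) (μ.prod ν) (μ.prod ν) := by
  have := (measurePreserving_add_right μ a).prod (MeasurePreserving.id ν)
  exact this

lemma PP_tr (hE : Fam E) {p : V × Y → ℂ} (hp : p ∈ PP E S) (a : V) : tr a p ∈ PP E S := by
  refine Submodule.span_induction (p := fun p _ => tr a p ∈ PP E S) ?_ ?_ ?_ ?_ hp
  · rintro _ ⟨i, hi, rfl⟩
    obtain ⟨c, hc, hc'⟩ := hE.trans i a
    have : tr a (E i) = c • E i := by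
      ext ⟨x, y⟩
      simp [tr, hc']
    rw [this]
    exact Submodule.smul_mem _ _ (Submodule.subset_span ⟨i, hi, rfl⟩)
  · exact Submodule.zero_mem _
  · rintro p q - - h1 h2
    exact Submodule.add_mem _ h1 h2
  · rintro c p - h1
    exact Submodule.smul_mem _ c h1

lemma MM_tr (hs : Setup μ ν A E S) {F : V × Y → ℂ} (hF : F ∈ MM μ ν A E S) (a : V) :
    tr a F ∈ MM μ ν A E S := by
  refine ⟨hF.1.comp_measurePreserving (measurePreserving_tr a), fun ε hε => ?_⟩
  obtain ⟨p, hp, hpz⟩ := hF.2 ε hε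
  refine ⟨tr a p, PP_tr hs.fam hp a, fun z => ?_⟩
  have h1 : tr a F - tr a p = (F - p) ∘ (fun q : V × Y => (q.1 + a, q.2)) := rfl
  have hpm := (PP_memLp hs.comp hs.fam hp (z + a) (μ := μ) (ν := ν)).1
  rw [h1, eLpNorm_comp_measurePreserving ((MM_meas hF (z + a)).sub hpm)
    (measurePreserving_mz hs.comp z a)]
  exact hpz _

end QT

end Pool.Agent.Lib_MP_5ddbb8_an
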