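import Mathlib
import Pool.Agent.Lib_MP_5ddbb8_an.QT1

/-!
General lemmas about countable complete orthogonal systems.
-/

set_option linter.unusedSectionVars false
set_option linter.unusedSimpArgs false
set_option linter.unusedVariables false

open scoped Pointwise Topology ENNReal ComplexConjugate
open Module Set MeasureTheory Filter

namespace Pool.Agent.Lib_MP_5ddbb8_an

section OB

variable {X X' : Type*} [MeasurableSpace X] [MeasurableSpace X'] {J J' : Type*}

lemma IsOB.smul {m : Measure X} {E : J → X → ℂ} {S : Set J} (h : IsOB m E S) {c : ℝ≥0∞}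
    (hc0 : c ≠ 0) (hc : c ≠ ⊤) : IsOB (c • m) E S := by
  refine ⟨h.1, fun i hi j hj hij => ?_, fun f hf h0 => ?_⟩
  · rw [integral_smul_measure, h.2.1 i hi j hj hij, smul_zero]
  · have hf' : MemLp f 2 m := by
      have := hf.smul_measure (c := c⁻¹) (ENNReal.inv_ne_top.2 hc0)
      rwa [smul_smul, ENNReal.inv_mul_cancel hc0 hc, one_smul] at this
    have := h.2.2 f hf' (fun i hi => by
      have h1 := h0 i hi
      rw [integral_smul_measure] at h1
      rcases smul_eq_zero.1 h1 with h2 | h2
      · exfalso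
        rcases (ENNReal.toReal_eq_zero_iff _).1 h2 with h3 | h3
        · exact hc0 h3
        · exact hc h3
      · exact h2)
    exact Measure.ae_smul_measure this c

lemma IsOB.map {m : Measure X} {E : J → X' → ℂ} {S : Set J} (ψ : X ≃ᵐ X')
    (h : IsOB m (fun j x => E j (ψ x)) S) : IsOB (m.map ψ) E S := by
  refine ⟨h.1, fun i hi j hj hij => ?_, fun f hf h0 => ?_⟩
  · rw [ψ.measurableEmbedding.integral_map]
    exact h.2.1 i hi j hj hij
  · have hf' : MemLp (f ∘ ψ) 2 m := by
      exact (ψ.measurableEmbedding.memLp_map_measure_iff).1 hf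
    have := h.2.2 _ hf' (fun i hi => by
      have h1 := h0 i hi
      rw [ψ.measurableEmbedding.integral_map] at h1
      exact h1)
    rw [Filter.EventuallyEq, ψ.measurableEmbedding.ae_map_iff]
    exact this

lemma IsOB.comap {m : Measure X} {E : J → X' → ℂ} {S : Set J} (ψ : X ≃ᵐ X')
    (h : IsOB (m.map ψ) E S) : IsOB m (fun j x => E j (ψ x)) S := by
  have h2 : (m.map ψ).map ψ.symm = m := by
    rw [Measure.map_map ψ.symm.measurable ψ.measurable]
    simp
  have h3 : IsOB (m.map ψ) (fun j x => (fun j x => E j (ψ x)) j (ψ.symm x)) S := by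
    simpa using h
  have := IsOB.map (E := fun j x => E j (ψ x)) ψ.symm h3
  rwa [h2] at this

/-- reindexing along an injective map -/
lemma IsOB.reindex {m : Measure X} {E : J → X → ℂ} {E' : J' → X → ℂ} {S : Set J} (e : J → J')
    (hE : ∀ j ∈ S, E' (e j) = E j) (h : IsOB m E S) : IsOB m E' (e '' S) := by
  refine ⟨h.1.image e, ?_, fun f hf h0 => ?_⟩
  · rintro _ ⟨i, hi, rfl⟩ _ ⟨j, hj, rfl⟩ hij
    rw [hE i hi, hE j hj]
    exact h.2.1 i hi j hj (fun h => hij (by rw [h]))
  · exact h.2.2 f hf (fun i hi => by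
      have := h0 (e i) ⟨i, hi, rfl⟩
      rwa [hE i hi] at this)

lemma IsOB.congr {m : Measure X} {E E' : J → X → ℂ} {S : Set J} (h : IsOB m E S)
    (hE : ∀ j ∈ S, E' j = E j) : IsOB m E' S := by
  have := h.reindex (E' := E') id hE
  rwa [image_id] at this

/-- product of two complete orthogonal systems of unimodular functions -/
lemma IsOB.prod {m : Measure X} {m' : Measure X'} [IsFiniteMeasure m] [IsFiniteMeasure m']
    {E : J → X → ℂ} {E' : J' → X' → ℂ} {S : Set J} {S' : Set J'}
    (hE : ∀ j, Measurable (E j)) (hE1 : ∀ j x, ‖E j x‖ = 1)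
    (hE' : ∀ j, Measurable (E' j)) (hE1' : ∀ j x, ‖E' j x‖ = 1)
    (h : IsOB m E S) (h' : IsOB m' E' S') :
    IsOB (m.prod m') (fun (j : J × J') (x : X × X') => E j.1 x.1 * E' j.2 x.2) (S ×ˢ S') := by
  refine ⟨h.1.prod h'.1, ?_, ?_⟩
  · rintro ⟨i, i'⟩ ⟨hi, hi'⟩ ⟨j, j'⟩ ⟨hj, hj'⟩ hij
    have e1 : ∀ x : X × X', (E i x.1 * E' i' x.2) * conj (E j x.1 * E' j' x.2) =
        (E i x.1 * conj (E j x.1)) * (E' i' x.2 * conj (E' j' x.2)) := fun x => by
      rw [map_mul]; ring
    simp only at hi hi' hj hj'
    show ∫ x : X × X', (E i x.1 * E' i' x.2) * conj (E j x.1 * E' j' x.2) ∂(m.prod m') = 0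
    simp only [e1]
    rw [integral_prod_mul (fun x => E i x * conj (E j x)) (fun y => E' i' y * conj (E' j' y))]
    by_cases h1 : i = j
    · have h2 : i' ≠ j' := fun h3 => hij (by rw [h1, h3])
      rw [h'.2.1 i' hi' j' hj' h2, mul_zero]
    · rw [h.2.1 i hi j hj h1, zero_mul]
  · intro f hf h0
    -- a strongly measurable representative
    obtain ⟨f', hf'm, hff'⟩ := hf.1
    have hf' : MemLp f' 2 (m.prod m') := hf.ae_eq hff'
    have h0' : ∀ i ∈ S ×ˢ S', ∫ x, f' x * conj (E i.1 x.1 * E' i.2 x.2) ∂(m.prod m') = 0 := by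
      intro i hi
      rw [← h0 i hi]
      refine integral_congr_ae ?_
      filter_upwards [hff'] with x hx
      rw [hx]
    suffices hmain : f' =ᵐ[m.prod m'] 0 from hff'.trans hmain
    have hsq : ∫⁻ p, ‖f' p‖ₑ ^ 2 ∂(m.prod m') < ⊤ := by
      have := eLpNorm_nnreal_pow_eq_lintegral (μ := m.prod m') (f := f') (p := 2) (by norm_num)
      have h2 : ((2 : NNReal) : ℝ) = 2 := by norm_num
      rw [h2] at this
      simp only [ENNReal.rpow_ofNat] at this
      rw [← this]
      exact ENNReal.pow_lt_top hf'.2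
    have hint : Integrable f' (m.prod m') := hf'.integrable (by norm_num)
    -- fibrewise integrability
    have hfib2 : ∀ᵐ x ∂m, ∫⁻ y, ‖f' (x, y)‖ₑ ^ 2 ∂m' < ⊤ := by
      have hmeas : Measurable (fun p : X × X' => ‖f' p‖ₑ ^ 2) :=
        (hf'm.measurable.enorm).pow_const 2
      rw [lintegral_prod _ hmeas.aemeasurable] at hsq
      exact ae_lt_top hmeas.lintegral_prod_right' hsq.ne
    have hfibm : ∀ x, AEStronglyMeasurable (fun y => f' (x, y)) m' := fun x =>
      (hf'm.comp_measurable measurable_prodMk_left).aestronglyMeasurable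
    have hfibL : ∀ᵐ x ∂m, MemLp (fun y => f' (x, y)) 2 m' := by
      filter_upwards [hfib2] with x hx
      refine ⟨hfibm x, ?_⟩
      have := eLpNorm_nnreal_pow_eq_lintegral (μ := m') (f := fun y => f' (x, y)) (p := 2)
        (by norm_num)
      have h2 : ((2 : NNReal) : ℝ) = 2 := by norm_num
      rw [h2] at this
      simp only [ENNReal.rpow_ofNat] at this
      rw [← this] at hx
      by_contra hcon
      rw [not_lt, top_le_iff] at hcon
      have hcon' : eLpNorm (fun y => f' (x, y)) (((2 : NNReal)) : ℝ≥0∞) m' = ⊤ := hcon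
      rw [hcon'] at hx
      simp at hx
    -- the partial coefficient
    let hcoef : J' → X → ℂ := fun j' x => ∫ y, f' (x, y) * conj (E' j' y) ∂m'
    have hcm : ∀ j', StronglyMeasurable (hcoef j') := fun j' => by
      have : StronglyMeasurable (fun p : X × X' => f' p * conj (E' j' p.2)) :=
        hf'm.mul ((Complex.continuous_conj.measurable.comp
          ((hE' j').comp measurable_snd)).stronglyMeasurable)
      exact this.integral_prod_right'
    have hcL : ∀ j', MemLp (hcoef j') 2 m := by
      intro j'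
      refine ⟨(hcm j').aestronglyMeasurable, ?_⟩
      have hbound : ∀ᵐ x ∂m, ‖hcoef j' x‖ₑ ^ 2 ≤ (∫⁻ y, ‖f' (x, y)‖ₑ ^ 2 ∂m') * m' univ := by
        filter_upwards with x
        have h1 : ‖hcoef j' x‖ₑ ≤ eLpNorm (fun y => f' (x, y)) 1 m' := by
          rw [eLpNorm_one_eq_lintegral_enorm]
          refine (enorm_integral_le_lintegral_enorm _).trans (lintegral_mono fun y => ?_)
          rw [enorm_mul]
          have : ‖conj (E' j' y)‖ₑ = 1 := by
            rw [← ofReal_norm, RCLike.norm_conj, hE1']; simp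
          rw [this, mul_one]
        have h2 := eLpNorm_le_eLpNorm_mul_rpow_measure_univ (μ := m') (p := 1) (q := 2)
          (by norm_num) (hfibm x)
        have h3 := h1.trans h2
        have h4 : (eLpNorm (fun y => f' (x, y)) 2 m' *
            m' univ ^ (1 / (1 : ℝ≥0∞).toReal - 1 / (2 : ℝ≥0∞).toReal)) ^ 2 =
            (∫⁻ y, ‖f' (x, y)‖ₑ ^ 2 ∂m') * m' univ := by
          rw [mul_pow]
          congr 1
          · have := eLpNorm_nnreal_pow_eq_lintegral (μ := m') (f := fun y => f' (x, y)) (p := 2)
              (by norm_num)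
            have h2 : ((2 : NNReal) : ℝ) = 2 := by norm_num
            rw [h2] at this
            simp only [ENNReal.rpow_ofNat] at this
            exact this
          · rw [← ENNReal.rpow_natCast, ← ENNReal.rpow_mul]
            norm_num
        calc ‖hcoef j' x‖ₑ ^ 2 ≤ (eLpNorm (fun y => f' (x, y)) 2 m' *
            m' univ ^ (1 / (1 : ℝ≥0∞).toReal - 1 / (2 : ℝ≥0∞).toReal)) ^ 2 := by gcongr
          _ = _ := h4
      have h5 : ∫⁻ x, ‖hcoef j' x‖ₑ ^ 2 ∂m < ⊤ := by
        refine (lintegral_mono_ae hbound).trans_lt ?_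
        have hmeas : Measurable (fun p : X × X' => ‖f' p‖ₑ ^ 2) :=
          (hf'm.measurable.enorm).pow_const 2
        rw [lintegral_mul_const _ hmeas.lintegral_prod_right']
        rw [lintegral_prod _ hmeas.aemeasurable] at hsq
        exact ENNReal.mul_lt_top hsq (measure_lt_top m' univ)
      have := eLpNorm_nnreal_pow_eq_lintegral (μ := m) (f := hcoef j') (p := 2)
        (by norm_num)
      have h2 : ((2 : NNReal) : ℝ) = 2 := by norm_num
      rw [h2] at this
      simp only [ENNReal.rpow_ofNat] at this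
      rw [← this] at h5
      by_contra hcon
      rw [not_lt, top_le_iff] at hcon
      have hcon' : eLpNorm (hcoef j') (((2 : NNReal)) : ℝ≥0∞) m = ⊤ := hcon
      rw [hcon'] at h5
      simp at h5
    have hczero : ∀ j' ∈ S', hcoef j' =ᵐ[m] 0 := by
      intro j' hj'
      refine h.2.2 _ (hcL j') fun j hj => ?_
      have h1 := h0' (j, j') ⟨hj, hj'⟩
      have hint2 : Integrable (fun p : X × X' => f' p * conj (E j p.1 * E' j' p.2))
          (m.prod m') := by
        refine hint.mul_bdd (c := 1) ?_ (Eventually.of_forall fun p => ?_)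
        · exact (Complex.continuous_conj.measurable.comp (((hE j).comp measurable_fst).mul
            ((hE' j').comp measurable_snd))).aestronglyMeasurable
        · rw [RCLike.norm_conj, norm_mul, hE1, hE1', mul_one]
      rw [integral_prod _ hint2] at h1
      rw [← h1]
      refine integral_congr_ae (Eventually.of_forall fun x => ?_)
      simp only [hcoef]
      rw [← integral_mul_const]
      refine integral_congr_ae (Eventually.of_forall fun y => ?_)
      simp only [map_mul]
      ring
    have hall : ∀ᵐ x ∂m, ∀ j' ∈ S', hcoef j' x = 0 := by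
      rw [ae_ball_iff h'.1]
      intro j' hj'
      exact hczero j' hj'
    have hfz : ∀ᵐ x ∂m, (fun y => f' (x, y)) =ᵐ[m'] 0 := by
      filter_upwards [hall, hfibL] with x hx hx2
      exact h'.2.2 _ hx2 fun j' hj' => hx j' hj'
    -- conclude
    have hset : MeasurableSet {p : X × X' | f' p ≠ 0} :=
      (hf'm.measurable (measurableSet_singleton 0)).compl
    have h7 : (m.prod m') {p : X × X' | f' p ≠ 0} = 0 := by
      rw [Measure.measure_prod_null hset]
      filter_upwards [hfz] with x hx
      exact hx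
    exact h7

end OB

end Pool.Agent.Lib_MP_5ddbb8_an
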