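import Mathlib
import Pool.Agent.Lib_MP_5ddbb8_an.QT1
import Pool.Agent.Lib_MP_5ddbb8_an.Chain

/-!
The support set of the extension space and its transport property.
-/

set_option linter.unusedSectionVars false
set_option linter.unusedSimpArgs false
set_option linter.unusedVariables false

open scoped Pointwise Topology ENNReal ComplexConjugate
open Module Set MeasureTheory Filter

namespace Pool.Agent.Lib_MP_5ddbb8_an

section QT

variable {V : Type*} [NormedAddCommGroup V] [NormedSpace ℝ V] [FiniteDimensional ℝ V]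
  [MeasurableSpace V] [BorelSpace V]
variable {Y : Type*} [MeasurableSpace Y] {J : Type*}

/-- the mass measure of a function -/
noncomputable def GG (μ : Measure V) (ν : Measure Y) (F : V × Y → ℂ) : Measure V :=
  Measure.map Prod.fst ((μ.prod ν).withDensity (fun p => ‖F p‖ₑ ^ 2))

variable {μ : Measure V} [μ.IsAddHaarMeasure] {ν : Measure Y} [IsFiniteMeasure ν]
variable {A : Set V} {E : J → V × Y → ℂ} {S : Set J}

lemma GG_apply (F : V × Y → ℂ) {X : Set V} (hX : MeasurableSet X) :
    GG μ ν F X = ∫⁻ p in X ×ˢ univ, ‖F p‖ₑ ^ 2 ∂(μ.prod ν) := by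
  have h1 : Prod.fst ⁻¹' X = X ×ˢ (univ : Set Y) := by ext p; simp
  unfold GG
  rw [Measure.map_apply measurable_fst hX, h1, withDensity_apply _ (hX.prod MeasurableSet.univ)]

lemma GG_win {F : V × Y → ℂ} (hA : IsCompact A) (z : V) :
    GG μ ν F (win A z) = eLpNorm F 2 (mz μ ν A z) ^ 2 := by
  rw [GG_apply F (measurableSet_win hA z), ← mz_eq_restrict]
  have := eLpNorm_nnreal_pow_eq_lintegral (μ := mz μ ν A z) (f := F) (p := 2) (by norm_num)
  have h2 : ((2 : NNReal) : ℝ) = 2 := by norm_num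
  rw [h2] at this
  simp only [ENNReal.rpow_ofNat] at this
  exact this.symm

lemma GG_win_eq (hs : Setup μ ν A E S) {F : V × Y → ℂ} (hF : F ∈ MM μ ν A E S) (z z' : V) :
    GG μ ν F (win A z) = GG μ ν F (win A z') := by
  rw [GG_win hs.comp, GG_win hs.comp, MM_norm_eq hs hF z z']

lemma GG_win_lt_top (hs : Setup μ ν A E S) {F : V × Y → ℂ} (hF : F ∈ MM μ ν A E S) (z : V) :
    GG μ ν F (win A z) < ⊤ := by
  rw [GG_win hs.comp]
  exact ENNReal.pow_lt_top (MM_norm_lt_top hs hF z)

lemma GG_ac (F : V × Y → ℂ) : GG μ ν F ≪ μ := by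
  refine Measure.AbsolutelyContinuous.mk fun X hX h0 => ?_
  rw [GG_apply F hX]
  have : (μ.prod ν) (X ×ˢ univ) = 0 := by rw [Measure.prod_prod, h0, zero_mul]
  rw [Measure.restrict_eq_zero.2 this, lintegral_zero_measure]

lemma GG_eq_zero_iff {F : V × Y → ℂ} (hF : AEStronglyMeasurable F (μ.prod ν)) {X : Set V}
    (hX : MeasurableSet X) :
    GG μ ν F X = 0 ↔ ∀ᵐ p ∂((μ.prod ν).restrict (X ×ˢ univ)), F p = 0 := by
  rw [GG_apply F hX, lintegral_eq_zero_iff' (hF.restrict.enorm.pow_const 2)]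
  constructor
  · intro h
    filter_upwards [h] with p hp
    simpa using hp
  · intro h
    filter_upwards [h] with p hp
    simp [hp]

lemma GG_add_zero {F G : V × Y → ℂ} (hF : AEStronglyMeasurable F (μ.prod ν))
    (hG : AEStronglyMeasurable G (μ.prod ν)) {X : Set V} (hX : MeasurableSet X)
    (h1 : GG μ ν F X = 0) (h2 : GG μ ν G X = 0) : GG μ ν (F + G) X = 0 := by
  rw [GG_eq_zero_iff (hF.add hG) hX]
  filter_upwards [(GG_eq_zero_iff hF hX).1 h1, (GG_eq_zero_iff hG hX).1 h2] with p h3 h4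
  rw [Pi.add_apply, h3, h4, add_zero]

lemma GG_eq_of_sub {F G : V × Y → ℂ} (hF : AEStronglyMeasurable F (μ.prod ν))
    (hG : AEStronglyMeasurable G (μ.prod ν)) {X : Set V} (hX : MeasurableSet X)
    (h : GG μ ν (F - G) X = 0) : GG μ ν F X = GG μ ν G X := by
  rw [GG_apply F hX, GG_apply G hX]
  refine lintegral_congr_ae ?_
  filter_upwards [(GG_eq_zero_iff (hF.sub hG) hX).1 h] with p hp
  rw [Pi.sub_apply, sub_eq_zero] at hp
  rw [hp]

lemma GG_tr (F : V × Y → ℂ) (a : V) {X : Set V} (hX : MeasurableSet X) :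
    GG μ ν (tr a F) X = GG μ ν F ((fun x => x - a) ⁻¹' X) := by
  have hX' : MeasurableSet ((fun x => x - a) ⁻¹' X) := (measurable_id.sub_const a) hX
  rw [GG_apply _ hX, GG_apply _ hX']
  have hmp := (measurePreserving_tr (μ := μ) (ν := ν) a).restrict_preimage
    (hX'.prod (MeasurableSet.univ (α := Y)))
  have e : (fun p : V × Y => (p.1 + a, p.2)) ⁻¹' (((fun x => x - a) ⁻¹' X) ×ˢ univ) =
      X ×ˢ univ := by
    ext ⟨x, y⟩; simp
  rw [e] at hmp
  have := hmp.lintegral_comp_emb (measurableEmbedding_trans a) (fun p => ‖F p‖ₑ ^ 2)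
  exact this

/-- localisation -/
lemma MM_loc (hs : Setup μ ν A E S) {F : V × Y → ℂ} (hF : F ∈ MM μ ν A E S) (z : V)
    {U : Set V} (hU : MeasurableSet U) :
    ∃ F' ∈ MM μ ν A E S, GG μ ν F' (win A z \ U) = 0 ∧ GG μ ν (F - F') (win A z ∩ U) = 0 := by
  classical
  have hUY : MeasurableSet (U ×ˢ (univ : Set Y)) := hU.prod MeasurableSet.univ
  have hFm : MemLp F 2 (mz μ ν A z) := ⟨MM_meas hF z, MM_norm_lt_top hs hF z⟩
  obtain ⟨F', hF', hF'e⟩ := MM_ext hs z (hFm.indicator hUY)
  have hW := measurableSet_win hs.comp z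
  rw [mz_eq_restrict] at hF'e
  refine ⟨F', hF', ?_, ?_⟩
  · rw [GG_eq_zero_iff hF'.1 (hW.diff hU)]
    have h1 : ∀ᵐ p ∂((μ.prod ν).restrict ((win A z \ U) ×ˢ univ)),
        F' p = (U ×ˢ (univ : Set Y)).indicator F p :=
      ae_restrict_of_ae_restrict_of_subset (prod_mono sdiff_subset Subset.rfl) hF'e
    have h2 : ∀ᵐ p ∂((μ.prod ν).restrict ((win A z \ U) ×ˢ univ)),
        p ∈ (win A z \ U) ×ˢ (univ : Set Y) :=
      ae_restrict_mem ((hW.diff hU).prod MeasurableSet.univ)
    filter_upwards [h1, h2] with p h3 h4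
    rw [h3, indicator_of_notMem]
    intro h5
    exact h4.1.2 h5.1
  · rw [GG_eq_zero_iff (hF.1.sub hF'.1) (hW.inter hU)]
    have h1 : ∀ᵐ p ∂((μ.prod ν).restrict ((win A z ∩ U) ×ˢ univ)),
        F' p = (U ×ˢ (univ : Set Y)).indicator F p :=
      ae_restrict_of_ae_restrict_of_subset (prod_mono inter_subset_left Subset.rfl) hF'e
    have h2 : ∀ᵐ p ∂((μ.prod ν).restrict ((win A z ∩ U) ×ˢ univ)),
        p ∈ (win A z ∩ U) ×ˢ (univ : Set Y) :=
      ae_restrict_mem ((hW.inter hU).prod MeasurableSet.univ)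
    filter_upwards [h1, h2] with p h3 h4
    rw [Pi.sub_apply, h3, indicator_of_mem, sub_self]
    exact ⟨h4.1.2, mem_univ _⟩

/-- the support set -/
def SS (μ : Measure V) (ν : Measure Y) (A : Set V) (E : J → V × Y → ℂ) (S : Set J) : Set V :=
  {s | ∀ ρ > 0, ∃ F ∈ MM μ ν A E S, GG μ ν F (A \ Metric.ball 0 ρ) = 0 ∧
    GG μ ν F (Metric.ball s ρ) ≠ 0}

lemma mem_win_of_interior {A : Set V} {x z : V} (h : x - z ∈ interior A) : x ∈ win A z := by
  have h' : x - z ∈ A := interior_subset h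
  exact h'

lemma win_zero (A : Set V) : win A 0 = A := by ext x; simp [win]

/-- small balls inside windows -/
lemma exists_ball_sub (hA : (0 : V) ∈ interior A) :
    ∃ r > 0, ∀ z, Metric.ball z r ⊆ win A z := by
  obtain ⟨r, hr, hrA⟩ := Metric.mem_nhds_iff.1 (mem_interior_iff_mem_nhds.1 hA)
  refine ⟨r, hr, fun z x hx => ?_⟩
  apply hrA
  rw [Metric.mem_ball] at hx ⊢
  rwa [dist_zero_right, ← dist_eq_norm]

/-- a function localised near `k` in some window is localised near `k` in the window at `k` -/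
lemma loc_change (hs : Setup μ ν A E S) {F : V × Y → ℂ} (hF : F ∈ MM μ ν A E S) {z z' : V}
    {U : Set V} (hU : MeasurableSet U) (hUz : U ⊆ win A z') (h : GG μ ν F (win A z \ U) = 0) :
    GG μ ν F (win A z' \ U) = 0 := by
  have h1 : GG μ ν F (win A z') ≤ GG μ ν F U := by
    rw [GG_win_eq hs hF z' z]
    calc GG μ ν F (win A z) ≤ GG μ ν F ((win A z \ U) ∪ U) := measure_mono (by
          intro x hx
          by_cases hxU : x ∈ U
          · exact Or.inr hxU
          · exact Or.inl ⟨hx, hxU⟩)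
      _ ≤ GG μ ν F (win A z \ U) + GG μ ν F U := measure_union_le _ _
      _ = GG μ ν F U := by rw [h, zero_add]
  have hfin : GG μ ν F U ≠ ⊤ :=
    ((measure_mono hUz).trans_lt (GG_win_lt_top hs hF z')).ne
  rw [measure_sdiff hUz hU.nullMeasurableSet hfin]
  exact tsub_eq_zero_of_le h1

lemma support_null (hs : Setup μ ν A E S) {F : V × Y → ℂ} (hF : F ∈ MM μ ν A E S) {z : V}
    {K : Set V} (hK : IsCompact K) (hKz : GG μ ν F (win A z \ K) = 0) {X : Set V}
    (hX : IsCompact X) (hd : ∀ x ∈ X, ∀ k ∈ K, x - k ∉ SS μ ν A E S) : GG μ ν F X = 0 := by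
  obtain ⟨r0, hr0, hball⟩ := exists_ball_sub hs.nhds
  refine hX.measure_zero_of_nhdsWithin fun x hx => ?_
  have key : ∃ S', K ⊆ S' ∧ MeasurableSet S' ∧ ∃ r > 0, ∀ z, ∀ F ∈ MM μ ν A E S,
      GG μ ν F (win A z \ S') = 0 → GG μ ν F (Metric.ball x r) = 0 := by
    refine hK.induction_on (p := fun s => ∃ S', s ⊆ S' ∧ MeasurableSet S' ∧
      ∃ r > 0, ∀ z, ∀ F ∈ MM μ ν A E S,
      GG μ ν F (win A z \ S') = 0 → GG μ ν F (Metric.ball x r) = 0) ?_ ?_ ?_ ?_
    · refine ⟨∅, Subset.rfl, MeasurableSet.empty, r0, hr0, fun z F hF h => ?_⟩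
      rw [sdiff_empty] at h
      refine measure_mono_null (hball x) ?_
      rw [GG_win_eq hs hF x z, h]
    · rintro s t hst ⟨S', h1, h2⟩
      exact ⟨S', hst.trans h1, h2⟩
    · rintro s t ⟨S', h1, h2, r, hr, h3⟩ ⟨T', k1, k2, r', hr', k3⟩
      refine ⟨S' ∪ T', union_subset_union h1 k1, h2.union k2, min r r', lt_min hr hr', ?_⟩
      intro z F hF hFz
      obtain ⟨F1, hF1, hF1a, hF1b⟩ := MM_loc hs hF z h2
      have e1 := h3 z F1 hF1 hF1a
      have hF2 := MM_sub hs hF hF1
      have hW := measurableSet_win hs.comp z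
      have e2 : GG μ ν (F - F1) (win A z \ T') = 0 := by
        have hsub : win A z \ T' ⊆ (win A z ∩ S') ∪ (win A z \ (S' ∪ T')) := by
          rintro y ⟨hy1, hy2⟩
          by_cases hyS : y ∈ S'
          · exact Or.inl ⟨hy1, hyS⟩
          · exact Or.inr ⟨hy1, fun h => h.elim hyS hy2⟩
        refine measure_mono_null hsub (measure_union_null hF1b ?_)
        have hm : MeasurableSet (win A z \ (S' ∪ T')) := hW.diff (h2.union k2)
        rw [sub_eq_add_neg]
        refine GG_add_zero hF.1 hF1.1.neg hm hFz ?_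
        rw [GG_eq_zero_iff hF1.1.neg hm]
        have h5 : GG μ ν F1 (win A z \ (S' ∪ T')) = 0 :=
          measure_mono_null (sdiff_subset_sdiff_right subset_union_left) hF1a
        filter_upwards [(GG_eq_zero_iff hF1.1 hm).1 h5] with p hp
        rw [Pi.neg_apply, hp, neg_zero]
      have e3 := k3 z _ hF2 e2
      have e4 : F = F1 + (F - F1) := by abel
      rw [e4]
      refine GG_add_zero hF1.1 hF2.1 Metric.isOpen_ball.measurableSet ?_ ?_
      · exact measure_mono_null (Metric.ball_subset_ball (min_le_left _ _)) e1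
      · exact measure_mono_null (Metric.ball_subset_ball (min_le_right _ _)) e3
    · intro k hk
      have hnot := hd x hx k hk
      simp only [SS, mem_ofPred_eq, not_forall, not_exists, not_and, not_not] at hnot
      obtain ⟨ρ, hρ, hρ'⟩ := hnot
      set ρ' := min ρ r0 with hρ'def
      have hρ'pos : 0 < ρ' := lt_min hρ hr0
      refine ⟨Metric.ball k ρ', mem_nhdsWithin_of_mem_nhds (Metric.ball_mem_nhds k hρ'pos),
        Metric.ball k ρ', Subset.rfl, Metric.isOpen_ball.measurableSet, ρ, hρ, ?_⟩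
      intro z F hF hFz
      have hsub : Metric.ball k ρ' ⊆ win A k :=
        (Metric.ball_subset_ball (min_le_right _ _)).trans (hball k)
      have h1 := loc_change hs hF Metric.isOpen_ball.measurableSet hsub hFz
      have hm1 : MeasurableSet (A \ Metric.ball 0 ρ) :=
        hs.comp.isClosed.measurableSet.diff Metric.isOpen_ball.measurableSet
      have h2 : GG μ ν (tr k F) (A \ Metric.ball 0 ρ) = 0 := by
        rw [GG_tr F k hm1]
        refine measure_mono_null ?_ h1
        rintro y ⟨hy1, hy2⟩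
        refine ⟨hy1, fun hy3 => hy2 ?_⟩
        rw [Metric.mem_ball] at hy3 ⊢
        rw [dist_zero_right, ← dist_eq_norm]
        exact hy3.trans_le (min_le_left _ _)
      have h3 := hρ' _ (MM_tr hs hF k) h2
      rw [GG_tr F k Metric.isOpen_ball.measurableSet] at h3
      refine measure_mono_null ?_ h3
      intro y hy
      simp only [mem_preimage]
      rw [Metric.mem_ball] at hy ⊢
      rwa [dist_sub_right]
  obtain ⟨S', h1, h2, r, hr, h3⟩ := key
  refine ⟨Metric.ball x r, mem_nhdsWithin_of_mem_nhds (Metric.ball_mem_nhds x hr), ?_⟩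
  exact h3 z F hF (measure_mono_null (sdiff_subset_sdiff_right h1) hKz)

lemma isClosed_SS : IsClosed (SS μ ν A E S) := by
  rw [← closure_subset_iff_isClosed]
  intro s hs ρ hρ
  obtain ⟨s', hs', hd⟩ := Metric.mem_closure_iff.1 hs (ρ / 2) (by linarith)
  obtain ⟨F, hF, h1, h2⟩ := hs' (ρ / 2) (by linarith)
  refine ⟨F, hF, measure_mono_null (sdiff_subset_sdiff_right
    (Metric.ball_subset_ball (by linarith))) h1, fun h3 => h2 (measure_mono_null ?_ h3)⟩
  intro y hy
  rw [Metric.mem_ball] at hy ⊢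
  calc dist y s ≤ dist y s' + dist s' s := dist_triangle _ _ _
    _ < ρ / 2 + ρ / 2 := by
        rw [dist_comm s' s]
        exact add_lt_add hy hd
    _ = ρ := by ring

lemma zero_mem_SS (hs : Setup μ ν A E S) : (0 : V) ∈ SS μ ν A E S := by
  intro ρ hρ
  obtain ⟨r0, hr0, hball⟩ := exists_ball_sub hs.nhds
  have hfin := isFiniteMeasure_mz (μ := μ) (ν := ν) hs.comp (0 : V)
  set U : Set V := Metric.ball 0 (min ρ r0) with hU
  have hUpos : 0 < min ρ r0 := lt_min hρ hr0
  have hUo : IsOpen U := Metric.isOpen_ball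
  have hUm : MeasurableSet U := hUo.measurableSet
  have hUY : MeasurableSet (U ×ˢ (univ : Set Y)) := hUm.prod MeasurableSet.univ
  have hmem : MemLp ((U ×ˢ (univ : Set Y)).indicator (fun _ => (1 : ℂ))) 2 (mz μ ν A 0) :=
    (memLp_const (1 : ℂ)).indicator hUY
  obtain ⟨F, hF, hFe⟩ := MM_ext hs 0 hmem
  have hUA : U ⊆ A := by
    have := hball 0
    rw [win_zero] at this
    exact (Metric.ball_subset_ball (min_le_right _ _)).trans this
  have hAm : MeasurableSet A := hs.comp.isClosed.measurableSet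
  rw [mz_eq_restrict, win_zero] at hFe
  refine ⟨F, hF, ?_, ?_⟩
  · have h0 : GG μ ν F (A \ U) = 0 := by
      rw [GG_eq_zero_iff hF.1 (hAm.diff hUm)]
      have h1 := ae_restrict_of_ae_restrict_of_subset (prod_mono (sdiff_subset (s := A) (t := U))
        (Subset.rfl (s := (univ : Set Y)))) hFe
      have h2 : ∀ᵐ p ∂((μ.prod ν).restrict ((A \ U) ×ˢ univ)),
          p ∈ (A \ U) ×ˢ (univ : Set Y) :=
        ae_restrict_mem ((hAm.diff hUm).prod MeasurableSet.univ)
      filter_upwards [h1, h2] with p h3 h4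
      rw [h3, indicator_of_notMem]
      intro h5
      exact h4.1.2 h5.1
    exact measure_mono_null (sdiff_subset_sdiff_right
      (Metric.ball_subset_ball (min_le_left _ _))) h0
  · intro h0
    have h1 : GG μ ν F U = 0 :=
      measure_mono_null (Metric.ball_subset_ball (min_le_left _ _)) h0
    rw [GG_eq_zero_iff hF.1 hUm] at h1
    have h2 := ae_restrict_of_ae_restrict_of_subset (prod_mono hUA
        (Subset.rfl (s := (univ : Set Y)))) hFe
    have h3 : ∀ᵐ p ∂((μ.prod ν).restrict (U ×ˢ univ)), p ∈ U ×ˢ (univ : Set Y) :=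
        ae_restrict_mem hUY
    have h4 : ∀ᵐ p ∂((μ.prod ν).restrict (U ×ˢ (univ : Set Y))), False := by
      filter_upwards [h1, h2, h3] with p h5 h6 h7
      rw [h5, indicator_of_mem h7] at h6
      exact zero_ne_one h6
    rw [Filter.eventually_false_iff_eq_bot, ae_eq_bot, Measure.restrict_eq_zero,
      Measure.prod_prod] at h4
    rcases mul_eq_zero.1 h4 with h | h
    · exact (hUo.measure_pos μ ⟨0, Metric.mem_ball_self hUpos⟩).ne' h
    · exact hs.nu (Measure.measure_univ_eq_zero.1 h)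

/-- midpoint argument -/
lemma hard_SS (hs : Setup μ ν A E S) : ∀ s ∈ SS μ ν A E S, (1 / 2 : ℝ) • s ∈ interior A → s = 0 := by
  intro s hsS hsi
  by_contra hne
  obtain ⟨r0, hr0, hball⟩ := exists_ball_sub hs.nhds
  set c := (1 / 2 : ℝ) • s with hc
  have hsc : s - c = c := by
    rw [hc]; nth_rewrite 1 [← one_smul ℝ s]; rw [← sub_smul]; norm_num
  have hneg : -c ∈ interior A := by
    have h1 : Neg.neg '' (interior A) = interior A := by
      have h2 : (Neg.neg '' A) = A := by
        ext x; constructor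
        · rintro ⟨y, hy, rfl⟩; exact hs.symm y hy
        · intro hx; exact ⟨-x, hs.symm x hx, by simp⟩
      have h3 := (Homeomorph.neg V).image_interior A
      have h4 : (⇑(Homeomorph.neg V)) = Neg.neg := rfl
      rw [h4] at h3
      rw [h3, h2]
    rw [← h1]
    exact ⟨c, hsi, rfl⟩
  -- windows around
  have e1 : ∀ᶠ ρ in 𝓝[>] (0 : ℝ), Metric.ball s ρ ⊆ win A c := by
    have : {x : V | x - c ∈ interior A} ∈ 𝓝 s := by
      have hcont : Continuous (fun x : V => x - c) := by fun_prop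
      exact hcont.continuousAt.preimage_mem_nhds (isOpen_interior.mem_nhds (by
        show s - c ∈ interior A
        rw [hsc]; exact hsi))
    obtain ⟨r, hr, hr'⟩ := Metric.mem_nhds_iff.1 this
    filter_upwards [Ioo_mem_nhdsGT hr] with ρ hρ x hx
    have := hr' (Metric.ball_subset_ball hρ.2.le hx)
    exact mem_win_of_interior this
  have e2 : ∀ᶠ ρ in 𝓝[>] (0 : ℝ), Metric.ball (0 : V) ρ ⊆ win A c := by
    have : {x : V | x - c ∈ interior A} ∈ 𝓝 (0 : V) := by
      have hcont : Continuous (fun x : V => x - c) := by fun_prop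
      exact hcont.continuousAt.preimage_mem_nhds (isOpen_interior.mem_nhds (by
        show (0 : V) - c ∈ interior A
        rw [zero_sub]; exact hneg))
    obtain ⟨r, hr, hr'⟩ := Metric.mem_nhds_iff.1 this
    filter_upwards [Ioo_mem_nhdsGT hr] with ρ hρ x hx
    have := hr' (Metric.ball_subset_ball hρ.2.le hx)
    exact mem_win_of_interior this
  have hd : 0 < dist s 0 / 2 := by
    have := dist_pos.2 hne
    linarith
  obtain ⟨ρ, ⟨h1, h2⟩, h3⟩ := ((e1.and e2).and (Ioo_mem_nhdsGT hd)).exists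
  obtain ⟨F, hF, hF1, hF2⟩ := hsS ρ h3.1
  have hF1' : GG μ ν F (win A 0 \ Metric.ball 0 ρ) = 0 := by rwa [win_zero]
  have h4 := loc_change hs hF Metric.isOpen_ball.measurableSet h2 hF1'
  apply hF2
  refine measure_mono_null ?_ h4
  intro x hx
  refine ⟨h1 hx, fun hx0 => ?_⟩
  rw [Metric.mem_ball] at hx hx0
  have h5 : dist s 0 ≤ dist x s + dist x 0 := dist_triangle_left _ _ _
  have h6 := h3.2
  linarith

lemma tp_SS (hs : Setup μ ν A E S) (z1 z2 : V) (O : Set V) (hO : IsOpen O)
    (h1 : ∀ s ∈ SS μ ν A E S, s - z1 ∈ A → s ∈ O)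
    (h2 : ∀ x, x - z1 ∈ A → x ∈ O → x - z2 ∈ A) :
    ∀ s ∈ SS μ ν A E S, s - z2 ∈ interior A → s ∈ closure O := by
  intro s hsS hsi
  by_contra hnot
  obtain ⟨r0, hr0, hball⟩ := exists_ball_sub hs.nhds
  -- a ball around s disjoint from O and inside the second window
  have hU : {x : V | x - z2 ∈ interior A} ∩ (closure O)ᶜ ∈ 𝓝 s := by
    refine Filter.inter_mem ?_ (isClosed_closure.isOpen_compl.mem_nhds hnot)
    have hcont : Continuous (fun x : V => x - z2) := by fun_prop
    exact hcont.continuousAt.preimage_mem_nhds (isOpen_interior.mem_nhds hsi)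
  obtain ⟨r1, hr1, hr1'⟩ := Metric.mem_nhds_iff.1 hU
  have hX : IsCompact (win A z1 \ O) := (isCompact_win hs.comp z1).diff hO
  have hdis : Disjoint (win A z1 \ O) (SS μ ν A E S) := by
    rw [Set.disjoint_left]
    rintro x ⟨hx1, hx2⟩ hxS
    exact hx2 (h1 x hxS hx1)
  obtain ⟨δ, hδ, hδ'⟩ := hdis.exists_thickenings hX isClosed_SS
  set ρ := min (min r0 r1) δ / 2 with hρ
  have hρpos : 0 < ρ := by
    rw [hρ]; exact half_pos (lt_min (lt_min hr0 hr1) hδ)
  have hρ0 : ρ < r0 := by
    rw [hρ]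
    have : min (min r0 r1) δ ≤ r0 := (min_le_left _ _).trans (min_le_left _ _)
    linarith
  have hρ1 : ρ < r1 := by
    rw [hρ]
    have : min (min r0 r1) δ ≤ r1 := (min_le_left _ _).trans (min_le_right _ _)
    linarith
  have hρδ : ρ < δ := by
    rw [hρ]
    have : min (min r0 r1) δ ≤ δ := min_le_right _ _
    linarith
  obtain ⟨F, hF, hF1, hF2⟩ := hsS ρ hρpos
  have hF1' : GG μ ν F (win A 0 \ Metric.closedBall 0 ρ) = 0 := by
    rw [win_zero]
    exact measure_mono_null (sdiff_subset_sdiff_right Metric.ball_subset_closedBall) hF1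
  have hnull := support_null hs hF (isCompact_closedBall (0 : V) ρ) hF1' hX (by
    rintro x hx k hk hxk
    rw [Set.disjoint_left] at hδ'
    refine hδ' (Metric.self_subset_thickening hδ _ hx) ?_
    rw [Metric.mem_thickening_iff]
    refine ⟨x - k, hxk, ?_⟩
    rw [dist_eq_norm]
    simp only [sub_sub_cancel]
    rw [mem_closedBall_zero_iff] at hk
    exact hk.trans_lt hρδ)
  -- total mass of the second window sits in O
  have h3 : GG μ ν F (win A z1 \ (win A z1 ∩ O)) = 0 := by
    rw [sdiff_self_inter]; exact hnull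
  have h4 := loc_change hs hF ((measurableSet_win hs.comp z1).inter hO.measurableSet)
    (z' := z2) (fun x hx => h2 x hx.1 hx.2) h3
  apply hF2
  refine measure_mono_null ?_ h4
  intro x hx
  have hx' := hr1' (Metric.ball_subset_ball hρ1.le hx)
  exact ⟨mem_win_of_interior hx'.1, fun h => hx'.2 (subset_closure h.2)⟩

lemma TP_SS (hs : Setup μ ν A E S) : TP A (SS μ ν A E S) :=
  ⟨isClosed_SS, zero_mem_SS hs, hard_SS hs, tp_SS hs⟩

end QT

end Pool.Agent.Lib_MP_5ddbb8_an
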