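import Mathlib
import Pool.Agent.Lib_MP_5ddbb8_an.QT2

/-!
Isolated points of the support set are periods of the mass measures.
-/

set_option linter.unusedSectionVars false
set_option linter.unusedSimpArgs false
set_option linter.unusedVariables false

open scoped Pointwise Topology ENNReal ComplexConjugate
open Module Set MeasureTheory Filter

namespace Pool.Agent.Lib_MP_5ddbb8_an

section QT

variable {V : Type*} [NormedAddCommGroup V] [NormedSpace ℝ V] [FiniteDimensional ℝ V]
  [MeasurableSpace V] [BorelSpace V]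
variable {Y : Type*} [MeasurableSpace Y] {J : Type*}
variable {μ : Measure V} [μ.IsAddHaarMeasure] {ν : Measure Y} [IsFiniteMeasure ν]
variable {A : Set V} {E : J → V × Y → ℂ} {S : Set J}

/-- `a` is a period of all mass measures, tested on small closed balls -/
def IsPer (μ : Measure V) (ν : Measure Y) (A : Set V) (E : J → V × Y → ℂ) (S : Set J)
    (a : V) : Prop :=
  ∃ ρ₀ > 0, ∀ F ∈ MM μ ν A E S, ∀ x₀ : V, ∀ ρ : ℝ, 0 < ρ → ρ < ρ₀ →
    GG μ ν F (Metric.closedBall (x₀ + a) ρ) = GG μ ν F (Metric.closedBall x₀ ρ)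

lemma isPer_of_isolated (hs : Setup μ ν A E S) {a : V}
    (ha : ∀ s ∈ SS μ ν A E S, (1 / 2 : ℝ) • (s - a) ∈ interior A → s = a) :
    IsPer μ ν A E S a := by
  obtain ⟨r0, hr0, hball⟩ := Metric.mem_nhds_iff.1 (isOpen_interior.mem_nhds hs.nhds)
  refine ⟨r0, hr0, fun F hF x₀ ρ hρ hρr => ?_⟩
  have hcl : ∀ k : V, ‖k‖ ≤ ρ → -k ∈ interior A := fun k hk => hball (by
    rw [mem_ball_zero_iff, norm_neg]; exact hk.trans_lt hρr)
  have hcl' : ∀ k : V, ‖k‖ ≤ ρ → k ∈ interior A := fun k hk => hball (by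
    rw [mem_ball_zero_iff]; exact hk.trans_lt hρr)
  -- midpoint facts
  have hmid1 : ∀ x k : V, x ∈ A → ‖k‖ ≤ ρ → (1 / 2 : ℝ) • (x - k) ∈ interior A := by
    intro x k hx hk
    have := hs.conv.combo_self_interior_mem_interior hx (hcl k hk)
      (a := 1 / 2) (b := 1 / 2) (by norm_num) (by norm_num) (by norm_num)
    rwa [← smul_add, ← sub_eq_add_neg] at this
  have hmid2 : ∀ x k : V, ‖x‖ ≤ ρ → k ∈ A → (1 / 2 : ℝ) • (x - k) ∈ interior A := by
    intro x k hx hk
    have := hs.conv.combo_interior_self_mem_interior (hcl' x hx) (hs.symm k hk)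
      (a := 1 / 2) (b := 1 / 2) (by norm_num) (by norm_num) (by norm_num)
    rwa [← smul_add, ← sub_eq_add_neg] at this
  set X : Set V := Metric.closedBall x₀ ρ with hX
  have hXm : MeasurableSet X := Metric.isClosed_closedBall.measurableSet
  have hXW : X ⊆ win A x₀ := by
    intro x hx
    rw [hX, Metric.mem_closedBall, dist_eq_norm] at hx
    exact mem_win_of_interior (hcl' _ hx)
  set X' : Set V := Metric.closedBall (x₀ + a) ρ with hX'
  have hXm' : MeasurableSet X' := Metric.isClosed_closedBall.measurableSet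
  have hXW' : X' ⊆ win A (x₀ + a) := by
    intro x hx
    rw [hX', Metric.mem_closedBall, dist_eq_norm] at hx
    exact mem_win_of_interior (hcl' _ hx)
  obtain ⟨F1, hF1, hF1a, hF1b⟩ := MM_loc hs hF x₀ hXm
  have hF2 := MM_sub hs hF hF1
  -- claim 1
  have claim1 : GG μ ν F1 (win A (x₀ + a) \ X') = 0 := by
    have hcov : win A (x₀ + a) \ X' ⊆
        ⋃ n : ℕ, (win A (x₀ + a) \ Metric.ball (x₀ + a) (ρ + 1 / ((n : ℝ) + 1))) := by
      rintro x ⟨hx1, hx2⟩
      rw [hX', Metric.mem_closedBall, not_le] at hx2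
      obtain ⟨n, hn⟩ := exists_nat_one_div_lt (sub_pos.2 hx2)
      refine mem_iUnion.2 ⟨n, hx1, fun h => ?_⟩
      rw [Metric.mem_ball] at h
      linarith
    refine measure_mono_null hcov (measure_iUnion_null fun n => ?_)
    have hn : (0 : ℝ) < 1 / ((n : ℝ) + 1) := by positivity
    refine support_null hs hF1 (isCompact_closedBall x₀ ρ) hF1a
      ((isCompact_win hs.comp (x₀ + a)).diff Metric.isOpen_ball) ?_
    rintro x ⟨hx1, hx2⟩ k hk hxk
    rw [Metric.mem_closedBall, dist_eq_norm] at hk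
    have h1 : x - (x₀ + a) ∈ A := hx1
    have h2 := hmid1 _ _ h1 hk
    have e : x - (x₀ + a) - (k - x₀) = x - k - a := by abel
    rw [e] at h2
    have h3 := ha _ hxk h2
    apply hx2
    rw [Metric.mem_ball, dist_eq_norm]
    have e2 : x - (x₀ + a) = k - x₀ := by
      have : x = k + a := by rw [← h3]; abel
      rw [this]; abel
    rw [e2]
    linarith
  have m1 : GG μ ν F1 X' = GG μ ν F1 X := by
    have h1 : GG μ ν F1 (win A (x₀ + a)) = GG μ ν F1 X' := by
      rw [← measure_sdiff_add_inter (s := win A (x₀ + a)) hXm', claim1, zero_add,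
        inter_eq_self_of_subset_right hXW']
    have h2 : GG μ ν F1 (win A x₀) = GG μ ν F1 X := by
      rw [← measure_sdiff_add_inter (s := win A x₀) hXm, hF1a, zero_add,
        inter_eq_self_of_subset_right hXW]
    rw [← h1, ← h2, GG_win_eq hs hF1 (x₀ + a) x₀]
  have m2 : GG μ ν F1 X = GG μ ν F X := by
    have h1 : GG μ ν (F - F1) X = 0 := by
      rwa [inter_eq_self_of_subset_right hXW] at hF1b
    exact (GG_eq_of_sub hF.1 hF1.1 hXm h1).symm
  -- claim 2
  have claim2 : GG μ ν (F - F1) X' = 0 := by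
    have hcov : X' ⊆ (⋃ n : ℕ, Metric.closedBall (x₀ + a) (ρ - 1 / ((n : ℝ) + 1))) ∪
        Metric.sphere (x₀ + a) ρ := by
      intro x hx
      rw [hX', Metric.mem_closedBall] at hx
      rcases hx.eq_or_lt with h | h
      · right; exact h
      · left
        obtain ⟨n, hn⟩ := exists_nat_one_div_lt (sub_pos.2 h)
        exact mem_iUnion.2 ⟨n, by rw [Metric.mem_closedBall]; linarith⟩
    refine measure_mono_null hcov (measure_union_null (measure_iUnion_null fun n => ?_)
      (GG_ac _ (Measure.addHaar_sphere_of_ne_zero μ _ hρ.ne')))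
    have hn : (0 : ℝ) < 1 / ((n : ℝ) + 1) := by positivity
    have hloc : GG μ ν (F - F1) (win A x₀ \ (win A x₀ \ Metric.ball x₀ ρ)) = 0 := by
      refine measure_mono_null ?_ hF1b
      rintro x ⟨hx1, hx2⟩
      refine ⟨hx1, ?_⟩
      by_contra h
      exact hx2 ⟨hx1, fun h' => h (Metric.ball_subset_closedBall h')⟩
    refine support_null hs hF2 ((isCompact_win hs.comp x₀).diff Metric.isOpen_ball) hloc
      (isCompact_closedBall _ _) ?_
    rintro x hx k ⟨hk1, hk2⟩ hxk
    rw [Metric.mem_closedBall, dist_eq_norm] at hx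
    have h1 : k - x₀ ∈ A := hk1
    have h2 := hmid2 _ _ (show ‖x - (x₀ + a)‖ ≤ ρ by linarith) h1
    have e : x - (x₀ + a) - (k - x₀) = x - k - a := by abel
    rw [e] at h2
    have h3 := ha _ hxk h2
    apply hk2
    rw [Metric.mem_ball, dist_eq_norm]
    have e2 : k - x₀ = x - (x₀ + a) := by
      have : x = k + a := by rw [← h3]; abel
      rw [this]; abel
    rw [e2]
    linarith
  rw [GG_eq_of_sub hF.1 hF1.1 hXm' claim2, m1, m2]

lemma SS_add_of_isPer {a : V} (ha : IsPer μ ν A E S a) {s : V} (hs : s ∈ SS μ ν A E S) :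
    s + a ∈ SS μ ν A E S := by
  intro ρ hρ
  obtain ⟨ρ₀, hρ₀, hper⟩ := ha
  set r := min ρ ρ₀ / 2 with hr
  have hrpos : 0 < r := by rw [hr]; exact half_pos (lt_min hρ hρ₀)
  have hr1 : r < ρ := by rw [hr]; have := min_le_left ρ ρ₀; linarith
  have hr2 : r < ρ₀ := by rw [hr]; have := min_le_right ρ ρ₀; linarith
  obtain ⟨F, hF, h1, h2⟩ := hs r hrpos
  refine ⟨F, hF, measure_mono_null (sdiff_subset_sdiff_right
    (Metric.ball_subset_ball hr1.le)) h1, fun h0 => h2 ?_⟩
  have h3 : GG μ ν F (Metric.closedBall (s + a) r) = 0 :=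
    measure_mono_null (Metric.closedBall_subset_ball hr1) h0
  rw [hper F hF s r hrpos hr2] at h3
  exact measure_mono_null Metric.ball_subset_closedBall h3

lemma IsPer.neg {a : V} (ha : IsPer μ ν A E S a) : IsPer μ ν A E S (-a) := by
  obtain ⟨ρ₀, hρ₀, hper⟩ := ha
  refine ⟨ρ₀, hρ₀, fun F hF x ρ h1 h2 => ?_⟩
  have := hper F hF (x + -a) ρ h1 h2
  rw [neg_add_cancel_right] at this
  exact this.symm

lemma GG_pair (hs : Setup μ ν A E S) {i j : J} (hi : i ∈ S) (hj : j ∈ S) (ζ : ℂ) {X : Set V}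
    (hX : IsCompact X) :
    GG μ ν (E i + ζ • E j) X = ENNReal.ofReal ((1 + ‖ζ‖ ^ 2) * (μ.real X * ν.real univ) +
      2 * (conj ζ * ∫ p in X ×ˢ univ, E i p * conj (E j p) ∂(μ.prod ν)).re) := by
  have hXm : MeasurableSet X := hX.isClosed.measurableSet
  rw [GG_apply _ hXm]
  set m := (μ.prod ν).restrict (X ×ˢ (univ : Set Y)) with hm
  have hmfin : IsFiniteMeasure m := by
    refine ⟨?_⟩
    rw [hm, Measure.restrict_apply_univ, Measure.prod_prod]
    exact ENNReal.mul_lt_top hX.measure_lt_top (measure_lt_top ν univ)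
  have hmeas : Measurable (E i + ζ • E j) := (hs.fam.meas i).add ((hs.fam.meas j).const_smul ζ)
  have hsq : ∀ p, ‖(E i + ζ • E j) p‖ ^ 2 = (1 + ‖ζ‖ ^ 2) + 2 * (conj ζ * (E i p * conj (E j p))).re := by
    intro p
    have h1 := Complex.normSq_add (E i p) (ζ * E j p)
    rw [Complex.normSq_eq_norm_sq, Complex.normSq_eq_norm_sq, Complex.normSq_eq_norm_sq,
      norm_mul, hs.fam.norm, hs.fam.norm] at h1
    have h2 : (E i + ζ • E j) p = E i p + ζ * E j p := rfl
    rw [h2, h1]
    have h3 : E i p * conj (ζ * E j p) = conj ζ * (E i p * conj (E j p)) := by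
      rw [map_mul]; ring
    rw [h3]; ring
  have hint : Integrable (fun p => E i p * conj (E j p)) m := by
    refine Integrable.of_bound (C := 1) ?_ (Eventually.of_forall fun x => ?_)
    · exact ((hs.fam.meas i).mul
        (Complex.continuous_conj.measurable.comp (hs.fam.meas j))).aestronglyMeasurable
    · rw [norm_mul, RCLike.norm_conj, hs.fam.norm, hs.fam.norm, mul_one]
  have hint2 : Integrable (fun p => conj ζ * (E i p * conj (E j p))) m := hint.const_mul _
  have hint3 : Integrable (fun p => (conj ζ * (E i p * conj (E j p))).re) m := hint2.re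
  have hint4 : Integrable (fun p => (1 + ‖ζ‖ ^ 2) + 2 * (conj ζ * (E i p * conj (E j p))).re) m :=
    (integrable_const _).add (hint3.const_mul 2)
  have h5 : ∫⁻ p, ‖(E i + ζ • E j) p‖ₑ ^ 2 ∂m =
      ENNReal.ofReal (∫ p, ‖(E i + ζ • E j) p‖ ^ 2 ∂m) := by
    rw [ofReal_integral_eq_lintegral_ofReal]
    · refine lintegral_congr fun p => ?_
      rw [ENNReal.ofReal_pow (norm_nonneg _), ofReal_norm]
    · refine hint4.congr (Eventually.of_forall fun p => ?_)
      exact (hsq p).symm
    · exact Eventually.of_forall fun p => by positivity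
  rw [h5]
  congr 1
  simp only [hsq]
  rw [integral_add (integrable_const _) (hint3.const_mul 2), integral_const,
    integral_const_mul]
  have h6 : ∫ p, (conj ζ * (E i p * conj (E j p))).re ∂m =
      (∫ p, conj ζ * (E i p * conj (E j p)) ∂m).re := by
    have := integral_re hint2
    simpa using this
  rw [h6, integral_const_mul]
  have h7 : m.real univ = μ.real X * ν.real univ := by
    rw [Measure.real, hm, Measure.restrict_apply_univ, Measure.prod_prod, ENNReal.toReal_mul]
    rfl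
  rw [h7, smul_eq_mul]
  ring

/-- the pair identity -/
lemma pair_id (hs : Setup μ ν A E S) {i j : J} (hi : i ∈ S) (hj : j ∈ S) {X X' : Set V}
    (hX : IsCompact X) (hX' : IsCompact X') (hμ : μ X = μ X')
    (h : ∀ F ∈ MM μ ν A E S, GG μ ν F X = GG μ ν F X') :
    ∫ p in X ×ˢ univ, E i p * conj (E j p) ∂(μ.prod ν) =
      ∫ p in X' ×ˢ univ, E i p * conj (E j p) ∂(μ.prod ν) := by
  have hmem : ∀ ζ : ℂ, E i + ζ • E j ∈ MM μ ν A E S := fun ζ =>
    PP_subset_MM hs (Submodule.add_mem _ (Submodule.subset_span ⟨i, hi, rfl⟩)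
      (Submodule.smul_mem _ _ (Submodule.subset_span ⟨j, hj, rfl⟩)))
  have hreal : μ.real X = μ.real X' := by simp only [Measure.real, hμ]
  have hnn : ∀ ζ : ℂ, ∀ {Z : Set V}, IsCompact Z → 0 ≤ (1 + ‖ζ‖ ^ 2) * (μ.real Z * ν.real univ) +
      2 * (conj ζ * ∫ p in Z ×ˢ univ, E i p * conj (E j p) ∂(μ.prod ν)).re ∨ ‖ζ‖ ≠ 1 := by
    intro ζ Z hZ
    by_cases hζ : ‖ζ‖ = 1
    · left
      have h1 : ‖∫ p in Z ×ˢ univ, E i p * conj (E j p) ∂(μ.prod ν)‖ ≤
          1 * (μ.prod ν).real (Z ×ˢ univ) := by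
        refine norm_setIntegral_le_of_norm_le_const ?_ (fun p _ => ?_)
        · rw [Measure.prod_prod]
          exact ENNReal.mul_lt_top hZ.measure_lt_top (measure_lt_top ν univ)
        · rw [norm_mul, RCLike.norm_conj, hs.fam.norm, hs.fam.norm, mul_one]
      have h2 : (μ.prod ν).real (Z ×ˢ (univ : Set Y)) = μ.real Z * ν.real univ := by
        rw [Measure.real, Measure.prod_prod, ENNReal.toReal_mul]
        rfl
      rw [h2, one_mul] at h1
      have h3 := Complex.abs_re_le_norm
        (conj ζ * ∫ p in Z ×ˢ univ, E i p * conj (E j p) ∂(μ.prod ν))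
      rw [norm_mul, RCLike.norm_conj, hζ, one_mul] at h3
      have h4 := (abs_le.1 (h3.trans h1)).1
      rw [hζ]
      linarith
    · right; exact hζ
  have key : ∀ ζ : ℂ, ‖ζ‖ = 1 →
      (conj ζ * ∫ p in X ×ˢ univ, E i p * conj (E j p) ∂(μ.prod ν)).re =
      (conj ζ * ∫ p in X' ×ˢ univ, E i p * conj (E j p) ∂(μ.prod ν)).re := by
    intro ζ hζ
    have h1 := h _ (hmem ζ)
    rw [GG_pair hs hi hj ζ hX, GG_pair hs hi hj ζ hX'] at h1
    have h2 := (ENNReal.ofReal_eq_ofReal_iff ((hnn ζ hX).resolve_right (by simp [hζ]))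
      ((hnn ζ hX').resolve_right (by simp [hζ]))).1 h1
    rw [hreal] at h2
    linarith
  apply Complex.ext
  · simpa using key 1 (by simp)
  · simpa using key Complex.I (by simp)

end QT

end Pool.Agent.Lib_MP_5ddbb8_an
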