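import Mathlib
import Pool.Agent.Lib_MP_5ddbb8_an.QT3
import Pool.Agent.Lib_MP_5ddbb8_an.Lattice
import Pool.Agent.Lib_MP_5ddbb8_an.OB

/-!
The indecomposable case: all facet vectors are isolated points of the support set.
-/

set_option linter.unusedSectionVars false
set_option linter.unusedSimpArgs false
set_option linter.unusedVariables false

open scoped Pointwise Topology ENNReal ComplexConjugate
open Module Set MeasureTheory Filter

namespace Pool.Agent.Lib_MP_5ddbb8_an

section Core

variable {V : Type*} [NormedAddCommGroup V] [NormedSpace ℝ V] [FiniteDimensional ℝ V]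
  [MeasurableSpace V] [BorelSpace V]
variable {Y : Type*} [MeasurableSpace Y] {Q : Type*}
variable {μ : Measure V} [μ.IsAddHaarMeasure] {ν : Measure Y} [IsFiniteMeasure ν]
variable {ι : Type*} [Fintype ι] {g : ι → V}

/-- the product family -/
noncomputable def Ef (w : Q → Y → ℂ) (i : Dual ℝ V × Q) (p : V × Y) : ℂ := ex i.1 p.1 * w i.2 p.2

lemma ex_mul_conj (s r : Dual ℝ V) (x : V) : ex s x * conj (ex r x) = ex (s - r) x := by
  have h1 : ex s x = ex (s - r) x * ex r x := by rw [← ex_add_left, sub_add_cancel]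
  rw [h1, mul_assoc, Complex.mul_conj, Complex.normSq_eq_norm_sq, norm_ex]
  simp

lemma fam_Ef {w : Q → Y → ℂ} (hw : ∀ t, Measurable (w t)) (hw1 : ∀ t y, ‖w t y‖ = 1) :
    Fam (Ef w (V := V)) := by
  refine ⟨fun i => ?_, fun i p => ?_, fun i a => ?_⟩
  · exact ((continuous_ex i.1).measurable.comp measurable_fst).mul
      ((hw i.2).comp measurable_snd)
  · rw [Ef, norm_mul, norm_ex, hw1, one_mul]
  · refine ⟨ex i.1 a, norm_ex _ _, fun x y => ?_⟩
    simp only [Ef, ex_add_right]
    ring

lemma Ef_mul_conj (w : Q → Y → ℂ) (i j : Dual ℝ V × Q) (p : V × Y) :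
    Ef w i p * conj (Ef w j p) = ex (i.1 - j.1) p.1 * (w i.2 p.2 * conj (w j.2 p.2)) := by
  simp only [Ef, map_mul]
  rw [← ex_mul_conj]; ring

lemma integral_Ef_mul_conj (w : Q → Y → ℂ) (i j : Dual ℝ V × Q) (X : Set V) :
    ∫ p in X ×ˢ univ, Ef w i p * conj (Ef w j p) ∂(μ.prod ν) =
      (∫ x in X, ex (i.1 - j.1) x ∂μ) * ∫ y, w i.2 y * conj (w j.2 y) ∂ν := by
  have h1 : (μ.prod ν).restrict (X ×ˢ univ) = (μ.restrict X).prod ν := by
    have := Measure.prod_restrict (μ := μ) (ν := ν) X univ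
    rw [Measure.restrict_univ] at this
    exact this.symm
  rw [h1]
  simp only [Ef_mul_conj]
  exact integral_prod_mul (fun x => ex (i.1 - j.1) x) (fun y => w i.2 y * conj (w j.2 y))

lemma exists_ball_integral_ne (ξ : Dual ℝ V) :
    ∃ r > 0, ∀ ρ : ℝ, 0 < ρ → ρ < r → ∫ x in Metric.closedBall (0 : V) ρ, ex ξ x ∂μ ≠ 0 := by
  have h0 : ex ξ (0 : V) = 1 := by simp [ex]
  have hc := (continuous_ex ξ).continuousAt (x := (0 : V))
  obtain ⟨r, hr, hr'⟩ := Metric.continuousAt_iff.1 hc (1 / 2) (by norm_num)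
  refine ⟨r, hr, fun ρ hρ hρr hzero => ?_⟩
  have hfin : μ (Metric.closedBall (0 : V) ρ) < ⊤ := (isCompact_closedBall _ _).measure_lt_top
  have hpos : 0 < μ.real (Metric.closedBall (0 : V) ρ) :=
    ENNReal.toReal_pos (Metric.measure_closedBall_pos μ _ hρ).ne' hfin.ne
  have hint : IntegrableOn (ex ξ) (Metric.closedBall (0 : V) ρ) μ :=
    (continuous_ex ξ).continuousOn.integrableOn_compact (isCompact_closedBall _ _)
  have h1 : ∫ x in Metric.closedBall (0 : V) ρ, (ex ξ x - 1) ∂μ =
      0 - (μ.real (Metric.closedBall (0 : V) ρ) : ℂ) := by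
    rw [integral_sub hint (integrableOn_const hfin.ne), hzero]
    simp
  have h2 : ‖∫ x in Metric.closedBall (0 : V) ρ, (ex ξ x - 1) ∂μ‖ ≤
      1 / 2 * μ.real (Metric.closedBall (0 : V) ρ) := by
    refine norm_setIntegral_le_of_norm_le_const hfin fun x hx => ?_
    rw [Metric.mem_closedBall] at hx
    have := hr' (hx.trans_lt hρr)
    rw [h0, dist_eq_norm] at this
    exact this.le
  rw [h1, zero_sub, norm_neg, Complex.norm_real, Real.norm_of_nonneg hpos.le] at h2
  linarith

/-- integrality of the differences of frequencies -/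
lemma int_of_isPer {w : Q → Y → ℂ} {S : Set (Dual ℝ V × Q)} {A : Set V}
    (hs : Setup μ ν A (Ef w) S) {a : V} (ha : IsPer μ ν A (Ef w) S a) {i j : Dual ℝ V × Q}
    (hi : i ∈ S) (hj : j ∈ S) (hne : ∫ y, w i.2 y * conj (w j.2 y) ∂ν ≠ 0) :
    ∃ n : ℤ, (i.1 - j.1) a = n := by
  obtain ⟨ρ₀, hρ₀, hper⟩ := ha
  obtain ⟨r, hr, hr'⟩ := exists_ball_integral_ne (μ := μ) (i.1 - j.1)
  set ρ := min ρ₀ r / 2 with hρ
  have hρpos : 0 < ρ := by rw [hρ]; exact half_pos (lt_min hρ₀ hr)
  have h1 : ρ < ρ₀ := by rw [hρ]; have := min_le_left ρ₀ r; linarith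
  have h2 : ρ < r := by rw [hρ]; have := min_le_right ρ₀ r; linarith
  have hμ : μ (Metric.closedBall a ρ) = μ (Metric.closedBall 0 ρ) :=
    Measure.addHaar_closedBall_center μ a ρ
  have h3 := pair_id hs hi hj (isCompact_closedBall a ρ) (isCompact_closedBall 0 ρ) hμ
    (fun F hF => by
      have := hper F hF 0 ρ hρpos h1
      rwa [zero_add] at this)
  rw [integral_Ef_mul_conj, integral_Ef_mul_conj] at h3
  have h4 := mul_right_cancel₀ hne h3
  have h5 : ∫ x in Metric.closedBall a ρ, ex (i.1 - j.1) x ∂μ =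
      ex (i.1 - j.1) a * ∫ x in Metric.closedBall 0 ρ, ex (i.1 - j.1) x ∂μ := by
    have hmp := measurePreserving_add_left μ a
    have := hmp.setIntegral_image_emb (measurableEmbedding_addLeft a) (ex (i.1 - j.1))
      (Metric.closedBall 0 ρ)
    have himg : (fun x => a + x) '' Metric.closedBall 0 ρ = Metric.closedBall a ρ := by
      have := (IsometryEquiv.addLeft a).image_closedBall (0 : V) ρ
      simpa using this
    rw [himg] at this
    rw [this]
    simp only [ex_add_right]
    rw [integral_const_mul]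
  rw [h5] at h4
  have h6 := hr' ρ hρpos h2
  have h7 : ex (i.1 - j.1) a = 1 := by
    apply mul_right_cancel₀ h6
    rw [h4, one_mul]
  exact (ex_eq_one_iff _ _).1 h7

lemma inner_toLp' {X : Type*} [MeasurableSpace X] {m : Measure X} {f h : X → ℂ}
    (hf : MemLp f 2 m) (hh : MemLp h 2 m) :
    inner ℂ (hh.toLp h) (hf.toLp f) = ∫ x, f x * conj (h x) ∂m := by
  rw [L2.inner_def]
  refine integral_congr_ae ?_
  filter_upwards [hf.coeFn_toLp, hh.coeFn_toLp] with x h1 h2
  rw [h1, h2]
  simp [mul_comm]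

lemma eLpNorm_two_sq {Z : Type*} [MeasurableSpace Z] (m : Measure Z) (φ : Z → ℂ) :
    eLpNorm φ 2 m ^ 2 = ∫⁻ z, ‖φ z‖ₑ ^ 2 ∂m := by
  have := eLpNorm_nnreal_pow_eq_lintegral (μ := m) (f := φ) (p := 2) (by norm_num)
  have h2 : ((2 : NNReal) : ℝ) = 2 := by norm_num
  rw [h2] at this
  simp only [ENNReal.rpow_ofNat] at this
  exact this

lemma memLp_prod {X X' : Type*} [MeasurableSpace X] [MeasurableSpace X'] {m : Measure X}
    {m' : Measure X'} [SFinite m] [SFinite m'] {f : X → ℂ} {r : X' → ℂ} (hf : MemLp f 2 m)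
    (hr : MemLp r 2 m') : MemLp (fun p : X × X' => f p.1 * r p.2) 2 (m.prod m') := by
  refine ⟨hf.1.comp_fst.mul hr.1.comp_snd, ?_⟩
  have h1 : eLpNorm (fun p : X × X' => f p.1 * r p.2) 2 (m.prod m') ^ 2 =
      eLpNorm f 2 m ^ 2 * eLpNorm r 2 m' ^ 2 := by
    rw [eLpNorm_two_sq, eLpNorm_two_sq, eLpNorm_two_sq]
    have := lintegral_prod_mul (μ := m) (ν := m') (f := fun x => ‖f x‖ₑ ^ 2)
      (g := fun y => ‖r y‖ₑ ^ 2) (hf.1.enorm.pow_const 2) (hr.1.enorm.pow_const 2)
    rw [← this]
    refine lintegral_congr fun p => ?_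
    rw [enorm_mul, mul_pow]
  have h2 : eLpNorm (fun p : X × X' => f p.1 * r p.2) 2 (m.prod m') ^ 2 < ⊤ := by
    rw [h1]
    exact ENNReal.mul_lt_top (ENNReal.pow_lt_top hf.2) (ENNReal.pow_lt_top hr.2)
  by_contra hcon
  rw [not_lt, top_le_iff] at hcon
  rw [hcon] at h2
  simp at h2

/-- The spectral conclusion in the isolated case. -/
theorem core_isolated {w : Q → Y → ℂ} (hw : ∀ t, Measurable (w t)) (hw1 : ∀ t y, ‖w t y‖ = 1)
    (hg : Submodule.span ℝ (range g) = ⊤) {S : Set (Dual ℝ V × Q)}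
    (hs : Setup μ ν (Zc g univ) (Ef w) S)
    (hiso : ∀ u ∈ Fct g, ∀ s ∈ SS μ ν (Zc g univ) (Ef w) S,
      (1 / 2 : ℝ) • (s - (2 : ℝ) • qc g univ u) ∈ interior (Zc g univ) →
      s = (2 : ℝ) • qc g univ u) :
    (∃ Sp : Set (Dual ℝ V), IsOB (μ.restrict (Zc g univ)) (fun s x => ex s x) Sp) ∧
    (∃ Q' : Set Q, IsOB ν w Q') := by
  classical
  set A := Zc g (univ : Set ι) with hA
  have hAc : IsCompact A := isCompact_Zc g univ
  have hAfin : IsFiniteMeasure (μ.restrict A) :=
    ⟨by rw [Measure.restrict_apply_univ]; exact hAc.measure_lt_top⟩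
  set T : AddSubgroup V := AddSubgroup.closure {a | ∃ u ∈ Fct g, a = (2 : ℝ) • qc g univ u}
    with hT
  have hper : ∀ u ∈ Fct g, IsPer μ ν A (Ef w) S ((2 : ℝ) • qc g univ u) := fun u hu =>
    isPer_of_isolated hs (hiso u hu)
  have hTS : ∀ t ∈ T, ∀ s ∈ SS μ ν A (Ef w) S, s + t ∈ SS μ ν A (Ef w) S ∧
      s - t ∈ SS μ ν A (Ef w) S := by
    intro t ht
    refine AddSubgroup.closure_induction (p := fun t _ => ∀ s ∈ SS μ ν A (Ef w) S,
      s + t ∈ SS μ ν A (Ef w) S ∧ s - t ∈ SS μ ν A (Ef w) S) ?_ ?_ ?_ ?_ ht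
    · rintro _ ⟨u, hu, rfl⟩ s hsS
      refine ⟨SS_add_of_isPer (hper u hu) hsS, ?_⟩
      rw [sub_eq_add_neg]
      exact SS_add_of_isPer (hper u hu).neg hsS
    · intro s hsS; simpa using hsS
    · intro a b _ _ ha hb s hsS
      refine ⟨?_, ?_⟩
      · rw [← add_assoc]; exact (hb _ (ha s hsS).1).1
      · rw [← sub_sub]; exact (hb _ (ha s hsS).2).2
    · intro a _ ha s hsS
      refine ⟨?_, ?_⟩
      · rw [← sub_eq_add_neg]; exact (ha s hsS).2
      · rw [sub_neg_eq_add]; exact (ha s hsS).1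
  have hpack : Pack g T := by
    refine ⟨hg, fun u hu => AddSubgroup.subset_closure ⟨u, hu, rfl⟩, fun t ht hti => ?_⟩
    have := (hTS t ht 0 (zero_mem_SS hs)).1
    rw [zero_add] at this
    exact hard_SS hs t this hti
  -- the dual group
  let TD : AddSubgroup (Dual ℝ V) :=
    { carrier := {ξ | ∀ t ∈ T, ∃ n : ℤ, ξ t = n}
      zero_mem' := fun t _ => ⟨0, by simp⟩
      add_mem' := fun {a b} ha hb t ht => by
        obtain ⟨n, hn⟩ := ha t ht
        obtain ⟨m, hm⟩ := hb t ht
        exact ⟨n + m, by rw [LinearMap.add_apply, hn, hm]; push_cast; ring⟩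
      neg_mem' := fun {a} ha t ht => by
        obtain ⟨n, hn⟩ := ha t ht
        exact ⟨-n, by rw [LinearMap.neg_apply, hn]; push_cast; ring⟩ }
  have hTDmem : ∀ ξ : Dual ℝ V, ξ ∈ TD ↔ ∀ t ∈ T, ∃ n : ℤ, ξ t = n := fun ξ => Iff.rfl
  have hTDint : ∀ ξ ∈ TD, ξ ≠ 0 → ∫ x in A, ex ξ x ∂μ = 0 := fun ξ hξ hξ0 =>
    hpack.integral_zero hξ0 hξ
  -- pairs
  have hpair : ∀ i ∈ S, ∀ j ∈ S, i.1 - j.1 ∉ TD → ∫ y, w i.2 y * conj (w j.2 y) ∂ν = 0 := by
    intro i hi j hj hij
    by_contra hne
    apply hij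
    rw [hTDmem]
    intro t ht
    refine AddSubgroup.closure_induction (p := fun t _ => ∃ n : ℤ, (i.1 - j.1) t = n)
      ?_ ?_ ?_ ?_ ht
    · rintro _ ⟨u, hu, rfl⟩
      exact int_of_isPer hs (hper u hu) hi hj hne
    · exact ⟨0, by simp⟩
    · rintro a b - - ⟨n, hn⟩ ⟨m, hm⟩
      exact ⟨n + m, by rw [map_add, hn, hm]; push_cast; ring⟩
    · rintro a - ⟨n, hn⟩
      exact ⟨-n, by rw [map_neg, hn]; push_cast; ring⟩
  have hmz : mz μ ν A 0 = (μ.restrict A).prod ν := by
    unfold mz; rw [win_zero]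
  have hob : IsOB ((μ.restrict A).prod ν) (Ef w) S := by rw [← hmz]; exact hs.ob
  have hAν : (μ.restrict A) ≠ 0 := by
    intro h0
    have h1 : μ A = 0 := by
      rw [← Measure.restrict_apply_univ, h0]; simp
    have h2 : 0 < μ (interior A) := isOpen_interior.measure_pos μ ⟨0, zero_mem_interior hg⟩
    exact h2.ne' (measure_mono_null interior_subset h1)
  have hwmem : ∀ t, MemLp (w t) 2 ν := fun t =>
    MemLp.of_bound (hw t).aestronglyMeasurable 1 (Eventually.of_forall fun y => (hw1 t y).le)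
  have hexmem : ∀ s : Dual ℝ V, MemLp (ex s) 2 (μ.restrict A) := fun s =>
    MemLp.of_bound (continuous_ex s).aestronglyMeasurable 1
      (Eventually.of_forall fun y => (norm_ex s y).le)
  -- integrals of products
  have hintprod : ∀ (f : V → ℂ) (r : Y → ℂ) (i : Dual ℝ V × Q),
      ∫ p, (f p.1 * r p.2) * conj (Ef w i p) ∂((μ.restrict A).prod ν) =
      (∫ x in A, f x * conj (ex i.1 x) ∂μ) * ∫ y, r y * conj (w i.2 y) ∂ν := by
    intro f r i
    have e : ∀ p : V × Y, (f p.1 * r p.2) * conj (Ef w i p) =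
        (f p.1 * conj (ex i.1 p.1)) * (r p.2 * conj (w i.2 p.2)) := fun p => by
      simp only [Ef, map_mul]; ring
    simp only [e]
    exact integral_prod_mul (fun x => f x * conj (ex i.1 x)) (fun y => r y * conj (w i.2 y))
  have hexint : ∀ s r : Dual ℝ V, s - r ∈ TD → s ≠ r →
      ∫ x in A, ex s x * conj (ex r x) ∂μ = 0 := by
    intro s r h1 h2
    simp only [ex_mul_conj]
    exact hTDint _ h1 (sub_ne_zero.2 h2)
  -- a nonzero element
  have hprodne : (μ.restrict A).prod ν ≠ 0 := by
    intro h0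
    have : ((μ.restrict A).prod ν) (univ ×ˢ univ) = 0 := by rw [h0]; simp
    rw [Measure.prod_prod] at this
    rcases mul_eq_zero.1 this with h | h
    · exact hAν (Measure.measure_univ_eq_zero.1 h)
    · exact hs.nu (Measure.measure_univ_eq_zero.1 h)
  have hSne : S.Nonempty := by
    by_contra hemp
    rw [not_nonempty_iff_eq_empty] at hemp
    have h1 := hob.2.2 (fun _ => (1 : ℂ)) (memLp_const 1) (by rw [hemp]; simp)
    have h2 : ∀ᵐ p ∂((μ.restrict A).prod ν), False := by
      filter_upwards [h1] with p hp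
      exact one_ne_zero hp
    rw [Filter.eventually_false_iff_eq_bot, ae_eq_bot] at h2
    exact hprodne h2
  have hνne : (ae ν).NeBot := by
    rw [ae_neBot]; exact hs.nu
  have hμne : (ae (μ.restrict A)).NeBot := by
    rw [ae_neBot]; exact hAν
  -- factors of vanishing products
  have hfac1 : ∀ (f : V → ℂ) (r : Y → ℂ), (∀ y, r y ≠ 0) →
      (fun p : V × Y => f p.1 * r p.2) =ᵐ[(μ.restrict A).prod ν] 0 → f =ᵐ[μ.restrict A] 0 := by
    intro f r hr h0
    have h1 := Measure.ae_ae_of_ae_prod h0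
    filter_upwards [h1] with x hx
    obtain ⟨y, hy⟩ := hx.exists
    simp only [Pi.zero_apply] at hy
    rcases mul_eq_zero.1 hy with h | h
    · exact h
    · exact absurd h (hr y)
  have hfac2 : ∀ (f : V → ℂ) (r : Y → ℂ), (∀ x, f x ≠ 0) →
      (fun p : V × Y => f p.1 * r p.2) =ᵐ[(μ.restrict A).prod ν] 0 → r =ᵐ[ν] 0 := by
    intro f r hf h0
    have h1 := Measure.ae_ae_of_ae_prod h0
    obtain ⟨x, hx⟩ := h1.exists
    filter_upwards [hx] with y hy
    simp only [Pi.zero_apply] at hy
    rcases mul_eq_zero.1 hy with h | h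
    · exact absurd h (hf x)
    · exact h
  have hexne : ∀ (s : Dual ℝ V) (x : V), ex s x ≠ 0 := fun s x h => by
    have := norm_ex s x
    rw [h, norm_zero] at this
    exact zero_ne_one this
  have hwne : ∀ t y, w t y ≠ 0 := fun t y h => by
    have := hw1 t y
    rw [h, norm_zero] at this
    exact zero_ne_one this
  refine ⟨?_, ?_⟩
  · -- the spectrum of A
    obtain ⟨⟨s0, t0⟩, h0S⟩ := hSne
    refine ⟨{s | ∃ t, (s, t) ∈ S ∧ s - s0 ∈ TD}, ?_, ?_, ?_⟩
    · refine (hob.1.image Prod.fst).mono ?_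
      rintro s ⟨t, hst, -⟩
      exact ⟨(s, t), hst, rfl⟩
    · rintro s ⟨t, hst, hs0⟩ r ⟨t', hrt, hr0⟩ hsr
      refine hexint s r ?_ hsr
      have := TD.sub_mem hs0 hr0
      rwa [sub_sub_sub_cancel_right] at this
    · intro f hf hf0
      refine hfac1 f (w t0) (hwne t0) ?_
      refine hob.2.2 _ (memLp_prod hf (hwmem t0)) ?_
      rintro ⟨s, t⟩ hst
      rw [hintprod]
      by_cases h1 : s - s0 ∈ TD
      · rw [hf0 s ⟨t, hst, h1⟩, zero_mul]
      · have h2 : (s0, t0).1 - (s, t).1 ∉ TD := by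
          intro h3
          apply h1
          have := TD.neg_mem h3
          simpa using this
        have := hpair _ h0S _ hst h2
        simp only at this ⊢
        rw [this, mul_zero]
  · -- the system on Y
    let D1 : Set (Dual ℝ V) := {s | ∃ t, (s, t) ∈ S}
    let st : Setoid D1 :=
      { r := fun a b => (a : Dual ℝ V) - b ∈ TD
        iseqv := ⟨fun a => by simpa using TD.zero_mem, fun {a b} h => by
          have := TD.neg_mem h
          simpa using this, fun {a b c} h1 h2 => by
          have := TD.add_mem h1 h2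
          simpa using this⟩ }
    let rep : D1 → D1 := fun a => (Quotient.mk st a).out
    have hrep1 : ∀ a : D1, (rep a : Dual ℝ V) - a ∈ TD := fun a =>
      Quotient.exact (Quotient.out_eq (Quotient.mk st a))
    have hrep2 : ∀ a b : D1, (a : Dual ℝ V) - b ∈ TD → rep a = rep b := fun a b h => by
      show (Quotient.mk st a).out = (Quotient.mk st b).out
      rw [Quotient.sound (s := st) h]
    refine ⟨{t | ∃ a : D1, rep a = a ∧ ((a : Dual ℝ V), t) ∈ S}, ?_, ?_, ?_⟩
    · refine (hob.1.image Prod.snd).mono ?_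
      rintro t ⟨a, -, hat⟩
      exact ⟨_, hat, rfl⟩
    · rintro t ⟨a, ha, hat⟩ t' ⟨b, hb, hbt⟩ htt'
      by_cases hab : (a : Dual ℝ V) - b ∈ TD
      · have h1 : a = b := by rw [← ha, ← hb]; exact hrep2 a b hab
        subst h1
        have h2 := hob.2.1 _ hat _ hbt (fun h => htt' (Prod.ext_iff.1 h).2)
        have h3 := hintprod (ex (a : Dual ℝ V)) (w t) ((a : Dual ℝ V), t')
        simp only at h3
        have h4 : ∫ p, Ef w ((a : Dual ℝ V), t) p * conj (Ef w ((a : Dual ℝ V), t') p)
            ∂((μ.restrict A).prod ν) = ∫ p, (ex (a : Dual ℝ V) p.1 * w t p.2) *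
              conj (Ef w ((a : Dual ℝ V), t') p) ∂((μ.restrict A).prod ν) := rfl
        rw [h4, h3] at h2
        rcases mul_eq_zero.1 h2 with h5 | h5
        · exfalso
          simp only [ex_mul_conj, sub_self] at h5
          have h6 : ∀ x : V, ex (0 : Dual ℝ V) x = 1 := fun x => by simp [ex]
          simp only [h6, integral_const, smul_eq_mul, mul_one] at h5
          rw [Measure.real, Measure.restrict_apply_univ] at h5
          have h7 : (μ A).toReal = 0 := by simpa using h5
          rcases (ENNReal.toReal_eq_zero_iff _).1 h7 with h8 | h8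
          · apply hAν
            rw [Measure.restrict_eq_zero]; exact h8
          · exact hAc.measure_lt_top.ne h8
        · exact h5
      · exact hpair _ hat _ hbt hab
    · intro r hr hr0
      -- all coefficients vanish
      have hall : ∀ i ∈ S, ∫ y, r y * conj (w i.2 y) ∂ν = 0 := by
        rintro ⟨s', t'⟩ hst'
        let a' : D1 := ⟨s', t', hst'⟩
        let a : D1 := rep a'
        have haa : rep a = a := hrep2 _ _ (hrep1 a')
        have ha' : (a : Dual ℝ V) - s' ∈ TD := hrep1 a'
        let K0 : Submodule ℂ (Lp ℂ 2 ν) :=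
          Submodule.span ℂ ((fun t => (hwmem t).toLp (w t)) '' {t | ((a : Dual ℝ V), t) ∈ S})
        let K : Submodule ℂ (Lp ℂ 2 ν) := K0.topologicalClosure
        have hKc : CompleteSpace K := K0.isClosed_topologicalClosure.completeSpace_coe
        obtain ⟨k, hk, z, hz, hkz⟩ := Submodule.exists_add_mem_mem_orthogonal (K := K)
          ((hwmem t').toLp (w t'))
        have hKw : ∀ t, ((a : Dual ℝ V), t) ∈ S → (hwmem t).toLp (w t) ∈ K := fun t ht =>
          K0.le_topologicalClosure (Submodule.subset_span ⟨t, ht, rfl⟩)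
        -- orthogonality of K to a vector
        have hKorth : ∀ v : Lp ℂ 2 ν, (∀ t, ((a : Dual ℝ V), t) ∈ S →
            inner ℂ ((hwmem t).toLp (w t)) v = 0) → ∀ k ∈ K, inner ℂ k v = 0 := by
          intro v hv k hk
          have h1 : v ∈ K0ᗮ := by
            rw [Submodule.mem_orthogonal]
            intro u hu
            refine Submodule.span_induction (p := fun u _ => inner ℂ u v = 0) ?_ ?_ ?_ ?_ hu
            · rintro _ ⟨t, ht, rfl⟩
              exact hv t ht
            · exact inner_zero_left _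
            · intro x y _ _ h1 h2
              rw [inner_add_left, h1, h2, add_zero]
            · intro c x _ h1
              rw [inner_smul_left, h1, mul_zero]
          rw [← Submodule.orthogonal_closure] at h1
          exact (Submodule.mem_orthogonal _ _).1 h1 k hk
        have hz0 : z = 0 := by
          have hzint : ∀ i ∈ S, ∫ p, (ex (a : Dual ℝ V) p.1 * z p.2) * conj (Ef w i p)
              ∂((μ.restrict A).prod ν) = 0 := by
            rintro ⟨s2, t2⟩ hst2
            rw [hintprod (ex (a : Dual ℝ V)) z]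
            simp only
            have hzin : ∫ y, z y * conj (w t2 y) ∂ν = inner ℂ ((hwmem t2).toLp (w t2)) z := by
              rw [← inner_toLp' (Lp.memLp z) (hwmem t2), Lp.toLp_coeFn]
            by_cases h1 : (a : Dual ℝ V) - s2 ∈ TD
            · by_cases h2 : (a : Dual ℝ V) = s2
              · rw [hzin]
                have h3 : ((a : Dual ℝ V), t2) ∈ S := by rw [h2]; exact hst2
                have := (Submodule.mem_orthogonal _ _).1 hz _ (hKw t2 h3)
                rw [this, mul_zero]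
              · rw [hexint _ _ h1 h2, zero_mul]
            · rw [hzin]
              have h3 : z = (hwmem t').toLp (w t') - k := by rw [hkz]; abel
              have h4 : inner ℂ ((hwmem t2).toLp (w t2)) ((hwmem t').toLp (w t')) = 0 := by
                rw [inner_toLp' (hwmem t') (hwmem t2)]
                refine hpair (s', t') hst' (s2, t2) hst2 ?_
                intro h5
                apply h1
                have := TD.add_mem ha' h5
                simpa using this
              have h5 : inner ℂ k ((hwmem t2).toLp (w t2)) = 0 := by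
                refine hKorth _ (fun t ht => ?_) k hk
                rw [inner_toLp' (hwmem t2) (hwmem t)]
                refine hpair (s2, t2) hst2 ((a : Dual ℝ V), t) ht ?_
                intro h6
                apply h1
                have := TD.neg_mem h6
                simpa using this
              have h6 : inner ℂ ((hwmem t2).toLp (w t2)) k = 0 := by
                rw [← inner_conj_symm, h5, map_zero]
              rw [h3, inner_sub_right, h4, h6, sub_zero, mul_zero]
          have h7 := hob.2.2 _ (memLp_prod (hexmem (a : Dual ℝ V)) (Lp.memLp z)) hzint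
          have h8 := hfac2 _ _ (hexne _) h7
          exact (Lp.eq_zero_iff_ae_eq_zero).2 h8
        have hwK : (hwmem t').toLp (w t') ∈ K := by
          rw [hkz, hz0, add_zero]; exact hk
        have h9 : inner ℂ ((hwmem t').toLp (w t')) (hr.toLp r) = 0 := by
          refine hKorth _ (fun t ht => ?_) _ hwK
          rw [inner_toLp' hr (hwmem t)]
          exact hr0 t ⟨a, haa, ht⟩
        rwa [inner_toLp' hr (hwmem t')] at h9
      refine hfac2 (ex (0 : Dual ℝ V)) r (hexne _) ?_
      refine hob.2.2 _ (memLp_prod (hexmem 0) hr) fun i hi => ?_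
      rw [hintprod, hall i hi, mul_zero]

end Core

end Pool.Agent.Lib_MP_5ddbb8_an
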