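import Mathlib
import Pool.Agent.Lib_MP_5ddbb8_an.Core1

/-!
The decomposable case and the induction on the dimension.
-/

set_option linter.unusedSectionVars false
set_option linter.unusedSimpArgs false
set_option linter.unusedVariables false

open scoped Pointwise Topology ENNReal ComplexConjugate
open Module Set MeasureTheory Filter

namespace Pool.Agent.Lib_MP_5ddbb8_an

section Decomp

variable {V : Type*} [NormedAddCommGroup V] [NormedSpace ℝ V] [FiniteDimensional ℝ V]
variable {ι : Type*} [Fintype ι]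

/-- generators restricted to a subset, seen in a subspace containing them -/
def gsub (g : ι → V) (H : Set ι) (L : Submodule ℝ V) (hL : ∀ i ∈ H, g i ∈ L) (i : H) : L :=
  ⟨g i, hL i i.2⟩

lemma span_gsub (g : ι → V) (H : Set ι) {L : Submodule ℝ V} (hL : ∀ i ∈ H, g i ∈ L)
    (hspan : Submodule.span ℝ (g '' H) = L) :
    Submodule.span ℝ (range (gsub g H L hL)) = ⊤ := by
  apply Submodule.map_injective_of_injective L.injective_subtype
  rw [Submodule.map_subtype_top, Submodule.map_span]
  conv_rhs => rw [← hspan]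
  congr 1
  ext x
  constructor
  · rintro ⟨_, ⟨i, rfl⟩, rfl⟩
    exact ⟨i, i.2, rfl⟩
  · rintro ⟨i, hi, rfl⟩
    exact ⟨_, ⟨⟨i, hi⟩, rfl⟩, rfl⟩

lemma Zc_gsub (g : ι → V) (H : Set ι) [Fintype H] {L : Submodule ℝ V} (hL : ∀ i ∈ H, g i ∈ L)
    (x : L) : x ∈ Zc (gsub g H L hL) univ ↔ (x : V) ∈ Zc g H := by
  classical
  have hsum : ∀ t : ι → ℝ, (∀ i, i ∉ H → t i = 0) →
      ((∑ i : H, t i • gsub g H L hL i : L) : V) = ∑ i, t i • g i := by
    intro t ht
    have h1 : ((∑ i : H, t i • gsub g H L hL i : L) : V) = ∑ i : H, t i • g i := by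
      rw [AddSubmonoidClass.coe_finsetSum]
      rfl
    rw [h1, Finset.sum_set_coe (f := fun i => t i • g i) H]
    refine Finset.sum_subset (Finset.subset_univ _) fun i _ hi => ?_
    rw [ht i (by simpa using hi), zero_smul]
  constructor
  · rintro ⟨t, h1, -, h3⟩
    refine ⟨fun i => if h : i ∈ H then t ⟨i, h⟩ else 0, fun i => ?_, fun i hi => by simp [hi], ?_⟩
    · show |(if h : i ∈ H then t ⟨i, h⟩ else 0)| ≤ 1 / 2
      split_ifs
      · exact h1 _
      · simp
    · rw [← h3, ← hsum _ (fun i hi => by simp [hi])]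
      congr 1
      refine Finset.sum_congr rfl fun i _ => ?_
      simp
  · rintro ⟨t, h1, h2, h3⟩
    refine ⟨fun i => t i, fun i => h1 i, by simp, ?_⟩
    apply Subtype.ext
    rw [hsum t h2, h3]

end Decomp

/-- the core theorem -/
theorem core (n : ℕ) : ∀ (V : Type) [NormedAddCommGroup V] [NormedSpace ℝ V]
    [FiniteDimensional ℝ V] [MeasurableSpace V] [BorelSpace V] (μ : Measure V)
    [μ.IsAddHaarMeasure] (Y : Type) [MeasurableSpace Y] (ν : Measure Y) [IsFiniteMeasure ν]
    (Q : Type) (w : Q → Y → ℂ) (ι : Type) [Fintype ι] (g : ι → V),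
    finrank ℝ V = n → ν ≠ 0 → (∀ t, Measurable (w t)) → (∀ t y, ‖w t y‖ = 1) →
    Submodule.span ℝ (range g) = ⊤ → ∀ S : Set (Dual ℝ V × Q),
    IsOB ((μ.restrict (Zc g univ)).prod ν) (Ef w) S →
    (∃ Sp : Set (Dual ℝ V), IsOB (μ.restrict (Zc g univ)) (fun s x => ex s x) Sp) ∧
    (∃ Q' : Set Q, IsOB ν w Q') := by
  induction n using Nat.strong_induction_on with
  | _ n ih =>
  intro V _ _ _ _ _ μ _ Y _ ν _ Q w ι _ g hn hν hw hw1 hg S hS
  classical
  set A := Zc g (univ : Set ι) with hA
  have hs : Setup μ ν A (Ef w) S := by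
    refine ⟨isCompact_Zc g univ, convex_Zc g univ, fun x hx => neg_mem_Zc hx,
      zero_mem_interior hg, fam_Ef hw hw1, hν, ?_⟩
    unfold mz; rw [win_zero]; exact hS
  have hTP := TP_SS hs
  by_cases hall : ∀ u ∈ Fct g, ∀ s ∈ SS μ ν A (Ef w) S, s - (2 : ℝ) • qc g univ u ∈ A →
      s = (2 : ℝ) • qc g univ u
  · exact core_isolated hw hw1 hg hs fun u hu s hsS hsi =>
      isolated_of_window hg hTP (hall u hu) s hsS hsi
  · push Not at hall
    obtain ⟨u, hu, s0, hs0, hs0A, hs0ne⟩ := hall
    obtain h | ⟨H, hcompl, hLne, hNne⟩ := chain_dichotomy hg hTP hu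
    · exact absurd (h s0 hs0 hs0A) hs0ne
    set L := Lsp g H with hL
    set N := Nsp g H with hN
    have hgL : ∀ i ∈ H, g i ∈ L := fun i hi => Submodule.subset_span ⟨i, hi, rfl⟩
    have hgN : ∀ i ∈ Hᶜ, g i ∈ N := fun i hi => Submodule.subset_span ⟨i, hi, rfl⟩
    set gL := gsub g H L hgL with hgLdef
    set gN := gsub g Hᶜ N hgN with hgNdef
    have hspL : Submodule.span ℝ (range gL) = ⊤ := span_gsub g H hgL rfl
    have hspN : Submodule.span ℝ (range gN) = ⊤ := span_gsub g Hᶜ hgN rfl
    have hLtop : L ≠ ⊤ := by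
      intro h
      apply hNne
      have := hcompl.disjoint
      rw [h, top_disjoint] at this
      exact this
    have hNtop : N ≠ ⊤ := by
      intro h
      apply hLne
      have := hcompl.disjoint
      rw [h, disjoint_top] at this
      exact this
    let φ : (L × N) ≃L[ℝ] V := (Submodule.prodEquivOfIsCompl L N hcompl).toContinuousLinearEquiv
    have hφ : ∀ x : L × N, φ x = (x.1 : V) + x.2 := fun x =>
      Submodule.coe_prodEquivOfIsCompl' L N hcompl x
    let φm : (L × N) ≃ᵐ V := φ.toHomeomorph.toMeasurableEquiv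
    have hφm : ∀ x, φm x = φ x := fun x => rfl
    let μL : Measure L := Measure.addHaar
    let μN : Measure N := Measure.addHaar
    set AL := Zc gL (univ : Set H) with hAL
    set AN := Zc gN (univ : Set (Hᶜ : Set ι)) with hAN
    have hALc : IsCompact AL := isCompact_Zc gL univ
    have hANc : IsCompact AN := isCompact_Zc gN univ
    have hpre : φm ⁻¹' A = AL ×ˢ AN := by
      ext ⟨l, n'⟩
      rw [mem_preimage, hφm, hφ, mem_prod]
      simp only
      rw [hAL, hAN, Zc_gsub, Zc_gsub]
      constructor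
      · intro h
        obtain ⟨l', hl', m', hm', he⟩ := Zc_split H h
        have hl'L : l' ∈ L := by
          obtain ⟨t, -, h2, h3⟩ := hl'
          rw [← h3]
          refine Submodule.sum_mem _ fun i _ => ?_
          by_cases hi : i ∈ H
          · exact Submodule.smul_mem _ _ (hgL i hi)
          · rw [h2 i hi, zero_smul]; exact Submodule.zero_mem _
        have hm'N : m' ∈ N := by
          obtain ⟨t, -, h2, h3⟩ := hm'
          rw [← h3]
          refine Submodule.sum_mem _ fun i _ => ?_
          by_cases hi : i ∈ Hᶜ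
          · exact Submodule.smul_mem _ _ (hgN i hi)
          · rw [h2 i hi, zero_smul]; exact Submodule.zero_mem _
        have h1 : φ (l, n') = φ (⟨l', hl'L⟩, ⟨m', hm'N⟩) := by
          rw [hφ, hφ]; exact he
        have h2 := φ.injective h1
        rw [Prod.ext_iff] at h2
        simp only at h2
        rw [h2.1, h2.2]
        exact ⟨hl', hm'⟩
      · rintro ⟨h1, h2⟩
        exact Zc_add h1 h2
    -- measures
    have hmapHaar : (Measure.map φ (μL.prod μN)).IsAddHaarMeasure := φ.isAddHaarMeasure_map _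
    set μ' := Measure.map φm (μL.prod μN) with hμ'
    have hμ'Haar : μ'.IsAddHaarMeasure := hmapHaar
    set c : NNReal := μ.addHaarScalarFactor μ' with hc
    have hcpos : 0 < c := Measure.addHaarScalarFactor_pos_of_isAddHaarMeasure μ μ'
    have hμeq : μ = (c : ℝ≥0∞) • μ' := Measure.isAddLeftInvariant_eq_smul μ μ'
    have hALfin : IsFiniteMeasure (μL.restrict AL) :=
      ⟨by rw [Measure.restrict_apply_univ]; exact hALc.measure_lt_top⟩
    have hANfin : IsFiniteMeasure (μN.restrict AN) :=
      ⟨by rw [Measure.restrict_apply_univ]; exact hANc.measure_lt_top⟩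
    have hμA : μ.restrict A = (c : ℝ≥0∞) • Measure.map φm ((μL.restrict AL).prod (μN.restrict AN)) := by
      conv_lhs => rw [hμeq]
      rw [Measure.restrict_smul, hμ', MeasurableEquiv.restrict_map, hpre, Measure.prod_restrict]
    have hc0 : (c : ℝ≥0∞) ≠ 0 := by exact_mod_cast hcpos.ne'
    have hctop : (c : ℝ≥0∞) ≠ ⊤ := ENNReal.coe_ne_top
    -- the measurable equivalence with the triple product
    let ψ : (L × (N × Y)) ≃ᵐ (V × Y) :=
      MeasurableEquiv.prodAssoc.symm.trans (φm.prodCongr (MeasurableEquiv.refl Y))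
    have hψ : ∀ x : L × (N × Y), ψ x = (φ (x.1, x.2.1), x.2.2) := fun x => rfl
    set m' : Measure (L × (N × Y)) := (μL.restrict AL).prod ((μN.restrict AN).prod ν) with hm'
    have hmap : m'.map ψ = (Measure.map φm ((μL.restrict AL).prod (μN.restrict AN))).prod ν := by
      have h1 := (measurePreserving_prodAssoc (μL.restrict AL) (μN.restrict AN) ν).symm
        MeasurableEquiv.prodAssoc
      have h2 : (Measure.map φm ((μL.restrict AL).prod (μN.restrict AN))).prod ν =
          Measure.map (Prod.map φm id) (((μL.restrict AL).prod (μN.restrict AN)).prod ν) := by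
        have := Measure.map_prod_map ((μL.restrict AL).prod (μN.restrict AN)) ν
          φm.measurable (measurable_id (α := Y))
        rw [Measure.map_id] at this
        exact this
      rw [h2, ← h1.map_eq, Measure.map_map]
      · rfl
      · exact (φm.measurable.comp measurable_fst).prodMk measurable_snd
      · exact MeasurableEquiv.prodAssoc.symm.measurable
    have hob1 : IsOB (m'.map ψ) (Ef w) S := by
      have h1 := hS.smul (c := (c : ℝ≥0∞)⁻¹) (ENNReal.inv_ne_zero.2 hctop)
        (ENNReal.inv_ne_top.2 hc0)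
      rw [hμA, Measure.prod_smul_left, smul_smul, ENNReal.inv_mul_cancel hc0 hctop, one_smul,
        ← hmap] at h1
      exact h1
    have hob2 := hob1.comap ψ
    -- reindexing
    let e : Dual ℝ V × Q → Dual ℝ L × (Dual ℝ N × Q) := fun j =>
      (j.1.comp L.subtype, (j.1.comp N.subtype, j.2))
    have hob3 : IsOB m' (Ef (Ef w)) (e '' S) := by
      refine hob2.reindex e fun j _ => ?_
      funext x
      simp only [Ef, e, hψ, hφ]
      rw [ex_add_right]
      simp only [ex, LinearMap.comp_apply, Submodule.subtype_apply]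
      ring
    have hνN : (μN.restrict AN).prod ν ≠ 0 := by
      intro h0
      have : ((μN.restrict AN).prod ν) (univ ×ˢ univ) = 0 := by rw [h0]; simp
      rw [Measure.prod_prod] at this
      rcases mul_eq_zero.1 this with h | h
      · rw [Measure.restrict_apply_univ] at h
        have h2 : 0 < μN (interior AN) := isOpen_interior.measure_pos μN ⟨0, zero_mem_interior hspN⟩
        exact h2.ne' (measure_mono_null interior_subset h)
      · exact hν (Measure.measure_univ_eq_zero.1 h)
    have hfam := fam_Ef (V := N) hw hw1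
    obtain ⟨⟨SpL, hSpL⟩, ⟨Q2, hQ2⟩⟩ := ih (finrank ℝ L) (hn ▸ Submodule.finrank_lt hLtop) L μL
      (N × Y) ((μN.restrict AN).prod ν) (Dual ℝ N × Q) (Ef w) H gL rfl hνN hfam.meas
      (fun t y => hfam.norm t y) hspL _ hob3
    obtain ⟨⟨SpN, hSpN⟩, hQ'⟩ := ih (finrank ℝ N) (hn ▸ Submodule.finrank_lt hNtop) N μN
      Y ν Q w (Hᶜ : Set ι) gN rfl hν hw hw1 hspN _ hQ2
    refine ⟨?_, hQ'⟩
    have hprod := IsOB.prod (fun s => (continuous_ex s).measurable) (fun s x => norm_ex s x)
      (fun s => (continuous_ex s).measurable) (fun s x => norm_ex s x) hSpL hSpN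
    let e' : Dual ℝ L × Dual ℝ N → Dual ℝ V := fun j =>
      (j.1.coprod j.2).comp (φ.symm.toLinearEquiv : V →ₗ[ℝ] (L × N))
    have h4 : IsOB ((μL.restrict AL).prod (μN.restrict AN)) (fun (s : Dual ℝ V) x => ex s (φm x))
        (e' '' (SpL ×ˢ SpN)) := by
      refine hprod.reindex e' fun j _ => ?_
      funext x
      have h5 : e' j (φ x) = j.1 x.1 + j.2 x.2 := by
        simp only [e', LinearMap.comp_apply]
        have : (φ.symm.toLinearEquiv : V →ₗ[ℝ] (L × N)) (φ x) = x := φ.symm_apply_apply x
        rw [this, LinearMap.coprod_apply]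
      simp only [ex, hφm, h5]
      rw [← Complex.exp_add]
      congr 1
      push_cast
      ring
    have h6 := h4.map φm
    have h7 := h6.smul hc0 hctop
    rw [← hμA] at h7
    exact ⟨_, h7⟩

end Pool.Agent.Lib_MP_5ddbb8_an
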