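import Mathlib
import Pool.Agent.Lib_MP_5ddbb8_an.Core2

/-!
Transfer between coordinates and the abstract setting.
-/

set_option linter.unusedSectionVars false
set_option linter.unusedSimpArgs false
set_option linter.unusedVariables false

open scoped Pointwise Topology ENNReal ComplexConjugate
open Module Set MeasureTheory Filter

namespace Pool.Agent.Lib_MP_5ddbb8_an

/-- multiplying the members of the family by constants -/
lemma IsOB.phase {X : Type*} [MeasurableSpace X] {J : Type*} {m : Measure X} {E : J → X → ℂ}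
    {S : Set J} (h : IsOB m E S) (c : J → ℂ) (hc : ∀ j, c j ≠ 0) :
    IsOB m (fun j x => c j * E j x) S := by
  refine ⟨h.1, fun i hi j hj hij => ?_, fun f hf h0 => h.2.2 f hf fun i hi => ?_⟩
  · have e : ∀ x, (c i * E i x) * conj (c j * E j x) =
        (c i * conj (c j)) * (E i x * conj (E j x)) := fun x => by rw [map_mul]; ring
    simp only [e]
    rw [integral_const_mul, h.2.1 i hi j hj hij, mul_zero]
  · have h1 := h0 i hi
    have e : ∀ x, f x * conj (c i * E i x) = conj (c i) * (f x * conj (E i x)) := fun x => by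
      rw [map_mul]; ring
    simp only [e] at h1
    rw [integral_const_mul] at h1
    rcases mul_eq_zero.1 h1 with h2 | h2
    · exact absurd ((map_eq_zero _).1 h2) (hc i)
    · exact h2

section Coord

variable {κ : Type} [Fintype κ]

/-- the character with frequency `a` -/
noncomputable def chr (a x : κ → ℝ) : ℂ :=
  Complex.exp (2 * Real.pi * Complex.I * ((∑ k, a k * x k : ℝ) : ℂ))

/-- the functional of a frequency vector -/
noncomputable def dfun (a : κ → ℝ) : Dual ℝ (κ → ℝ) :=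
  ∑ k, a k • (LinearMap.proj k : (κ → ℝ) →ₗ[ℝ] ℝ)

lemma dfun_apply (a x : κ → ℝ) : dfun a x = ∑ k, a k * x k := by
  simp [dfun]

lemma ex_dfun (a : κ → ℝ) : (fun x => ex (dfun a) x) = chr a := by
  funext x
  simp only [ex, chr, dfun_apply]

/-- coordinates of a functional -/
noncomputable def dcoord (s : Dual ℝ (κ → ℝ)) : κ → ℝ := by
  classical
  exact fun k => s (Pi.single k 1)

lemma dfun_dcoord (s : Dual ℝ (κ → ℝ)) : dfun (dcoord s) = s := by
  classical
  ext x
  simp [dfun_apply, dcoord]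
  rw [Finset.sum_eq_single x]
  · simp
  · intro b _ hb
    rw [Pi.single_eq_of_ne hb, mul_zero]
  · intro h
    exact absurd (Finset.mem_univ x) h

lemma measurable_chr (a : κ → ℝ) : Measurable (chr a) := by
  rw [← ex_dfun]; exact (continuous_ex (dfun a)).measurable

lemma norm_chr (a x : κ → ℝ) : ‖chr a x‖ = 1 := by
  rw [← ex_dfun]; exact norm_ex _ _

lemma chr_add (a x y : κ → ℝ) : chr a (x + y) = chr a x * chr a y := by
  rw [← ex_dfun]; exact ex_add_right _ _ _

lemma chr_ne (a x : κ → ℝ) : chr a x ≠ 0 := fun h => by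
  have := norm_chr a x
  rw [h, norm_zero] at this
  exact zero_ne_one this

lemma isOB_chr_iff {m : Measure (κ → ℝ)} :
    (∃ Λ, IsOB m (chr (κ := κ)) Λ) ↔ ∃ Sp, IsOB m (fun (s : Dual ℝ (κ → ℝ)) x => ex s x) Sp := by
  constructor
  · rintro ⟨Λ, h⟩
    exact ⟨dfun '' Λ, h.reindex dfun fun a _ => ex_dfun a⟩
  · rintro ⟨Sp, h⟩
    refine ⟨dcoord '' Sp, h.reindex dcoord fun s _ => ?_⟩
    rw [← ex_dfun, dfun_dcoord]

/-- translation invariance -/
lemma isOB_chr_translate {Ω : Set (κ → ℝ)} (c : κ → ℝ)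
    (h : ∃ Λ, IsOB (volume.restrict Ω) (chr (κ := κ)) Λ) :
    ∃ Λ, IsOB (volume.restrict {x | x - c ∈ Ω}) (chr (κ := κ)) Λ := by
  obtain ⟨Λ, h⟩ := h
  refine ⟨Λ, ?_⟩
  have h1 : IsOB (volume.restrict Ω)
      (fun (a : κ → ℝ) x => chr a ((MeasurableEquiv.addRight c) x)) Λ := by
    have := h.phase (fun a => chr a c) (fun a => chr_ne a c)
    refine this.congr fun a _ => ?_
    funext x
    show chr a (x + c) = _
    rw [chr_add, mul_comm]
  have h2 := h1.map
  have h3 : Measure.map (MeasurableEquiv.addRight c) (volume.restrict Ω) =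
      volume.restrict {x | x - c ∈ Ω} := by
    have h4 : Measure.map (MeasurableEquiv.addRight c) (volume : Measure (κ → ℝ)) = volume :=
      (measurePreserving_add_right volume c).map_eq
    have h5 := MeasurableEquiv.restrict_map (MeasurableEquiv.addRight c)
      (volume : Measure (κ → ℝ)) {x | x - c ∈ Ω}
    rw [h4] at h5
    rw [h5]
    congr 2
    ext x
    simp [MeasurableEquiv.addRight]
  rw [← h3]
  exact h2

end Coord

section Prod

variable {κ κ' : Type} [Fintype κ] [Fintype κ']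

/-- the product of two sets, as a set in the sum coordinates -/
def prodSet (A : Set (κ → ℝ)) (B : Set (κ' → ℝ)) : Set (κ ⊕ κ' → ℝ) :=
  {z | (fun i => z (Sum.inl i)) ∈ A ∧ (fun j => z (Sum.inr j)) ∈ B}

/-- the measurable equivalence between pairs and sum coordinates -/
noncomputable def psiE : ((κ → ℝ) × (κ' → ℝ)) ≃ᵐ (κ ⊕ κ' → ℝ) :=
  (MeasurableEquiv.sumPiEquivProdPi (fun _ : κ ⊕ κ' => ℝ)).symm

lemma psiE_inl (p : (κ → ℝ) × (κ' → ℝ)) (i : κ) : psiE p (Sum.inl i) = p.1 i := rfl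

lemma psiE_inr (p : (κ → ℝ) × (κ' → ℝ)) (j : κ') : psiE p (Sum.inr j) = p.2 j := rfl

lemma map_psiE (A : Set (κ → ℝ)) (B : Set (κ' → ℝ)) :
    Measure.map psiE ((volume.restrict A).prod (volume.restrict B)) =
      volume.restrict (prodSet A B) := by
  have h1 : Measure.map psiE ((volume : Measure (κ → ℝ)).prod (volume : Measure (κ' → ℝ))) =
      (volume : Measure (κ ⊕ κ' → ℝ)) :=
    (volume_measurePreserving_sumPiEquivProdPi_symm (fun _ : κ ⊕ κ' => ℝ)).map_eq
  have h2 := MeasurableEquiv.restrict_map (psiE (κ := κ) (κ' := κ'))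
    ((volume : Measure (κ → ℝ)).prod (volume : Measure (κ' → ℝ))) (prodSet A B)
  rw [h1] at h2
  rw [h2, Measure.prod_restrict]
  congr 1

lemma chr_psiE (c : κ ⊕ κ' → ℝ) (p : (κ → ℝ) × (κ' → ℝ)) :
    chr c (psiE p) = chr (fun i => c (Sum.inl i)) p.1 * chr (fun j => c (Sum.inr j)) p.2 := by
  unfold chr
  rw [← Complex.exp_add, Fintype.sum_sum_type]
  simp only [psiE_inl, psiE_inr]
  congr 1
  push_cast
  ring

/-- the easy direction -/
lemma isOB_prodSet {A : Set (κ → ℝ)} {B : Set (κ' → ℝ)} (hA : volume A < ⊤)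
    (hB : volume B < ⊤) (h1 : ∃ Λ, IsOB (volume.restrict A) (chr (κ := κ)) Λ)
    (h2 : ∃ Λ, IsOB (volume.restrict B) (chr (κ := κ')) Λ) :
    ∃ Λ, IsOB (volume.restrict (prodSet A B)) (chr (κ := κ ⊕ κ')) Λ := by
  obtain ⟨Λ, h1⟩ := h1
  obtain ⟨Λ', h2⟩ := h2
  have hAf : IsFiniteMeasure (volume.restrict A) := ⟨by rwa [Measure.restrict_apply_univ]⟩
  have hBf : IsFiniteMeasure (volume.restrict B) := ⟨by rwa [Measure.restrict_apply_univ]⟩
  have h3 := IsOB.prod measurable_chr norm_chr measurable_chr norm_chr h1 h2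
  let e : (κ → ℝ) × (κ' → ℝ) → (κ ⊕ κ' → ℝ) := fun p => Sum.elim p.1 p.2
  have h4 : IsOB ((volume.restrict A).prod (volume.restrict B))
      (fun (c : κ ⊕ κ' → ℝ) p => chr c (psiE p)) (e '' (Λ ×ˢ Λ')) := by
    refine h3.reindex e fun p _ => ?_
    funext x
    rw [chr_psiE]
    rfl
  have h5 := h4.map psiE
  rw [map_psiE] at h5
  exact ⟨_, h5⟩

/-- the hard direction for centred zonotopes -/
lemma isOB_of_prodSet {n m k : ℕ} (g : Fin k → Fin n → ℝ)
    (hg : Submodule.span ℝ (range g) = ⊤) {B : Set (Fin m → ℝ)} (hB0 : 0 < volume B)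
    (hB : volume B < ⊤)
    (h : ∃ Λ, IsOB (volume.restrict (prodSet (Zc g univ) B)) (chr (κ := Fin n ⊕ Fin m)) Λ) :
    (∃ Λ, IsOB (volume.restrict (Zc g univ)) (chr (κ := Fin n)) Λ) ∧
    (∃ Λ, IsOB (volume.restrict B) (chr (κ := Fin m)) Λ) := by
  obtain ⟨Λ, h⟩ := h
  rw [← map_psiE] at h
  have h1 := h.comap psiE
  have hBf : IsFiniteMeasure (volume.restrict B) := ⟨by rwa [Measure.restrict_apply_univ]⟩
  let e : (Fin n ⊕ Fin m → ℝ) → Dual ℝ (Fin n → ℝ) × (Fin m → ℝ) := fun c =>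
    (dfun (fun i => c (Sum.inl i)), fun j => c (Sum.inr j))
  have h2 : IsOB ((volume.restrict (Zc g univ)).prod (volume.restrict B)) (Ef (chr (κ := Fin m)))
      (e '' Λ) := by
    refine h1.reindex e fun c _ => ?_
    funext p
    rw [chr_psiE]
    simp only [Ef, e]
    rw [← ex_dfun (fun i => c (Sum.inl i))]
  have hne : volume.restrict B ≠ 0 := by
    intro h0
    have : volume B = 0 := by
      rw [← Measure.restrict_apply_univ, h0]; simp
    exact hB0.ne' this
  obtain ⟨h3, h4⟩ := core _ (Fin n → ℝ) volume (Fin m → ℝ) (volume.restrict B) (Fin m → ℝ)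
    (chr (κ := Fin m)) (Fin k) g rfl hne measurable_chr norm_chr hg _ h2
  exact ⟨isOB_chr_iff.2 h3, h4⟩

end Prod

end Pool.Agent.Lib_MP_5ddbb8_an
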