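import Mathlib
import Pool.Agent.Lib_MP_5ddbb8_an.Chain

/-!
Centrally symmetric polytopes with centrally symmetric facets: the support set is trivial near
every rigid facet vector.
-/

set_option linter.unusedSectionVars false
set_option linter.unusedSimpArgs false
set_option linter.unusedVariables false

open scoped Pointwise Topology
open Module Set Filter

namespace Pool.Agent.Lib_MP_5ddbb8_an

section Poly

variable {V : Type*} [NormedAddCommGroup V] [NormedSpace ℝ V] [FiniteDimensional ℝ V]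

/-- a centrally symmetric polytope with centrally symmetric facets (facet functionals `Φ`,
facet centres `c`) -/
structure Poly (A : Set V) (Φ : Set (Dual ℝ V)) (c : Dual ℝ V → V) : Prop where
  fin : Φ.Finite
  mem_iff : ∀ x, x ∈ A ↔ ∀ u ∈ Φ, u x ≤ 1
  neg : ∀ u ∈ Φ, -u ∈ Φ
  comp : IsCompact A
  cen : ∀ u ∈ Φ, u (c u) = 1
  strict : ∀ u ∈ Φ, ∀ v ∈ Φ, v ≠ u → v (c u) < 1
  refl : ∀ u ∈ Φ, ∀ x ∈ A, u x = 1 → (2 : ℝ) • c u - x ∈ A

namespace Poly

variable {A : Set V} {Φ : Set (Dual ℝ V)} {c : Dual ℝ V → V}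

lemma le_one (h : Poly A Φ c) {x : V} (hx : x ∈ A) {u : Dual ℝ V} (hu : u ∈ Φ) : u x ≤ 1 :=
  (h.mem_iff x).1 hx u hu

lemma neg_le (h : Poly A Φ c) {x : V} (hx : x ∈ A) {u : Dual ℝ V} (hu : u ∈ Φ) : -1 ≤ u x := by
  have := h.le_one hx (h.neg u hu)
  rw [LinearMap.neg_apply] at this
  linarith

lemma zero_mem (h : Poly A Φ c) : (0 : V) ∈ A := (h.mem_iff 0).2 fun u _ => by simp

lemma neg_mem (h : Poly A Φ c) {x : V} (hx : x ∈ A) : -x ∈ A := by
  rw [h.mem_iff]
  intro u hu
  rw [map_neg]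
  have := h.neg_le hx hu
  linarith

lemma conv (h : Poly A Φ c) : Convex ℝ A := by
  intro x hx y hy a b ha hb hab
  rw [h.mem_iff] at hx hy ⊢
  intro u hu
  rw [map_add, map_smul, map_smul, smul_eq_mul, smul_eq_mul]
  have h1 := mul_le_mul_of_nonneg_left (hx u hu) ha
  have h2 := mul_le_mul_of_nonneg_left (hy u hu) hb
  linarith

lemma closed (h : Poly A Φ c) : IsClosed A := h.comp.isClosed

lemma mem_interior_iff (h : Poly A Φ c) (x : V) : x ∈ interior A ↔ ∀ u ∈ Φ, u x < 1 := by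
  constructor
  · intro hx u hu
    have hcont : Continuous (fun ε : ℝ => x + ε • c u) := by fun_prop
    have hev : ∀ᶠ ε in 𝓝 (0 : ℝ), x + ε • c u ∈ interior A := by
      refine hcont.continuousAt.eventually_mem (isOpen_interior.mem_nhds ?_)
      simpa using hx
    obtain ⟨ε, hε, hε0⟩ := ((hev.filter_mono (nhdsWithin_le_nhds (s := Set.Ioi 0))).and
      self_mem_nhdsWithin).exists
    have h1 := h.le_one (interior_subset hε) hu
    rw [map_add, map_smul, h.cen u hu, smul_eq_mul, mul_one] at h1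
    have : (0 : ℝ) < ε := hε0
    linarith
  · intro hx
    have hopen : IsOpen {y : V | ∀ u ∈ Φ, u y < 1} := by
      have : {y : V | ∀ u ∈ Φ, u y < 1} = ⋂ u ∈ Φ, {y : V | u y < 1} := by ext y; simp
      rw [this]
      refine h.fin.isOpen_biInter fun u _ => ?_
      exact isOpen_lt u.continuous_of_finiteDimensional continuous_const
    refine mem_interior.2 ⟨_, fun y hy => ?_, hopen, hx⟩
    exact (h.mem_iff y).2 fun u hu => (hy u hu).le

lemma zero_mem_interior (h : Poly A Φ c) : (0 : V) ∈ interior A :=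
  (h.mem_interior_iff 0).2 fun u _ => by simp

lemma smul_mem_interior (h : Poly A Φ c) {x : V} (hx : x ∈ A) {r : ℝ} (h0 : 0 ≤ r) (h1 : r < 1) :
    r • x ∈ interior A := by
  rw [h.mem_interior_iff]
  intro u hu
  rw [map_smul, smul_eq_mul]
  have := mul_le_mul_of_nonneg_left (h.le_one hx hu) h0
  linarith

lemma c_mem (h : Poly A Φ c) {u : Dual ℝ V} (hu : u ∈ Φ) : c u ∈ A := by
  rw [h.mem_iff]
  intro v hv
  by_cases hvu : v = u
  · rw [hvu, h.cen u hu]
  · exact (h.strict u hu v hv hvu).le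

lemma exists_of_boundary (h : Poly A Φ c) {x : V} (hx : x ∈ A) (hxi : x ∉ interior A) :
    ∃ u ∈ Φ, u x = 1 := by
  rw [h.mem_interior_iff] at hxi
  push Not at hxi
  obtain ⟨u, hu, h1⟩ := hxi
  exact ⟨u, hu, le_antisymm (h.le_one hx hu) h1⟩

lemma ne_zero (h : Poly A Φ c) {u : Dual ℝ V} (hu : u ∈ Φ) : u ≠ 0 := by
  rintro rfl
  have := h.cen 0 hu
  simp at this

lemma indep (h : Poly A Φ c) {u v : Dual ℝ V} (hu : u ∈ Φ) (hv : v ∈ Φ) (h1 : v ≠ u)
    (h2 : v ≠ -u) {α β : ℝ} (hab : α • u + β • v = 0) : α = 0 ∧ β = 0 := by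
  have e : ∀ x, α * u x + β * v x = 0 := fun x => by
    have := LinearMap.congr_fun hab x
    simpa using this
  have h3 : v (c u) < 1 := h.strict u hu v hv h1
  have h4 : -(v (c u)) < 1 := by
    have := h.strict u hu (-v) (h.neg v hv) (fun hh => h2 (by rw [← hh, neg_neg]))
    rwa [LinearMap.neg_apply] at this
  have h5 : u (c v) < 1 := h.strict v hv u hu (Ne.symm h1)
  have h6 : -(u (c v)) < 1 := by
    have := h.strict v hv (-u) (h.neg u hu) (fun hh => h2 hh.symm)
    rwa [LinearMap.neg_apply] at this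
  have e1 := e (c u)
  have e2 := e (c v)
  rw [h.cen u hu, mul_one] at e1
  rw [h.cen v hv, mul_one] at e2
  have hα : α = 0 := by
    by_contra hα
    have h7 : α * (1 - u (c v) * v (c u)) = 0 := by
      have : β = -(α * u (c v)) := by linarith
      rw [this] at e1
      linarith
    rcases mul_eq_zero.1 h7 with h8 | h8
    · exact hα h8
    · have h9 : |u (c v)| < 1 := abs_lt.2 ⟨by linarith, h5⟩
      have h10 : |v (c u)| < 1 := abs_lt.2 ⟨by linarith, h3⟩
      have h11 : |u (c v) * v (c u)| < 1 := by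
        rw [abs_mul]
        calc |u (c v)| * |v (c u)| ≤ |u (c v)| * 1 :=
              mul_le_mul_of_nonneg_left h10.le (abs_nonneg _)
          _ < 1 := by linarith
      have h12 : u (c v) * v (c u) = 1 := by linarith
      rw [h12] at h11
      simp at h11
  refine ⟨hα, ?_⟩
  rw [hα] at e2
  linarith

/-- the centred facet -/
def F0 (A : Set V) (c : Dual ℝ V → V) (u : Dual ℝ V) : Set V := {y | u y = 0 ∧ c u + y ∈ A}

/-- the centred open facet -/
def R0 (Φ : Set (Dual ℝ V)) (c : Dual ℝ V → V) (u : Dual ℝ V) : Set V :=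
  {y | u y = 0 ∧ ∀ v ∈ Φ, v ≠ u → v (c u + y) < 1}

lemma R0_subset (h : Poly A Φ c) {u : Dual ℝ V} (hu : u ∈ Φ) : R0 Φ c u ⊆ F0 A c u := by
  rintro y ⟨h1, h2⟩
  refine ⟨h1, (h.mem_iff _).2 fun v hv => ?_⟩
  by_cases hvu : v = u
  · rw [hvu, map_add, h.cen u hu, h1]; norm_num
  · exact (h2 v hv hvu).le

lemma F0_neg (h : Poly A Φ c) {u : Dual ℝ V} (hu : u ∈ Φ) {y : V} (hy : y ∈ F0 A c u) :
    -y ∈ F0 A c u := by
  refine ⟨by rw [map_neg, hy.1, neg_zero], ?_⟩
  have h1 : u (c u + y) = 1 := by rw [map_add, h.cen u hu, hy.1, add_zero]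
  have := h.refl u hu _ hy.2 h1
  have e : (2 : ℝ) • c u - (c u + y) = c u + -y := by rw [two_smul]; abel
  rwa [e] at this

lemma F0_sub_c (h : Poly A Φ c) {u : Dual ℝ V} (hu : u ∈ Φ) {y : V} (hy : y ∈ F0 A c u) :
    y - c u ∈ A := by
  have := h.neg_mem (h.F0_neg hu hy).2
  have e : -(c u + -y) = y - c u := by abel
  rwa [e] at this

lemma F0_sub_A (h : Poly A Φ c) {u : Dual ℝ V} (hu : u ∈ Φ) : F0 A c u ⊆ A := by
  intro y hy
  have := h.conv hy.2 (h.F0_sub_c hu hy) (a := 1 / 2) (b := 1 / 2) (by norm_num) (by norm_num)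
    (by norm_num)
  have e : (1 / 2 : ℝ) • (c u + y) + (1 / 2 : ℝ) • (y - c u) = y := by
    rw [← smul_add]
    have : c u + y + (y - c u) = (2 : ℝ) • y := by rw [two_smul]; abel
    rw [this, smul_smul]; norm_num
  rwa [e] at this

lemma isClosed_F0 (h : Poly A Φ c) (u : Dual ℝ V) : IsClosed (F0 A c u) := by
  have h1 : IsClosed {y : V | u y = 0} :=
    isClosed_eq u.continuous_of_finiteDimensional continuous_const
  have h2 : IsClosed {y : V | c u + y ∈ A} := h.closed.preimage (by fun_prop)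
  exact h1.inter h2

lemma isCompact_F0 (h : Poly A Φ c) {u : Dual ℝ V} (hu : u ∈ Φ) : IsCompact (F0 A c u) :=
  h.comp.of_isClosed_subset (h.isClosed_F0 u) (h.F0_sub_A hu)

lemma zero_mem_F0 (h : Poly A Φ c) {u : Dual ℝ V} (hu : u ∈ Φ) : (0 : V) ∈ F0 A c u :=
  ⟨map_zero u, by rw [add_zero]; exact h.c_mem hu⟩

lemma combo_R0 (h : Poly A Φ c) {u : Dual ℝ V} (hu : u ∈ Φ) {y : V} (hy : y ∈ F0 A c u) {θ : ℝ}
    (h0 : 0 < θ) (h1 : θ ≤ 1) : (1 - θ) • y ∈ R0 Φ c u := by
  refine ⟨by rw [map_smul, hy.1, smul_zero], fun v hv hvu => ?_⟩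
  have e : c u + (1 - θ) • y = θ • c u + (1 - θ) • (c u + y) := by
    rw [smul_add, ← add_assoc, ← add_smul]; norm_num
  rw [e, map_add, map_smul, map_smul, smul_eq_mul, smul_eq_mul]
  have h2 := mul_lt_mul_of_pos_left (h.strict u hu v hv hvu) h0
  have h3 := mul_le_mul_of_nonneg_left (h.le_one hy.2 hv) (by linarith : (0 : ℝ) ≤ 1 - θ)
  linarith

lemma R0_nhds (h : Poly A Φ c) {u : Dual ℝ V} (hu : u ∈ Φ) {y d : V} (hy : y ∈ R0 Φ c u)
    (hd : u d = 0) : ∀ᶠ ε in 𝓝 (0 : ℝ), y + ε • d ∈ R0 Φ c u := by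
  have h1 : ∀ᶠ ε in 𝓝 (0 : ℝ), ∀ v ∈ Φ, v ≠ u → v (c u + (y + ε • d)) < 1 := by
    rw [Filter.eventually_all_finite h.fin]
    intro v hv
    by_cases hvu : v = u
    · exact Eventually.of_forall fun x hh => absurd hvu hh
    · have hc : Continuous (fun ε : ℝ => v (c u + (y + ε • d))) :=
        v.continuous_of_finiteDimensional.comp (by fun_prop)
      have h3 : v (c u + (y + (0 : ℝ) • d)) < 1 := by simpa using hy.2 v hv hvu
      filter_upwards [hc.continuousAt.eventually (gt_mem_nhds h3)] with ε hε _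
      exact hε
  filter_upwards [h1] with ε hε
  exact ⟨by rw [map_add, map_smul, hy.1, hd, smul_zero, add_zero], hε⟩

/-- windows just below the facet: the support is near the facet -/
lemma base_one (h : Poly A Φ c) {S : Set V} (hS : TP A S) {u : Dual ℝ V} (hu : u ∈ Φ) {y : V}
    (hy : y ∈ R0 Φ c u) {η : ℝ} (hη : 0 < η) : ∃ r : ℝ, ∀ s ∈ S,
      s - ((2 : ℝ) • c u + y - r • c u) ∈ A →
      ∃ z ∈ F0 A c u, dist (s - ((2 : ℝ) • c u + y)) z < η := by
  set a := (2 : ℝ) • c u with ha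
  set S1 : Set V := {s | s ∈ S ∧ (1 / 2 : ℝ) • s ∉ interior A} with hS1
  have hS1c : IsClosed S1 := by
    have : IsClosed {s : V | (1 / 2 : ℝ) • s ∉ interior A} := by
      have h1 : IsOpen {s : V | (1 / 2 : ℝ) • s ∈ interior A} :=
        isOpen_interior.preimage (by fun_prop)
      exact h1.isClosed_compl
    exact hS.closed.inter this
  have hCc := isClosed_far hS1c (F0 A c u) (a + y) η
  set C := {s | s ∈ S1 ∧ ∀ z ∈ F0 A c u, η ≤ dist (s - (a + y)) z} with hC
  have hav : ∀ s ∈ C, s - (a + y - (1 : ℝ) • c u) ∉ A := by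
    rintro s ⟨⟨hsS, hs2⟩, hfar⟩ hsA
    rw [one_smul] at hsA
    set x := s - (a + y - c u) with hx
    have hs : s = (c u + y) + x := by rw [hx, ha, two_smul]; abel
    have hyA := (h.R0_subset hu hy).2
    rw [h.mem_interior_iff] at hs2
    push Not at hs2
    obtain ⟨v, hv, hv1⟩ := hs2
    rw [map_smul, hs, map_add, smul_eq_mul] at hv1
    have h1 := h.le_one hyA hv
    have h2 := h.le_one hsA hv
    have hvu : v = u := by
      by_contra hvu
      have := hy.2 v hv hvu
      linarith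
    rw [hvu] at hv1 h1 h2
    have h3 : u x = 1 := by linarith
    have h4 : x - c u ∈ F0 A c u :=
      ⟨by rw [map_sub, h3, h.cen u hu, sub_self], by rw [add_sub_cancel]; exact hsA⟩
    have h5 := hfar _ h4
    have h6 : s - (a + y) = x - c u := by rw [hx]; abel
    rw [h6, dist_self] at h5
    linarith
  have hev := eventually_avoid hCc h.comp hav
  have hcont : Continuous (fun r : ℝ => a + y - r • c u) := by fun_prop
  have hev2 := hcont.continuousAt.eventually hev
  obtain ⟨r, hr, hr1⟩ := ((hev2.filter_mono (nhdsWithin_le_nhds (s := Set.Iio 1))).and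
    self_mem_nhdsWithin).exists
  refine ⟨r, fun s hs hsA => ?_⟩
  by_contra hcon
  push Not at hcon
  by_cases h2 : (1 / 2 : ℝ) • s ∈ interior A
  · have h0 := hS.hard s hs h2
    have h1 := h.neg_le hsA hu
    rw [h0, zero_sub, map_neg, map_sub, map_add, map_smul, map_smul, h.cen u hu, hy.1,
      smul_eq_mul, smul_eq_mul] at h1
    have : r < 1 := hr1
    linarith
  · exact hr s ⟨⟨hs, h2⟩, hcon⟩ hsA

lemma base_two (h : Poly A Φ c) {S : Set V} (hS : TP A S) {u : Dual ℝ V} (hu : u ∈ Φ) {y : V}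
    (hy : y ∈ R0 Φ c u) {κ : ℝ} (hκ : |κ| < 1) {s : V} (hs : s ∈ S)
    (hsi : s - ((2 : ℝ) • c u + y + κ • c u) ∈ interior A) :
    s - ((2 : ℝ) • c u + y) ∈ F0 A c u := by
  set a := (2 : ℝ) • c u with ha
  have hκ1 : 0 < 1 - |κ| := by linarith
  -- a uniform neighbourhood
  have hev : ∀ᶠ d in 𝓝 (0 : V), ∀ v ∈ Φ, v (c u) ≠ 0 → |v d| < (1 - |κ|) * |v (c u)| := by
    rw [Filter.eventually_all_finite h.fin]
    intro v hv
    by_cases hvc : v (c u) = 0
    · exact Eventually.of_forall fun x hh => absurd hvc hh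
    · have hc : Continuous (fun d : V => |v d|) :=
        (v.continuous_of_finiteDimensional).abs
      have h3 : |v (0 : V)| < (1 - |κ|) * |v (c u)| := by
        rw [map_zero, abs_zero]
        exact mul_pos hκ1 (abs_pos.2 hvc)
      filter_upwards [hc.continuousAt.eventually (gt_mem_nhds h3)] with d hd _
      exact hd
  obtain ⟨η₀, hη₀, hball⟩ := Metric.eventually_nhds_iff.1 hev
  have hfit : ∀ (f : V) (r : ℝ), f + r • c u ∈ A → (∃ z ∈ F0 A c u, dist f z < η₀) →
      f - κ • c u ∈ A := by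
    rintro f r hfr ⟨z, hz, hfz⟩
    rw [h.mem_iff]
    intro v hv
    rw [map_sub, map_smul, smul_eq_mul]
    by_cases hvc : v (c u) = 0
    · have := h.le_one hfr hv
      rw [map_add, map_smul, hvc, smul_zero, add_zero] at this
      rw [hvc, mul_zero, sub_zero]; exact this
    · have h1 := hball (y := f - z) (by rwa [dist_zero_right, ← dist_eq_norm]) v hv hvc
      have h2 := h.le_one hz.2 hv
      have h3 := h.le_one (h.F0_sub_c hu hz) hv
      rw [map_add] at h2
      rw [map_sub] at h3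
      have h4 : v z + |v (c u)| ≤ 1 := by
        rcases abs_cases (v (c u)) with h5 | h5 <;> rw [h5.1] <;> linarith
      have h6 : v f = v z + v (f - z) := by rw [map_sub]; ring
      have h7 : -(κ * v (c u)) ≤ |κ| * |v (c u)| := by
        rw [← abs_mul]; exact neg_le_abs _
      have h8 := le_abs_self (v (f - z))
      rw [h6]
      nlinarith
  have hgen : ∀ η : ℝ, 0 < η → η ≤ η₀ → ∃ z ∈ F0 A c u, dist (s - (a + y)) z < 2 * η := by
    intro η hη hηη₀
    obtain ⟨r, hr⟩ := h.base_one hS hu hy hη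
    set O : Set V := (fun x => x - (a + y)) ⁻¹' (Metric.thickening η (F0 A c u)) with hO
    have hOo : IsOpen O := Metric.isOpen_thickening.preimage (by fun_prop)
    have h1 : ∀ s ∈ S, s - (a + y - r • c u) ∈ A → s ∈ O := fun s' hs' hsA =>
      Metric.mem_thickening_iff.2 (hr s' hs' hsA)
    have h2 : ∀ x, x - (a + y - r • c u) ∈ A → x ∈ O → x - (a + y + κ • c u) ∈ A := by
      intro x hxA hxO
      obtain ⟨z, hz, hxz⟩ := Metric.mem_thickening_iff.1 hxO
      have := hfit (x - (a + y)) r (by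
        have : x - (a + y) + r • c u = x - (a + y - r • c u) := by abel
        rwa [this]) ⟨z, hz, hxz.trans_le hηη₀⟩
      have e : x - (a + y) - κ • c u = x - (a + y + κ • c u) := by abel
      rwa [e] at this
    have h3 := hS.tp (a + y - r • c u) (a + y + κ • c u) O hOo h1 h2 s hs hsi
    obtain ⟨x', hx'O, hx'⟩ := Metric.mem_closure_iff.1 h3 η hη
    obtain ⟨z, hz, hxz⟩ := Metric.mem_thickening_iff.1 hx'O
    refine ⟨z, hz, ?_⟩
    have hd : dist (s - (a + y)) (x' - (a + y)) = dist s x' := dist_sub_right _ _ _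
    calc dist (s - (a + y)) z ≤ dist (s - (a + y)) (x' - (a + y)) + dist (x' - (a + y)) z :=
          dist_triangle _ _ _
      _ < η + η := by rw [hd]; exact add_lt_add hx' hxz
      _ = 2 * η := by ring
  rw [← (h.isClosed_F0 u).closure_eq, Metric.mem_closure_iff]
  intro ε hε
  obtain ⟨z, hz, hd⟩ := hgen (min η₀ (ε / 2)) (lt_min hη₀ (by linarith)) (min_le_left _ _)
  refine ⟨z, hz, hd.trans_le ?_⟩
  have := min_le_right η₀ (ε / 2)
  linarith

/-- the localisation on the facet -/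
lemma base (h : Poly A Φ c) {S : Set V} (hS : TP A S) {u : Dual ℝ V} (hu : u ∈ Φ) {y : V}
    (hy : y ∈ R0 Φ c u) {s : V} (hs : s ∈ S) (hsA : s - ((2 : ℝ) • c u + y) ∈ A) :
    s - ((2 : ℝ) • c u + y) ∈ F0 A c u := by
  set a := (2 : ℝ) • c u with ha
  set x := s - (a + y) with hx
  set β := u x with hβ
  have hβ1 : |β| ≤ 1 := abs_le.2 ⟨h.neg_le hsA hu, h.le_one hsA hu⟩
  set d := x - β • c u with hd
  have hud : u d = 0 := by rw [hd, map_sub, map_smul, h.cen u hu, smul_eq_mul, mul_one, sub_self]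
  have hev := h.R0_nhds hu hy hud
  have hlim : Filter.Tendsto (fun ε : ℝ => x - ε • d) (𝓝[>] 0) (𝓝 x) := by
    have : Filter.Tendsto (fun ε : ℝ => x - ε • d) (𝓝 0) (𝓝 (x - (0 : ℝ) • d)) := by
      have hc : Continuous (fun ε : ℝ => x - ε • d) := by fun_prop
      exact hc.tendsto 0
    rw [zero_smul, sub_zero] at this
    exact this.mono_left nhdsWithin_le_nhds
  refine (h.isClosed_F0 u).mem_of_tendsto hlim ?_
  filter_upwards [hev.filter_mono nhdsWithin_le_nhds, Ioo_mem_nhdsGT (one_pos (α := ℝ))]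
    with ε hε hε1
  have hκ : |ε * β| < 1 := by
    rw [abs_mul, abs_of_pos hε1.1]
    calc ε * |β| ≤ ε * 1 := mul_le_mul_of_nonneg_left hβ1 hε1.1.le
      _ < 1 := by linarith [hε1.2]
  have e1 : s - (a + (y + ε • d) + (ε * β) • c u) = (1 - ε) • x := by
    have e2 : ε • d = ε • x - (ε * β) • c u := by rw [hd, smul_sub, smul_smul]
    rw [e2, sub_smul, one_smul, hx]; abel
  have h1 := h.base_two hS hu hε hκ hs (by
    rw [← ha, e1]
    exact h.smul_mem_interior hsA (by linarith [hε1.2]) (by linarith [hε1.1]))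
  have e3 : s - ((2 : ℝ) • c u + (y + ε • d)) = x - ε • d := by rw [hx]; abel
  rwa [e3] at h1

/-- the facet of `u` is rigid -/
def Rig (A : Set V) (c : Dual ℝ V → V) (u : Dual ℝ V) : Prop :=
  ∃ y ∈ F0 A c u, ∀ τ : V, τ ≠ 0 → y - τ ∈ F0 A c u →
    ∃ x ∈ F0 A c u, x + τ ∈ interior A ∧ x + τ ∉ F0 A c u

/-- near a rigid facet vector the support is trivial -/
lemma isolated (h : Poly A Φ c) {S : Set V} (hS : TP A S) {u : Dual ℝ V} (hu : u ∈ Φ)
    (hr : Rig A c u) {s : V} (hs : s ∈ S)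
    (hsi : (1 / 2 : ℝ) • (s - (2 : ℝ) • c u) ∈ interior A) : s = (2 : ℝ) • c u := by
  set a := (2 : ℝ) • c u with ha
  obtain ⟨y, hy, hrig⟩ := hr
  -- windows with small support
  have key : ∀ η : ℝ, 0 < η → ∃ z1 : V, ∀ s ∈ S, s - (a + z1) ∈ A → dist s a < η := by
    intro η hη
    have hCc1 : IsClosed {s : V | η ≤ dist s a} :=
      isClosed_le continuous_const (continuous_id.dist continuous_const)
    have hCc : IsClosed {s | s ∈ S ∧ η ≤ dist s a} := hS.closed.inter hCc1
    have hav : ∀ s ∈ {s | s ∈ S ∧ η ≤ dist s a}, s - (a + y) ∉ F0 A c u := by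
      rintro s ⟨hsS, hfar⟩ hsF
      set τ := s - a with hτ
      have hτ0 : τ ≠ 0 := by
        intro h0
        have : s = a := sub_eq_zero.1 h0
        rw [this, dist_self] at hfar
        linarith
      have h1 : y - τ ∈ F0 A c u := by
        have := h.F0_neg hu hsF
        have e : -(s - (a + y)) = y - τ := by rw [hτ]; abel
        rwa [e] at this
      obtain ⟨x, hx, hxi, hxn⟩ := hrig τ hτ0 h1
      have hcont : Continuous (fun θ : ℝ => (1 - θ) • x + τ) := by fun_prop
      have hev1 : ∀ᶠ θ in 𝓝 (0 : ℝ), (1 - θ) • x + τ ∈ interior A := by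
        refine hcont.continuousAt.eventually_mem (isOpen_interior.mem_nhds ?_)
        simpa using hxi
      have hev2 : ∀ᶠ θ in 𝓝 (0 : ℝ), (1 - θ) • x + τ ∉ F0 A c u := by
        refine hcont.continuousAt.eventually_mem ((h.isClosed_F0 u).isOpen_compl.mem_nhds ?_)
        simpa using hxn
      obtain ⟨θ, ⟨hθ1, hθ2⟩, hθ⟩ := (((hev1.and hev2).filter_mono
        (nhdsWithin_le_nhds (s := Set.Ioi 0))).and
        (Ioo_mem_nhdsGT (one_pos (α := ℝ)))).exists
      have h2 := h.combo_R0 hu (h.F0_neg hu hx) hθ.1 hθ.2.le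
      have e : s - (a + (1 - θ) • -x) = (1 - θ) • x + τ := by rw [hτ, smul_neg]; abel
      have h3 := h.base hS hu h2 hsS (by rw [← ha, e]; exact interior_subset hθ1)
      rw [← ha, e] at h3
      exact hθ2 h3
    have hev := eventually_avoid hCc (h.isCompact_F0 hu) hav
    have hcont : Continuous (fun θ : ℝ => a + (1 - θ) • y) := by fun_prop
    have h0 : a + (1 - (0 : ℝ)) • y = a + y := by simp
    have hev' : ∀ᶠ (z : V) in 𝓝 ((fun θ : ℝ => a + (1 - θ) • y) 0),
        ∀ s ∈ {s | s ∈ S ∧ η ≤ dist s a}, s - z ∉ F0 A c u := by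
      show ∀ᶠ (z : V) in 𝓝 (a + (1 - (0 : ℝ)) • y), _
      rw [h0]; exact hev
    have hev2 := hcont.continuousAt.eventually hev'
    obtain ⟨θ, hθ1, hθ⟩ := ((hev2.filter_mono (nhdsWithin_le_nhds (s := Set.Ioi 0))).and
      (Ioo_mem_nhdsGT (one_pos (α := ℝ)))).exists
    refine ⟨(1 - θ) • y, fun s hs hsA => ?_⟩
    by_contra hcon
    push Not at hcon
    have h2 := h.combo_R0 hu hy hθ.1 hθ.2.le
    exact hθ1 s ⟨hs, hcon⟩ (h.base hS hu h2 hs hsA)
  set x := (1 / 2 : ℝ) • (s - a) with hx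
  -- translates of small balls stay in the window
  have hxneg : -x ∈ interior A := by
    rw [h.mem_interior_iff] at hsi ⊢
    intro v hv
    have := hsi (-v) (h.neg v hv)
    rw [LinearMap.neg_apply] at this
    rw [map_neg]; exact this
  obtain ⟨η₀, hη₀, hball⟩ := Metric.mem_nhds_iff.1 (isOpen_interior.mem_nhds hxneg)
  have hall : ∀ η : ℝ, 0 < η → η ≤ η₀ → dist s a ≤ η := by
    intro η hη hηη
    obtain ⟨z1, hz1⟩ := key η hη
    have h2 : ∀ x', x' - (a + z1) ∈ A → x' ∈ Metric.ball a η → x' - (a + x) ∈ A := by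
      intro x' _ hx'
      refine interior_subset (hball ?_)
      rw [Metric.mem_ball, dist_eq_norm] at hx' ⊢
      have e : x' - (a + x) - -x = x' - a := by abel
      rw [e]; exact hx'.trans_le hηη
    have h3 := hS.tp (a + z1) (a + x) (Metric.ball a η) Metric.isOpen_ball
      (fun s hs hsA => hz1 s hs hsA) h2 s hs (by
        have e : s - (a + x) = x := by
          have e1 : s - a = x + x := by
            rw [hx, ← add_smul]; norm_num
          have e2 : s - (a + x) = (s - a) - x := by abel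
          rw [e2, e1]; abel
        rw [e]; exact hsi)
    exact Metric.mem_closedBall.1 (Metric.closure_ball_subset_closedBall h3)
  have h0 : dist s a ≤ 0 := by
    refine le_of_forall_pos_le_add fun ε hε => ?_
    have := hall (min η₀ ε) (lt_min hη₀ hε) (min_le_left _ _)
    have := min_le_right η₀ ε
    linarith
  exact dist_le_zero.1 h0

end Poly

end Poly

end Pool.Agent.Lib_MP_5ddbb8_an
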