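import Mathlib
import Pool.Agent.Lib_MP_5ddbb8_an.QT3
import Pool.Agent.Lib_MP_5ddbb8_an.Poly

/-!
The two step rule for the support set, periods form a group, and the completion lemma at a facet.
-/

set_option linter.unusedSectionVars false
set_option linter.unusedSimpArgs false
set_option linter.unusedVariables false

open scoped Pointwise Topology ENNReal ComplexConjugate
open Module Set MeasureTheory Filter

namespace Pool.Agent.Lib_MP_5ddbb8_an

section Two

variable {V : Type*} [NormedAddCommGroup V] [NormedSpace ℝ V] [FiniteDimensional ℝ V]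
  [MeasurableSpace V] [BorelSpace V]
variable {Y : Type*} [MeasurableSpace Y] {J : Type*}
variable {μ : Measure V} [μ.IsAddHaarMeasure] {ν : Measure Y} [IsFiniteMeasure ν]
variable {A : Set V} {E : J → V × Y → ℂ} {S : Set J}

/-- every element of the support set is the sum of an element visible in a given window and an
element of the support set -/
lemma two_step (hs : Setup μ ν A E S) (z : V) {s' : V} (h : s' ∈ SS μ ν A E S) :
    ∃ s ∈ SS μ ν A E S, s - z ∈ A ∧ s' - s ∈ SS μ ν A E S := by
  by_contra hcon
  push Not at hcon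
  set T := SS μ ν A E S with hT
  have hTc : IsClosed T := isClosed_SS
  set D : Set V := win A z ∩ T with hD
  have hWc : IsCompact (win A z) := isCompact_win hs.comp z
  have hDc : IsCompact D := hWc.inter_right hTc
  have hDc' : IsCompact ((fun s => s' - s) '' D) := hDc.image (by fun_prop)
  have hdis : Disjoint ((fun s => s' - s) '' D) T := by
    rw [Set.disjoint_left]
    rintro _ ⟨s, hs1, rfl⟩ h2
    exact hcon s hs1.2 hs1.1 h2
  obtain ⟨δ, hδ, hδd⟩ := hdis.exists_cthickenings hDc' hTc
  rw [Set.disjoint_left] at hδd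
  -- a neighbourhood of `D` in the window
  set K : Set V := win A z ∩ Metric.cthickening (δ / 2) D with hK
  have hKc : IsCompact K := hWc.inter_right Metric.isClosed_cthickening
  have hKs : ∀ x ∈ Metric.closedBall s' (δ / 2), ∀ k ∈ K, x - k ∉ T := by
    intro x hx k hk hxk
    have h1 := hk.2
    rw [hDc.cthickening_eq_biUnion_closedBall (by positivity)] at h1
    simp only [mem_iUnion, exists_prop] at h1
    obtain ⟨d, hd, hkd⟩ := h1
    refine hδd (a := x - k) ?_ (Metric.self_subset_cthickening T hxk)
    refine Metric.closedBall_subset_cthickening (mem_image_of_mem _ hd) δ ?_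
    rw [Metric.mem_closedBall] at hx hkd ⊢
    have e : dist (x - k) (s' - d) ≤ dist x s' + dist k d := by
      rw [dist_eq_norm, dist_eq_norm, dist_eq_norm]
      have : x - k - (s' - d) = (x - s') - (k - d) := by abel
      rw [this]; exact norm_sub_le _ _
    linarith
  -- the rest of the window
  set X : Set V := win A z \ Metric.thickening (δ / 2) D with hX
  have hXc : IsCompact X := hWc.diff Metric.isOpen_thickening
  have hXd : Disjoint X T := by
    rw [Set.disjoint_left]
    intro x hx hxT
    exact hx.2 (Metric.self_subset_thickening (by positivity) D ⟨hx.1, hxT⟩)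
  obtain ⟨r, hr, hrd⟩ := hXd.exists_cthickenings hXc hTc
  rw [Set.disjoint_left] at hrd
  set ρ : ℝ := min r (δ / 2) with hρ
  have hρ0 : 0 < ρ := lt_min hr (by positivity)
  obtain ⟨F, hF, hF1, hF2⟩ := h ρ hρ0
  have h0 : GG μ ν F X = 0 := by
    refine support_null hs hF (z := 0) (isCompact_closedBall (0 : V) ρ) ?_ hXc ?_
    · rw [win_zero]
      exact measure_mono_null (sdiff_subset_sdiff_right Metric.ball_subset_closedBall) hF1
    · intro x hx k hk hxk
      refine hrd (a := x - k) ?_ (Metric.self_subset_cthickening T hxk)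
      refine Metric.closedBall_subset_cthickening hx r ?_
      rw [Metric.mem_closedBall, dist_eq_norm]
      rw [mem_closedBall_zero_iff] at hk
      have : x - k - x = -k := by abel
      rw [this, norm_neg]
      exact hk.trans (min_le_left _ _)
  have h1 : GG μ ν F (win A z \ K) = 0 := by
    refine measure_mono_null ?_ h0
    rintro x ⟨hx1, hx2⟩
    refine ⟨hx1, fun hx3 => hx2 ⟨hx1, Metric.thickening_subset_cthickening _ _ hx3⟩⟩
  have h2 := support_null hs hF hKc h1 (isCompact_closedBall s' (δ / 2)) hKs
  refine hF2 (measure_mono_null ?_ h2)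
  exact Metric.ball_subset_closedBall.trans (Metric.closedBall_subset_closedBall (min_le_right _ _))

lemma isPer_zero : IsPer μ ν A E S (0 : V) :=
  ⟨1, one_pos, fun F hF x₀ ρ h1 h2 => by rw [add_zero]⟩

lemma IsPer.add {a b : V} (ha : IsPer μ ν A E S a) (hb : IsPer μ ν A E S b) :
    IsPer μ ν A E S (a + b) := by
  obtain ⟨r, hr, h1⟩ := ha
  obtain ⟨r', hr', h2⟩ := hb
  refine ⟨min r r', lt_min hr hr', fun F hF x₀ ρ h3 h4 => ?_⟩
  rw [← add_assoc, h2 F hF (x₀ + a) ρ h3 (h4.trans_le (min_le_right _ _)),
    h1 F hF x₀ ρ h3 (h4.trans_le (min_le_left _ _))]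

lemma isPer_of_mem_closure {R : Set V} (hR : ∀ a ∈ R, IsPer μ ν A E S a) {t : V}
    (ht : t ∈ AddSubgroup.closure R) : IsPer μ ν A E S t := by
  refine AddSubgroup.closure_induction (p := fun t _ => IsPer μ ν A E S t) ?_ ?_ ?_ ?_ ht
  · exact fun a ha => hR a ha
  · exact isPer_zero
  · exact fun a b _ _ ha hb => ha.add hb
  · exact fun a _ ha => ha.neg

end Two

end Pool.Agent.Lib_MP_5ddbb8_an
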