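import Mathlib
import Pool.Agent.Lib_MP_5ddbb8_an.Poly

/-!
Support sets with the two step rule: crossing lemmas, the completion lemma at a facet.
-/

set_option linter.unusedSectionVars false
set_option linter.unusedSimpArgs false
set_option linter.unusedVariables false

open scoped Pointwise Topology
open Module Set Filter

namespace Pool.Agent.Lib_MP_5ddbb8_an

section Lock

variable {V : Type*} [NormedAddCommGroup V] [NormedSpace ℝ V] [FiniteDimensional ℝ V]

/-- transport property together with the two step rule -/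
structure TPS (A S : Set V) : Prop extends TP A S where
  two : ∀ z : V, ∀ s' ∈ S, ∃ s ∈ S, s - z ∈ A ∧ s' - s ∈ S

namespace Poly

variable {A : Set V} {Φ : Set (Dual ℝ V)} {c : Dual ℝ V → V}

/-- zero is isolated in the support -/
lemma zero_isolated (h : Poly A Φ c) {S : Set V} (hS : TP A S) :
    ∃ r > 0, ∀ s ∈ S, ‖s‖ < r → s = 0 := by
  obtain ⟨r, hr, hball⟩ := Metric.mem_nhds_iff.1 (isOpen_interior.mem_nhds h.zero_mem_interior)
  refine ⟨r, hr, fun s hs hsr => hS.hard s hs (hball ?_)⟩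
  rw [mem_ball_zero_iff, norm_smul]
  have : ‖(1 / 2 : ℝ)‖ = 1 / 2 := by norm_num
  rw [this]
  have := norm_nonneg s
  linarith

/-- a nonzero displacement inside `A` by an element of the support crosses a pair of facets -/
lemma cross (h : Poly A Φ c) {S : Set V} (hS : TP A S) {P P' : V} (hP : P ∈ A) (hP' : P' ∈ A)
    (hs : P' - P ∈ S) (hne : P' ≠ P) : ∃ v ∈ Φ, v P' = 1 ∧ v P = -1 := by
  have h1 : (1 / 2 : ℝ) • (P' - P) ∉ interior A := fun h1 => hne (sub_eq_zero.1 (hS.hard _ hs h1))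
  rw [h.mem_interior_iff] at h1
  push Not at h1
  obtain ⟨v, hv, h2⟩ := h1
  rw [map_smul, map_sub, smul_eq_mul] at h2
  have h3 := h.le_one hP' hv
  have h4 := h.neg_le hP hv
  exact ⟨v, hv, by linarith, by linarith⟩

lemma R0_neg (h : Poly A Φ c) {u : Dual ℝ V} (hu : u ∈ Φ) {y : V} (hy : y ∈ R0 Φ c u) :
    -y ∈ R0 Φ c u := by
  have hev := h.R0_nhds hu hy hy.1
  obtain ⟨ε, hε, hε0⟩ := ((hev.filter_mono (nhdsWithin_le_nhds (s := Set.Ioi 0))).and
    self_mem_nhdsWithin).exists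
  have hε0' : (0 : ℝ) < ε := hε0
  have h1 := h.F0_neg hu (h.R0_subset hu hε)
  have h2 := h.combo_R0 hu h1 (θ := ε / (1 + ε)) (by positivity)
    ((div_le_one (by positivity)).2 (by linarith))
  have e : (1 - ε / (1 + ε)) • (-(y + ε • y)) = -y := by
    have e1 : y + ε • y = (1 + ε) • y := by rw [add_smul, one_smul]
    rw [e1, smul_neg, smul_smul]
    have e2 : (1 - ε / (1 + ε)) * (1 + ε) = 1 := by field_simp; ring
    rw [e2, one_smul]
  rwa [e] at h2

/-- forward displacements at a facet stay in the facet -/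
lemma land_fwd (h : Poly A Φ c) {S : Set V} (hS : TP A S) {u : Dual ℝ V} (hu : u ∈ Φ) {x q : V}
    (hx : x ∈ R0 Φ c u) (hq : (2 : ℝ) • c u + q ∈ S) (hA : x + q ∈ A) : x + q ∈ F0 A c u := by
  have h1 := h.base hS hu (h.R0_neg hu hx) hq (by
    have e : (2 : ℝ) • c u + q - ((2 : ℝ) • c u + -x) = x + q := by abel
    rwa [e])
  have e : (2 : ℝ) • c u + q - ((2 : ℝ) • c u + -x) = x + q := by abel
  rwa [e] at h1

/-- backward displacements at a facet stay in the facet -/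
lemma land_bwd (h : Poly A Φ c) {S : Set V} (hS : TP A S) {u : Dual ℝ V} (hu : u ∈ Φ) {x q : V}
    (hx : x ∈ R0 Φ c u) (hq : (2 : ℝ) • c u + q ∈ S) (hA : x - q ∈ A) : x - q ∈ F0 A c u := by
  have e : (2 : ℝ) • c u + q - ((2 : ℝ) • c u + x) = -(x - q) := by abel
  have h1 := h.base hS hu hx hq (by rw [e]; exact h.neg_mem hA)
  rw [e] at h1
  have := h.F0_neg hu h1
  rwa [neg_neg] at this

/-- completion: whatever the displacement, it can be completed to one that is visible -/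
lemma complete (h : Poly A Φ c) {S : Set V} (hS : TPS A S) {u : Dual ℝ V} (hu : u ∈ Φ) {x p : V}
    (hx : x ∈ R0 Φ c u) (hp : (2 : ℝ) • c u + p ∈ S) :
    ∃ s ∈ S, (2 : ℝ) • c u + (p - s) ∈ S ∧ x - (p - s) ∈ F0 A c u := by
  obtain ⟨r, hr, hiso⟩ := h.zero_isolated hS.toTP
  have hxF := h.R0_subset hu hx
  have hstep : ∀ n : ℕ, ∃ s ∈ S, s + (x - p - c u) + (1 / ((n : ℝ) + 1)) • c u ∈ A ∧
      (2 : ℝ) • c u + p - s ∈ S ∧ r ≤ ‖(2 : ℝ) • c u + p - s‖ := by
    intro n
    obtain ⟨s, hs, hsA, hss⟩ := hS.two (-((x - p - c u) + (1 / ((n : ℝ) + 1)) • c u)) _ hp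
    have e : s - -((x - p - c u) + (1 / ((n : ℝ) + 1)) • c u) =
      s + (x - p - c u) + (1 / ((n : ℝ) + 1)) • c u := by abel
    rw [e] at hsA
    refine ⟨s, hs, hsA, hss, ?_⟩
    by_contra hlt
    push Not at hlt
    have h0 := hiso _ hss hlt
    have hseq : s = (2 : ℝ) • c u + p := (sub_eq_zero.1 h0).symm
    rw [hseq] at hsA
    have h1 := h.le_one hsA hu
    have e2 : (2 : ℝ) • c u + p + (x - p - c u) + (1 / ((n : ℝ) + 1)) • c u =
      c u + x + (1 / ((n : ℝ) + 1)) • c u := by rw [two_smul]; abel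
    rw [e2, map_add, map_add, map_smul, h.cen u hu, hx.1, smul_eq_mul] at h1
    have : (0 : ℝ) < 1 / ((n : ℝ) + 1) := by positivity
    linarith
  choose f hfS hfA hfd hfr using hstep
  -- boundedness
  obtain ⟨R, hR⟩ := h.comp.isBounded.subset_closedBall 0
  have hbd : ∀ n, f n ∈ Metric.closedBall (0 : V) (R + ‖x - p - c u‖ + ‖c u‖) := by
    intro n
    have h1 := hR (hfA n)
    rw [mem_closedBall_zero_iff] at h1 ⊢
    have e : f n = (f n + (x - p - c u) + (1 / ((n : ℝ) + 1)) • c u) - (x - p - c u) -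
      (1 / ((n : ℝ) + 1)) • c u := by abel
    have h2 : ‖(1 / ((n : ℝ) + 1)) • c u‖ ≤ ‖c u‖ := by
      rw [norm_smul, Real.norm_of_nonneg (by positivity)]
      have : 1 / ((n : ℝ) + 1) ≤ 1 := by
        rw [div_le_one (by positivity)]
        have : (0 : ℝ) ≤ n := Nat.cast_nonneg n
        linarith
      exact mul_le_of_le_one_left (norm_nonneg _) this
    calc ‖f n‖ = ‖(f n + (x - p - c u) + (1 / ((n : ℝ) + 1)) • c u) - (x - p - c u) -
      (1 / ((n : ℝ) + 1)) • c u‖ := by rw [← e]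
      _ ≤ ‖(f n + (x - p - c u) + (1 / ((n : ℝ) + 1)) • c u) - (x - p - c u)‖ +
        ‖(1 / ((n : ℝ) + 1)) • c u‖ := norm_sub_le _ _
      _ ≤ ‖(f n + (x - p - c u) + (1 / ((n : ℝ) + 1)) • c u)‖ + ‖x - p - c u‖ +
        ‖(1 / ((n : ℝ) + 1)) • c u‖ := by gcongr; exact norm_sub_le _ _
      _ ≤ R + ‖x - p - c u‖ + ‖c u‖ := by gcongr
  obtain ⟨s, -, φ, hφ, hlim⟩ := (isCompact_closedBall (0 : V) _).tendsto_subseq hbd
  have hn : Tendsto (fun n => 1 / (((φ n : ℕ) : ℝ) + 1)) atTop (𝓝 0) :=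
    tendsto_one_div_add_atTop_nhds_zero_nat.comp hφ.tendsto_atTop
  have hsS : s ∈ S := hS.closed.mem_of_tendsto hlim (Eventually.of_forall fun n => hfS _)
  have hsd : (2 : ℝ) • c u + p - s ∈ S :=
    hS.closed.mem_of_tendsto (hlim.const_sub _) (Eventually.of_forall fun n => hfd _)
  have hsr : r ≤ ‖(2 : ℝ) • c u + p - s‖ :=
    ge_of_tendsto (hlim.const_sub _).norm (Eventually.of_forall fun n => hfr _)
  have hsA : s + (x - p - c u) ∈ A := by
    have h1 : Tendsto (fun n => f (φ n) + (x - p - c u) + (1 / (((φ n : ℕ) : ℝ) + 1)) • c u)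
        atTop (𝓝 (s + (x - p - c u) + (0 : ℝ) • c u)) :=
      (hlim.add_const _).add (hn.smul_const _)
    rw [zero_smul, add_zero] at h1
    exact h.closed.mem_of_tendsto h1 (Eventually.of_forall fun n => hfA _)
  have hP' : c u + x ∈ A := hxF.2
  obtain ⟨v, hv, hv1, hv2⟩ := h.cross hS.toTP (P := s + (x - p - c u)) (P' := c u + x) hsA hP' (by
    have e : c u + x - (s + (x - p - c u)) = (2 : ℝ) • c u + p - s := by rw [two_smul]; abel
    rwa [e]) (by
    intro hcon
    have e : (2 : ℝ) • c u + p - s = c u + x - (s + (x - p - c u)) := by rw [two_smul]; abel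
    rw [e, hcon, sub_self, norm_zero] at hsr
    linarith)
  have hvu : v = u := by
    by_contra hvu
    have := hx.2 v hv hvu
    linarith
  rw [hvu] at hv2
  refine ⟨s, hsS, by rw [← add_sub_assoc]; exact hsd, ?_⟩
  have h3 : -(x - (p - s)) ∈ F0 A c u := by
    refine ⟨?_, ?_⟩
    · have e : s + (x - p - c u) = (x - (p - s)) - c u := by abel
      rw [e, map_sub, h.cen u hu] at hv2
      rw [map_neg]; linarith
    · have e : c u + -(x - (p - s)) = -(s + (x - p - c u)) := by abel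
      rw [e]; exact h.neg_mem hsA
  have := h.F0_neg hu h3
  rwa [neg_neg] at this

lemma complete' (h : Poly A Φ c) {S : Set V} (hS : TPS A S) {u : Dual ℝ V} (hu : u ∈ Φ) {x p : V}
    (hx : x ∈ R0 Φ c u) (hp : (2 : ℝ) • c u + p ∈ S) :
    ∃ s ∈ S, (2 : ℝ) • c u + (p - s) ∈ S ∧ x + (p - s) ∈ F0 A c u := by
  obtain ⟨s, h1, h2, h3⟩ := h.complete hS hu (h.R0_neg hu hx) hp
  refine ⟨s, h1, h2, ?_⟩
  have := h.F0_neg hu h3
  have e : -(-x - (p - s)) = x + (p - s) := by abel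
  rwa [e] at this

/-- shifting a face of `F0` by the vector of a facet parallel to the axis -/
lemma F0_shift (h : Poly A Φ c) {u : Dual ℝ V} (hu : u ∈ Φ) {w : Dual ℝ V} (hw : w ∈ Φ)
    (hwc : w (c u) = 0) {x : V} (hx : x ∈ F0 A c u) (hwx : w x = 1) :
    x - (2 : ℝ) • c w ∈ F0 A c u := by
  have h1 : w (c u + x) = 1 := by rw [map_add, hwc, hwx, zero_add]
  have h2 : w (x - c u) = 1 := by rw [map_sub, hwc, hwx, sub_zero]
  have h3 := h.neg_mem (h.refl w hw _ hx.2 h1)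
  have h4 := h.neg_mem (h.refl w hw _ (h.F0_sub_c hu hx) h2)
  have e3 : -((2 : ℝ) • c w - (c u + x)) = c u + (x - (2 : ℝ) • c w) := by abel
  have e4 : -((2 : ℝ) • c w - (x - c u)) = (x - (2 : ℝ) • c w) - c u := by abel
  rw [e3] at h3
  rw [e4] at h4
  have h5 := h.le_one h3 hu
  have h6 := h.neg_le h4 hu
  rw [map_add, h.cen u hu, map_sub, hx.1] at h5
  rw [map_sub, h.cen u hu, map_sub, hx.1] at h6
  refine ⟨?_, h3⟩
  rw [map_sub, hx.1]
  linarith

lemma F0_shift' (h : Poly A Φ c) {u : Dual ℝ V} (hu : u ∈ Φ) {w : Dual ℝ V} (hw : w ∈ Φ)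
    (hwc : w (c u) = 0) {x : V} (hx : x ∈ F0 A c u) (hwx : w x = -1) :
    x + (2 : ℝ) • c w ∈ F0 A c u := by
  have h1 := h.F0_shift hu hw hwc (h.F0_neg hu hx) (by rw [map_neg, hwx, neg_neg])
  have h2 := h.F0_neg hu h1
  have e : -(-x - (2 : ℝ) • c w) = x + (2 : ℝ) • c w := by abel
  rwa [e] at h2

end Poly

end Lock

end Pool.Agent.Lib_MP_5ddbb8_an
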