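import Mathlib
import Pool.Agent.Lib_MP_5ddbb8_an.Lock2

/-!
Locked faces of a facet: the matching lemma and the crossing lemma.
-/

set_option linter.unusedSectionVars false
set_option linter.unusedSimpArgs false
set_option linter.unusedVariables false

open scoped Pointwise Topology
open Module Set Filter

namespace Pool.Agent.Lib_MP_5ddbb8_an

section Lock

variable {V : Type*} [NormedAddCommGroup V] [NormedSpace ℝ V] [FiniteDimensional ℝ V]

/-- relative interior of `X` in the direction space `L` -/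
def ri (X : Set V) (L : Submodule ℝ V) : Set V :=
  {y | y ∈ X ∧ ∃ ρ > 0, ∀ d ∈ L, ‖d‖ < ρ → y + d ∈ X}

lemma ri_subset (X : Set V) (L : Submodule ℝ V) : ri X L ⊆ X := fun _ h => h.1

/-- moving from a point of `X` towards a relative interior point -/
lemma ri_combo {X : Set V} {L : Submodule ℝ V} (hX : Convex ℝ X) {y x : V} (hy : y ∈ X)
    (hx : x ∈ ri X L) {t : ℝ} (h0 : 0 < t) (h1 : t ≤ 1) : y + t • (x - y) ∈ ri X L := by
  obtain ⟨hxX, ρ, hρ, hball⟩ := hx
  have key : ∀ d ∈ L, ‖d‖ < t * ρ → y + t • (x - y) + d ∈ X := by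
    intro d hd hdn
    have h2 : x + t⁻¹ • d ∈ X := by
      refine hball _ (L.smul_mem _ hd) ?_
      rw [norm_smul, norm_inv, Real.norm_of_nonneg h0.le, inv_mul_lt_iff₀ h0]
      exact hdn
    have h3 := hX hy h2 (sub_nonneg.2 h1) h0.le (by ring)
    have e : (1 - t) • y + t • (x + t⁻¹ • d) = y + t • (x - y) + d := by
      rw [smul_add, smul_smul, mul_inv_cancel₀ h0.ne', one_smul, sub_smul, one_smul, smul_sub]
      abel
    rwa [e] at h3
  refine ⟨?_, t * ρ, mul_pos h0 hρ, key⟩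
  have := key 0 L.zero_mem (by rw [norm_zero]; exact mul_pos h0 hρ)
  rwa [add_zero] at this

/-- the part of `X` at height `β` -/
def cut (X : Set V) (g : Dual ℝ V) (β : ℝ) : Set V := {x | x ∈ X ∧ g x = β}

/-- all visible displacements at the position `x` land near `X` -/
def Good (A S : Set V) (a : V) (X : Set V) (η : ℝ) (x : V) : Prop :=
  ∀ q, a + q ∈ S → (x + q ∈ A → ∃ P ∈ X, dist (x + q) P < η) ∧
    (x - q ∈ A → ∃ P ∈ X, dist (x - q) P < η)

/-- a locked face of the centred facet -/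
def Locked (A S : Set V) (Φ : Set (Dual ℝ V)) (c : Dual ℝ V → V) (u : Dual ℝ V) (X : Set V)
    (L : Submodule ℝ V) : Prop :=
  ∀ y ∈ ri X L, ∀ η > 0, ∃ x ∈ Poly.R0 Φ c u, dist x y < η ∧ Good A S ((2 : ℝ) • c u) X η x

namespace Poly

variable {A : Set V} {Φ : Set (Dual ℝ V)} {c : Dual ℝ V → V}

lemma locked_F0 (h : Poly A Φ c) {S : Set V} (hS : TP A S) {u : Dual ℝ V} (hu : u ∈ Φ)
    (L : Submodule ℝ V) : Locked A S Φ c u (F0 A c u) L := by
  intro y hy η hη
  have hev : ∀ᶠ θ : ℝ in 𝓝 0, dist ((1 - θ) • y) y < η := by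
    have hc : Continuous (fun θ : ℝ => dist ((1 - θ) • y) y) := by fun_prop
    exact hc.continuousAt.eventually (gt_mem_nhds (by simpa using hη))
  obtain ⟨θ, hθ, hθ0⟩ := ((hev.filter_mono (nhdsWithin_le_nhds (s := Set.Ioi 0))).and
    (Ioo_mem_nhdsGT (one_pos (α := ℝ)))).exists
  have hR := h.combo_R0 hu hy.1 hθ0.1 hθ0.2.le
  refine ⟨(1 - θ) • y, hR, hθ, fun q hq => ⟨fun hA => ?_, fun hA => ?_⟩⟩
  · exact ⟨_, h.land_fwd hS hu hR hq hA, by rwa [dist_self]⟩
  · exact ⟨_, h.land_bwd hS hu hR hq hA, by rwa [dist_self]⟩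

/-- the conclusion of the crossing analysis -/
lemma match_of_pair (h : Poly A Φ c) {S : Set V} (hS : TP A S) {u : Dual ℝ V} (hu : u ∈ Φ)
    {X : Set V} {L : Submodule ℝ V} (hXF : X ⊆ F0 A c u) (hXc : Convex ℝ X)
    (hext : ∀ a ∈ F0 A c u, ∀ b ∈ F0 A c u, (1 / 2 : ℝ) • a + (1 / 2 : ℝ) • b ∈ X → a ∈ X)
    {g : Dual ℝ V} {β : ℝ} {y s : V} (hyk : y ∈ cut X g β)
    (hyri : ∃ ρ > 0, ∀ d ∈ L, g d = 0 → ‖d‖ < ρ → y + d ∈ X)
    (hL : ∀ x ∈ X, ∀ x' ∈ X, x - x' ∈ L)
    (hysX : y + s ∈ X) {w : Dual ℝ V} (hw : w ∈ Φ) (hwc : w (c u) = 0) (hwy : w y = 1)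
    (hws : w (y + s) = -1) : ∀ x ∈ cut X g β, x - (2 : ℝ) • c w ∈ X := by
  intro x hx
  obtain ⟨ρ, hρ, hball⟩ := hyri
  have hwx : w x = 1 := by
    have h1 := h.le_one (h.F0_sub_A hu (hXF hx.1)) hw
    refine le_antisymm h1 ?_
    have hcont : Continuous (fun δ : ℝ => ‖δ • (y - x)‖) := by fun_prop
    have hev : ∀ᶠ δ in 𝓝 (0 : ℝ), ‖δ • (y - x)‖ < ρ :=
      hcont.continuousAt.eventually (gt_mem_nhds (by simpa using hρ))
    obtain ⟨δ, hδ, hδ0⟩ := ((hev.filter_mono (nhdsWithin_le_nhds (s := Set.Ioi 0))).and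
      self_mem_nhdsWithin).exists
    have hδ0' : (0 : ℝ) < δ := hδ0
    have h2 : y + δ • (y - x) ∈ X := by
      refine hball _ (L.smul_mem _ (hL _ hyk.1 _ hx.1)) ?_ hδ
      rw [map_smul, map_sub, hyk.2, hx.2, sub_self, smul_zero]
    have h3 := h.le_one (h.F0_sub_A hu (hXF h2)) hw
    rw [map_add, map_smul, map_sub, hwy, smul_eq_mul] at h3
    by_contra hcon
    push Not at hcon
    have : 0 < δ * (1 - w x) := mul_pos hδ0' (by linarith)
    linarith
  have h1 := h.F0_shift hu hw hwc (hXF hx.1) hwx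
  have h2 := h.F0_shift' hu hw hwc (hXF hysX) hws
  refine hext _ h1 _ h2 ?_
  have e : (1 / 2 : ℝ) • (x - (2 : ℝ) • c w) + (1 / 2 : ℝ) • (y + s + (2 : ℝ) • c w) =
      (1 / 2 : ℝ) • x + (1 / 2 : ℝ) • (y + s) := by
    rw [smul_sub, smul_add (1 / 2 : ℝ) (y + s)]; abel
  rw [e]
  exact hXc hx.1 hysX (by norm_num) (by norm_num) (by norm_num)

/-- from a displacement of `X` crossing the facet pair -/
lemma pair_of_disp (h : Poly A Φ c) {S : Set V} (hS : TP A S) {u : Dual ℝ V} (hu : u ∈ Φ)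
    {y s : V} (hy : y ∈ F0 A c u) (hs : s ∈ S) (hs0 : s ≠ 0) (hys : y + s ∈ F0 A c u) :
    ∃ w ∈ Φ, w (c u) = 0 ∧ w y = 1 ∧ w (y + s) = -1 := by
  obtain ⟨v, hv, hv1, hv2⟩ := h.cross hS (P := y - c u) (P' := y + s - c u) (h.F0_sub_c hu hy)
    (h.F0_sub_c hu hys) (by
      have e : y + s - c u - (y - c u) = s := by abel
      rwa [e]) (by
      intro hcon
      apply hs0
      have e : s = (y + s - c u) - (y - c u) := by abel
      rw [e, hcon, sub_self])
  refine ⟨-v, h.neg v hv, ?_⟩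
  have h1 := h.neg_le hy.2 hv
  have h2 := h.le_one hys.2 hv
  rw [map_add] at h1 h2
  rw [map_sub] at hv1 hv2
  simp only [LinearMap.neg_apply]
  have h3 : v (c u) = 0 := by linarith
  rw [h3] at hv1 hv2
  refine ⟨by rw [h3, neg_zero], by linarith, by linarith⟩

lemma pair_of_disp' (h : Poly A Φ c) {S : Set V} (hS : TP A S) {u : Dual ℝ V} (hu : u ∈ Φ)
    {y s : V} (hy : y ∈ F0 A c u) (hs : s ∈ S) (hs0 : s ≠ 0) (hys : y - s ∈ F0 A c u) :
    ∃ w ∈ Φ, w (c u) = 0 ∧ w y = 1 ∧ w (y - s) = -1 := by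
  obtain ⟨w, hw, h1, h2, h3⟩ := h.pair_of_disp hS hu hys hs hs0 (by
    rw [sub_add_cancel]; exact hy)
  rw [sub_add_cancel] at h3
  exact ⟨-w, h.neg w hw, by rw [LinearMap.neg_apply, h1, neg_zero],
    by rw [LinearMap.neg_apply, h3, neg_neg], by rw [LinearMap.neg_apply, h2]⟩

/-- the matching lemma: a facet `k` of a locked face `X` that is crossed is matched -/
lemma matched (h : Poly A Φ c) {S : Set V} (hS : TPS A S) {u : Dual ℝ V} (hu : u ∈ Φ)
    {X : Set V} {L : Submodule ℝ V} (hXF : X ⊆ F0 A c u) (hXc : Convex ℝ X) (hXcl : IsClosed X)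
    (hext : ∀ a ∈ F0 A c u, ∀ b ∈ F0 A c u, ∀ t : ℝ, 0 < t → t < 1 →
      (1 - t) • a + t • b ∈ X → a ∈ X)
    (hL : ∀ x ∈ X, ∀ x' ∈ X, x - x' ∈ L)
    {g : Dual ℝ V} {β : ℝ} (hle : ∀ x ∈ X, g x ≤ β) {x₀ : V} (hx₀ : x₀ ∈ X) (hx₀β : g x₀ < β)
    (hlock : Locked A S Φ c u X L) {y q : V} (hy : y ∈ ri (cut X g β) (L ⊓ LinearMap.ker g))
    (hq : (2 : ℝ) • c u + q ∈ S) (hcross : y + q ∈ ri X L ∨ y - q ∈ ri X L) :
    ∃ w ∈ Φ, ∀ x ∈ cut X g β, x - (2 : ℝ) • c w ∈ X := by
  classical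
  have hyX : y ∈ X := hy.1.1
  have hyβ : g y = β := hy.1.2
  -- a sign
  obtain ⟨σ, hσ, hσX⟩ : ∃ σ : ℝ, (σ = 1 ∨ σ = -1) ∧ y + σ • q ∈ ri X L := by
    rcases hcross with h1 | h1
    · exact ⟨1, Or.inl rfl, by rwa [one_smul]⟩
    · exact ⟨-1, Or.inr rfl, by rwa [neg_one_smul, ← sub_eq_add_neg]⟩
  -- relative interior points are strictly below
  have hri : ∀ z ∈ ri X L, g z < β := by
    rintro z ⟨hz, ρ, hρ, hball⟩
    refine lt_of_le_of_ne (hle z hz) fun hzβ => ?_
    have hcont : Continuous (fun δ : ℝ => ‖δ • (z - x₀)‖) := by fun_prop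
    have hev : ∀ᶠ δ in 𝓝 (0 : ℝ), ‖δ • (z - x₀)‖ < ρ :=
      hcont.continuousAt.eventually (gt_mem_nhds (by simpa using hρ))
    obtain ⟨δ, hδ, hδ0⟩ := ((hev.filter_mono (nhdsWithin_le_nhds (s := Set.Ioi 0))).and
      self_mem_nhdsWithin).exists
    have hδ0' : (0 : ℝ) < δ := hδ0
    have h2 := hle _ (hball _ (L.smul_mem _ (hL _ hz _ hx₀)) hδ)
    rw [map_add, map_smul, map_sub, hzβ, smul_eq_mul] at h2
    have : 0 < δ * (β - g x₀) := mul_pos hδ0' (by linarith)
    linarith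
  have hgq : g (σ • q) < 0 := by
    have := hri _ hσX
    rw [map_add, hy.1.2] at this
    linarith
  obtain ⟨r, hr, hiso⟩ := h.zero_isolated hS.toTP
  have hF0c := h.isClosed_F0 (c := c) u
  -- the approximating displacements
  have hstep : ∀ n : ℕ, ∃ s ∈ S, s ≠ 0 ∧ ∃ x : V,
      dist x (y + σ • q) ≤ (1 / ((n : ℝ) + 2)) * (1 + ‖q‖) ∧
      ∃ P ∈ X, dist (x - σ • (q - s)) P ≤ 1 / ((n : ℝ) + 2) := by
    intro n
    set t : ℝ := 1 / ((n : ℝ) + 2) with ht
    have hn0 : (0 : ℝ) ≤ n := Nat.cast_nonneg n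
    have ht0 : 0 < t := by positivity
    have ht1 : t < 1 := by
      rw [ht, div_lt_one (by positivity)]; linarith
    have hQ : y + (1 - t) • (y + σ • q - y) ∈ ri X L :=
      ri_combo hXc hyX hσX (by linarith) (by linarith)
    set Q : V := y + (1 - t) • (y + σ • q - y) with hQdef
    have hQ1 : Q - σ • q = y - t • (σ • q) := by
      rw [hQdef]
      have : y + σ • q - y = σ • q := by abel
      rw [this, sub_smul, one_smul]; abel
    have hout : y - t • (σ • q) ∉ F0 A c u := by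
      intro hin
      have h1 : y - t • (σ • q) ∈ X := by
        refine hext _ hin _ (hXF hσX.1) (t / (1 + t)) (by positivity)
          ((div_lt_one (by positivity)).2 (by linarith)) ?_
        have e : (1 - t / (1 + t)) • (y - t • (σ • q)) + (t / (1 + t)) • (y + σ • q) = y := by
          have e1 : 1 - t / (1 + t) = 1 / (1 + t) := by field_simp; ring
          rw [e1, smul_sub, smul_add, smul_smul]
          have e2 : 1 / (1 + t) * t = t / (1 + t) := by ring
          rw [e2]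
          have e3 : (1 / (1 + t)) • y - (t / (1 + t)) • σ • q +
              ((t / (1 + t)) • y + (t / (1 + t)) • σ • q) =
              (1 / (1 + t) + t / (1 + t)) • y := by rw [add_smul]; abel
          rw [e3]
          have e4 : 1 / (1 + t) + t / (1 + t) = 1 := by field_simp
          rw [e4, one_smul]
        rw [e]; exact hyX
      have h2 := hle _ h1
      rw [map_sub, map_smul, hy.1.2, smul_eq_mul] at h2
      have : t * g (σ • q) < 0 := mul_neg_of_pos_of_neg ht0 hgq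
      linarith
    obtain ⟨ρ, hρ, hρball⟩ := Metric.mem_nhds_iff.1 (hF0c.isOpen_compl.mem_nhds hout)
    obtain ⟨x, hxR, hxd, hxG⟩ := hlock Q hQ (min ρ t) (lt_min hρ ht0)
    have hxout : x - σ • q ∉ F0 A c u := by
      have : x - σ • q ∈ Metric.ball (y - t • (σ • q)) ρ := by
        rw [Metric.mem_ball, ← hQ1, dist_sub_right]
        exact hxd.trans_le (min_le_left _ _)
      exact hρball this
    have hex : ∃ s ∈ S, (2 : ℝ) • c u + (q - s) ∈ S ∧ x - σ • (q - s) ∈ F0 A c u := by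
      rcases hσ with h1 | h1
      · obtain ⟨s, a1, a2, a3⟩ := h.complete hS hu hxR hq
        exact ⟨s, a1, a2, by rwa [h1, one_smul]⟩
      · obtain ⟨s, a1, a2, a3⟩ := h.complete' hS hu hxR hq
        exact ⟨s, a1, a2, by rwa [h1, neg_one_smul, sub_neg_eq_add]⟩
    obtain ⟨s, hs, hss, hsF⟩ := hex
    refine ⟨s, hs, ?_, x, ?_, ?_⟩
    · rintro rfl
      rw [sub_zero] at hsF
      exact hxout hsF
    · have h1 : dist x (y + σ • q) ≤ dist x Q + dist Q (y + σ • q) := dist_triangle _ _ _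
      have h2 : dist Q (y + σ • q) = t * ‖q‖ := by
        rw [dist_eq_norm]
        have e : Q - (y + σ • q) = -(t • (σ • q)) := by
          have : Q = (y - t • (σ • q)) + σ • q := by rw [← hQ1]; abel
          rw [this]; abel
        rw [e, norm_neg, norm_smul, norm_smul, Real.norm_of_nonneg ht0.le]
        have : ‖σ‖ = 1 := by
          rcases hσ with h1 | h1 <;> rw [h1] <;> simp
        rw [this, one_mul]
      have h3 : dist x Q < t := hxd.trans_le (min_le_right _ _)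
      rw [h2] at h1
      linarith
    · have hvis : ∃ P ∈ X, dist (x - σ • (q - s)) P < min ρ t := by
        have hA : x - σ • (q - s) ∈ A := h.F0_sub_A hu hsF
        rcases hσ with h1 | h1
        · have e : x - σ • (q - s) = x - (q - s) := by rw [h1, one_smul]
          rw [e] at hA ⊢
          exact (hxG _ hss).2 hA
        · have e : x - σ • (q - s) = x + (q - s) := by rw [h1, neg_one_smul, sub_neg_eq_add]
          rw [e] at hA ⊢
          exact (hxG _ hss).1 hA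
      obtain ⟨P, hP, hPd⟩ := hvis
      exact ⟨P, hP, (hPd.trans_le (min_le_right _ _)).le⟩
  choose f hfS hf0 xx hxd P hPX hPd using hstep
  -- everything is bounded
  have ht : Tendsto (fun n : ℕ => 1 / ((n : ℝ) + 2)) atTop (𝓝 0) := by
    have h1 := tendsto_one_div_add_atTop_nhds_zero_nat (𝕜 := ℝ)
    have h2 := h1.comp (tendsto_add_atTop_nat 1)
    refine h2.congr fun n => ?_
    simp only [Function.comp]
    push_cast
    congr 1; ring
  have hxlim : Tendsto xx atTop (𝓝 (y + σ • q)) := by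
    rw [tendsto_iff_dist_tendsto_zero]
    refine squeeze_zero (fun n => dist_nonneg) hxd ?_
    have := ht.mul_const (1 + ‖q‖)
    rwa [zero_mul] at this
  have hXcomp : IsCompact X := (h.isCompact_F0 hu).of_isClosed_subset hXcl hXF
  obtain ⟨P₀, hP₀, φ, hφ, hPlim⟩ := hXcomp.tendsto_subseq hPX
  have hxlim' := hxlim.comp hφ.tendsto_atTop
  have ht' := ht.comp hφ.tendsto_atTop
  have hland : Tendsto (fun n => xx (φ n) - σ • (q - f (φ n))) atTop (𝓝 P₀) := by
    have h1 : Tendsto (fun n => dist (xx (φ n) - σ • (q - f (φ n))) (P (φ n))) atTop (𝓝 0) :=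
      squeeze_zero (fun n => dist_nonneg) (fun n => hPd _) ht'
    exact (tendsto_iff_of_dist h1).2 hPlim
  have hσσ : σ * σ = 1 := by rcases hσ with h1 | h1 <;> rw [h1] <;> norm_num
  have hflim : Tendsto (fun n => f (φ n)) atTop (𝓝 (σ • (P₀ - y))) := by
    have h1 : Tendsto (fun n => σ • ((xx (φ n) - σ • (q - f (φ n))) - xx (φ n) + σ • q)) atTop
        (𝓝 (σ • (P₀ - (y + σ • q) + σ • q))) :=
      ((hland.sub hxlim').add_const _).const_smul σ
    have e1 : P₀ - (y + σ • q) + σ • q = P₀ - y := by abel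
    rw [e1] at h1
    refine h1.congr fun n => ?_
    have e2 : (xx (φ n) - σ • (q - f (φ n))) - xx (φ n) + σ • q = σ • f (φ n) := by
      rw [smul_sub]; abel
    rw [e2, smul_smul, hσσ, one_smul]
  set s : V := σ • (P₀ - y) with hs
  have hsS : s ∈ S := hS.closed.mem_of_tendsto hflim (Eventually.of_forall fun n => hfS _)
  have hs0 : s ≠ 0 := by
    have hrn : ∀ n, r ≤ ‖f (φ n)‖ := by
      intro n
      by_contra hcon
      push Not at hcon
      exact hf0 _ (hiso _ (hfS _) hcon)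
    have := ge_of_tendsto hflim.norm (Eventually.of_forall hrn)
    intro h0
    rw [h0, norm_zero] at this
    linarith
  have hP0 : P₀ = y + σ • s := by
    rw [hs, smul_smul, hσσ, one_smul]; abel
  have hpair : ∃ w ∈ Φ, w (c u) = 0 ∧ w y = 1 ∧ w (y + σ • s) = -1 := by
    rw [hP0] at hP₀
    rcases hσ with h1 | h1
    · rw [h1, one_smul] at hP₀ ⊢
      exact h.pair_of_disp hS.toTP hu (hXF hyX) hsS hs0 (hXF hP₀)
    · rw [h1, neg_one_smul, ← sub_eq_add_neg] at hP₀ ⊢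
      exact h.pair_of_disp' hS.toTP hu (hXF hyX) hsS hs0 (hXF hP₀)
  obtain ⟨w, hw, hwc, hwy, hws⟩ := hpair
  refine ⟨w, hw, ?_⟩
  obtain ⟨-, ρ, hρ, hball⟩ := hy
  refine h.match_of_pair hS.toTP hu hXF hXc (L := L) (fun a ha b hb hab => ?_)
    (g := g) (β := β) (y := y) (s := σ • s) ⟨hyX, hyβ⟩ ⟨ρ, hρ, fun d hd hgd hdn => ?_⟩ hL
    (by rw [← hP0]; exact hP₀) hw hwc hwy hws
  · refine hext a ha b hb (1 / 2) (by norm_num) (by norm_num) ?_
    have : (1 - 1 / 2 : ℝ) = 1 / 2 := by norm_num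
    rwa [this]
  · exact (hball d ⟨hd, hgd⟩ hdn).1

end Poly

end Lock

end Pool.Agent.Lib_MP_5ddbb8_an
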