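import Mathlib
import Pool.Agent.Lib_MP_5ddbb8_an.Lock3

/-!
An unlocked facet of a locked face is crossed; walking down through unmatched faces.
-/

set_option linter.unusedSectionVars false
set_option linter.unusedSimpArgs false
set_option linter.unusedVariables false

open scoped Pointwise Topology
open Module Set Filter

namespace Pool.Agent.Lib_MP_5ddbb8_an

section Lock

variable {V : Type*} [NormedAddCommGroup V] [NormedSpace ℝ V] [FiniteDimensional ℝ V]

lemma ri_add {X : Set V} {L : Submodule ℝ V} {y e : V} {ρ : ℝ}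
    (hball : ∀ d ∈ L, ‖d‖ < ρ → y + d ∈ X) (he : e ∈ L) (hen : ‖e‖ < ρ) : y + e ∈ ri X L := by
  refine ⟨hball e he hen, ρ - ‖e‖, by linarith, fun d hd hdn => ?_⟩
  rw [add_assoc]
  refine hball _ (L.add_mem he hd) ((norm_add_le _ _).trans_lt (by linarith))

namespace Poly

variable {A : Set V} {Φ : Set (Dual ℝ V)} {c : Dual ℝ V → V}

/-- limits of visible displacements at a point of a locked face -/
lemma limit_disp (h : Poly A Φ c) {S : Set V} (hS : TP A S) {u : Dual ℝ V} (hu : u ∈ Φ)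
    {X : Set V} {L : Submodule ℝ V} (hXcl : IsClosed X)
    (hlock : Locked A S Φ c u X L) {y : V} (hy : y ∈ ri X L) {K : Set V} {η : ℝ} {y₀ : V}
    (hyy : dist y y₀ < η)
    (hbad : ∀ x ∈ R0 Φ c u, dist x y₀ < η → ¬ Good A S ((2 : ℝ) • c u) K η x) :
    ∃ σ : ℝ, (σ = 1 ∨ σ = -1) ∧ ∃ d : V, (2 : ℝ) • c u + σ • d ∈ S ∧ y + d ∈ X ∧
      ∀ P ∈ K, η ≤ dist (y + d) P := by
  have hstep : ∀ n : ℕ, ∃ (σ : ℝ) (d x : V), (σ = 1 ∨ σ = -1) ∧ (2 : ℝ) • c u + σ • d ∈ S ∧
      x + d ∈ A ∧ dist x y ≤ 1 / ((n : ℝ) + 1) ∧ (∃ P ∈ X, dist (x + d) P ≤ 1 / ((n : ℝ) + 1)) ∧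
      ∀ P ∈ K, η ≤ dist (x + d) P := by
    intro n
    have hδ : 0 < min (1 / ((n : ℝ) + 1)) (η - dist y y₀) := lt_min (by positivity) (by linarith)
    obtain ⟨x, hxR, hxd, hxG⟩ := hlock y hy _ hδ
    have h1 : dist x y₀ < η := by
      have := dist_triangle x y y₀
      have := hxd.trans_le (min_le_right _ _)
      linarith
    have h2 := hbad x hxR h1
    simp only [Good, not_forall] at h2
    obtain ⟨q, hq, h3⟩ := h2
    rw [not_and_or] at h3
    rcases h3 with h3 | h3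
    · rw [Classical.not_imp] at h3
      obtain ⟨h4, h5⟩ := h3
      push Not at h5
      obtain ⟨P, hP, hPd⟩ := (hxG q hq).1 h4
      exact ⟨1, q, x, Or.inl rfl, by rwa [one_smul], h4, (hxd.trans_le (min_le_left _ _)).le,
        ⟨P, hP, (hPd.trans_le (min_le_left _ _)).le⟩, h5⟩
    · rw [Classical.not_imp] at h3
      obtain ⟨h4, h5⟩ := h3
      push Not at h5
      obtain ⟨P, hP, hPd⟩ := (hxG q hq).2 h4
      rw [sub_eq_add_neg] at h4 hPd
      refine ⟨-1, -q, x, Or.inr rfl, by rwa [neg_one_smul, neg_neg], h4,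
        (hxd.trans_le (min_le_left _ _)).le, ⟨P, hP, (hPd.trans_le (min_le_left _ _)).le⟩, ?_⟩
      intro P hP
      rw [← sub_eq_add_neg]
      exact h5 P hP
  choose σ d x hσ hS' hA hxy hX hK using hstep
  choose P hP hPd using hX
  obtain ⟨R, hR⟩ := h.comp.isBounded.subset_closedBall 0
  have hn1 : ∀ n : ℕ, 1 / ((n : ℝ) + 1) ≤ 1 := fun n => by
    rw [div_le_one (by positivity)]
    have : (0 : ℝ) ≤ n := Nat.cast_nonneg n
    linarith
  have hbd : ∀ n, (σ n, d n) ∈ ({1, -1} : Set ℝ) ×ˢ Metric.closedBall (0 : V) (R + (‖y‖ + 1)) := by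
    intro n
    refine ⟨by simpa using hσ n, ?_⟩
    have h1 := hR (hA n)
    rw [mem_closedBall_zero_iff] at h1
    show d n ∈ _
    rw [mem_closedBall_zero_iff]
    have h2 : ‖x n‖ ≤ ‖y‖ + 1 := by
      have h3 := hxy n
      rw [dist_eq_norm] at h3
      have h4 : ‖x n‖ ≤ ‖y‖ + ‖x n - y‖ := by
        have := norm_add_le y (x n - y)
        rwa [add_sub_cancel] at this
      linarith [hn1 n]
    have h5 : ‖d n‖ ≤ ‖x n + d n‖ + ‖x n‖ := by
      have := norm_sub_le (x n + d n) (x n)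
      rwa [add_sub_cancel_left] at this
    linarith
  have hcomp : IsCompact (({1, -1} : Set ℝ) ×ˢ Metric.closedBall (0 : V) (R + (‖y‖ + 1))) :=
    (Set.toFinite _).isCompact.prod (isCompact_closedBall _ _)
  obtain ⟨⟨σ₀, d₀⟩, hmem, φ, hφ, hlim⟩ := hcomp.tendsto_subseq hbd
  have hn : Tendsto (fun n => 1 / (((φ n : ℕ) : ℝ) + 1)) atTop (𝓝 0) :=
    tendsto_one_div_add_atTop_nhds_zero_nat.comp hφ.tendsto_atTop
  have hσlim : Tendsto (fun n => σ (φ n)) atTop (𝓝 σ₀) :=
    (continuous_fst.tendsto _).comp hlim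
  have hdlim : Tendsto (fun n => d (φ n)) atTop (𝓝 d₀) :=
    (continuous_snd.tendsto _).comp hlim
  have hxlim : Tendsto (fun n => x (φ n)) atTop (𝓝 y) := by
    rw [tendsto_iff_dist_tendsto_zero]
    exact squeeze_zero (fun n => dist_nonneg) (fun n => hxy _) hn
  have hland : Tendsto (fun n => x (φ n) + d (φ n)) atTop (𝓝 (y + d₀)) := hxlim.add hdlim
  refine ⟨σ₀, by simpa using hmem.1, d₀, ?_, ?_, ?_⟩
  · exact hS.closed.mem_of_tendsto ((hσlim.smul hdlim).const_add _)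
      (Eventually.of_forall fun n => hS' _)
  · have h1 : Tendsto (fun n => P (φ n)) atTop (𝓝 (y + d₀)) := by
      have h2 : Tendsto (fun n => dist (x (φ n) + d (φ n)) (P (φ n))) atTop (𝓝 0) :=
        squeeze_zero (fun n => dist_nonneg) (fun n => hPd _) hn
      exact (tendsto_iff_of_dist h2).1 hland
    exact hXcl.mem_of_tendsto h1 (Eventually.of_forall fun n => hP _)
  · intro P' hP'
    exact ge_of_tendsto (hland.dist tendsto_const_nhds) (Eventually.of_forall fun n => hK _ P' hP')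

/-- an unlocked facet of a locked face is crossed -/
lemma exists_crossing (h : Poly A Φ c) {S : Set V} (hS : TP A S) {u : Dual ℝ V} (hu : u ∈ Φ)
    {X : Set V} {L : Submodule ℝ V} (hXF : X ⊆ F0 A c u) (hXc : Convex ℝ X) (hXcl : IsClosed X)
    (hL : ∀ x ∈ X, ∀ x' ∈ X, x - x' ∈ L)
    {g : Dual ℝ V} {β : ℝ} (hle : ∀ x ∈ X, g x ≤ β) {x₀ : V} (hx₀ : x₀ ∈ ri X L)
    (hx₀β : g x₀ < β) (hlock : Locked A S Φ c u X L)
    (hk : ¬ Locked A S Φ c u (cut X g β) (L ⊓ LinearMap.ker g)) :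
    ∃ y ∈ ri (cut X g β) (L ⊓ LinearMap.ker g), ∃ q, (2 : ℝ) • c u + q ∈ S ∧
      (y + q ∈ ri X L ∨ y - q ∈ ri X L) := by
  simp only [Locked, not_forall] at hk
  obtain ⟨y₀, hy₀, η, hη, hbad'⟩ := hk
  have hbad : ∀ x ∈ R0 Φ c u, dist x y₀ < η →
      ¬ Good A S ((2 : ℝ) • c u) (cut X g β) η x := fun x hx hxd hG =>
    hbad' ⟨x, hx, hxd, hG⟩
  obtain ⟨hy₀k, ρ, hρ, hball⟩ := hy₀
  have hy₀X : y₀ ∈ X := hy₀k.1
  have hy₀β : g y₀ = β := hy₀k.2
  have hXcomp : IsCompact X := (h.isCompact_F0 hu).of_isClosed_subset hXcl hXF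
  -- the far part of `X` is strictly below
  obtain ⟨κ, hκ, hfar⟩ : ∃ κ > 0, ∀ P ∈ X, (∀ P' ∈ cut X g β, η ≤ dist P P') → g P ≤ β - κ := by
    set Xf : Set V := X ∩ ⋂ P' ∈ cut X g β, {P | η ≤ dist P P'} with hXf
    have hcl : IsClosed (⋂ P' ∈ cut X g β, {P : V | η ≤ dist P P'}) :=
      isClosed_biInter fun P' _ => isClosed_le continuous_const (continuous_id.dist continuous_const)
    have hXfc : IsCompact Xf := hXcomp.inter_right hcl
    have hmem : ∀ P, P ∈ X → (∀ P' ∈ cut X g β, η ≤ dist P P') → P ∈ Xf := fun P h1 h2 =>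
      ⟨h1, by simpa using h2⟩
    by_cases hne : Xf.Nonempty
    · obtain ⟨P₁, hP₁, hmax⟩ := hXfc.exists_isMaxOn hne
        (g.continuous_of_finiteDimensional.continuousOn)
      have hlt : g P₁ < β := by
        refine lt_of_le_of_ne (hle _ hP₁.1) fun h1 => ?_
        have h2 : ∀ P' ∈ cut X g β, η ≤ dist P₁ P' := by
          have := hP₁.2
          simpa using this
        have := h2 P₁ ⟨hP₁.1, h1⟩
        rw [dist_self] at this
        linarith
      refine ⟨β - g P₁, by linarith, fun P h1 h2 => ?_⟩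
      have := hmax (hmem P h1 h2)
      simp only [mem_ofPred_eq] at this
      linarith
    · refine ⟨1, one_pos, fun P h1 h2 => ?_⟩
      exact absurd ⟨P, hmem P h1 h2⟩ hne
  set H : ℝ := β - g x₀ with hH
  have hH0 : 0 < H := by rw [hH]; linarith
  obtain ⟨R, hR⟩ := hXcomp.isBounded.subset_closedBall 0
  have hR0 : 0 ≤ R := by
    have h1 := hR hy₀X
    rw [mem_closedBall_zero_iff] at h1
    exact (norm_nonneg _).trans h1
  -- a point of the relative interior close to the height of `k`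
  set τ : ℝ := min 1 (κ / (2 * H)) with hτ
  have hτ0 : 0 < τ := lt_min one_pos (by positivity)
  have hx₁ : y₀ + τ • (x₀ - y₀) ∈ ri X L := ri_combo hXc hy₀X hx₀ hτ0 (min_le_left _ _)
  set x₁ : V := y₀ + τ • (x₀ - y₀) with hx₁def
  have hgx₁ : β - κ / 2 ≤ g x₁ := by
    rw [hx₁def, map_add, map_smul, map_sub, hy₀β, smul_eq_mul]
    have h1 : τ * H ≤ κ / 2 := by
      calc τ * H ≤ (κ / (2 * H)) * H := mul_le_mul_of_nonneg_right (min_le_right _ _) hH0.le
        _ = κ / 2 := by field_simp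
    have h2 : g x₀ - β = -H := by rw [hH]; ring
    rw [h2]; linarith
  set M : ℝ := ‖x₀ - y₀‖ + 2 * H / κ * (2 * R) + 2 * H / κ + 1 with hM
  have hM1 : 1 ≤ M := by
    rw [hM]
    have : 0 ≤ ‖x₀ - y₀‖ := norm_nonneg _
    have : 0 ≤ 2 * H / κ * (2 * R) := by positivity
    have : 0 ≤ 2 * H / κ := by positivity
    linarith
  set m : ℝ := min 1 (min η ρ) with hm
  have hm0 : 0 < m := lt_min one_pos (lt_min hη hρ)
  set ε : ℝ := m / (2 * M) with hε
  have hM0 : 0 < M := by linarith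
  have hε0 : 0 < ε := by positivity
  have hεM : ε * M = m / 2 := by rw [hε]; field_simp
  have hm1 : m ≤ 1 := min_le_left _ _
  have hmη : m ≤ η := (min_le_right _ _).trans (min_le_left _ _)
  have hmρ : m ≤ ρ := (min_le_right _ _).trans (min_le_right _ _)
  have hεle : ε ≤ 1 := by
    have : ε * 1 ≤ ε * M := mul_le_mul_of_nonneg_left hM1 hε0.le
    linarith
  have hy' : y₀ + ε • (x₀ - y₀) ∈ ri X L := ri_combo hXc hy₀X hx₀ hε0 hεle
  have hεn : ‖ε • (x₀ - y₀)‖ = ε * ‖x₀ - y₀‖ := by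
    rw [norm_smul, Real.norm_of_nonneg hε0.le]
  have hsplit : ε * ‖x₀ - y₀‖ + ε * (2 * H / κ) * (2 * R) + ε * (2 * H / κ) + ε = m / 2 := by
    rw [← hεM, hM]; ring
  have hp1 : 0 ≤ ε * ‖x₀ - y₀‖ := by positivity
  have hp2 : 0 ≤ ε * (2 * H / κ) * (2 * R) := by positivity
  have hp3 : 0 ≤ ε * (2 * H / κ) := by positivity
  obtain ⟨σ, hσ, d, hd, hdX, hdK⟩ := h.limit_disp hS hu hXcl hlock hy'
    (K := cut X g β) (η := η) (y₀ := y₀) (by
      rw [dist_eq_norm, add_sub_cancel_left, hεn]; linarith) hbad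
  set Q : V := y₀ + ε • (x₀ - y₀) + d with hQ
  have hgQ : g Q ≤ β - κ := hfar Q hdX hdK
  have hden : κ / 2 ≤ g x₁ - g Q := by linarith
  have hden0 : 0 < g x₁ - g Q := by linarith
  set t : ℝ := ε * H / (g x₁ - g Q) with ht
  have ht0 : 0 < t := by positivity
  have htle : t ≤ ε * (2 * H / κ) := by
    rw [ht, div_le_iff₀ hden0]
    calc ε * H = ε * (2 * H / κ) * (κ / 2) := by field_simp
      _ ≤ ε * (2 * H / κ) * (g x₁ - g Q) := by gcongr
  have hZ : Q + t • (x₁ - Q) ∈ ri X L := ri_combo hXc hdX hx₁ ht0 (by linarith)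
  set e : V := ε • (x₀ - y₀) + t • (x₁ - Q) with he
  have heL : e ∈ L := L.add_mem (L.smul_mem _ (hL _ hx₀.1 _ hy₀X))
    (L.smul_mem _ (hL _ hx₁.1 _ hdX))
  have hge : g e = ε * (g x₀ - β) + t * (g x₁ - g Q) := by
    rw [he, map_add, map_smul, map_smul, map_sub, map_sub, hy₀β, smul_eq_mul, smul_eq_mul]
  have hge0 : g e = 0 := by
    rw [hge, ht, div_mul_cancel₀ _ hden0.ne', hH]; ring
  have hen : ‖e‖ < ρ := by
    have h1 : ‖x₁ - Q‖ ≤ 2 * R := by
      have h2 := hR hx₁.1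
      have h3 := hR hdX
      rw [mem_closedBall_zero_iff] at h2 h3
      calc ‖x₁ - Q‖ ≤ ‖x₁‖ + ‖Q‖ := norm_sub_le _ _
        _ ≤ 2 * R := by linarith
    have h4 : ‖t • (x₁ - Q)‖ ≤ ε * (2 * H / κ) * (2 * R) := by
      rw [norm_smul, Real.norm_of_nonneg ht0.le]
      exact mul_le_mul htle h1 (norm_nonneg _) hp3
    calc ‖e‖ ≤ ‖ε • (x₀ - y₀)‖ + ‖t • (x₁ - Q)‖ := norm_add_le _ _
      _ ≤ ε * ‖x₀ - y₀‖ + ε * (2 * H / κ) * (2 * R) := by rw [hεn]; linarith
      _ < ρ := by linarith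
  have hyri : y₀ + e ∈ ri (cut X g β) (L ⊓ LinearMap.ker g) :=
    ri_add hball ⟨heL, hge0⟩ hen
  have hZe : y₀ + e + d = Q + t • (x₁ - Q) := by
    rw [he, hQ]; abel
  refine ⟨y₀ + e, hyri, σ • d, hd, ?_⟩
  rcases hσ with h1 | h1
  · left; rw [h1, one_smul, hZe]; exact hZ
  · right; rw [h1, neg_one_smul, sub_neg_eq_add, hZe]; exact hZ

/-- faces reached from the centred facet by walking down through unmatched faces -/
inductive Reach (A : Set V) (Φ : Set (Dual ℝ V)) (c : Dual ℝ V → V) (u : Dual ℝ V) :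
    Set V → Submodule ℝ V → Prop
  | base : Reach A Φ c u (F0 A c u) (LinearMap.ker u)
  | step {X : Set V} {L : Submodule ℝ V} (hX : Reach A Φ c u X L) (g : Dual ℝ V) (β : ℝ)
      (hle : ∀ x ∈ X, g x ≤ β) (hlt : ∃ x ∈ X, g x < β) (hne : (ri X L).Nonempty)
      (hun : ∀ w ∈ Φ, ∃ x ∈ cut X g β, x - (2 : ℝ) • c w ∉ X) :
      Reach A Φ c u (cut X g β) (L ⊓ LinearMap.ker g)

lemma Reach.props (h : Poly A Φ c) {S : Set V} (hS : TPS A S) {u : Dual ℝ V} (hu : u ∈ Φ)
    {X : Set V} {L : Submodule ℝ V} (hX : Reach A Φ c u X L) :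
    X ⊆ F0 A c u ∧ Convex ℝ X ∧ IsClosed X ∧
    (∀ a ∈ F0 A c u, ∀ b ∈ F0 A c u, ∀ t : ℝ, 0 < t → t < 1 → (1 - t) • a + t • b ∈ X → a ∈ X) ∧
    (∀ x ∈ X, ∀ x' ∈ X, x - x' ∈ L) ∧ Locked A S Φ c u X L := by
  induction hX with
  | base =>
    refine ⟨Subset.rfl, ?_, h.isClosed_F0 u, fun a ha b hb t _ _ _ => ha, ?_,
      h.locked_F0 hS.toTP hu _⟩
    · intro x hx y hy s t hs ht hst
      refine ⟨by rw [map_add, map_smul, map_smul, hx.1, hy.1, smul_zero, smul_zero, add_zero], ?_⟩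
      have := h.conv hx.2 hy.2 hs ht hst
      have e : s • (c u + x) + t • (c u + y) = c u + (s • x + t • y) := by
        rw [smul_add, smul_add]
        have : s • c u + t • c u = c u := by rw [← add_smul, hst, one_smul]
        calc s • c u + s • x + (t • c u + t • y) = (s • c u + t • c u) + (s • x + t • y) := by abel
          _ = _ := by rw [this]
      rwa [e] at this
    · intro x hx x' hx'
      rw [LinearMap.mem_ker, map_sub, hx.1, hx'.1, sub_zero]
  | @step X L hX g β hle hlt hne hun ih =>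
    obtain ⟨h1, h2, h3, h4, h5, h6⟩ := ih
    obtain ⟨xl, hxl, hxlβ⟩ := hlt
    obtain ⟨xr, hxr⟩ := hne
    have hx₀ : xl + (1 / 2 : ℝ) • (xr - xl) ∈ ri X L :=
      ri_combo h2 hxl hxr (by norm_num) (by norm_num)
    have hx₀β : g (xl + (1 / 2 : ℝ) • (xr - xl)) < β := by
      rw [map_add, map_smul, map_sub, smul_eq_mul]
      have := hle _ hxr.1
      linarith
    refine ⟨fun x hx => h1 hx.1, ?_, ?_, ?_, ?_, ?_⟩
    · intro x hx y hy s t hs ht hst
      refine ⟨h2 hx.1 hy.1 hs ht hst, ?_⟩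
      rw [map_add, map_smul, map_smul, hx.2, hy.2, smul_eq_mul, smul_eq_mul, ← add_mul, hst,
        one_mul]
    · exact h3.inter (isClosed_eq g.continuous_of_finiteDimensional continuous_const)
    · intro a ha b hb t ht0 ht1 hab
      have ha' := h4 a ha b hb t ht0 ht1 hab.1
      have hb' := h4 b hb a ha (1 - t) (by linarith) (by linarith) (by
        have e : (1 - (1 - t)) • b + (1 - t) • a = (1 - t) • a + t • b := by
          rw [sub_sub_cancel]; abel
        rw [e]; exact hab.1)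
      refine ⟨ha', le_antisymm (hle _ ha') ?_⟩
      have h7 := hab.2
      rw [map_add, map_smul, map_smul, smul_eq_mul, smul_eq_mul] at h7
      have h8 := hle _ hb'
      by_contra hcon
      push Not at hcon
      have h9 : (1 - t) * g a < (1 - t) * β := mul_lt_mul_of_pos_left hcon (by linarith)
      have h10 : t * g b ≤ t * β := mul_le_mul_of_nonneg_left h8 ht0.le
      linarith
    · intro x hx x' hx'
      exact ⟨h5 _ hx.1 _ hx'.1, by
        show g (x - x') = 0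
        rw [map_sub, hx.2, hx'.2, sub_self]⟩
    · by_contra hk
      obtain ⟨y, hy, q, hq, hcross⟩ := h.exists_crossing hS.toTP hu h1 h2 h3 h5 hle hx₀ hx₀β h6 hk
      obtain ⟨w, hw, hmatch⟩ := h.matched hS hu h1 h2 h3 h4 h5 hle hx₀.1 hx₀β h6 hy hq hcross
      obtain ⟨x, hx, hxn⟩ := hun w hw
      exact hxn (hmatch x hx)

/-- the facet of `u` is rigid in the general sense -/
def RigC (A : Set V) (Φ : Set (Dual ℝ V)) (c : Dual ℝ V → V) (u : Dual ℝ V) : Prop :=
  ∃ (X : Set V) (L : Submodule ℝ V), Reach A Φ c u X L ∧ (ri X L).Nonempty ∧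
    ∃ y ∈ X, ∀ τ : V, τ ≠ 0 → y - τ ∈ X →
      ∃ x ∈ F0 A c u, x + τ ∈ interior A ∧ x + τ ∉ F0 A c u

/-- near a rigid facet vector the support is trivial -/
lemma isolated' (h : Poly A Φ c) {S : Set V} (hS : TPS A S) {u : Dual ℝ V} (hu : u ∈ Φ)
    (hr : RigC A Φ c u) {s : V} (hs : s ∈ S)
    (hsi : (1 / 2 : ℝ) • (s - (2 : ℝ) • c u) ∈ interior A) : s = (2 : ℝ) • c u := by
  set a := (2 : ℝ) • c u with ha
  obtain ⟨X, L, hreach, ⟨x₀, hx₀⟩, y, hy, hrig⟩ := hr
  obtain ⟨hXF, hXc, hXcl, hext, hL, hlock⟩ := hreach.props h hS hu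
  -- windows with small support
  have key : ∀ η : ℝ, 0 < η → ∃ z1 : V, ∀ s ∈ S, s - (a + z1) ∈ A → dist s a < η := by
    intro η hη
    by_contra hcon
    push Not at hcon
    have hstep : ∀ n : ℕ, ∃ (x d : V), dist x y ≤ (1 / ((n : ℝ) + 1)) * (1 + ‖x₀ - y‖) ∧
        a + d ∈ S ∧ η ≤ ‖d‖ ∧ x - d ∈ A ∧ ∃ P ∈ X, dist (x - d) P ≤ 1 / ((n : ℝ) + 1) := by
      intro n
      set t : ℝ := 1 / ((n : ℝ) + 1) with ht
      have ht0 : 0 < t := by positivity
      have ht1 : t ≤ 1 := by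
        rw [ht, div_le_one (by positivity)]
        have : (0 : ℝ) ≤ n := Nat.cast_nonneg n
        linarith
      have hyt : y + t • (x₀ - y) ∈ ri X L := ri_combo hXc hy hx₀ ht0 ht1
      obtain ⟨x, hxR, hxd, hxG⟩ := hlock _ hyt t ht0
      obtain ⟨s', hs', hsA, hfar⟩ := hcon x
      have e1 : a + (s' - a) = s' := by abel
      have hxA : x - (s' - a) ∈ A := by
        have := h.neg_mem hsA
        have e : -(s' - (a + x)) = x - (s' - a) := by abel
        rwa [e] at this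
      obtain ⟨P, hP, hPd⟩ := (hxG (s' - a) (by rw [← ha, e1]; exact hs')).2 hxA
      refine ⟨x, s' - a, ?_, by rw [e1]; exact hs', by rwa [← dist_eq_norm], hxA, P, hP, hPd.le⟩
      have h1 : dist x y ≤ dist x (y + t • (x₀ - y)) + dist (y + t • (x₀ - y)) y :=
        dist_triangle _ _ _
      have h2 : dist (y + t • (x₀ - y)) y = t * ‖x₀ - y‖ := by
        rw [dist_eq_norm, add_sub_cancel_left, norm_smul, Real.norm_of_nonneg ht0.le]
      rw [h2] at h1
      linarith
    choose x d hxy hdS hdη hdA P hP hPd using hstep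
    have hn0 := tendsto_one_div_add_atTop_nhds_zero_nat (𝕜 := ℝ)
    have hxlim : Tendsto x atTop (𝓝 y) := by
      rw [tendsto_iff_dist_tendsto_zero]
      refine squeeze_zero (fun n => dist_nonneg) hxy ?_
      have := hn0.mul_const (1 + ‖x₀ - y‖)
      rwa [zero_mul] at this
    have hXcomp : IsCompact X := (h.isCompact_F0 hu).of_isClosed_subset hXcl hXF
    obtain ⟨P₀, hP₀, φ, hφ, hPlim⟩ := hXcomp.tendsto_subseq hP
    have hland : Tendsto (fun n => x (φ n) - d (φ n)) atTop (𝓝 P₀) := by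
      have h1 : Tendsto (fun n => dist (x (φ n) - d (φ n)) (P (φ n))) atTop (𝓝 0) :=
        squeeze_zero (fun n => dist_nonneg) (fun n => hPd _) (hn0.comp hφ.tendsto_atTop)
      exact (tendsto_iff_of_dist h1).2 hPlim
    have hdlim : Tendsto (fun n => d (φ n)) atTop (𝓝 (y - P₀)) := by
      have h1 := (hxlim.comp hφ.tendsto_atTop).sub hland
      refine h1.congr fun n => ?_
      simp only [Function.comp]
      abel
    set τ : V := y - P₀ with hτ
    have hτS : a + τ ∈ S := hS.closed.mem_of_tendsto (hdlim.const_add a)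
      (Eventually.of_forall fun n => hdS _)
    have hτη : η ≤ ‖τ‖ := ge_of_tendsto hdlim.norm (Eventually.of_forall fun n => hdη _)
    have hτ0 : τ ≠ 0 := by
      intro h0
      rw [h0, norm_zero] at hτη
      linarith
    obtain ⟨x', hx', hxi, hxn⟩ := hrig τ hτ0 (by
      have e : y - τ = P₀ := by rw [hτ]; abel
      rw [e]; exact hP₀)
    have hcont : Continuous (fun θ : ℝ => (1 - θ) • x' + τ) := by fun_prop
    have hev1 : ∀ᶠ θ in 𝓝 (0 : ℝ), (1 - θ) • x' + τ ∈ interior A := by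
      refine hcont.continuousAt.eventually_mem (isOpen_interior.mem_nhds ?_)
      simpa using hxi
    have hev2 : ∀ᶠ θ in 𝓝 (0 : ℝ), (1 - θ) • x' + τ ∉ F0 A c u := by
      refine hcont.continuousAt.eventually_mem ((h.isClosed_F0 u).isOpen_compl.mem_nhds ?_)
      simpa using hxn
    obtain ⟨θ, ⟨hθ1, hθ2⟩, hθ⟩ := (((hev1.and hev2).filter_mono
      (nhdsWithin_le_nhds (s := Set.Ioi 0))).and
      (Ioo_mem_nhdsGT (one_pos (α := ℝ)))).exists
    exact hθ2 (h.land_fwd hS.toTP hu (h.combo_R0 hu hx' hθ.1 hθ.2.le) hτS (interior_subset hθ1))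
  set x := (1 / 2 : ℝ) • (s - a) with hx
  -- translates of small balls stay in the window
  have hxneg : -x ∈ interior A := by
    rw [h.mem_interior_iff] at hsi ⊢
    intro v hv
    have := hsi (-v) (h.neg v hv)
    rw [LinearMap.neg_apply] at this
    rw [map_neg]; exact this
  obtain ⟨η₀, hη₀, hball⟩ := Metric.mem_nhds_iff.1 (isOpen_interior.mem_nhds hxneg)
  have hall : ∀ η : ℝ, 0 < η → η ≤ η₀ → dist s a ≤ η := by
    intro η hη hηη
    obtain ⟨z1, hz1⟩ := key η hη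
    have h2 : ∀ x', x' - (a + z1) ∈ A → x' ∈ Metric.ball a η → x' - (a + x) ∈ A := by
      intro x' _ hx'
      refine interior_subset (hball ?_)
      rw [Metric.mem_ball, dist_eq_norm] at hx' ⊢
      have e : x' - (a + x) - -x = x' - a := by abel
      rw [e]; exact hx'.trans_le hηη
    have h3 := hS.tp (a + z1) (a + x) (Metric.ball a η) Metric.isOpen_ball
      (fun s hs hsA => hz1 s hs hsA) h2 s hs (by
        have e : s - (a + x) = x := by
          have e1 : s - a = x + x := by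
            rw [hx, ← add_smul]; norm_num
          have e2 : s - (a + x) = (s - a) - x := by abel
          rw [e2, e1]; abel
        rw [e]; exact hsi)
    exact Metric.mem_closedBall.1 (Metric.closure_ball_subset_closedBall h3)
  have h0 : dist s a ≤ 0 := by
    refine le_of_forall_pos_le_add fun ε hε => ?_
    have := hall (min η₀ ε) (lt_min hη₀ hε) (min_le_left _ _)
    have := min_le_right η₀ ε
    linarith
  exact dist_le_zero.1 h0

end Poly

end Lock

end Pool.Agent.Lib_MP_5ddbb8_an
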