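import Mathlib
import Pool.Agent.Lib_MP_5ddbb8_an.Poly
import Pool.Agent.Lib_MP_5ddbb8_an.Lattice

/-!
A packing of a polytope by a group containing all facet vectors is a tiling.
-/

set_option linter.unusedSectionVars false
set_option linter.unusedSimpArgs false
set_option linter.unusedVariables false

open scoped Pointwise Topology ENNReal
open Module Set MeasureTheory Filter

namespace Pool.Agent.Lib_MP_5ddbb8_an

section PLattice

variable {V : Type*} [NormedAddCommGroup V] [NormedSpace ℝ V] [FiniteDimensional ℝ V]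
  [MeasurableSpace V] [BorelSpace V]
variable {μ : Measure V} [μ.IsAddHaarMeasure]

/-- the hypotheses on the group -/
structure PPack (A : Set V) (Φ : Set (Dual ℝ V)) (c : Dual ℝ V → V) (T : AddSubgroup V) :
    Prop where
  poly : Poly A Φ c
  facet : ∀ u ∈ Φ, (2 : ℝ) • c u ∈ T
  hard : ∀ t ∈ T, (1 / 2 : ℝ) • t ∈ interior A → t = 0

variable {A : Set V} {Φ : Set (Dual ℝ V)} {c : Dual ℝ V → V} {T : AddSubgroup V}

lemma PPack.ball (h : PPack A Φ c T) : ∃ r > 0, ∀ t ∈ T, ‖t‖ < r → t = 0 := by
  obtain ⟨r, hr, hrA⟩ := Metric.mem_nhds_iff.1 (isOpen_interior.mem_nhds (h.poly.zero_mem_interior))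
  refine ⟨r, hr, fun t ht htr => h.hard t ht (hrA ?_)⟩
  rw [mem_ball_zero_iff, norm_smul]
  have : ‖(1 / 2 : ℝ)‖ = 1 / 2 := by norm_num
  rw [this]
  have := norm_nonneg t
  linarith

lemma PPack.discrete (h : PPack A Φ c T) : DiscreteTopology T := by
  obtain ⟨r, hr, hr'⟩ := h.ball
  refine discreteTopology_of_isOpen_singleton_zero ?_
  have : ({0} : Set T) = (fun t : T => (t : V)) ⁻¹' Metric.ball 0 r := by
    ext t
    simp only [mem_singleton_iff, mem_preimage, mem_ball_zero_iff]
    constructor
    · rintro rfl; simpa using hr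
    · intro ht; exact Subtype.ext (hr' t t.2 ht)
  rw [this]
  exact Metric.isOpen_ball.preimage continuous_subtype_val

lemma PPack.countable (h : PPack A Φ c T) : Countable T := by
  have := h.discrete
  exact TopologicalSpace.separableSpace_iff_countable.1 inferInstance

lemma PPack.isClosed_cover (h : PPack A Φ c T) : IsClosed {x : V | ∃ t ∈ T, x - t ∈ A} := by
  have := h.discrete
  have h1 : IsClosed (T : Set V) := AddSubgroup.isClosed_of_discrete
  have h2 := h1.add_right_of_isCompact (h.poly.comp)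
  convert h2 using 1
  ext x
  constructor
  · rintro ⟨t, ht, hx⟩
    exact ⟨t, ht, x - t, hx, by simp⟩
  · rintro ⟨t, ht, a, ha, rfl⟩
    exact ⟨t, ht, by simpa using ha⟩

lemma half_ball_poly (hg : Poly A Φ c) {y : V} {u : Dual ℝ V} (hu : u ∈ Φ)
    (h1 : ∀ v ∈ Φ, v ≠ u → v y < 1)
    (h2 : ∀ v ∈ Φ, v ≠ u → v ((2 : ℝ) • c u - y) < 1) :
    ∀ᶠ x in 𝓝 y, x ∈ A ∨ x - (2 : ℝ) • c u ∈ A := by
  set a := (2 : ℝ) • c u with ha
  have hua : u a = 2 := by rw [ha, map_smul, hg.cen u hu]; norm_num
  have e1 : ∀ᶠ x in 𝓝 y, ∀ v ∈ Φ, v ≠ u → v x < 1 := by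
    rw [Filter.eventually_all_finite hg.fin]
    intro v hv
    by_cases hvu : v = u
    · exact Eventually.of_forall fun x h => absurd hvu h
    · have hc : Continuous v := v.continuous_of_finiteDimensional
      filter_upwards [hc.continuousAt.eventually (gt_mem_nhds (h1 v hv hvu))] with x hx _
      exact hx
  have e2 : ∀ᶠ x in 𝓝 y, ∀ v ∈ Φ, v ≠ u → v (a - x) < 1 := by
    rw [Filter.eventually_all_finite hg.fin]
    intro v hv
    by_cases hvu : v = u
    · exact Eventually.of_forall fun x h => absurd hvu h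
    · have hc : Continuous (fun x => v (a - x)) :=
        v.continuous_of_finiteDimensional.comp (by fun_prop)
      filter_upwards [hc.continuousAt.eventually (gt_mem_nhds (h2 v hv hvu))] with x hx _
      exact hx
  filter_upwards [e1, e2] with x h3 h4
  rcases le_or_gt (u x) 1 with h5 | h5
  · left
    rw [hg.mem_iff]
    intro v hv
    by_cases hvu : v = u
    · rw [hvu]; exact h5
    · exact (h3 v hv hvu).le
  · right
    rw [hg.mem_iff]
    intro v hv
    by_cases hvu : -v = u
    · have : v (x - a) = u (a - x) := by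
        rw [← hvu, LinearMap.neg_apply, ← map_neg]; simp
      rw [this, map_sub, hua]
      linarith
    · have := h4 (-v) (hg.neg v hv) hvu
      have e : v (x - a) = (-v) (a - x) := by
        rw [LinearMap.neg_apply, ← map_neg]; simp
      rw [e]; exact this.le

lemma PPack.cover (h : PPack A Φ c T) (x : V) : ∃ t ∈ T, x - t ∈ A := by
  by_contra hcon
  have hT := h.countable
  have hF : Countable (Φ) := (h.poly.fin).countable.to_subtype
  set U : Set V := {x : V | ∃ t ∈ T, x - t ∈ A} with hU
  have hUc : IsClosed U := h.isClosed_cover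
  -- the family of functionals to avoid
  let φ : (Φ) ⊕ ((T × (Φ) × (Φ)) ⊕ (T × (Φ) × (Φ))) → Dual ℝ V := fun k =>
    match k with
    | Sum.inl u => (u : Dual ℝ V)
    | Sum.inr (Sum.inl (t, u, v)) =>
        (1 + (v : Dual ℝ V) t) • (u : Dual ℝ V) - (1 + (u : Dual ℝ V) t) • (v : Dual ℝ V)
    | Sum.inr (Sum.inr (t, u, v)) =>
        ((v : Dual ℝ V) ((2 : ℝ) • c (u : Dual ℝ V) + t) - 1) • (u : Dual ℝ V)
          - (1 + (u : Dual ℝ V) t) • (v : Dual ℝ V)
  obtain ⟨p, hpO, hp⟩ := exists_generic φ hUc.isOpen_compl ⟨x, hcon⟩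
  let s : Set ℝ := {τ | τ • p ∈ U}
  have hsc : IsClosed s := hUc.preimage (by fun_prop)
  have h0s : (0 : ℝ) ∈ s := ⟨0, T.zero_mem, by simpa using h.poly.zero_mem⟩
  have hmain : Icc (0 : ℝ) 1 ⊆ s := by
    refine (hsc.inter isClosed_Icc).Icc_subset_of_forall_mem_nhdsWithin h0s ?_
    rintro τ ⟨⟨t, ht, htA⟩, hτ⟩
    have hcont : Continuous (fun τ : ℝ => τ • p - t) := by fun_prop
    refine nhdsWithin_le_nhds ?_
    by_cases hin : τ • p - t ∈ interior (A)
    · have := hcont.continuousAt.eventually_mem (isOpen_interior.mem_nhds hin)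
      filter_upwards [this] with τ' hτ'
      exact ⟨t, ht, interior_subset hτ'⟩
    · obtain ⟨u, hu, hux⟩ := h.poly.exists_of_boundary htA hin
      have hτ0 : τ ≠ 0 := by
        rintro rfl
        rw [zero_smul, zero_sub] at htA hux
        have h1 : (1 / 2 : ℝ) • t ∈ interior (A) := by
          have := h.poly.neg_mem htA
          rw [neg_neg] at this
          exact h.poly.smul_mem_interior this (by norm_num) (by norm_num)
        have h2 := h.hard t ht h1
        rw [h2] at hux
        simp at hux
      have hup : u p ≠ 0 := hp (Sum.inl ⟨u, hu⟩) (h.poly.ne_zero hu)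
      have hux' : τ * u p = 1 + u t := by
        rw [map_sub, map_smul, smul_eq_mul] at hux; linarith
      have c1 : ∀ v ∈ Φ, v ≠ u → v (τ • p - t) < 1 := by
        intro v hv hvu
        refine lt_of_le_of_ne (h.poly.le_one htA hv) fun hv1 => ?_
        have hvn : v ≠ -u := by
          rintro rfl
          rw [LinearMap.neg_apply, hux] at hv1
          norm_num at hv1
        have hv1' : τ * v p = 1 + v t := by
          rw [map_sub, map_smul, smul_eq_mul] at hv1; linarith
        have hk := hp (Sum.inr (Sum.inl (⟨t, ht⟩, ⟨u, hu⟩, ⟨v, hv⟩)))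
        simp only [φ] at hk
        have hne : (1 + v t) • u - (1 + u t) • v ≠ 0 := by
          intro h0
          have := h.poly.indep hu hv hvu hvn (α := 1 + v t) (β := -(1 + u t)) (by
            ext x
            have h4 := LinearMap.congr_fun h0 x
            simp only [LinearMap.add_apply, LinearMap.sub_apply, LinearMap.smul_apply,
              smul_eq_mul, LinearMap.zero_apply] at h4 ⊢
            linarith)
          have h3 : τ * u p = 0 := by rw [hux']; linarith [this.2]
          exact (mul_ne_zero hτ0 hup) h3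
        apply hk hne
        simp only [LinearMap.sub_apply, LinearMap.smul_apply, smul_eq_mul]
        rw [← hv1', ← hux']; ring
      have c2 : ∀ v ∈ Φ, v ≠ u → v ((2 : ℝ) • c u - (τ • p - t)) < 1 := by
        intro v hv hvu
        refine lt_of_le_of_ne (h.poly.le_one (h.poly.refl u hu _ htA hux) hv) fun hv1 => ?_
        have hvn : v ≠ -u := by
          rintro rfl
          rw [LinearMap.neg_apply, map_sub, hux, map_smul, h.poly.cen u hu] at hv1
          norm_num at hv1
        have hv1' : τ * v p = v ((2 : ℝ) • c u + t) - 1 := by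
          rw [map_sub, map_sub, map_smul (f := v) (c := τ), smul_eq_mul] at hv1
          rw [map_add]; linarith
        have hk := hp (Sum.inr (Sum.inr (⟨t, ht⟩, ⟨u, hu⟩, ⟨v, hv⟩)))
        simp only [φ] at hk
        have hne : (v ((2 : ℝ) • c u + t) - 1) • u - (1 + u t) • v ≠ 0 := by
          intro h0
          have := h.poly.indep hu hv hvu hvn (α := v ((2 : ℝ) • c u + t) - 1)
            (β := -(1 + u t)) (by
            ext x
            have h4 := LinearMap.congr_fun h0 x
            simp only [LinearMap.add_apply, LinearMap.sub_apply, LinearMap.smul_apply,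
              smul_eq_mul, LinearMap.zero_apply] at h4 ⊢
            linarith)
          have h3 : τ * u p = 0 := by rw [hux']; linarith [this.2]
          exact (mul_ne_zero hτ0 hup) h3
        apply hk hne
        simp only [LinearMap.sub_apply, LinearMap.smul_apply, smul_eq_mul]
        rw [← hv1', ← hux']; ring
      have hb := half_ball_poly h.poly hu c1 c2
      have := hcont.continuousAt.eventually hb
      filter_upwards [this] with τ' hτ'
      rcases hτ' with h3 | h3
      · exact ⟨t, ht, h3⟩
      · refine ⟨t + (2 : ℝ) • c u, T.add_mem ht (h.facet u hu), ?_⟩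
        rwa [← sub_sub]
  have h1 : (1 : ℝ) ∈ s := hmain ⟨zero_le_one, le_rfl⟩
  apply hpO
  have : (1 : ℝ) • p ∈ U := h1
  rwa [one_smul] at this

lemma PPack.isFD (h : PPack A Φ c T) : IsAddFundamentalDomain T (A) μ := by
  have hcl := h.poly.comp.isClosed
  refine ⟨hcl.measurableSet.nullMeasurableSet, Eventually.of_forall fun x => ?_, ?_⟩
  · obtain ⟨t, ht, hx⟩ := h.cover x
    refine ⟨⟨-t, T.neg_mem ht⟩, ?_⟩
    rw [AddSubgroup.vadd_def, vadd_eq_add]
    show -t + x ∈ _
    rwa [neg_add_eq_sub]
  · intro t t' htt'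
    show μ ((t +ᵥ A) ∩ (t' +ᵥ A)) = 0
    have hfr : ∀ t : T, μ (frontier (t +ᵥ A)) = 0 := fun t => by
      have hconv : Convex ℝ (t +ᵥ A) := by
        have : (t +ᵥ A) = ((t : V) +ᵥ A) := rfl
        rw [this]
        exact (h.poly.conv).vadd _
      exact hconv.addHaar_frontier μ
    have hsub : (t +ᵥ A) ∩ (t' +ᵥ A) ⊆
        frontier (t +ᵥ A) ∪ frontier (t' +ᵥ A) := by
      rintro x ⟨hx1, hx2⟩
      have hclt : ∀ t : T, IsClosed (t +ᵥ A) := fun t => by
        have : (t +ᵥ A) = ((t : V) +ᵥ A) := rfl
        rw [this]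
        exact ((h.poly.comp).vadd (t : V)).isClosed
      by_contra hnot
      rw [mem_union, not_or] at hnot
      have hint : ∀ t : T, x ∈ (t +ᵥ A) → x ∉ frontier (t +ᵥ A) →
          x - (t : V) ∈ interior (A) := by
        intro t h1 h2
        have h3 : x ∈ interior (t +ᵥ A) := by
          by_contra h4
          exact h2 ⟨subset_closure h1, h4⟩
        have h5 : (t +ᵥ A) = ((t : V) +ᵥ A) := rfl
        rw [h5, interior_vadd, mem_vadd_set_iff_neg_vadd_mem, vadd_eq_add, neg_add_eq_sub] at h3
        exact h3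
      have h1 := hint t hx1 hnot.1
      have h2 := hint t' hx2 hnot.2
      have h3 : (1 / 2 : ℝ) • ((t' : V) - t) ∈ interior (A) := by
        have hneg : -(x - (t' : V)) ∈ A := h.poly.neg_mem (interior_subset h2)
        have := (h.poly.conv).combo_interior_self_mem_interior h1 hneg
          (a := 1 / 2) (b := 1 / 2) (by norm_num) (by norm_num) (by norm_num)
        rw [← smul_add] at this
        have e : x - (t : V) + -(x - (t' : V)) = t' - t := by abel
        rwa [e] at this
      have h4 := h.hard _ (T.sub_mem t'.2 t.2) h3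
      exact htt' (Subtype.ext (sub_eq_zero.1 h4).symm)
    exact measure_mono_null hsub (measure_union_null (hfr t) (hfr t'))

lemma PPack.integral_zero (h : PPack A Φ c T) {ξ : Dual ℝ V} (hξ : ξ ≠ 0)
    (hT : ∀ t ∈ T, ∃ n : ℤ, ξ t = n) : ∫ x in A, ex ξ x ∂μ = 0 := by
  have := h.countable
  obtain ⟨w, hw⟩ : ∃ w, ξ w ≠ 0 := by
    by_contra hcon
    push Not at hcon
    exact hξ (LinearMap.ext hcon)
  set v := (1 / (2 * ξ w)) • w with hv
  have hξv : ξ v = 1 / 2 := by
    rw [hv, map_smul, smul_eq_mul]; field_simp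
  have hexv : ex ξ v = -1 := by
    unfold ex
    rw [hξv]
    have : (2 * Real.pi * Complex.I * ((1 / 2 : ℝ) : ℂ) : ℂ) = Real.pi * Complex.I := by
      push_cast; ring
    rw [this, Complex.exp_pi_mul_I]
  have hinv : ∀ (t : T) (x : V), ex ξ (t +ᵥ x) = ex ξ x := by
    intro t x
    rw [AddSubgroup.vadd_def, vadd_eq_add, ex_add_right]
    rw [(ex_eq_one_iff ξ t).2 (hT t t.2), one_mul]
  have hFD : IsAddFundamentalDomain T (A) μ := h.isFD
  have hFD2 : IsAddFundamentalDomain T (v +ᵥ A) μ := hFD.vadd_of_comm v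
  have h1 := hFD.setIntegral_eq hFD2 hinv
  have h2 : ∫ x in v +ᵥ A, ex ξ x ∂μ = ∫ x in A, ex ξ (v + x) ∂μ := by
    have hmp := measurePreserving_add_left μ v
    have := hmp.setIntegral_image_emb (measurableEmbedding_addLeft v) (ex ξ) (A)
    exact this
  rw [h2] at h1
  simp only [ex_add_right, hexv] at h1
  rw [integral_const_mul] at h1
  have h3 : (2 : ℂ) * ∫ x in A, ex ξ x ∂μ = 0 := by
    linear_combination h1
  rcases mul_eq_zero.1 h3 with h4 | h4
  · norm_num at h4
  · exact h4

end PLattice

end Pool.Agent.Lib_MP_5ddbb8_an
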