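import Mathlib
import Pool.Agent.Lib_MP_5ddbb8_an.PCore

/-!
From a finite system of inequalities to the facet data.
-/

set_option linter.unusedSectionVars false
set_option linter.unusedSimpArgs false
set_option linter.unusedVariables false

open scoped Pointwise Topology
open Module Set Filter MeasureTheory

namespace Pool.Agent.Lib_MP_5ddbb8_an

section PRep

variable {V : Type*} [NormedAddCommGroup V] [NormedSpace ℝ V] [FiniteDimensional ℝ V]

/-- removing redundant inequalities -/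
lemma exists_irredundant {A : Set V} {Φ₀ : Set (Dual ℝ V)} (hfin : Φ₀.Finite)
    (hA : ∀ x, x ∈ A ↔ ∀ u ∈ Φ₀, u x ≤ 1) :
    ∃ Φ ⊆ Φ₀, (∀ x, x ∈ A ↔ ∀ u ∈ Φ, u x ≤ 1) ∧
      ∀ u ∈ Φ, ∃ x, (∀ v ∈ Φ, v ≠ u → v x ≤ 1) ∧ 1 < u x := by
  have h1 : ({Φ : Set (Dual ℝ V) | Φ ⊆ Φ₀ ∧ ∀ x, x ∈ A ↔ ∀ u ∈ Φ, u x ≤ 1}).Finite :=
    hfin.finite_subsets.subset fun Φ hΦ => hΦ.1
  obtain ⟨Φ, hΦ⟩ := h1.exists_minimal ⟨Φ₀, Subset.rfl, hA⟩
  refine ⟨Φ, hΦ.prop.1, hΦ.prop.2, fun u hu => ?_⟩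
  by_contra hcon
  push Not at hcon
  have h2 : Φ \ {u} ∈ {Φ : Set (Dual ℝ V) | Φ ⊆ Φ₀ ∧ ∀ x, x ∈ A ↔ ∀ u ∈ Φ, u x ≤ 1} := by
    refine ⟨sdiff_subset.trans hΦ.prop.1, fun x => ?_⟩
    rw [hΦ.prop.2 x]
    constructor
    · intro h v hv
      exact h v hv.1
    · intro h v hv
      by_cases hvu : v = u
      · rw [hvu]
        exact hcon x fun w hw hwu => h w ⟨hw, hwu⟩
      · exact h v ⟨hv, hvu⟩
  have h3 := hΦ.le_of_le h2 sdiff_subset hu
  exact h3.2 rfl

/-- a relative interior point of the facet -/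
lemma exists_relint {Φ : Set (Dual ℝ V)} {u : Dual ℝ V} {x : V}
    (h1 : ∀ v ∈ Φ, v ≠ u → v x ≤ 1) (h2 : 1 < u x) :
    ∃ p : V, u p = 1 ∧ ∀ v ∈ Φ, v ≠ u → v p < 1 := by
  have h0 : 0 < u x := one_pos.trans h2
  refine ⟨(u x)⁻¹ • x, by rw [map_smul, smul_eq_mul, inv_mul_cancel₀ h0.ne'], fun v hv hvu => ?_⟩
  rw [map_smul, smul_eq_mul]
  have h3 := h1 v hv hvu
  have h4 : (u x)⁻¹ < 1 := inv_lt_one_of_one_lt₀ h2
  have h5 : 0 < (u x)⁻¹ := inv_pos.2 h0
  nlinarith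

lemma eventually_facet {A : Set V} {Φ : Set (Dual ℝ V)} (hfin : Φ.Finite)
    (hA : ∀ x, x ∈ A ↔ ∀ u ∈ Φ, u x ≤ 1) {u : Dual ℝ V} {p : V}
    (hp : ∀ v ∈ Φ, v ≠ u → v p < 1) : ∀ᶠ y in 𝓝 p, u y = 1 → y ∈ A := by
  have h1 : ∀ᶠ y in 𝓝 p, ∀ v ∈ Φ, v ≠ u → v y < 1 := by
    rw [Filter.eventually_all_finite hfin]
    intro v hv
    by_cases hvu : v = u
    · exact Eventually.of_forall fun x hh => absurd hvu hh
    · have hc : Continuous v := v.continuous_of_finiteDimensional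
      filter_upwards [hc.continuousAt.eventually (gt_mem_nhds (hp v hv hvu))] with y hy _
      exact hy
  filter_upwards [h1] with y hy huy
  rw [hA]
  intro v hv
  by_cases hvu : v = u
  · rw [hvu, huy]
  · exact (hy v hv hvu).le

/-- two functionals with the same value one and the same local hyperplane agree -/
lemma eq_of_hyperplane {u v : Dual ℝ V} {p : V} (hu : u p = 1) (hv : v p = 1)
    (h : ∀ᶠ y in 𝓝 p, u y = 1 → v y ≤ 1) : v = u := by
  have hker : ∀ d : V, u d = 0 → v d = 0 := by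
    intro d hd
    have hle : ∀ d : V, u d = 0 → v d ≤ 0 := by
      intro d hd
      have hcont : Continuous (fun ε : ℝ => p + ε • d) := by fun_prop
      have h0 : p + (0 : ℝ) • d = p := by simp
      have h' : ∀ᶠ y in 𝓝 ((fun ε : ℝ => p + ε • d) 0), u y = 1 → v y ≤ 1 := by
        show ∀ᶠ y in 𝓝 (p + (0 : ℝ) • d), _
        rw [h0]; exact h
      have h2 := hcont.continuousAt.eventually h'
      obtain ⟨ε, hε, hε0⟩ := ((h2.filter_mono (nhdsWithin_le_nhds (s := Set.Ioi 0))).and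
        self_mem_nhdsWithin).exists
      have h3 := hε (by rw [map_add, map_smul, hd, hu]; simp)
      rw [map_add, map_smul, hv, smul_eq_mul] at h3
      have h4 : (0 : ℝ) < ε := hε0
      by_contra hcon
      push Not at hcon
      have := mul_pos h4 hcon
      linarith
    refine le_antisymm (hle d hd) ?_
    have := hle (-d) (by rw [map_neg, hd, neg_zero])
    rw [map_neg] at this
    linarith
  ext x
  have h1 := hker (x - u x • p) (by rw [map_sub, map_smul, hu]; simp)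
  rw [map_sub, map_smul, hv, smul_eq_mul, mul_one] at h1
  linarith

lemma exists_poly {A : Set V} (hc : IsCompact A) (hsym : ∀ x ∈ A, -x ∈ A)
    {Φ₀ : Set (Dual ℝ V)} (hfin : Φ₀.Finite) (hA : ∀ x, x ∈ A ↔ ∀ u ∈ Φ₀, u x ≤ 1)
    {Pr : Dual ℝ V → V → Prop}
    (hfac : ∀ u : Dual ℝ V, (∀ x ∈ A, u x ≤ 1) →
      (∃ p ∈ A, u p = 1 ∧ ∀ᶠ y in 𝓝 p, u y = 1 → y ∈ A) →
      ∃ c : V, (∀ x ∈ A, u x = 1 → (2 : ℝ) • c - x ∈ A ∧ u ((2 : ℝ) • c - x) = 1) ∧ Pr u c) :
    ∃ (Φ : Set (Dual ℝ V)) (c : Dual ℝ V → V), Poly A Φ c ∧ ∀ u ∈ Φ, Pr u (c u) := by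
  classical
  obtain ⟨Φ, hΦ₀, hΦ, hirr⟩ := exists_irredundant hfin hA
  have hΦfin : Φ.Finite := hfin.subset hΦ₀
  have hrel : ∀ u ∈ Φ, ∃ p : V, u p = 1 ∧ ∀ v ∈ Φ, v ≠ u → v p < 1 := by
    intro u hu
    obtain ⟨x, h1, h2⟩ := hirr u hu
    exact exists_relint h1 h2
  have hle : ∀ u ∈ Φ, ∀ x ∈ A, u x ≤ 1 := fun u hu x hx => (hΦ x).1 hx u hu
  have hpA : ∀ u ∈ Φ, ∀ p : V, u p = 1 → (∀ v ∈ Φ, v ≠ u → v p < 1) → p ∈ A := by
    intro u hu p h1 h2
    rw [hΦ]
    intro v hv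
    by_cases hvu : v = u
    · rw [hvu, h1]
    · exact (h2 v hv hvu).le
  have hcen : ∀ u : Dual ℝ V, ∃ c : V, u ∈ Φ →
      ((∀ x ∈ A, u x = 1 → (2 : ℝ) • c - x ∈ A ∧ u ((2 : ℝ) • c - x) = 1) ∧ Pr u c) := by
    intro u
    by_cases hu : u ∈ Φ
    · obtain ⟨p, h1, h2⟩ := hrel u hu
      obtain ⟨c, hc⟩ := hfac u (hle u hu) ⟨p, hpA u hu p h1 h2, h1,
        eventually_facet hΦfin hΦ h2⟩
      exact ⟨c, fun _ => hc⟩
    · exact ⟨0, fun h => absurd h hu⟩
  choose c hc using hcen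
  refine ⟨Φ, c, ?_, fun u hu => (hc u hu).2⟩
  refine ⟨hΦfin, hΦ, ?_, by assumption, ?_, ?_, ?_⟩
  · -- negation
    intro u hu
    obtain ⟨p, h1, h2⟩ := hrel u hu
    have hp := hpA u hu p h1 h2
    have hex : ∃ v ∈ Φ, 1 ≤ v (-p) := by
      by_contra hcon
      push Not at hcon
      have hev : ∀ᶠ ε in 𝓝 (0 : ℝ), ∀ v ∈ Φ, v (-((1 + ε) • p)) < 1 := by
        rw [Filter.eventually_all_finite hΦfin]
        intro v hv
        have hcont : Continuous (fun ε : ℝ => v (-((1 + ε) • p))) :=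
          v.continuous_of_finiteDimensional.comp (by fun_prop)
        have h3 : v (-((1 + (0 : ℝ)) • p)) < 1 := by simpa using hcon v hv
        exact hcont.continuousAt.eventually (gt_mem_nhds h3)
      obtain ⟨ε, hε, hε0⟩ := ((hev.filter_mono (nhdsWithin_le_nhds (s := Set.Ioi 0))).and
        self_mem_nhdsWithin).exists
      have h3 : -((1 + ε) • p) ∈ A := (hΦ _).2 fun v hv => (hε v hv).le
      have h4 := hle u hu _ (hsym _ h3)
      rw [neg_neg, map_smul, h1, smul_eq_mul, mul_one] at h4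
      have : (0 : ℝ) < ε := hε0
      linarith
    obtain ⟨v, hv, hv1⟩ := hex
    have hv2 : v (-p) = 1 := le_antisymm (hle v hv _ (hsym _ hp)) hv1
    have h3 : v = -u := by
      refine eq_of_hyperplane (p := -p) ?_ hv2 ?_
      · rw [LinearMap.neg_apply, map_neg, neg_neg, h1]
      · have h4 := eventually_facet hΦfin hΦ h2
        have hcont : Continuous (fun y : V => -y) := continuous_neg
        have h5 : ∀ᶠ y in 𝓝 ((fun y : V => -y) (-p)), u y = 1 → y ∈ A := by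
          show ∀ᶠ y in 𝓝 (- -p), u y = 1 → y ∈ A
          rw [neg_neg]; exact h4
        filter_upwards [hcont.continuousAt.eventually h5] with y hy huy
        have h6 : -y ∈ A := hy (by
          rw [LinearMap.neg_apply] at huy
          rw [map_neg]; exact huy)
        have := hsym _ h6
        rw [neg_neg] at this
        exact hle v hv _ this
    rw [← h3]; exact hv
  · intro u hu
    obtain ⟨p, h1, h2⟩ := hrel u hu
    have h3 := ((hc u hu).1 p (hpA u hu p h1 h2) h1).2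
    rw [map_sub, map_smul, h1, smul_eq_mul] at h3
    linarith
  · intro u hu v hv hvu
    obtain ⟨p, h1, h2⟩ := hrel u hu
    have h3 := ((hc u hu).1 p (hpA u hu p h1 h2) h1).1
    have h4 := hle v hv _ h3
    rw [map_sub, map_smul, smul_eq_mul] at h4
    have := h2 v hv hvu
    linarith
  · intro u hu x hx hux
    exact ((hc u hu).1 x hx hux).1

/-- normalising the inequalities -/
lemma exists_normalised {A : Set V} (h0 : (0 : V) ∈ interior A) {k : ℕ} (f : Fin k → Dual ℝ V)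
    (β : Fin k → ℝ) (hA : ∀ x, x ∈ A ↔ ∀ i, f i x ≤ β i) :
    ∃ Φ₀ : Set (Dual ℝ V), Φ₀.Finite ∧ ∀ x, x ∈ A ↔ ∀ u ∈ Φ₀, u x ≤ 1 := by
  have hβ0 : ∀ i, 0 ≤ β i := fun i => by
    have := (hA 0).1 (interior_subset h0) i
    simpa using this
  have hβ : ∀ i, f i ≠ 0 → 0 < β i := by
    intro i hi
    obtain ⟨w, hw⟩ : ∃ w, 0 < f i w := by
      obtain ⟨w, hw⟩ : ∃ w, f i w ≠ 0 := by
        by_contra hcon
        push Not at hcon
        exact hi (LinearMap.ext hcon)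
      rcases lt_or_gt_of_ne hw with h1 | h1
      · exact ⟨-w, by rw [map_neg]; linarith⟩
      · exact ⟨w, h1⟩
    have hcont : Continuous (fun ε : ℝ => ε • w) := by fun_prop
    have hev : ∀ᶠ ε in 𝓝 (0 : ℝ), ε • w ∈ interior A := by
      refine hcont.continuousAt.eventually_mem (isOpen_interior.mem_nhds ?_)
      simpa using h0
    obtain ⟨ε, hε, hε0⟩ := ((hev.filter_mono (nhdsWithin_le_nhds (s := Set.Ioi 0))).and
      self_mem_nhdsWithin).exists
    have h1 := (hA _).1 (interior_subset hε) i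
    rw [map_smul, smul_eq_mul] at h1
    have h2 : (0 : ℝ) < ε := hε0
    have := mul_pos h2 hw
    linarith
  refine ⟨Set.range (fun i => (β i)⁻¹ • f i), Set.finite_range _, fun x => ?_⟩
  rw [hA]
  constructor
  · rintro h _ ⟨i, rfl⟩
    rw [LinearMap.smul_apply, smul_eq_mul]
    by_cases hi : f i = 0
    · rw [hi]; simp
    · rw [inv_mul_le_iff₀ (hβ i hi), mul_one]
      exact h i
  · intro h i
    by_cases hi : f i = 0
    · rw [hi]; simpa using hβ0 i
    · have := h _ ⟨i, rfl⟩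
      rw [LinearMap.smul_apply, smul_eq_mul, inv_mul_le_iff₀ (hβ i hi), mul_one] at this
      exact this

end PRep

end Pool.Agent.Lib_MP_5ddbb8_an
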