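import Mathlib
import Pool.Agent.Lib_MP_5ddbb8_an.Coord
import Pool.Agent.Lib_MP_5ddbb8_an.PRep
import Pool.Agent.Lib_MP_5ddbb8_an.Lock1
import Pool.Agent.Lib_MP_5ddbb8_an.Lock4

/-!
The hard direction in coordinates for polytopes whose rigid facet vectors generate all facet
vectors; faces of polytopes in original coordinates.
-/

set_option linter.unusedSectionVars false
set_option linter.unusedSimpArgs false
set_option linter.unusedVariables false

open scoped Pointwise Topology ENNReal ComplexConjugate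
open Module Set MeasureTheory Filter

namespace Pool.Agent.Lib_MP_5ddbb8_an

section LCoord

variable {V : Type*} [NormedAddCommGroup V] [NormedSpace ℝ V] [FiniteDimensional ℝ V]
  [MeasurableSpace V] [BorelSpace V]
variable {Y : Type*} [MeasurableSpace Y] {Q : Type*}
variable {μ : Measure V} [μ.IsAddHaarMeasure] {ν : Measure Y} [IsFiniteMeasure ν]
variable {A : Set V} {Φ : Set (Dual ℝ V)} {c : Dual ℝ V → V}

lemma TPS_SS {J : Type*} {E : J → V × Y → ℂ} {S : Set J} (hs : Setup μ ν A E S) :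
    TPS A (SS μ ν A E S) where
  toTP := TP_SS hs
  two := fun z _ h => two_step hs z h

theorem core_lock {w : Q → Y → ℂ} (hw : ∀ t, Measurable (w t)) (hw1 : ∀ t y, ‖w t y‖ = 1)
    (hν : ν ≠ 0) (hp : Poly A Φ c)
    (hgen : ∀ u ∈ Φ, (2 : ℝ) • c u ∈
      AddSubgroup.closure {t | ∃ v ∈ Φ, Poly.RigC A Φ c v ∧ t = (2 : ℝ) • c v})
    {S : Set (Dual ℝ V × Q)} (hS : IsOB ((μ.restrict A).prod ν) (Ef w) S) :
    (∃ Sp : Set (Dual ℝ V), IsOB (μ.restrict A) (fun s x => ex s x) Sp) ∧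
    (∃ Q' : Set Q, IsOB ν w Q') := by
  have hs : Setup μ ν A (Ef w) S := by
    refine ⟨hp.comp, hp.conv, fun x hx => hp.neg_mem hx,
      hp.zero_mem_interior, fam_Ef hw hw1, hν, ?_⟩
    unfold mz; rw [win_zero]; exact hS
  have hTP := TPS_SS hs
  refine core_per_poly hw hw1 hp hs fun u hu => isPer_of_mem_closure ?_ (hgen u hu)
  rintro _ ⟨v, hv, hvr, rfl⟩
  exact isPer_of_isolated hs fun s hsS hsi => hp.isolated' hTP hv hvr hsS hsi

end LCoord

/-- the hard direction in coordinates, centred case -/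
lemma isOB_of_prodSet_lock {n m : ℕ} {A : Set (Fin n → ℝ)} {Φ : Set (Dual ℝ (Fin n → ℝ))}
    {c : Dual ℝ (Fin n → ℝ) → Fin n → ℝ} (hp : Poly A Φ c)
    (hgen : ∀ u ∈ Φ, (2 : ℝ) • c u ∈
      AddSubgroup.closure {t | ∃ v ∈ Φ, Poly.RigC A Φ c v ∧ t = (2 : ℝ) • c v})
    {B : Set (Fin m → ℝ)} (hB0 : 0 < volume B) (hB : volume B < ⊤)
    (h : ∃ Λ, IsOB (volume.restrict (prodSet A B)) (chr (κ := Fin n ⊕ Fin m)) Λ) :
    (∃ Λ, IsOB (volume.restrict A) (chr (κ := Fin n)) Λ) ∧
    (∃ Λ, IsOB (volume.restrict B) (chr (κ := Fin m)) Λ) := by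
  obtain ⟨Λ, h⟩ := h
  rw [← map_psiE] at h
  have h1 := h.comap psiE
  have hBf : IsFiniteMeasure (volume.restrict B) := ⟨by rwa [Measure.restrict_apply_univ]⟩
  let e : (Fin n ⊕ Fin m → ℝ) → Dual ℝ (Fin n → ℝ) × (Fin m → ℝ) := fun c =>
    (dfun (fun i => c (Sum.inl i)), fun j => c (Sum.inr j))
  have h2 : IsOB ((volume.restrict A).prod (volume.restrict B)) (Ef (chr (κ := Fin m)))
      (e '' Λ) := by
    refine h1.reindex e fun c _ => ?_
    funext p
    rw [chr_psiE]
    simp only [Ef, e]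
    rw [← ex_dfun (fun i => c (Sum.inl i))]
  have hne : volume.restrict B ≠ 0 := by
    intro h0
    have : volume B = 0 := by
      rw [← Measure.restrict_apply_univ, h0]; simp
    exact hB0.ne' this
  obtain ⟨h3, h4⟩ := core_lock (μ := (volume : Measure (Fin n → ℝ)))
    (ν := (volume.restrict B : Measure (Fin m → ℝ))) (w := chr (κ := Fin m))
    measurable_chr norm_chr hne hp hgen h2
  exact ⟨isOB_chr_iff.2 h3, h4⟩

end Pool.Agent.Lib_MP_5ddbb8_an
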