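import Mathlib
import Pool.Agent.Lib_MP_5ddbb8_an.Coord
import Pool.Agent.Lib_MP_5ddbb8_an.PRep

/-!
The hard direction in coordinates for polytopes with rigid facets.
-/

set_option linter.unusedSectionVars false
set_option linter.unusedSimpArgs false
set_option linter.unusedVariables false

open scoped Pointwise Topology ENNReal ComplexConjugate
open Module Set MeasureTheory Filter

namespace Pool.Agent.Lib_MP_5ddbb8_an

section PCoord

variable {V : Type*} [NormedAddCommGroup V] [NormedSpace ℝ V] [FiniteDimensional ℝ V]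
  [MeasurableSpace V] [BorelSpace V]
variable {Y : Type*} [MeasurableSpace Y] {Q : Type*}
variable {μ : Measure V} [μ.IsAddHaarMeasure] {ν : Measure Y} [IsFiniteMeasure ν]
variable {A : Set V} {Φ : Set (Dual ℝ V)} {c : Dual ℝ V → V}

theorem core_poly {w : Q → Y → ℂ} (hw : ∀ t, Measurable (w t)) (hw1 : ∀ t y, ‖w t y‖ = 1)
    (hν : ν ≠ 0) (hp : Poly A Φ c) (hr : ∀ u ∈ Φ, Poly.Rig A c u) {S : Set (Dual ℝ V × Q)}
    (hS : IsOB ((μ.restrict A).prod ν) (Ef w) S) :
    (∃ Sp : Set (Dual ℝ V), IsOB (μ.restrict A) (fun s x => ex s x) Sp) ∧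
    (∃ Q' : Set Q, IsOB ν w Q') := by
  have hs : Setup μ ν A (Ef w) S := by
    refine ⟨hp.comp, hp.conv, fun x hx => hp.neg_mem hx,
      hp.zero_mem_interior, fam_Ef hw hw1, hν, ?_⟩
    unfold mz; rw [win_zero]; exact hS
  have hTP := TP_SS hs
  exact core_isolated_poly hw hw1 hp hs fun u hu s hsS hsi =>
    hp.isolated hTP hu (hr u hu) hsS hsi

end PCoord

/-- the hard direction in coordinates, centred case -/
lemma isOB_of_prodSet_poly {n m : ℕ} {A : Set (Fin n → ℝ)} {Φ : Set (Dual ℝ (Fin n → ℝ))}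
    {c : Dual ℝ (Fin n → ℝ) → Fin n → ℝ} (hp : Poly A Φ c) (hr : ∀ u ∈ Φ, Poly.Rig A c u)
    {B : Set (Fin m → ℝ)} (hB0 : 0 < volume B) (hB : volume B < ⊤)
    (h : ∃ Λ, IsOB (volume.restrict (prodSet A B)) (chr (κ := Fin n ⊕ Fin m)) Λ) :
    (∃ Λ, IsOB (volume.restrict A) (chr (κ := Fin n)) Λ) ∧
    (∃ Λ, IsOB (volume.restrict B) (chr (κ := Fin m)) Λ) := by
  obtain ⟨Λ, h⟩ := h
  rw [← map_psiE] at h
  have h1 := h.comap psiE
  have hBf : IsFiniteMeasure (volume.restrict B) := ⟨by rwa [Measure.restrict_apply_univ]⟩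
  let e : (Fin n ⊕ Fin m → ℝ) → Dual ℝ (Fin n → ℝ) × (Fin m → ℝ) := fun c =>
    (dfun (fun i => c (Sum.inl i)), fun j => c (Sum.inr j))
  have h2 : IsOB ((volume.restrict A).prod (volume.restrict B)) (Ef (chr (κ := Fin m)))
      (e '' Λ) := by
    refine h1.reindex e fun c _ => ?_
    funext p
    rw [chr_psiE]
    simp only [Ef, e]
    rw [← ex_dfun (fun i => c (Sum.inl i))]
  have hne : volume.restrict B ≠ 0 := by
    intro h0
    have : volume B = 0 := by
      rw [← Measure.restrict_apply_univ, h0]; simp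
    exact hB0.ne' this
  obtain ⟨h3, h4⟩ := core_poly (μ := (volume : Measure (Fin n → ℝ)))
    (ν := (volume.restrict B : Measure (Fin m → ℝ))) (w := chr (κ := Fin m))
    measurable_chr norm_chr hne hp hr h2
  exact ⟨isOB_chr_iff.2 h3, h4⟩

end Pool.Agent.Lib_MP_5ddbb8_an
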